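import Pool.Agent.Run7.h585.NF.Proj
import Pool.Agent.TH402.AK.Base

/-!
# Triples of coprime integers of a number field (helper585)
-/

set_option autoImplicit false
set_option linter.unusedSectionVars false

namespace Pool.Agent.Run7.h585.NF

open NumberField IsDedekindDomain Finset Filter Topology Pool.Agent.H691R3 Pool.Agent.W223.AK
open Pool.Agent.N906.RS
open Pool.Agent.TH402.AK (Tri pt coe_ne not_both)

variable {K : Type} [Field K] [NumberField K]

/-- the three integers -/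
def n3 (a b : 𝓞 K) : Fin 3 → 𝓞 K := ![a, b, a + b]

/-- the coordinates -/
noncomputable def x3 (a b : 𝓞 K) : Fin 3 → K := ![(a : K), (b : K), -((a + b : 𝓞 K) : K)]

theorem lin_x3 {a b : 𝓞 K} (h : Tri a b) : Lin (x3 a b) := by
  have ha := coe_ne h.a0
  have hb := coe_ne h.b0
  have hc := coe_ne h.c0
  constructor
  · show (a : K) + (b : K) + -((a + b : 𝓞 K) : K) = 0
    push_cast
    ring
  · show (a : K) * (b : K) * -((a + b : 𝓞 K) : K) ≠ 0
    exact mul_ne_zero (mul_ne_zero ha hb) (neg_ne_zero.2 hc)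

theorem x3_div (a b : 𝓞 K) : x3 a b 0 / x3 a b 1 = pt a b := rfl

theorem fv_x3 (a b : 𝓞 K) (l : Fin 3) (v : Pr K) :
    FinitePlace.mk v (x3 a b l) = fv v (n3 a b l : K) := by
  have h3 : ∀ l : Fin 3, l = 0 ∨ l = 1 ∨ l = 2 := by decide
  rcases h3 l with rfl | rfl | rfl
  · rfl
  · rfl
  · show fv v (-((a + b : 𝓞 K) : K)) = fv v ((a + b : 𝓞 K) : K)
    exact (fv v).map_neg _

theorem w_x3 (a b : 𝓞 K) (l : Fin 3) (w : InfinitePlace K) :
    w (x3 a b l) = w (n3 a b l : K) := by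
  have h3 : ∀ l : Fin 3, l = 0 ∨ l = 1 ∨ l = 2 := by decide
  rcases h3 l with rfl | rfl | rfl
  · rfl
  · rfl
  · show w (-((a + b : 𝓞 K) : K)) = w ((a + b : 𝓞 K) : K)
    exact w.1.map_neg _

theorem top_x3 {a b : 𝓞 K} (h : Tri a b) (v : Pr K) : top v (x3 a b) = 1 := by
  unfold top
  rw [fv_x3, fv_x3, fv_x3]
  have h1 := fv_int_le_one v (n3 a b 0)
  have h2 := fv_int_le_one v (n3 a b 1)
  have h3 := fv_int_le_one v (n3 a b 2)
  refine le_antisymm (max_le h1 (max_le h2 h3)) ?_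
  by_cases hb : b ∈ v.asIdeal
  · have ha : a ∉ v.asIdeal := fun ha => not_both h.cop v ha hb
    have e : fv v (n3 a b 0 : K) = 1 := fv_eq_one_of_notMem v ha
    rw [e]
    exact le_max_left _ _
  · have e : fv v (n3 a b 1 : K) = 1 := fv_eq_one_of_notMem v hb
    rw [e]
    exact (le_max_left _ _).trans (le_max_right _ _)

/-- the radical of an integer -/
noncomputable def radI (n : 𝓞 K) : ℝ :=
  ∑ᶠ (v : HeightOneSpectrum (𝓞 K)) (_ : n ∈ v.asIdeal), Real.log (Ideal.absNorm v.asIdeal : ℝ)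

/-- the radical of the squareful part of an integer -/
noncomputable def sqI (n : 𝓞 K) : ℝ :=
  ∑ᶠ (v : HeightOneSpectrum (𝓞 K)) (_ : n ∈ v.asIdeal ^ 2), Real.log (Ideal.absNorm v.asIdeal : ℝ)

/-- the number of the primes of norm at most `z` whose square divides an integer -/
noncomputable def cntI (z : ℝ) (n : 𝓞 K) : ℕ :=
  {v : HeightOneSpectrum (𝓞 K) | (Ideal.absNorm v.asIdeal : ℝ) ≤ z ∧ n ∈ v.asIdeal ^ 2}.ncard

/-- the height of a triple of integers -/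
noncomputable def hI (a b : 𝓞 K) : ℝ :=
  ∑ w : InfinitePlace K, (w.mult : ℝ) *
    Real.log (max (w (a : K)) (max (w (b : K)) (w ((a + b : 𝓞 K) : K))))

theorem sq_mem (v : Pr K) (n : 𝓞 K) :
    fv v (n : K) ≤ ((Ideal.absNorm v.asIdeal : ℝ) ^ 2)⁻¹ ↔ n ∈ v.asIdeal ^ 2 := by
  rw [← fv_le_pow_iff v n 2]
  have e : (Nv v) ^ (-((2 : ℕ) : ℤ)) = ((Ideal.absNorm v.asIdeal : ℝ) ^ 2)⁻¹ := by
    rw [zpow_neg, zpow_natCast]
    rfl
  rw [e]

open Classical in
theorem radI_eq {a b : 𝓞 K} (h : Tri a b) (l : Fin 3) :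
    rl (Pf (pt a b) l) = radI (n3 a b l) := by
  have h1 := (lin_x3 h).rl_eq l
  rw [x3_div] at h1
  rw [h1]
  unfold cd3 radI
  refine finsum_congr fun v => ?_
  rw [top_x3 h, fv_x3]
  by_cases hm : n3 a b l ∈ v.asIdeal
  · rw [if_pos ((Pool.Agent.H691R3.fv_lt_one_iff v).2 hm), finsum_eq_if, if_pos hm]
  · rw [if_neg (fun h => hm ((Pool.Agent.H691R3.fv_lt_one_iff v).1 h)), finsum_eq_if, if_neg hm]

open Classical in
theorem sqI_eq {a b : 𝓞 K} (h : Tri a b) (l : Fin 3) :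
    rl (Ef (pt a b) l) = sqI (n3 a b l) := by
  have h1 := (lin_x3 h).rl_eq2 l
  rw [x3_div] at h1
  rw [h1]
  unfold sqd3 sqI
  refine finsum_congr fun v => ?_
  rw [top_x3 h, fv_x3, one_mul]
  by_cases hm : n3 a b l ∈ v.asIdeal ^ 2
  · rw [if_pos ((sq_mem v _).2 hm), finsum_eq_if, if_pos hm]
  · rw [if_neg (fun h => hm ((sq_mem v _).1 h)), finsum_eq_if, if_neg hm]

theorem cntI_eq {a b : 𝓞 K} (h : Tri a b) (l : Fin 3) (z : ℝ) :
    cntT l z (Ef (pt a b)) = cntI z (n3 a b l) := by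
  have h1 := (lin_x3 h).cnt_eq l z
  rw [x3_div] at h1
  rw [h1]
  unfold sqn3 cntI
  congr 1
  ext v
  show (_ ∧ _) ↔ (_ ∧ _)
  rw [top_x3 h, fv_x3, one_mul, sq_mem]

theorem hI_eq {a b : 𝓞 K} (h : Tri a b) : H3 (x3 a b) = hI a b := by
  unfold H3 hI
  have e1 : ∀ v : HeightOneSpectrum (𝓞 K), Real.log (max (FinitePlace.mk v (x3 a b 0))
      (max (FinitePlace.mk v (x3 a b 1)) (FinitePlace.mk v (x3 a b 2)))) = 0 := by
    intro v
    have := top_x3 h v
    unfold top at this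
    rw [this, Real.log_one]
  rw [finsum_congr e1, finsum_zero, add_zero]
  refine Finset.sum_congr rfl fun w _ => ?_
  rw [w_x3, w_x3, w_x3]
  rfl

theorem tri_H {a b : 𝓞 K} (h : Tri a b) : ht (pt a b) ≤ hI a b ∧ hI a b ≤ ht (pt a b) + lossK K := by
  have h1 := (lin_x3 h).H3
  rw [x3_div, hI_eq h] at h1
  exact h1

/-- the typical triples of integers -/
structure TypI (κ ε X : ℝ) (a b : 𝓞 K) : Prop where
  height : (1 - ε) * X ≤ hI a b
  infinite : ∀ (w : InfinitePlace K) (l l' : Fin 3),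
    w (n3 a b l : K) ≤ 2 * Real.exp (ε * X) * w (n3 a b l' : K)
  radical : ∀ l, |radI (n3 a b l) - (1 - κ / 3) * X| ≤ ε * X
  multiple : ∀ l, sqI (n3 a b l) ≤ ε * X
  counts : ∀ l, ∀ z : ℝ, 2 ≤ z → |(cntI z (n3 a b l) : ℝ) - pr X z * s1 κ X| ≤ ε * s1 κ X

theorem typI_of {κ ε X : ℝ} {a b : 𝓞 K} (h : Tri a b) (ht : Typ κ ε X (pt a b)) :
    TypI κ ε X a b := by
  obtain ⟨h1, h2, h3, -, h5, h6⟩ := ht
  refine ⟨h1.trans (tri_H h).1, fun w l l' => ?_, fun l => ?_, fun l => ?_, fun l z hz => ?_⟩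
  · have h7 := (lin_x3 h).inf h2 w l l'
    rw [w_x3, w_x3] at h7
    exact h7
  · rw [← radI_eq h]
    exact h5 l
  · rw [← sqI_eq h]
    refine le_trans ?_ h3
    unfold Pool.Agent.N906.RS.tr
    exact Finset.single_le_sum (f := fun l => rl (Ef (pt a b) l)) (fun l _ => rl_nonneg _)
      (Finset.mem_univ l)
  · rw [← cntI_eq h]
    exact h6 l z hz

/-- the radical of the product -/
theorem radI_sum {a b : 𝓞 K} (h : Tri a b) :
    Pool.Agent.N906.RS.tr (Pf (pt a b)) = radI a + radI b + radI (a + b) := by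
  unfold Pool.Agent.N906.RS.tr
  rw [Fin.sum_univ_three, radI_eq h, radI_eq h, radI_eq h]
  rfl

theorem radI_prod {a b : 𝓞 K} (h : Tri a b) :
    Pool.Agent.N906.RS.tr (Pf (pt a b)) = radI (a * b * (a + b)) := by
  have h1 := (lin_x3 h).R3
  rw [x3_div] at h1
  rw [← h1]
  unfold R3 radI
  refine finsum_congr fun v => ?_
  refine finsum_congr_Prop ?_ fun _ => rfl
  have hp := v.isPrime
  have ht := top_x3 h v
  unfold top at ht
  rw [fv_x3, fv_x3, fv_x3] at ht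
  rw [fv_x3, fv_x3, fv_x3]
  have e0 := Pool.Agent.H691R3.fv_lt_one_iff v (s := n3 a b 0)
  have e1 := Pool.Agent.H691R3.fv_lt_one_iff v (s := n3 a b 1)
  have e2 := Pool.Agent.H691R3.fv_lt_one_iff v (s := n3 a b 2)
  have f0 := fv_int_le_one v (n3 a b 0)
  have f1 := fv_int_le_one v (n3 a b 1)
  have f2 := fv_int_le_one v (n3 a b 2)
  have g : a * b * (a + b) ∈ v.asIdeal ↔
      (n3 a b 0 ∈ v.asIdeal ∨ n3 a b 1 ∈ v.asIdeal) ∨ n3 a b 2 ∈ v.asIdeal := by
    rw [hp.mul_mem_iff_mem_or_mem, hp.mul_mem_iff_mem_or_mem]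
    rfl
  rw [eq_iff_iff, g, ← e0, ← e1, ← e2]
  simp only [Set.mem_empty_iff_false, not_false_eq_true, true_and]
  constructor
  · intro h2
    by_contra h3
    push Not at h3
    apply h2
    constructor
    · linarith [h3.1.1, h3.1.2]
    · linarith [h3.1.2, h3.2]
  · rintro h2 ⟨h3, h4⟩
    rw [h3, h4, max_self, max_self] at ht
    rw [h3, h4, ht] at h2
    simp at h2

open Classical in
/-- **The proportion of the atypical triples**, for families of triples parametrised by a map which is at most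
`m` to one. -/
theorem prop_int (K : Type) [Field K] [NumberField K] (κ C₀ C₁ ε m : ℝ) (hκ : 0 < κ) (hκ1 : κ < 1)
    (hC₀ : 0 ≤ C₀) (hC₁ : 0 ≤ C₁) (hε : 0 < ε) (hm : 1 ≤ m) :
    ∃ δ X₀ : ℝ, 0 < δ ∧ 3 ≤ X₀ ∧ ∀ X : ℝ, X₀ ≤ X → ∀ (α : Type) (S : Set α) (f : α → K),
      (∀ x, Pt x → ht x ≤ X - C₁ → Pool.Agent.N906.RS.tr (Pf x) ≤ (3 - κ) * ht x →
        ∃ p ∈ S, f p = x) →
      (∀ p ∈ S, Cand κ C₀ X (f p)) →
      (∀ F : Finset α, (F : Set α) ⊆ S → (F.card : ℝ) ≤ m * (F.image f).card) →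
      S.Finite ∧ ∀ B : Set α, B ⊆ S → (∀ p ∈ B, ¬ Typ κ ε X (f p)) →
        (B.ncard : ℝ) ≤ Real.exp (-(δ * s1 κ X)) * S.ncard := by
  obtain ⟨δ, X₁, hδ, hX₁, h⟩ := prop_typ K κ C₀ C₁ ε hκ hκ1 hC₀ hC₁ hε
  obtain ⟨X₂, hX₂⟩ := eventually_atTop.1 (s1_large κ (2 * Real.log m / δ) hκ)
  refine ⟨δ / 2, max X₁ X₂, by positivity, hX₁.trans (le_max_left _ _),
    fun X hX α S f h1 h2 h3 => ?_⟩
  have hm0 : 0 < m := by linarith
  obtain ⟨hfin, hB⟩ := h X ((le_max_left _ _).trans hX) (f '' S) (by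
    intro x g1 g2 g3
    obtain ⟨p, hp, e⟩ := h1 x g1 g2 g3
    exact ⟨p, hp, e⟩) (by
    rintro _ ⟨p, hp, rfl⟩
    exact h2 p hp)
  have hS : S.Finite := (fin_of_bound S (m * (f '' S).ncard) (fun G hG => by
    refine (h3 G hG).trans ?_
    apply mul_le_mul_of_nonneg_left _ hm0.le
    have : ((G.image f : Finset K) : Set K) ⊆ f '' S := by
      rw [Finset.coe_image]
      exact Set.image_mono hG
    have h4 := Set.ncard_le_ncard this hfin
    rw [Set.ncard_coe_finset] at h4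
    exact_mod_cast h4)).1
  refine ⟨hS, fun B hBS hBt => ?_⟩
  have hBf : B.Finite := hS.subset hBS
  have h4 := hB (f '' B) (Set.image_mono hBS) (by
    rintro _ ⟨p, hp, rfl⟩
    exact hBt p hp)
  have h5 : ((f '' S).ncard : ℝ) ≤ S.ncard := by
    exact_mod_cast Set.ncard_image_le hS
  have h6 : (B.ncard : ℝ) ≤ m * (f '' B).ncard := by
    have h7 := h3 hBf.toFinset (by rw [Set.Finite.coe_toFinset]; exact hBS)
    rw [← Set.ncard_coe_finset, ← Set.ncard_coe_finset (hBf.toFinset.image f), Finset.coe_image,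
      Set.Finite.coe_toFinset] at h7
    exact h7
  have h8 := hX₂ X ((le_max_right _ _).trans hX)
  rw [div_le_iff₀ hδ] at h8
  calc (B.ncard : ℝ) ≤ m * (f '' B).ncard := h6
    _ ≤ m * (Real.exp (-(δ * s1 κ X)) * (f '' S).ncard) := mul_le_mul_of_nonneg_left h4 hm0.le
    _ ≤ m * (Real.exp (-(δ * s1 κ X)) * S.ncard) := by
        apply mul_le_mul_of_nonneg_left _ hm0.le
        exact mul_le_mul_of_nonneg_left h5 (Real.exp_pos _).le
    _ = Real.exp (Real.log m - δ * s1 κ X) * S.ncard := by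
        rw [sub_eq_add_neg, Real.exp_add, Real.exp_log hm0]
        ring
    _ ≤ _ := by
        apply mul_le_mul_of_nonneg_right _ (Nat.cast_nonneg _)
        apply Real.exp_le_exp.2
        linarith

end Pool.Agent.Run7.h585.NF
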