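import Pool.Agent.Run7.h585.NF.PowC
import Pool.Agent.Run7.h585.NF.Int
import Pool.Agent.R931.IR.RatPlace

/-!
# The points over `ℚ` and the triples of natural numbers (helper585)
-/

set_option autoImplicit false
set_option linter.unusedSectionVars false

namespace Pool.Agent.Run7.h585.NF.RatB

open NumberField IsDedekindDomain Finset Filter Topology Pool.Agent.H691R3 Pool.Agent.W223.AK
open Pool.Agent.N906.RS
open Pool.Agent.Run7.h585.NF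
open Pool.Agent.TH402.AK (Tri pt)
open Pool.Agent.R931.IR (exists_prime exists_above absNorm_eq above_iff asIdeal_eq)

/-- the prime below a place -/
noncomputable def pp (v : Pr ℚ) : ℕ := Ideal.absNorm v.asIdeal

theorem pp_spec (v : Pr ℚ) : (pp v).Prime ∧ ((pp v : ℕ) : 𝓞 ℚ) ∈ v.asIdeal := by
  obtain ⟨p, hp, hv⟩ := exists_prime v
  have := absNorm_eq hp hv
  unfold pp
  rw [this]
  exact ⟨hp, hv⟩

theorem pp_inj : Function.Injective pp := by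
  intro v w h
  obtain ⟨h1, h2⟩ := pp_spec v
  obtain ⟨h3, h4⟩ := pp_spec w
  rw [← h] at h4
  exact ((above_iff h1 h2 w).1 h4).symm

theorem pp_surj {p : ℕ} (hp : p.Prime) : ∃ v, pp v = p := by
  obtain ⟨v, hv⟩ := exists_above hp
  exact ⟨v, absNorm_eq hp hv⟩

theorem Nv_pp (v : Pr ℚ) : Nv v = (pp v : ℝ) := rfl

theorem mem_iff (v : Pr ℚ) (n k : ℕ) : ((n : ℕ) : 𝓞 ℚ) ∈ v.asIdeal ^ k ↔ pp v ^ k ∣ n := by
  rw [asIdeal_eq (pp_spec v).1 (pp_spec v).2, Ideal.span_singleton_pow, Ideal.mem_span_singleton,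
    ← Nat.cast_pow]
  constructor
  · intro h
    have h1 := map_dvd Rat.ringOfIntegersEquiv h
    rw [map_natCast, map_natCast] at h1
    exact_mod_cast h1
  · intro h
    exact Nat.cast_dvd_cast h

theorem mem_iff1 (v : Pr ℚ) (n : ℕ) : ((n : ℕ) : 𝓞 ℚ) ∈ v.asIdeal ↔ pp v ∣ n := by
  have h := mem_iff v n 1
  rwa [pow_one, pow_one] at h

theorem fv_nat (v : Pr ℚ) {n : ℕ} (hn : n ≠ 0) :
    fv v (((n : 𝓞 ℚ) : ℚ)) = (Nv v) ^ (-((n.factorization (pp v) : ℕ) : ℤ)) := by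
  have hn0 : (n : 𝓞 ℚ) ≠ 0 := Nat.cast_ne_zero.2 hn
  have h1 := fv_int_count v hn0
  obtain ⟨c, hc⟩ : ∃ c : ℕ, c = (Associates.mk v.asIdeal).count
      (Associates.mk (Ideal.span {(n : 𝓞 ℚ)} : Ideal (𝓞 ℚ))).factors := ⟨_, rfl⟩
  rw [← hc] at h1
  have h2 : ∀ k : ℕ, k ≤ c ↔ k ≤ n.factorization (pp v) := by
    intro k
    rw [← (pp_spec v).1.pow_dvd_iff_le_factorization hn, ← mem_iff, ← fv_le_pow_iff, h1,
      zpow_le_zpow_iff_right₀ (Nv1 v)]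
    omega
  have h3 : c = n.factorization (pp v) :=
    le_antisymm ((h2 c).1 le_rfl) ((h2 _).2 le_rfl)
  rw [h1, h3]

/-- the radical -/
def rad (n : ℕ) : ℕ := ∏ p ∈ n.primeFactors, p

theorem rad_pos (n : ℕ) : 0 < rad n := Finset.prod_pos fun p hp => (Nat.prime_of_mem_primeFactors hp).pos

theorem radI_nat {n : ℕ} (hn : n ≠ 0) : radI ((n : ℕ) : 𝓞 ℚ) = Real.log (rad n) := by
  classical
  have h1 : radI ((n : ℕ) : 𝓞 ℚ) = ∑ᶠ (v : HeightOneSpectrum (𝓞 ℚ))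
      (_ : v ∈ {v : HeightOneSpectrum (𝓞 ℚ) | pp v ∣ n}), Real.log (pp v : ℝ) := by
    unfold radI
    refine finsum_congr fun v => ?_
    refine finsum_congr_Prop ?_ fun _ => rfl
    rw [mem_iff1]
    rfl
  rw [h1, finsum_mem_eq_of_bijOn (t := (n.primeFactors : Set ℕ)) (g := fun p : ℕ => Real.log (p : ℝ)) pp,
    finsum_mem_coe_finset]
  · unfold rad
    rw [Nat.cast_prod, Real.log_prod]
    intro p hp
    exact_mod_cast (Nat.prime_of_mem_primeFactors hp).ne_zero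
  · refine ⟨fun v hv => ?_, pp_inj.injOn, fun p hp => ?_⟩
    · rw [Finset.mem_coe, Nat.mem_primeFactors]
      exact ⟨(pp_spec v).1, hv, hn⟩
    · rw [Finset.mem_coe, Nat.mem_primeFactors] at hp
      obtain ⟨v, rfl⟩ := pp_surj hp.1
      exact ⟨v, hp.2.1, rfl⟩
  · intro v _
    rfl

theorem hI_nat {a b : ℕ} (ha : 0 < a) (hb : 0 < b) :
    hI ((a : ℕ) : 𝓞 ℚ) ((b : ℕ) : 𝓞 ℚ) = Real.log ((a + b : ℕ) : ℝ) := by
  have hsum : ∑ w : InfinitePlace ℚ, (w.mult : ℝ) = 1 := by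
    have := InfinitePlace.sum_mult_eq (K := ℚ)
    rw [Module.finrank_self] at this
    exact_mod_cast this
  unfold hI
  have h1 : ∀ w : InfinitePlace ℚ, (w.mult : ℝ) * Real.log (max (w (((a : ℕ) : 𝓞 ℚ) : ℚ))
      (max (w (((b : ℕ) : 𝓞 ℚ) : ℚ)) (w (((a : 𝓞 ℚ) + (b : 𝓞 ℚ) : 𝓞 ℚ) : ℚ)))) =
      w.mult * Real.log ((a + b : ℕ) : ℝ) := by
    intro w
    congr 2
    have e1 : (((a : ℕ) : 𝓞 ℚ) : ℚ) = ((a : ℕ) : ℚ) := map_natCast (algebraMap (𝓞 ℚ) ℚ) a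
    have e2 : (((b : ℕ) : 𝓞 ℚ) : ℚ) = ((b : ℕ) : ℚ) := map_natCast (algebraMap (𝓞 ℚ) ℚ) b
    have e3 : (((a : 𝓞 ℚ) + (b : 𝓞 ℚ) : 𝓞 ℚ) : ℚ) = ((a + b : ℕ) : ℚ) := by
      rw [← Nat.cast_add]
      exact map_natCast (algebraMap (𝓞 ℚ) ℚ) (a + b)
    rw [e1, e2, e3, InfinitePlace.map_natCast, InfinitePlace.map_natCast,
      InfinitePlace.map_natCast]
    have h2 : (a : ℝ) ≤ ((a + b : ℕ) : ℝ) := by exact_mod_cast Nat.le_add_right a b
    have h3 : (b : ℝ) ≤ ((a + b : ℕ) : ℝ) := by exact_mod_cast Nat.le_add_left b a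
    rw [max_eq_right h3, max_eq_right h2]
  rw [Finset.sum_congr rfl fun w _ => h1 w, ← Finset.sum_mul, hsum, one_mul]

theorem tri_nat {a b : ℕ} (ha : 0 < a) (hb : 0 < b) (hab : Nat.Coprime a b) :
    Tri ((a : ℕ) : 𝓞 ℚ) ((b : ℕ) : 𝓞 ℚ) := by
  refine ⟨Nat.cast_ne_zero.2 ha.ne', Nat.cast_ne_zero.2 hb.ne', ?_, Nat.Coprime.cast hab⟩
  rw [← Nat.cast_add]
  exact Nat.cast_ne_zero.2 (by omega)

/-- the three numbers -/
def m3 (a b : ℕ) : Fin 3 → ℕ := ![a, b, a + b]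

theorem n3_nat (a b : ℕ) (l : Fin 3) : n3 ((a : ℕ) : 𝓞 ℚ) ((b : ℕ) : 𝓞 ℚ) l = ((m3 a b l : ℕ) : 𝓞 ℚ) := by
  have h3 : ∀ l : Fin 3, l = 0 ∨ l = 1 ∨ l = 2 := by decide
  rcases h3 l with rfl | rfl | rfl
  · rfl
  · rfl
  · exact (Nat.cast_add a b).symm

theorem m3_ne {a b : ℕ} (ha : 0 < a) (hb : 0 < b) (l : Fin 3) : m3 a b l ≠ 0 := by
  have h3 : ∀ l : Fin 3, l = 0 ∨ l = 1 ∨ l = 2 := by decide
  rcases h3 l with rfl | rfl | rfl
  · exact ha.ne'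
  · exact hb.ne'
  · show a + b ≠ 0
    omega

/-- the primes up to `z` whose square divides `n`, with a power of size at least `τ` -/
noncomputable def exc (z τ : ℝ) (n : ℕ) : ℕ :=
  {p : ℕ | p.Prime ∧ (p : ℝ) ≤ z ∧ p ^ 2 ∣ n ∧ τ ≤ ((n.factorization p : ℝ) - 1) * Real.log p}.ncard

open Pool.Agent.N776.RS (shr shr_apply) in
theorem cntE_nat {a b : ℕ} (ha : 0 < a) (hb : 0 < b) (hab : Nat.Coprime a b) (l : Fin 3) (z : ℝ)
    {τ : ℝ} (hτ : 0 ≤ τ) :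
    cntE l z τ (Ef (pt ((a : ℕ) : 𝓞 ℚ) ((b : ℕ) : 𝓞 ℚ))) = exc z τ (m3 a b l) := by
  classical
  have hT := tri_nat ha hb hab
  have hL := lin_x3 hT
  have hm := m3_ne ha hb l
  have hP : ∀ v : Pr ℚ, Pf (pt ((a : ℕ) : 𝓞 ℚ) ((b : ℕ) : 𝓞 ℚ)) l v =
      (m3 a b l).factorization (pp v) := by
    intro v
    have h1 := hL.val l v
    rw [x3_div, top_x3 hT, one_mul, fv_x3, n3_nat, fv_nat v hm] at h1
    have h2 := Nv_zpow_inj v h1
    omega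
  unfold cntE exc
  rw [← Set.ncard_coe_finset]
  refine Set.ncard_congr (fun v _ => pp v) ?_ (fun v w _ _ h => pp_inj h) ?_
  · intro v hv
    rw [Finset.mem_coe, Finset.mem_filter, Finsupp.mem_support_iff] at hv
    obtain ⟨g1, g2, g3⟩ := hv
    have e : Ef (pt ((a : ℕ) : 𝓞 ℚ) ((b : ℕ) : 𝓞 ℚ)) l v =
      (m3 a b l).factorization (pp v) - 1 := by
      rw [← hP v]
      exact shr_apply _ _
    rw [e] at g1 g3
    have g4 : 2 ≤ (m3 a b l).factorization (pp v) := by omega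
    refine ⟨(pp_spec v).1, g2, ((pp_spec v).1.pow_dvd_iff_le_factorization hm).2 g4, ?_⟩
    rw [Nat.cast_sub (by omega), Nat.cast_one] at g3
    exact g3
  · rintro p ⟨g1, g2, g3, g4⟩
    obtain ⟨v, rfl⟩ := pp_surj g1
    refine ⟨v, ?_, rfl⟩
    have g5 := (g1.pow_dvd_iff_le_factorization hm).1 g3
    have e : Ef (pt ((a : ℕ) : 𝓞 ℚ) ((b : ℕ) : 𝓞 ℚ)) l v =
      (m3 a b l).factorization (pp v) - 1 := by
      rw [← hP v]
      exact shr_apply _ _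
    rw [Finset.mem_coe, Finset.mem_filter, Finsupp.mem_support_iff, e]
    refine ⟨by omega, g2, ?_⟩
    rw [Nat.cast_sub (by omega), Nat.cast_one]
    exact g4

/-! ### The other points -/

/-- the three points -/
noncomputable def u3 (a b : ℕ) (i : Fin 3) : Fin 3 → ℚ :=
  ![![(a : ℚ), (b : ℚ), -((a + b : ℕ) : ℚ)], ![(a : ℚ), -((a + b : ℕ) : ℚ), (b : ℚ)],
    ![-((a + b : ℕ) : ℚ), (a : ℚ), (b : ℚ)]] i

theorem u3_zero (a b : ℕ) : u3 a b 0 = x3 ((a : ℕ) : 𝓞 ℚ) ((b : ℕ) : 𝓞 ℚ) := by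
  have e1 : (((a : ℕ) : 𝓞 ℚ) : ℚ) = ((a : ℕ) : ℚ) := map_natCast (algebraMap (𝓞 ℚ) ℚ) a
  have e2 : (((b : ℕ) : 𝓞 ℚ) : ℚ) = ((b : ℕ) : ℚ) := map_natCast (algebraMap (𝓞 ℚ) ℚ) b
  have e3 : (((a : 𝓞 ℚ) + (b : 𝓞 ℚ) : 𝓞 ℚ) : ℚ) = ((a + b : ℕ) : ℚ) := by
    rw [← Nat.cast_add]
    exact map_natCast (algebraMap (𝓞 ℚ) ℚ) (a + b)
  unfold x3
  rw [e1, e2, e3]
  rfl

theorem u3_lin {a b : ℕ} (ha : 0 < a) (hb : 0 < b) (i : Fin 3) : Lin (u3 a b i) := by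
  have ha' : (a : ℚ) ≠ 0 := by exact_mod_cast ha.ne'
  have hb' : (b : ℚ) ≠ 0 := by exact_mod_cast hb.ne'
  have hc' : ((a + b : ℕ) : ℚ) ≠ 0 := by
    have : a + b ≠ 0 := by omega
    exact_mod_cast this
  have h3 : ∀ l : Fin 3, l = 0 ∨ l = 1 ∨ l = 2 := by decide
  rcases h3 i with rfl | rfl | rfl
  · constructor
    · show (a : ℚ) + (b : ℚ) + -((a + b : ℕ) : ℚ) = 0
      push_cast
      ring
    · show (a : ℚ) * (b : ℚ) * -((a + b : ℕ) : ℚ) ≠ 0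
      exact mul_ne_zero (mul_ne_zero ha' hb') (neg_ne_zero.2 hc')
  · constructor
    · show (a : ℚ) + -((a + b : ℕ) : ℚ) + (b : ℚ) = 0
      push_cast
      ring
    · show (a : ℚ) * -((a + b : ℕ) : ℚ) * (b : ℚ) ≠ 0
      exact mul_ne_zero (mul_ne_zero ha' (neg_ne_zero.2 hc')) hb'
  · constructor
    · show -((a + b : ℕ) : ℚ) + (a : ℚ) + (b : ℚ) = 0
      push_cast
      ring
    · show -((a + b : ℕ) : ℚ) * (a : ℚ) * (b : ℚ) ≠ 0
      exact mul_ne_zero (mul_ne_zero (neg_ne_zero.2 hc') ha') hb'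

theorem H3_swap (p q r : ℚ) : H3 ![p, r, q] = H3 ![p, q, r] := by
  unfold H3
  congr 1
  · refine Finset.sum_congr rfl fun w _ => ?_
    show _ * Real.log (max (w p) (max (w r) (w q))) = _ * Real.log (max (w p) (max (w q) (w r)))
    rw [max_comm (w r)]
  · refine finsum_congr fun v => ?_
    show Real.log (max (FinitePlace.mk v p) (max (FinitePlace.mk v r) (FinitePlace.mk v q))) =
      Real.log (max (FinitePlace.mk v p) (max (FinitePlace.mk v q) (FinitePlace.mk v r)))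
    rw [max_comm (FinitePlace.mk v r)]

theorem H3_swap' (p q r : ℚ) : H3 ![q, p, r] = H3 ![p, q, r] := by
  unfold H3
  congr 1
  · refine Finset.sum_congr rfl fun w _ => ?_
    show _ * Real.log (max (w q) (max (w p) (w r))) = _ * Real.log (max (w p) (max (w q) (w r)))
    rw [max_left_comm]
  · refine finsum_congr fun v => ?_
    show Real.log (max (FinitePlace.mk v q) (max (FinitePlace.mk v p) (FinitePlace.mk v r))) =
      Real.log (max (FinitePlace.mk v p) (max (FinitePlace.mk v q) (FinitePlace.mk v r)))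
    rw [max_left_comm]

theorem R3_swap (p q r : ℚ) : R3 ∅ ![p, r, q] = R3 ∅ ![p, q, r] := by
  unfold R3
  refine finsum_congr fun v => ?_
  refine finsum_congr_Prop ?_ fun _ => rfl
  rw [eq_iff_iff]
  show (_ ∧ ¬ (FinitePlace.mk v p = FinitePlace.mk v r ∧ FinitePlace.mk v r = FinitePlace.mk v q)) ↔
    (_ ∧ ¬ (FinitePlace.mk v p = FinitePlace.mk v q ∧ FinitePlace.mk v q = FinitePlace.mk v r))
  constructor
  · rintro ⟨h1, h2⟩
    exact ⟨h1, fun h => h2 ⟨h.1.trans h.2, h.2.symm⟩⟩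
  · rintro ⟨h1, h2⟩
    exact ⟨h1, fun h => h2 ⟨h.1.trans h.2, h.2.symm⟩⟩

theorem R3_swap' (p q r : ℚ) : R3 ∅ ![q, p, r] = R3 ∅ ![p, q, r] := by
  unfold R3
  refine finsum_congr fun v => ?_
  refine finsum_congr_Prop ?_ fun _ => rfl
  rw [eq_iff_iff]
  show (_ ∧ ¬ (FinitePlace.mk v q = FinitePlace.mk v p ∧ FinitePlace.mk v p = FinitePlace.mk v r)) ↔
    (_ ∧ ¬ (FinitePlace.mk v p = FinitePlace.mk v q ∧ FinitePlace.mk v q = FinitePlace.mk v r))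
  constructor
  · rintro ⟨h1, h2⟩
    exact ⟨h1, fun h => h2 ⟨h.1.symm, h.1.trans h.2⟩⟩
  · rintro ⟨h1, h2⟩
    exact ⟨h1, fun h => h2 ⟨h.1.symm, h.1.trans h.2⟩⟩

theorem H3_u3 (a b : ℕ) (i : Fin 3) : H3 (u3 a b i) = H3 (u3 a b 0) := by
  have h3 : ∀ l : Fin 3, l = 0 ∨ l = 1 ∨ l = 2 := by decide
  rcases h3 i with rfl | rfl | rfl
  · rfl
  · exact H3_swap _ _ _
  · exact (H3_swap' _ _ _).trans (H3_swap _ _ _)

theorem R3_u3 (a b : ℕ) (i : Fin 3) : R3 ∅ (u3 a b i) = R3 ∅ (u3 a b 0) := by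
  have h3 : ∀ l : Fin 3, l = 0 ∨ l = 1 ∨ l = 2 := by decide
  rcases h3 i with rfl | rfl | rfl
  · rfl
  · exact R3_swap _ _ _
  · exact (R3_swap' _ _ _).trans (R3_swap _ _ _)

theorem pt_spec {a b : ℕ} (ha : 0 < a) (hb : 0 < b) (hab : Nat.Coprime a b) (i : Fin 3) :
    Pt (u3 a b i 0 / u3 a b i 1) ∧
    ht (u3 a b i 0 / u3 a b i 1) ≤ Real.log ((a + b : ℕ) : ℝ) ∧
    Real.log ((a + b : ℕ) : ℝ) ≤ ht (u3 a b i 0 / u3 a b i 1) + lossK ℚ ∧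
    Pool.Agent.N906.RS.tr (Pf (u3 a b i 0 / u3 a b i 1)) =
      Real.log (rad (a * b * (a + b))) := by
  have hl := u3_lin ha hb i
  have hT := tri_nat ha hb hab
  have h1 : H3 (u3 a b i) = Real.log ((a + b : ℕ) : ℝ) := by
    rw [H3_u3, u3_zero, hI_eq hT, hI_nat ha hb]
  have h2 : R3 ∅ (u3 a b i) = Real.log (rad (a * b * (a + b))) := by
    rw [R3_u3, u3_zero, (lin_x3 hT).R3, x3_div, radI_prod hT, ← radI_nat (Nat.mul_ne_zero
      (Nat.mul_ne_zero ha.ne' hb.ne') (by omega))]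
    push_cast
    rfl
  have h3 := hl.H3
  rw [h1] at h3
  exact ⟨hl.pt, h3.1, h3.2, by rw [← hl.R3, h2]⟩

theorem u3_pt (a b : ℕ) : u3 a b 0 0 / u3 a b 0 1 = pt ((a : ℕ) : 𝓞 ℚ) ((b : ℕ) : 𝓞 ℚ) := by
  rw [u3_zero]
  rfl

theorem pos_exists {y : ℚ} (hy : 0 < y) : ∃ a b : ℕ, 0 < a ∧ 0 < b ∧ Nat.Coprime a b ∧
    y = (a : ℚ) / b := by
  have hn := Rat.num_pos.2 hy
  refine ⟨y.num.natAbs, y.den, Int.natAbs_pos.2 hn.ne', y.den_pos, y.reduced, ?_⟩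
  have h1 : ((y.num.natAbs : ℕ) : ℚ) = (y.num : ℚ) := by
    rw [Nat.cast_natAbs, abs_of_pos hn]
  rw [h1, Rat.num_div_den]

/-- all points -/
theorem pt_exists {x : ℚ} (hx : Pt x) : ∃ a b : ℕ, 0 < a ∧ 0 < b ∧ Nat.Coprime a b ∧
    ∃ i, u3 a b i 0 / u3 a b i 1 = x := by
  have h0 : x ≠ 0 := hx.1
  have h1 : x + 1 ≠ 0 := hx.2
  rcases lt_or_gt_of_ne h0 with h | h
  · rcases lt_or_gt_of_ne h1 with h' | h'
    · -- `x < -1`
      obtain ⟨a, b, ha, hb, hab, hy⟩ := pos_exists (y := -1 / (1 + x)) (by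
        apply div_pos_of_neg_of_neg <;> linarith)
      refine ⟨a, b, ha, hb, hab, 2, ?_⟩
      show -((a + b : ℕ) : ℚ) / (a : ℚ) = x
      have ha' : (a : ℚ) ≠ 0 := by exact_mod_cast ha.ne'
      have hb' : (b : ℚ) ≠ 0 := by exact_mod_cast hb.ne'
      have hx' : 1 + x ≠ 0 := by intro h; apply h1; linarith
      rw [div_eq_div_iff hx' hb'] at hy
      rw [div_eq_iff ha']
      push_cast
      linarith
    · obtain ⟨a, b, ha, hb, hab, hy⟩ := pos_exists (y := -x / (1 + x)) (by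
        apply div_pos <;> linarith)
      refine ⟨a, b, ha, hb, hab, 1, ?_⟩
      show (a : ℚ) / -((a + b : ℕ) : ℚ) = x
      have ha' : (0 : ℚ) < a := by exact_mod_cast ha
      have hb' : (0 : ℚ) < b := by exact_mod_cast hb
      have hx' : 1 + x ≠ 0 := by intro h; apply h1; linarith
      rw [div_eq_div_iff hx' hb'.ne'] at hy
      have hc : -((a + b : ℕ) : ℚ) ≠ 0 := by
        push_cast
        intro h
        linarith
      rw [div_eq_iff hc]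
      push_cast
      linarith
  · obtain ⟨a, b, ha, hb, hab, hy⟩ := pos_exists h
    exact ⟨a, b, ha, hb, hab, 0, hy.symm⟩

/-- the law for a triple -/
def LawN (κ ε X : ℝ) (a b : ℕ) : Prop :=
  ∀ l, ∀ z τ : ℝ, 2 ≤ z → 0 ≤ τ →
    |(exc z τ (m3 a b l) : ℝ) - pr X z * Real.exp (-(τ / lam κ X)) * s1 κ X| ≤ ε * s1 κ X

/-- **The proportion of the triples with a rare property.** -/
theorem prop_nat (κ C₀ ε : ℝ) (hκ : 0 < κ) (hκ1 : κ < 1) (hC₀ : 0 ≤ C₀) (hε : 0 < ε) :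
    ∃ δ X₀ : ℝ, 0 < δ ∧ 3 ≤ X₀ ∧ ∀ X : ℝ, X₀ ≤ X → ∀ S : Set (ℕ × ℕ),
      (∀ a b : ℕ, 0 < a → 0 < b → Nat.Coprime a b → Real.log ((a + b : ℕ) : ℝ) ≤ X →
        Real.log (rad (a * b * (a + b))) ≤ (3 - κ) * Real.log ((a + b : ℕ) : ℝ) → (a, b) ∈ S) →
      (∀ p ∈ S, 0 < p.1 ∧ 0 < p.2 ∧ Nat.Coprime p.1 p.2 ∧ Real.log ((p.1 + p.2 : ℕ) : ℝ) ≤ X ∧
        Real.log (rad (p.1 * p.2 * (p.1 + p.2))) ≤
          (3 - κ) * Real.log ((p.1 + p.2 : ℕ) : ℝ) + C₀) →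
      S.Finite ∧ (({p | p ∈ S ∧ ¬ LawN κ ε X p.1 p.2} : Set (ℕ × ℕ)).ncard : ℝ) ≤
        Real.exp (-(δ * s1 κ X)) * S.ncard := by
  have hloss : 0 ≤ lossK ℚ := by
    have hb := (Lin.w3 (K := ℚ) (t := 1) ⟨one_ne_zero, by norm_num⟩).H3
    linarith [hb.1, hb.2]
  obtain ⟨δ, X₁, hδ, hX₁, h⟩ := prop_rare ℚ κ (C₀ + 3 * lossK ℚ) (lossK ℚ) hκ hκ1
    (by positivity) hloss (fun X x => ¬ Law κ ε X x)
    (rare_law κ (C₀ + 3 * lossK ℚ) ε hκ hκ1 (by positivity) hε)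
  obtain ⟨X₂, hX₂⟩ := eventually_atTop.1 (s1_large κ (2 * Real.log 3 / δ) hκ)
  refine ⟨δ / 2, max X₁ X₂, by positivity, hX₁.trans (le_max_left _ _),
    fun X hX S hS1 hS2 => ?_⟩
  obtain ⟨g, hg⟩ : ∃ g : Fin 3 → ℕ × ℕ → ℚ,
    g = fun i p => u3 p.1 p.2 i 0 / u3 p.1 p.2 i 1 := ⟨_, rfl⟩
  have hg' : ∀ i p, g i p = u3 p.1 p.2 i 0 / u3 p.1 p.2 i 1 := fun i p => by rw [hg]
  obtain ⟨hfin, hB⟩ := h X ((le_max_left _ _).trans hX) (⋃ i, g i '' S) (by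
    intro x hx h1 h2
    obtain ⟨a, b, ha, hb, hab, i, hi⟩ := pt_exists hx
    obtain ⟨-, e1, e2, e3⟩ := pt_spec ha hb hab i
    rw [hi] at e1 e2 e3
    rw [Set.mem_iUnion]
    refine ⟨i, (a, b), hS1 a b ha hb hab (by linarith) ?_, ?_⟩
    · rw [← e3]
      refine h2.trans ?_
      apply mul_le_mul_of_nonneg_left e1
      linarith
    · rw [hg']
      exact hi) (by
    intro x hx
    rw [Set.mem_iUnion] at hx
    obtain ⟨i, p, hp, rfl⟩ := hx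
    obtain ⟨g1, g2, g3, g4, g5⟩ := hS2 p hp
    obtain ⟨e0, e1, e2, e3⟩ := pt_spec g1 g2 g3 i
    rw [hg']
    refine ⟨e0, e1.trans g4, ?_⟩
    rw [e3]
    refine g5.trans ?_
    have h5 := mul_le_mul_of_nonneg_left e2 (by linarith : (0 : ℝ) ≤ 3 - κ)
    have h6 := mul_nonneg hκ.le hloss
    linarith [show (3 - κ) * (W223.AK.ht (u3 p.1 p.2 i 0 / u3 p.1 p.2 i 1) + lossK ℚ) =
      (3 - κ) * W223.AK.ht (u3 p.1 p.2 i 0 / u3 p.1 p.2 i 1) + 3 * lossK ℚ - κ * lossK ℚ by ring])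
  have hinj : Set.InjOn (g 0) S := by
    intro p hp q hq h
    obtain ⟨g1, g2, g3, -, -⟩ := hS2 p hp
    obtain ⟨k1, k2, k3, -, -⟩ := hS2 q hq
    rw [hg', hg'] at h
    have h1 : (p.1 : ℚ) / p.2 = q.1 / q.2 := h
    have hp2 : (p.2 : ℚ) ≠ 0 := by exact_mod_cast g2.ne'
    have hq2 : (q.2 : ℚ) ≠ 0 := by exact_mod_cast k2.ne'
    rw [div_eq_div_iff hp2 hq2] at h1
    have h2 : p.1 * q.2 = q.1 * p.2 := by exact_mod_cast h1
    have h3 : p.2 ∣ q.2 := by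
      have : p.2 ∣ p.1 * q.2 := by rw [h2]; exact Dvd.intro_left _ rfl
      exact g3.symm.dvd_of_dvd_mul_left this
    have h4 : q.2 ∣ p.2 := by
      have : q.2 ∣ q.1 * p.2 := by rw [← h2]; exact Dvd.intro_left _ rfl
      exact k3.symm.dvd_of_dvd_mul_left this
    have h5 : p.2 = q.2 := Nat.dvd_antisymm h3 h4
    rw [h5] at h2
    have h6 : p.1 = q.1 := Nat.eq_of_mul_eq_mul_right k2 h2
    exact Prod.ext h6 h5
  have hSfin : S.Finite := (hfin.subset (Set.subset_iUnion (fun i => g i '' S) 0)).of_finite_image hinj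
  refine ⟨hSfin, ?_⟩
  obtain ⟨B, hBd⟩ : ∃ B : Set (ℕ × ℕ), B = {p | p ∈ S ∧ ¬ LawN κ ε X p.1 p.2} := ⟨_, rfl⟩
  rw [← hBd]
  have hBS : B ⊆ S := by rw [hBd]; exact fun p hp => hp.1
  have h1 := hB (g 0 '' B) (by
    rintro _ ⟨p, hp, rfl⟩
    rw [Set.mem_iUnion]
    exact ⟨0, p, hBS hp, rfl⟩) (by
    rintro _ ⟨p, hp, rfl⟩ hlaw
    rw [hBd] at hp
    obtain ⟨hp1, hp2⟩ := hp
    obtain ⟨g1, g2, g3, -, -⟩ := hS2 p hp1
    apply hp2
    intro l z τ hz hτ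
    have h2 := hlaw l z τ hz hτ
    rw [hg', u3_pt, cntE_nat g1 g2 g3 l z hτ] at h2
    exact h2)
  rw [Set.InjOn.ncard_image (hinj.mono hBS)] at h1
  have h2 : ((⋃ i, g i '' S : Set ℚ).ncard : ℝ) ≤ 3 * S.ncard := by
    have e : (⋃ i, g i '' S) = g 0 '' S ∪ (g 1 '' S ∪ g 2 '' S) := by
      ext x
      simp only [Set.mem_iUnion, Set.mem_union]
      constructor
      · rintro ⟨i, hi⟩
        have h3 : ∀ l : Fin 3, l = 0 ∨ l = 1 ∨ l = 2 := by decide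
        rcases h3 i with rfl | rfl | rfl
        · exact Or.inl hi
        · exact Or.inr (Or.inl hi)
        · exact Or.inr (Or.inr hi)
      · rintro (hi | hi | hi)
        · exact ⟨0, hi⟩
        · exact ⟨1, hi⟩
        · exact ⟨2, hi⟩
    rw [e]
    have k1 := Set.ncard_union_le (g 0 '' S) (g 1 '' S ∪ g 2 '' S)
    have k2 := Set.ncard_union_le (g 1 '' S) (g 2 '' S)
    have k3 := fun i => Set.ncard_image_le (f := g i) hSfin
    have k4 : (g 0 '' S ∪ (g 1 '' S ∪ g 2 '' S)).ncard ≤ 3 * S.ncard := by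
      have := k3 0
      have := k3 1
      have := k3 2
      omega
    exact_mod_cast k4
  have h8 := hX₂ X ((le_max_right _ _).trans hX)
  rw [div_le_iff₀ hδ] at h8
  calc (B.ncard : ℝ) ≤ Real.exp (-(δ * s1 κ X)) * (⋃ i, g i '' S : Set ℚ).ncard := h1
    _ ≤ Real.exp (-(δ * s1 κ X)) * (3 * S.ncard) :=
        mul_le_mul_of_nonneg_left h2 (Real.exp_pos _).le
    _ = Real.exp (Real.log 3 - δ * s1 κ X) * S.ncard := by
        rw [sub_eq_add_neg, Real.exp_add, Real.exp_log (by norm_num : (0 : ℝ) < 3)]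
        ring
    _ ≤ _ := by
        apply mul_le_mul_of_nonneg_right _ (Nat.cast_nonneg _)
        apply Real.exp_le_exp.2
        linarith

end Pool.Agent.Run7.h585.NF.RatB
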