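import Pool.Agent.Run7.h585.NF.Fin

/-!
# The ideals of a point in terms of the numbers `x`, `1 / x`, `x + 1` (helper585)
-/

set_option autoImplicit false
set_option linter.unusedSectionVars false

namespace Pool.Agent.Run7.h585.NF

open NumberField IsDedekindDomain Finset Filter Topology Pool.Agent.H691R3 Pool.Agent.W223.AK
open Pool.Agent.N906.RS
open Pool.Agent.N776.RS (shr shr_apply)

variable {K : Type} [Field K] [NumberField K]

/-- the three numbers of a point -/
noncomputable def yy (l : Fin 3) (x : K) : K := ![x, x⁻¹, x + 1] l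

theorem zp_pos (v : Pr K) (n : ℤ) : 0 < (Nv v) ^ n := by
  have := Nv1 v
  positivity

theorem zp_lt {v : Pr K} {n : ℕ} (hn : n ≠ 0) : (Nv v) ^ (-(n : ℤ)) < 1 := by
  have h1 := Nv1 v
  rw [zpow_neg, zpow_natCast]
  exact inv_lt_one_of_one_lt₀ (one_lt_pow₀ h1 hn)

theorem zp_eq {v : Pr K} {n : ℕ} (h : (Nv v) ^ (-(n : ℤ)) = 1) : n = 0 := by
  by_contra hn
  exact (zp_lt (v := v) hn).ne h

theorem fv_yy {x : K} (hx : Pt x) (l : Fin 3) (v : Pr K) :
    (Pf x l v ≠ 0 → fv v (yy l x) = (Nv v) ^ (-(Pf x l v : ℤ))) ∧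
    (Pf x l v = 0 → 1 ≤ fv v (yy l x)) := by
  have hP := Pf_spec hx
  obtain ⟨n, hn⟩ : ∃ n, n = Pf x l v := ⟨_, rfl⟩
  have hval := hP.val l v (by simp)
  rw [← hn] at hval ⊢
  have h3 : ∀ l : Fin 3, l = 0 ∨ l = 1 ∨ l = 2 := by decide
  have hfx : 0 < fv v x := (fv v).pos hx.1
  rcases h3 l with rfl | rfl | rfl
  · have e : L 0 x = x := L_zero x
    rw [e] at hval
    have ey : yy 0 x = x := rfl
    rw [ey]
    by_cases h : fv v x < 1
    · rw [max_eq_right h.le, one_mul] at hval
      refine ⟨fun _ => hval, fun h0 => ?_⟩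
      rw [h0] at hval
      simp at hval
      exact hval.ge
    · rw [not_lt] at h
      rw [max_eq_left h] at hval
      have h1 : (Nv v) ^ (-(n : ℤ)) = 1 := by
        have := mul_left_cancel₀ hfx.ne' (hval.symm.trans (mul_one _).symm)
        exact this
      exact ⟨fun h0 => absurd (zp_eq h1) h0, fun _ => h⟩
  · have e : L 1 x = 1 := L_one x
    rw [e, map_one] at hval
    have ey : yy 1 x = x⁻¹ := rfl
    rw [ey, map_inv₀]
    by_cases h : 1 < fv v x
    · rw [max_eq_left h.le] at hval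
      have h1 : (fv v x)⁻¹ = (Nv v) ^ (-(n : ℤ)) := by
        rw [inv_eq_of_mul_eq_one_right hval.symm]
      refine ⟨fun _ => h1, fun h0 => ?_⟩
      rw [h0] at h1
      simp at h1
      rw [h1] at h
      exact absurd h (lt_irrefl _)
    · rw [not_lt] at h
      rw [max_eq_right h, one_mul] at hval
      exact ⟨fun h0 => absurd (zp_eq hval.symm) h0, fun _ => (one_le_inv₀ hfx).2 h⟩
  · have e : L 2 x = x + 1 := rfl
    rw [e] at hval
    have ey : yy 2 x = x + 1 := rfl
    rw [ey]
    by_cases h : fv v x ≤ 1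
    · rw [max_eq_right h, one_mul] at hval
      refine ⟨fun _ => hval, fun h0 => ?_⟩
      rw [h0] at hval
      simp at hval
      exact hval.ge
    · rw [not_le] at h
      have h4 : fv v (x + 1) = fv v x := by
        apply le_antisymm
        · refine (fv_na v x 1).trans ?_
          rw [map_one]
          exact max_le le_rfl h.le
        · have h5 := fv_na v (x + 1) (-1)
          rw [(fv v).map_neg, map_one] at h5
          have e5 : x + 1 + -1 = x := by ring
          rw [e5] at h5
          rcases le_max_iff.1 h5 with h6 | h6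
          · exact h6
          · linarith
      rw [max_eq_left h.le, h4] at hval
      have h1 : (Nv v) ^ (-(n : ℤ)) = 1 :=
        mul_left_cancel₀ hfx.ne' (hval.symm.trans (mul_one _).symm)
      rw [h4]
      exact ⟨fun h0 => absurd (zp_eq h1) h0, fun _ => h.le⟩

theorem lt_iff {x : K} (hx : Pt x) (l : Fin 3) (v : Pr K) :
    FinitePlace.mk v (yy l x) < 1 ↔ v ∈ (Pf x l).support := by
  have h := fv_yy hx l v
  rw [Finsupp.mem_support_iff]
  show fv v (yy l x) < 1 ↔ _
  constructor
  · intro h1 h0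
    have := h.2 h0
    linarith
  · intro h0
    rw [h.1 h0]
    exact zp_lt h0

theorem sq_iff {x : K} (hx : Pt x) (l : Fin 3) (v : Pr K) :
    FinitePlace.mk v (yy l x) ≤ ((Ideal.absNorm v.asIdeal : ℝ) ^ 2)⁻¹ ↔
      v ∈ (Ef x l).support := by
  have h := fv_yy hx l v
  have h1 := Nv1 v
  rw [Finsupp.mem_support_iff]
  show fv v (yy l x) ≤ ((Nv v) ^ 2)⁻¹ ↔ shr (Pf x l) v ≠ 0
  rw [shr_apply]
  by_cases h0 : Pf x l v = 0
  · have h2 := h.2 h0
    rw [h0]
    have h3 : ((Nv v) ^ 2)⁻¹ < 1 := inv_lt_one_of_one_lt₀ (one_lt_pow₀ h1 (by norm_num))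
    constructor
    · intro h4; linarith
    · intro h4; exact absurd rfl h4
  · rw [h.1 h0]
    have e : ((Nv v) ^ 2)⁻¹ = (Nv v) ^ (-(2 : ℤ)) := by
      rw [zpow_neg]
      norm_cast
    rw [e, zpow_le_zpow_iff_right₀ h1]
    omega

/-- the conductor, not normalised -/
noncomputable def cd (a : K) : ℝ :=
  ∑ᶠ v : HeightOneSpectrum (𝓞 K),
    (if FinitePlace.mk v a < 1 then Real.log (Ideal.absNorm v.asIdeal : ℝ) else 0)

/-- the squareful part of the conductor, not normalised -/
noncomputable def sqd (a : K) : ℝ :=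
  ∑ᶠ v : HeightOneSpectrum (𝓞 K),
    (if FinitePlace.mk v a ≤ ((Ideal.absNorm v.asIdeal : ℝ) ^ 2)⁻¹ then
      Real.log (Ideal.absNorm v.asIdeal : ℝ) else 0)

/-- the number of the primes of norm at most `z` at which `a` has a multiple zero -/
noncomputable def sqn (z : ℝ) (a : K) : ℕ :=
  {v : HeightOneSpectrum (𝓞 K) | (Ideal.absNorm v.asIdeal : ℝ) ≤ z ∧
    FinitePlace.mk v a ≤ ((Ideal.absNorm v.asIdeal : ℝ) ^ 2)⁻¹}.ncard

theorem rl_eq {x : K} (hx : Pt x) (l : Fin 3) : rl (Pf x l) = cd (yy l x) := by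
  classical
  unfold rl cd
  rw [finsum_eq_sum_of_support_subset (s := (Pf x l).support)]
  · refine Finset.sum_congr rfl fun v hv => ?_
    rw [if_pos ((lt_iff hx l v).2 hv)]
    rfl
  · intro v hv
    rw [Function.mem_support] at hv
    rw [Finset.mem_coe, ← lt_iff hx l v]
    by_contra h
    exact hv (if_neg h)

theorem rl_eq2 {x : K} (hx : Pt x) (l : Fin 3) : rl (Ef x l) = sqd (yy l x) := by
  classical
  unfold rl sqd
  rw [finsum_eq_sum_of_support_subset (s := (Ef x l).support)]
  · refine Finset.sum_congr rfl fun v hv => ?_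
    rw [if_pos ((sq_iff hx l v).2 hv)]
    rfl
  · intro v hv
    rw [Function.mem_support] at hv
    rw [Finset.mem_coe, ← sq_iff hx l v]
    by_contra h
    exact hv (if_neg h)

theorem cnt_eq {x : K} (hx : Pt x) (l : Fin 3) (z : ℝ) : cntT l z (Ef x) = sqn z (yy l x) := by
  classical
  unfold cntT sqn
  rw [← Set.ncard_coe_finset]
  congr 1
  ext v
  rw [Finset.mem_coe, Finset.mem_filter, Set.mem_setOf_eq, sq_iff hx l v, and_comm]
  rfl

/-- the infinite places -/
theorem inf_le {x : K} (hx : Pt x) {η : ℝ} (hη : 0 ≤ η) (h : ar x ≤ η) (w : InfinitePlace K) :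
    w x ≤ Real.exp η ∧ Real.exp (-η) ≤ w x ∧ Real.exp (-η) ≤ w (x + 1) := by
  have hτ' : ∀ (w : InfinitePlace K), ∃ t : Fin 3, ∀ l,
      lm (Sum.inl w : Pl K) l x ≤ lm (Sum.inl w) t x := by
    intro w
    obtain ⟨t, -, ht⟩ := Finset.exists_max_image (univ : Finset (Fin 3))
      (fun l => lm (Sum.inl w : Pl K) l x) ⟨0, mem_univ _⟩
    exact ⟨t, fun l => ht l (mem_univ l)⟩
  choose τ hτ using hτ'
  have har := ar_eq hτ
  have hnn : ∀ w, 0 ≤ lm (Sum.inl w : Pl K) (τ w) x := by
    intro w
    refine le_trans ?_ (hτ w 1)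
    unfold lm
    rw [L_one, map_one, div_one]
    exact mul_nonneg (mt_pos _).le (Real.log_nonneg (le_max_right _ _))
  have hle : ∀ l, lm (Sum.inl w : Pl K) l x ≤ η := by
    intro l
    have h1 := Finset.single_le_sum (f := fun w => lm (Sum.inl w : Pl K) (τ w) x)
      (fun w _ => hnn w) (mem_univ w)
    rw [← har] at h1
    exact (hτ w l).trans (h1.trans h)
  have hM : (1 : ℝ) ≤ max (w x) 1 := le_max_right _ _
  have key : ∀ l, max (w x) 1 * Real.exp (-η) ≤ w (L l x) := by
    intro l
    have h1 := hle l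
    have hL : 0 < w (L l x) := w.pos_iff.2 (L_ne hx l)
    have h2 : lm (Sum.inl w : Pl K) l x =
        (w.mult : ℝ) * Real.log (max (w x) 1 / w (L l x)) := rfl
    rw [h2] at h1
    have hm : (1 : ℝ) ≤ w.mult := by exact_mod_cast InfinitePlace.mult_pos
    have h3 : Real.log (max (w x) 1 / w (L l x)) ≤ η := by
      by_contra hc
      rw [not_le] at hc
      nlinarith
    rw [Real.log_le_iff_le_exp (by positivity), div_le_iff₀ hL] at h3
    have h4 : Real.exp η * Real.exp (-η) = 1 := by rw [← Real.exp_add]; simp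
    calc max (w x) 1 * Real.exp (-η) ≤ (Real.exp η * w (L l x)) * Real.exp (-η) :=
          mul_le_mul_of_nonneg_right h3 (Real.exp_pos _).le
      _ = (Real.exp η * Real.exp (-η)) * w (L l x) := by ring
      _ = _ := by rw [h4, one_mul]
  have hE := Real.exp_pos (-η)
  refine ⟨?_, ?_, ?_⟩
  · have h1 := key 1
    have e : L 1 x = (1 : K) := L_one x
    rw [e, map_one] at h1
    have h4 : Real.exp η * Real.exp (-η) = 1 := by rw [← Real.exp_add]; simp
    have h5 : max (w x) 1 * Real.exp (-η) * Real.exp η ≤ 1 * Real.exp η :=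
      mul_le_mul_of_nonneg_right h1 (Real.exp_pos _).le
    rw [mul_assoc, mul_comm (Real.exp (-η)), h4, mul_one, one_mul] at h5
    exact (le_max_left _ _).trans h5
  · have h1 := key 0
    have e : L 0 x = x := L_zero x
    rw [e] at h1
    nlinarith
  · have h1 := key 2
    have e : L 2 x = x + 1 := rfl
    rw [e] at h1
    nlinarith

/-- the height in terms of `x` -/
theorem ht_formula (x : K) : ht x =
    (∑ w : InfinitePlace K, (w.mult : ℝ) * Real.log (max 1 (w x))) +
      ∑ᶠ v : HeightOneSpectrum (𝓞 K), Real.log (max 1 (FinitePlace.mk v x)) := by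
  unfold ht hr
  congr 1
  · refine Finset.sum_congr rfl fun w _ => ?_
    have : max (w (aff x).1) (w (aff x).2) = max 1 (w x) := by
      show max (w x) (w 1) = _
      rw [map_one, max_comm]
    rw [this]
  · refine finsum_congr fun v => ?_
    have h2 : max (fv v (aff x).1) (fv v (aff x).2) = max 1 (fv v x) := by
      show max (fv v x) (fv v 1) = _
      rw [map_one, max_comm]
    rw [h2]
    rfl

theorem tr_eq {x : K} (hx : Pt x) : tr (Pf x) = cd x + cd x⁻¹ + cd (x + 1) := by
  unfold tr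
  rw [Fin.sum_univ_three, rl_eq hx, rl_eq hx, rl_eq hx]
  rfl

theorem tr_eq2 {x : K} (hx : Pt x) : tr (Ef x) = sqd x + sqd x⁻¹ + sqd (x + 1) := by
  unfold tr
  rw [Fin.sum_univ_three, rl_eq2 hx, rl_eq2 hx, rl_eq2 hx]
  rfl

theorem cd_neg (a : K) : cd (-a) = cd a := by
  unfold cd
  refine finsum_congr fun v => ?_
  have : FinitePlace.mk v (-a) = FinitePlace.mk v a := (fv v).map_neg a
  rw [this]

theorem sqd_neg (a : K) : sqd (-a) = sqd a := by
  unfold sqd
  refine finsum_congr fun v => ?_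
  have : FinitePlace.mk v (-a) = FinitePlace.mk v a := (fv v).map_neg a
  rw [this]

theorem sqn_neg (z : ℝ) (a : K) : sqn z (-a) = sqn z a := by
  unfold sqn
  congr 1
  ext v
  have : FinitePlace.mk v (-a) = FinitePlace.mk v a := (fv v).map_neg a
  rw [Set.mem_setOf_eq, Set.mem_setOf_eq, this]

theorem ht_neg (a : K) : ht (-a) = ht a := by
  rw [ht_formula, ht_formula]
  congr 1
  · refine Finset.sum_congr rfl fun w _ => ?_
    have : w (-a) = w a := w.1.map_neg a
    rw [this]
  · refine finsum_congr fun v => ?_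
    have : FinitePlace.mk v (-a) = FinitePlace.mk v a := (fv v).map_neg a
    rw [this]

theorem sqd_nonneg (a : K) : 0 ≤ sqd a := by
  unfold sqd
  refine finsum_nonneg fun v => ?_
  split_ifs
  · exact (log_Nv_pos v).le
  · exact le_rfl

end Pool.Agent.Run7.h585.NF
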