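import Pool.Agent.N906.RS.Fin
import Pool.Agent.Run7.h585.NF.Loc

/-!
# The ideals of a point in terms of projective coordinates (helper585)
-/

set_option autoImplicit false
set_option linter.unusedSectionVars false

namespace Pool.Agent.Run7.h585.NF

open NumberField IsDedekindDomain Finset Filter Topology Pool.Agent.H691R3 Pool.Agent.W223.AK
open Pool.Agent.N906.RS
open Pool.Agent.N776.RS (shr shr_apply)

variable {K : Type} [Field K] [NumberField K]

/-- projective coordinates of the points of the line -/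
structure Lin (x : Fin 3 → K) : Prop where
  sum : x 0 + x 1 + x 2 = 0
  prod : x 0 * x 1 * x 2 ≠ 0

theorem Lin.x0 {x : Fin 3 → K} (h : Lin x) : x 0 ≠ 0 := fun h0 => h.prod (by rw [h0]; ring)
theorem Lin.x1 {x : Fin 3 → K} (h : Lin x) : x 1 ≠ 0 := fun h0 => h.prod (by rw [h0]; ring)
theorem Lin.x2 {x : Fin 3 → K} (h : Lin x) : x 2 ≠ 0 := fun h0 => h.prod (by rw [h0]; ring)

theorem Lin.ne {x : Fin 3 → K} (h : Lin x) (l : Fin 3) : x l ≠ 0 := by
  have h3 : ∀ l : Fin 3, l = 0 ∨ l = 1 ∨ l = 2 := by decide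
  rcases h3 l with rfl | rfl | rfl
  · exact h.x0
  · exact h.x1
  · exact h.x2

theorem Lin.pt {x : Fin 3 → K} (h : Lin x) : Pt (x 0 / x 1) := by
  refine ⟨div_ne_zero h.x0 h.x1, fun h1 => h.x2 ?_⟩
  have h2 : (x 0 / x 1 + 1) * x 1 = 0 := by rw [h1, zero_mul]
  rw [add_mul, div_mul_cancel₀ _ h.x1, one_mul] at h2
  linear_combination h.sum - h2

/-- the forms in terms of the coordinates, up to sign -/
theorem Lin.form {x : Fin 3 → K} (h : Lin x) (l : Fin 3) :
    x l = x 1 * L l (x 0 / x 1) ∨ x l = -(x 1 * L l (x 0 / x 1)) := by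
  have h3 : ∀ l : Fin 3, l = 0 ∨ l = 1 ∨ l = 2 := by decide
  have h1 := h.x1
  rcases h3 l with rfl | rfl | rfl
  · left
    rw [L_zero, mul_div_cancel₀ _ h1]
  · left
    rw [L_one, mul_one]
  · right
    show x 2 = -(x 1 * (x 0 / x 1 + 1))
    field_simp
    linear_combination h.sum

/-- the largest absolute value of the coordinates -/
noncomputable def top (v : HeightOneSpectrum (𝓞 K)) (x : Fin 3 → K) : ℝ :=
  max (FinitePlace.mk v (x 0)) (max (FinitePlace.mk v (x 1)) (FinitePlace.mk v (x 2)))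

theorem Lin.top_pos {x : Fin 3 → K} (h : Lin x) (v : Pr K) : 0 < top v x :=
  lt_of_lt_of_le ((fv v).pos h.x0) (le_max_left _ _)

theorem Lin.val {x : Fin 3 → K} (h : Lin x) (l : Fin 3) (v : Pr K) :
    FinitePlace.mk v (x l) = top v x * (Nv v) ^ (-(Pf (x 0 / x 1) l v : ℤ)) := by
  have h1 := (Pf_spec h.pt).val l v (by simp)
  have h2 : top v x = fv v (x 1) * max (fv v (x 0 / x 1)) 1 := max_fv_eq v h.x1 h.sum
  rw [h2, mul_assoc, ← h1, ← map_mul]
  show fv v (x l) = _
  rcases h.form l with h3 | h3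
  · exact congrArg (fv v) h3
  · rw [← (fv v).map_neg (x 1 * _)]
    exact congrArg (fv v) h3

theorem Lin.lt_iff {x : Fin 3 → K} (h : Lin x) (l : Fin 3) (v : Pr K) :
    FinitePlace.mk v (x l) < top v x ↔ v ∈ (Pf (x 0 / x 1) l).support := by
  rw [h.val l v, Finsupp.mem_support_iff]
  have h1 := h.top_pos v
  constructor
  · intro h2 h3
    rw [h3] at h2
    simp at h2
  · intro h2
    have := mul_lt_mul_of_pos_left (zp_lt (v := v) h2) h1
    rwa [mul_one] at this

theorem Lin.sq_iff {x : Fin 3 → K} (h : Lin x) (l : Fin 3) (v : Pr K) :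
    FinitePlace.mk v (x l) ≤ top v x * ((Ideal.absNorm v.asIdeal : ℝ) ^ 2)⁻¹ ↔
      v ∈ (Ef (x 0 / x 1) l).support := by
  rw [h.val l v, mul_le_mul_iff_right₀ (h.top_pos v), Finsupp.mem_support_iff]
  have h1 := Nv1 v
  have e : ((Nv v) ^ 2)⁻¹ = (Nv v) ^ (-(2 : ℤ)) := by
    rw [zpow_neg]
    norm_cast
  show (Nv v) ^ (-(Pf (x 0 / x 1) l v : ℤ)) ≤ ((Nv v) ^ 2)⁻¹ ↔ shr (Pf (x 0 / x 1) l) v ≠ 0
  rw [shr_apply, e, zpow_le_zpow_iff_right₀ h1]
  omega

/-- the radical of a coordinate, not normalised -/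
noncomputable def cd3 (l : Fin 3) (x : Fin 3 → K) : ℝ :=
  ∑ᶠ v : HeightOneSpectrum (𝓞 K),
    (if FinitePlace.mk v (x l) < top v x then Real.log (Ideal.absNorm v.asIdeal : ℝ) else 0)

/-- the squareful part of the radical of a coordinate, not normalised -/
noncomputable def sqd3 (l : Fin 3) (x : Fin 3 → K) : ℝ :=
  ∑ᶠ v : HeightOneSpectrum (𝓞 K),
    (if FinitePlace.mk v (x l) ≤ top v x * ((Ideal.absNorm v.asIdeal : ℝ) ^ 2)⁻¹ then
      Real.log (Ideal.absNorm v.asIdeal : ℝ) else 0)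

/-- the number of the primes of norm at most `z` whose square divides a coordinate -/
noncomputable def sqn3 (z : ℝ) (l : Fin 3) (x : Fin 3 → K) : ℕ :=
  {v : HeightOneSpectrum (𝓞 K) | (Ideal.absNorm v.asIdeal : ℝ) ≤ z ∧
    FinitePlace.mk v (x l) ≤ top v x * ((Ideal.absNorm v.asIdeal : ℝ) ^ 2)⁻¹}.ncard

/-- the size of a coordinate, not normalised -/
noncomputable def sz3 (l : Fin 3) (x : Fin 3 → K) : ℝ :=
  ∑ᶠ v : HeightOneSpectrum (𝓞 K), Real.log (top v x / FinitePlace.mk v (x l))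

theorem Lin.rl_eq {x : Fin 3 → K} (h : Lin x) (l : Fin 3) : rl (Pf (x 0 / x 1) l) = cd3 l x := by
  classical
  unfold rl cd3
  rw [finsum_eq_sum_of_support_subset (s := (Pf (x 0 / x 1) l).support)]
  · refine Finset.sum_congr rfl fun v hv => ?_
    rw [if_pos ((h.lt_iff l v).2 hv)]
    rfl
  · intro v hv
    rw [Function.mem_support] at hv
    rw [Finset.mem_coe, ← h.lt_iff l v]
    by_contra h
    exact hv (if_neg h)

theorem Lin.rl_eq2 {x : Fin 3 → K} (h : Lin x) (l : Fin 3) : rl (Ef (x 0 / x 1) l) = sqd3 l x := by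
  classical
  unfold rl sqd3
  rw [finsum_eq_sum_of_support_subset (s := (Ef (x 0 / x 1) l).support)]
  · refine Finset.sum_congr rfl fun v hv => ?_
    rw [if_pos ((h.sq_iff l v).2 hv)]
    rfl
  · intro v hv
    rw [Function.mem_support] at hv
    rw [Finset.mem_coe, ← h.sq_iff l v]
    by_contra h
    exact hv (if_neg h)

theorem Lin.cnt_eq {x : Fin 3 → K} (h : Lin x) (l : Fin 3) (z : ℝ) :
    cntT l z (Ef (x 0 / x 1)) = sqn3 z l x := by
  classical
  unfold cntT sqn3
  rw [← Set.ncard_coe_finset]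
  congr 1
  ext v
  rw [Finset.mem_coe, Finset.mem_filter, Set.mem_setOf_eq, h.sq_iff l v, and_comm]
  rfl

theorem Lin.len_eq {x : Fin 3 → K} (h : Lin x) (l : Fin 3) : len (Pf (x 0 / x 1) l) = sz3 l x := by
  classical
  unfold len sz3
  have e : ∀ v : Pr K, Real.log (top v x / FinitePlace.mk v (x l)) =
      (Pf (x 0 / x 1) l v : ℝ) * Real.log (Nv v) := by
    intro v
    have h1 := h.top_pos v
    have h2 := zp_pos v (-(Pf (x 0 / x 1) l v : ℤ))
    rw [h.val l v, div_mul_eq_div_div, div_self h1.ne', one_div, Real.log_inv, Real.log_zpow]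
    push_cast
    ring
  rw [finsum_eq_sum_of_support_subset (s := (Pf (x 0 / x 1) l).support)]
  · exact Finset.sum_congr rfl fun v _ => (e v).symm
  · intro v hv
    rw [Function.mem_support, e] at hv
    rw [Finset.mem_coe, Finsupp.mem_support_iff]
    intro h0
    apply hv
    rw [h0]
    simp

theorem sqd3_nonneg (l : Fin 3) (x : Fin 3 → K) : 0 ≤ sqd3 l x := by
  unfold sqd3
  refine finsum_nonneg fun v => ?_
  split_ifs
  · exact (log_Nv_pos v).le
  · exact le_rfl

/-- the infinite places: no form is much smaller than the largest -/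
theorem inf_key {x : K} (hx : Pt x) {η : ℝ} (h : ar x ≤ η) (w : InfinitePlace K)
    (l : Fin 3) : max (w x) 1 * Real.exp (-η) ≤ w (L l x) := by
  have hτ' : ∀ (w : InfinitePlace K), ∃ t : Fin 3, ∀ l,
      lm (Sum.inl w : Pl K) l x ≤ lm (Sum.inl w) t x := by
    intro w
    obtain ⟨t, -, ht⟩ := Finset.exists_max_image (univ : Finset (Fin 3))
      (fun l => lm (Sum.inl w : Pl K) l x) ⟨0, mem_univ _⟩
    exact ⟨t, fun l => ht l (mem_univ l)⟩
  choose τ hτ using hτ'
  have har := ar_eq hτ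
  have hη : 0 ≤ η := (ar_nonneg x).trans h
  have hnn : ∀ w, 0 ≤ lm (Sum.inl w : Pl K) (τ w) x := by
    intro w
    refine le_trans ?_ (hτ w 1)
    unfold lm
    rw [L_one, map_one, div_one]
    exact mul_nonneg (mt_pos _).le (Real.log_nonneg (le_max_right _ _))
  have h1 : lm (Sum.inl w : Pl K) l x ≤ η := by
    have h1 := Finset.single_le_sum (f := fun w => lm (Sum.inl w : Pl K) (τ w) x)
      (fun w _ => hnn w) (mem_univ w)
    rw [← har] at h1
    exact (hτ w l).trans (h1.trans h)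
  have hL : 0 < w (L l x) := w.pos_iff.2 (L_ne hx l)
  have h2 : lm (Sum.inl w : Pl K) l x =
      (w.mult : ℝ) * Real.log (max (w x) 1 / w (L l x)) := rfl
  rw [h2] at h1
  have hM : (1 : ℝ) ≤ max (w x) 1 := le_max_right _ _
  have hm : (1 : ℝ) ≤ w.mult := by exact_mod_cast InfinitePlace.mult_pos
  have h3 : Real.log (max (w x) 1 / w (L l x)) ≤ η := by
    by_contra hc
    rw [not_le] at hc
    nlinarith
  rw [Real.log_le_iff_le_exp (by positivity), div_le_iff₀ hL] at h3
  have h4 : Real.exp η * Real.exp (-η) = 1 := by rw [← Real.exp_add]; simp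
  calc max (w x) 1 * Real.exp (-η) ≤ (Real.exp η * w (L l x)) * Real.exp (-η) :=
        mul_le_mul_of_nonneg_right h3 (Real.exp_pos _).le
    _ = (Real.exp η * Real.exp (-η)) * w (L l x) := by ring
    _ = _ := by rw [h4, one_mul]

/-- the infinite places, in terms of the coordinates -/
theorem Lin.inf {x : Fin 3 → K} (h : Lin x) {η : ℝ} (ha : ar (x 0 / x 1) ≤ η)
    (w : InfinitePlace K) (l l' : Fin 3) : w (x l) ≤ 2 * Real.exp η * w (x l') := by
  have h1 := inf_key h.pt ha w l'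
  have hwL : ∀ l, w (x l) = w (x 1) * w (L l (x 0 / x 1)) := by
    intro l
    rcases h.form l with h3 | h3
    · conv_lhs => rw [h3]
      rw [map_mul]
    · conv_lhs => rw [h3]
      have : w (-(x 1 * L l (x 0 / x 1))) = w (x 1 * L l (x 0 / x 1)) := w.1.map_neg _
      rw [this, map_mul]
  have hup : w (L l (x 0 / x 1)) ≤ 2 * max (w (x 0 / x 1)) 1 := by
    have h3 : ∀ l : Fin 3, l = 0 ∨ l = 1 ∨ l = 2 := by decide
    have hM : (1 : ℝ) ≤ max (w (x 0 / x 1)) 1 := le_max_right _ _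
    have hM' : w (x 0 / x 1) ≤ max (w (x 0 / x 1)) 1 := le_max_left _ _
    rcases h3 l with rfl | rfl | rfl
    · rw [L_zero]; linarith
    · rw [L_one, map_one]; linarith
    · show w (x 0 / x 1 + 1) ≤ _
      have := w.1.add_le (x 0 / x 1) 1
      have e : w.1 (1 : K) = 1 := w.1.map_one
      rw [e] at this
      have e2 : w.1 (x 0 / x 1 + 1) = w (x 0 / x 1 + 1) := rfl
      have e3 : w.1 (x 0 / x 1) = w (x 0 / x 1) := rfl
      rw [e2, e3] at this
      linarith
  have h4 : Real.exp η * Real.exp (-η) = 1 := by rw [← Real.exp_add]; simp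
  have h5 : max (w (x 0 / x 1)) 1 ≤ Real.exp η * w (L l' (x 0 / x 1)) := by
    have h6 := mul_le_mul_of_nonneg_left h1 (Real.exp_pos η).le
    calc max (w (x 0 / x 1)) 1 = (Real.exp η * Real.exp (-η)) * max (w (x 0 / x 1)) 1 := by
          rw [h4, one_mul]
      _ = Real.exp η * (max (w (x 0 / x 1)) 1 * Real.exp (-η)) := by ring
      _ ≤ _ := h6
  rw [hwL l, hwL l']
  have hw1 : 0 ≤ w (x 1) := apply_nonneg _ _
  calc w (x 1) * w (L l (x 0 / x 1)) ≤ w (x 1) * (2 * (Real.exp η * w (L l' (x 0 / x 1)))) :=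
        mul_le_mul_of_nonneg_left (by linarith) hw1
    _ = _ := by ring

theorem mk_w3 {x : Fin 3 → K} (h : Lin x) (hx : x ≠ 0) :
    Projectivization.mk K (w3 (x 0 / x 1)) (w3_ne _) = Projectivization.mk K x hx := by
  have hx1 := h.x1
  rw [Projectivization.mk_eq_mk_iff']
  refine ⟨(x 1)⁻¹, ?_⟩
  funext i
  fin_cases i
  · show (x 1)⁻¹ * x 0 = x 0 / x 1
    rw [div_eq_mul_inv, mul_comm]
  · show (x 1)⁻¹ * x 1 = 1
    exact inv_mul_cancel₀ hx1
  · show (x 1)⁻¹ * x 2 = -(x 0 / x 1 + 1)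
    have : x 2 = -(x 0 + x 1) := by linear_combination h.sum
    rw [this]
    field_simp

theorem Lin.div_eq {x : Fin 3 → K} (h : Lin x) (hx : x ≠ 0) {t : K}
    (e : Projectivization.mk K (w3 t) (w3_ne t) = Projectivization.mk K x hx) : x 0 / x 1 = t :=
  w3_inj ((mk_w3 h hx).trans e.symm)

theorem Lin.of_eq {x : Fin 3 → K} {hx : x ≠ 0} {t : K} (ht : Pt t)
    (e : Projectivization.mk K (w3 t) (w3_ne t) = Projectivization.mk K x hx) :
    Lin x ∧ x 0 / x 1 = t := by
  have e' := e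
  rw [Projectivization.mk_eq_mk_iff'] at e'
  obtain ⟨a, ha⟩ := e'
  have e0 : a * x 0 = t := congrFun ha 0
  have e1 : a * x 1 = 1 := congrFun ha 1
  have e2 : a * x 2 = -(t + 1) := congrFun ha 2
  have ha0 : a ≠ 0 := by
    rintro rfl
    simp at e1
  have h1 : Lin x := by
    constructor
    · have : a * (x 0 + x 1 + x 2) = 0 := by linear_combination e0 + e1 + e2
      exact (mul_eq_zero.1 this).resolve_left ha0
    · intro h
      have h2 : (a * x 0) * (a * x 1) * (a * x 2) = 0 := by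
        have : (a * x 0) * (a * x 1) * (a * x 2) = a ^ 3 * (x 0 * x 1 * x 2) := by ring
        rw [this, h, mul_zero]
      rw [e0, e1, e2, mul_one, mul_neg, neg_eq_zero] at h2
      rcases mul_eq_zero.1 h2 with h3 | h3
      · exact ht.1 h3
      · exact ht.2 h3
  exact ⟨h1, h1.div_eq hx e⟩

theorem Lin.w3 {t : K} (ht : Pt t) : Lin (w3 t) :=
  (Lin.of_eq (hx := w3_ne t) ht rfl).1

theorem Lin.ne_zero {x : Fin 3 → K} (h : Lin x) : x ≠ 0 := by
  intro h0
  exact h.x0 (by rw [h0]; rfl)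

/-- the conductor is the sum of the three radicals -/
theorem Lin.R3 {x : Fin 3 → K} (h : Lin x) : R3 ∅ x = tr (Pf (x 0 / x 1)) := by
  rw [R3_eq (T' := (∅ : Finset (Pr K))) (fun v => by simp) h.x1 h.sum (Pf_spec h.pt)]
  unfold tr
  rw [Fin.sum_univ_three]

theorem Lin.H3 {x : Fin 3 → K} (h : Lin x) :
    ht (x 0 / x 1) ≤ H3 x ∧ H3 x ≤ ht (x 0 / x 1) + lossK K := H3_bounds h.x1 h.sum

end Pool.Agent.Run7.h585.NF
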