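import Pool.Agent.Run7.h585.NF.Fin
import Pool.Agent.Run7.h585.NF.Proj
import Pool.Agent.Run7.h585.VL.Pts

/-!
# The three radicals of the points `(a : b : c)`, `a + b + c = 0`: bounds for orthants (helper585)

The hypotheses `UB`, `LB` of `Pool/Agent/Run7/h585/LD/Abs.lean` for the gains of the three radicals of the
points of the line over a number field, for all sets of points which contain the points with positive real
parts at all infinite places.
-/

set_option autoImplicit false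
set_option linter.unusedSectionVars false

namespace Pool.Agent.Run7.h585.NF

open NumberField IsDedekindDomain Finset Filter Topology Module Pool.Agent.H691R3 Pool.Agent.W223.AK
open Pool.Agent.N906.KG (Al Of Gd basq_all cellq_all rank_all S_BIGQ)
open Pool.Agent.N170.KG (al_pr)
open Pool.Agent.N906.RS
open _root_.Run7.h585.LD _root_.Run7.h585.LD.Abs _root_.Run7.h585.VL

variable {K : Type} [Field K] [NumberField K]

/-- the points `0, ∞, -1` -/
def α3 (K : Type) [Field K] (l : Fin 3) : Fin 2 → K := ![![0, 1], ![1, 0], ![-1, 1]] l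

theorem fin3 (l : Fin 3) : l = 0 ∨ l = 1 ∨ l = 2 := by
  have h3 : ∀ l : Fin 3, l = 0 ∨ l = 1 ∨ l = 2 := by decide
  exact h3 l

theorem α3_ne (l : Fin 3) : α3 K l ≠ 0 := by
  intro h
  rcases fin3 l with rfl | rfl | rfl
  · have := congrFun h 1
    exact one_ne_zero this
  · have := congrFun h 0
    exact one_ne_zero this
  · have := congrFun h 1
    exact one_ne_zero this

theorem α3_wedge (i j : Fin 3) (h : i ≠ j) :
    α3 K i 0 * α3 K j 1 - α3 K i 1 * α3 K j 0 = 1 ∨
      α3 K i 0 * α3 K j 1 - α3 K i 1 * α3 K j 0 = -1 := by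
  rcases fin3 i with rfl | rfl | rfl <;> rcases fin3 j with rfl | rfl | rfl <;>
    first
      | exact absurd rfl h
      | (left; simp [α3]; done)
      | (right; simp [α3]; done)

theorem α3_wedge' (i j : Fin 3) (h : i ≠ j) : α3 K i 0 * α3 K j 1 - α3 K i 1 * α3 K j 0 ≠ 0 := by
  rcases α3_wedge (K := K) i j h with h1 | h1 <;> rw [h1]
  · exact one_ne_zero
  · exact neg_ne_zero.2 one_ne_zero

/-- the same as pairs -/
def p3 (K : Type) [Field K] : Fin 3 → K × K := Pool.Agent.N170.KG.pr (α3 K)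

theorem al3 : Al (p3 K) := al_pr α3_ne α3_wedge'

theorem mx3 (v : Pr K) (l : Fin 3) : max (fv v (p3 K l).1) (fv v (p3 K l).2) = 1 := by
  rcases fin3 l with rfl | rfl | rfl <;> simp [p3, α3, Pool.Agent.N170.KG.pr]

theorem gd3 : Gd ∅ (p3 K) := by
  intro v _
  refine ⟨fun l => mx3 v l, fun i j h => ?_⟩
  show fv v (α3 K i 0 * α3 K j 1 - α3 K i 1 * α3 K j 0) = 1
  rcases α3_wedge (K := K) i j h with h1 | h1 <;> rw [h1]
  · exact map_one _
  · rw [AbsoluteValue.map_neg, map_one]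

theorem form3 (x : K) (l : Fin 3) : x * (p3 K l).2 - (p3 K l).1 = L l x ∨
    x * (p3 K l).2 - (p3 K l).1 = -L l x := by
  rcases fin3 l with rfl | rfl | rfl
  · left; simp [p3, α3, Pool.Agent.N170.KG.pr]
  · right; simp [p3, α3, Pool.Agent.N170.KG.pr]
  · left
    show x * 1 - (-1) = x + 1
    ring

theorem of3 {x : K} (h : Pt x) : Of (p3 K) x := by
  intro l
  have h1 := L_ne h l
  rcases form3 x l with h2 | h2 <;> rw [h2]
  · exact h1
  · exact neg_ne_zero.2 h1

theorem pt3 {x : K} (h : Of (p3 K) x) : Pt x := by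
  have h0 := h 0
  have h2 := h 2
  have e0 : x * (p3 K 0).2 - (p3 K 0).1 = x := by simp [p3, α3, Pool.Agent.N170.KG.pr]
  have e2 : x * (p3 K 2).2 - (p3 K 2).1 = x + 1 := by
    show x * 1 - (-1) = x + 1
    ring
  rw [e0] at h0
  rw [e2] at h2
  exact ⟨h0, h2⟩

theorem lam3 {x : K} (h : Pt x) (l : Fin 3) (v : Pr K) :
    lam (Sum.inr v : Pl K) (aff x) (p3 K l) = (Pf x l v : ℝ) * Real.log (Nv v) := by
  have h1 := (Pf_spec h).val l v (by simp)
  have hm : 0 < max (fv v x) 1 := lt_max_of_lt_right one_pos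
  have e1 : lam (Sum.inr v : Pl K) (aff x) (p3 K l) =
      Real.log (max (fv v x) (fv v 1) * max (fv v (p3 K l).1) (fv v (p3 K l).2) /
        fv v (x * (p3 K l).2 - 1 * (p3 K l).1)) := rfl
  rw [e1, mx3, map_one, mul_one, one_mul]
  have e2 : fv v (x * (p3 K l).2 - (p3 K l).1) = fv v (L l x) := by
    rcases form3 x l with h2 | h2 <;> rw [h2]
    rw [AbsoluteValue.map_neg]
  have hz : (0 : ℝ) < (Nv v) ^ (-(Pf x l v : ℤ)) := zpow_pos (Nv_pos v) _
  rw [e2, h1, div_mul_eq_div_div, div_self hm.ne', one_div, Real.log_inv, Real.log_zpow]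
  push_cast
  ring

theorem isp3 {x : K} (h : Pt x) : Pool.Agent.N906.KG.IsP ∅ (p3 K) x (Pf x) :=
  ⟨(Pf_spec h).off, fun l v _ => lam3 h l v⟩

theorem isp3_eq {x : K} (h : Pt x) {P : Fin 3 → Idl K}
    (hP : Pool.Agent.N906.KG.IsP ∅ (p3 K) x P) : P = Pf x := by
  funext l
  refine Finsupp.ext fun v => ?_
  have h1 := hP.2 l v (by simp)
  rw [lam3 h l v] at h1
  have h2 := log_Nv_pos v
  have h3 := mul_right_cancel₀ h2.ne' h1
  exact_mod_cast h3.symm

/-! ### The index type -/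

/-- the points of the line in `W` -/
def Q3 (W : Set K) : Type := {t : K // Pt t ∧ t ∈ W}

/-- the chosen coordinates of the point `t` -/
noncomputable def rp (t : K) : Fin 3 → K := (Projectivization.mk K (w3 t) (w3_ne t)).rep

theorem rp_lin {t : K} (ht : Pt t) : Lin (rp t) ∧ rp t 0 / rp t 1 = t :=
  Lin.of_eq (hx := Projectivization.rep_nonzero _) ht (Projectivization.mk_rep _).symm

/-- the height -/
noncomputable def H33 (W : Set K) (p : Q3 W) : ℝ := H3 (rp p.1)

/-- the gains of the coordinates `x` -/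
noncomputable def g33 (x : Fin 3 → K) (l : Fin 3) : ℝ := max 0 (min 1 (1 - cd3 l x / H3 x))

/-- the gains -/
noncomputable def gQ (W : Set K) (p : Q3 W) : Fin 3 → ℝ := g33 (rp p.1)

variable {W : Set K}

theorem gQ0 (p : Q3 W) (l : Fin 3) : 0 ≤ gQ W p l := le_max_left _ _

theorem gQ1 (p : Q3 W) (l : Fin 3) : gQ W p l ≤ 1 := max_le zero_le_one (min_le_left _ _)

theorem H33_b (p : Q3 W) : ht p.1 ≤ H33 W p ∧ H33 W p ≤ ht p.1 + lossK K := by
  obtain ⟨h1, h2⟩ := rp_lin p.2.1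
  have h := h1.H3
  rw [h2] at h
  exact h

theorem lossK_nonneg : 0 ≤ lossK K := by
  have hb := (Lin.w3 (K := K) (t := 1) ⟨one_ne_zero, by norm_num⟩).H3
  linarith [hb.1, hb.2]

theorem cd_eq (p : Q3 W) (l : Fin 3) : cd3 l (rp p.1) = rl (Pf p.1 l) := by
  obtain ⟨h1, h2⟩ := rp_lin p.2.1
  rw [← h1.rl_eq, h2]

/-- the constant -/
noncomputable def c33 (K : Type) [Field K] [NumberField K] : ℝ :=
  ∑ l, |hr (p3 K l)| + ∑ v ∈ Spl (∅ : Finset (Pr K)), loss v

theorem c33_nonneg : 0 ≤ c33 K :=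
  add_nonneg (Finset.sum_nonneg fun _ _ => abs_nonneg _)
    (Finset.sum_nonneg fun v _ => _root_.Run7.h585.VL.loss_nonneg v)

theorem fin33 (W : Set K) (X : ℝ) : {p : Q3 W | H33 W p ≤ X}.Finite := by
  classical
  obtain ⟨X₀, hX₀, hup⟩ := upju K 3 1 (by norm_num) le_rfl (basq_all K) (cellq_all K) (rank_all K)
    (Pool.Agent.N654.QP.bigq3 K) (p3 K) ∅ 1 1 (c33 K) al3 gd3 one_pos one_pos c33_nonneg
  have h := fin_of_bound {t : K | Pt t ∧ ht t ≤ X} _ (fun G hG => hup (max X X₀) (le_max_right _ _)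
    (fun _ => 0) (fun _ => le_rfl) (by simp) G (fun x hx => by
      obtain ⟨g1, g2⟩ := hG hx
      refine ⟨of3 g1, g2.trans (le_max_left _ _), Pf x, isp3 g1, fun l => ?_⟩
      have := rl_gen al3 (of3 g1) (isp3 g1) l
      rw [sub_zero, one_mul]
      exact this))
  refine (h.1.preimage (f := fun p : Q3 W => p.1) Subtype.val_injective.injOn).subset ?_
  intro p hp
  exact ⟨p.2.1, (H33_b p).1.trans hp⟩

/-- the upper bound for orthants -/
theorem ub33 (W : Set K) : UB (H33 W) (gQ W) 1 := by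
  classical
  intro δ ε hδ hε
  obtain ⟨X₁, hX₁, hup⟩ := upju K 3 1 (by norm_num) le_rfl (basq_all K) (cellq_all K) (rank_all K)
    (Pool.Agent.N654.QP.bigq3 K) (p3 K) ∅ δ ε (c33 K + lossK K) al3 gd3 hδ hε
    (add_nonneg c33_nonneg lossK_nonneg)
  refine ⟨X₁, hX₁, fun X hX κ hκ0 hκl F hF => ?_⟩
  have h := hup X hX κ hκ0 hκl (F.image (fun p => p.1)) (by
    intro x hx
    obtain ⟨p, hp, rfl⟩ := mem_image.1 hx
    obtain ⟨m1, m2⟩ := hF p hp
    have hb := H33_b p
    have hl := lossK_nonneg (K := K)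
    have hc := c33_nonneg (K := K)
    have hh := ht_nonneg p.1
    refine ⟨of3 p.2.1, hb.1.trans m1, Pf p.1, isp3 p.2.1, fun l => ?_⟩
    have hgen : rl (Pf p.1 l) ≤ ht p.1 + c33 K := rl_gen al3 (of3 p.2.1) (isp3 p.2.1) l
    show rl (Pf p.1 l) ≤ (1 - κ l) * ht p.1 + (c33 K + lossK K)
    have hκ1 : κ l ≤ 1 := (m2 l).trans (gQ1 p l)
    rcases le_or_gt (κ l) 0 with hk | hk
    · have : κ l = 0 := le_antisymm hk (hκ0 l)
      rw [this]
      linarith
    · have hH0 : 0 ≤ H33 W p := hh.trans hb.1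
      rcases hH0.eq_or_lt with h0 | h0
      · have h1 : ht p.1 = 0 := le_antisymm (by rw [h0]; exact hb.1) hh
        rw [h1] at hgen ⊢
        linarith
      · have m3 : κ l ≤ max 0 (min 1 (1 - cd3 l (rp p.1) / H33 W p)) := m2 l
        have m4 : κ l ≤ 1 - cd3 l (rp p.1) / H33 W p := by
          rcases le_max_iff.1 m3 with h5 | h5
          · linarith
          · exact h5.trans (min_le_right _ _)
        have m5 : cd3 l (rp p.1) / H33 W p ≤ 1 - κ l := by linarith
        rw [div_le_iff₀ h0, cd_eq] at m5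
        have m6 := mul_le_mul_of_nonneg_left hb.2 (show (0 : ℝ) ≤ 1 - κ l by linarith)
        have m7 : (1 - κ l) * lossK K ≤ lossK K := by
          have := mul_nonneg hk.le hl
          linarith
        linarith)
  have hc : (F.image (fun p : Q3 W => p.1)).card = F.card :=
    card_image_of_injective _ Subtype.val_injective
  rw [hc, sum_sqrt κ hκ0] at h
  exact h

/-- the lower bound for orthants -/
theorem lb33 (hW : ∀ t : K, (∀ w : InfinitePlace K, 0 < (w.embedding t).re) → t ∈ W) :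
    LB (H33 W) (gQ W) 1 := by
  classical
  intro κ ε hκ0 hκs hκs1 hε
  have hl := lossK_nonneg (K := K)
  have hκ1 : ∀ l, κ l ≤ 1 := fun l =>
    (Finset.single_le_sum (f := κ) (fun l _ => hκ0 l) (mem_univ l)).trans (by linarith)
  obtain ⟨s, hs⟩ : ∃ s : ℝ, s = √8 * ∑ l, √(κ l) := ⟨_, rfl⟩
  have hs0 : 0 < s := by
    rw [hs]
    exact mul_pos (Real.sqrt_pos.2 (by norm_num)) (sgposq hκ0 hκs)
  obtain ⟨ε', hε'⟩ : ∃ ε' : ℝ, ε' = min (1 / 2) (ε / (4 * s)) := ⟨_, rfl⟩
  have hε'0 : 0 < ε' := by rw [hε']; exact lt_min (by norm_num) (by positivity)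
  have hε'1 : ε' < 1 := by rw [hε']; exact (min_le_left _ _).trans_lt (by norm_num)
  have hε'2 : ε' * s ≤ ε / 4 := by
    have : ε' ≤ ε / (4 * s) := by rw [hε']; exact min_le_right _ _
    rw [le_div_iff₀ (by positivity)] at this
    linarith
  obtain ⟨X₀, hX₀, hlo⟩ := Pool.Agent.N906.KG.loj_all K 3 (p3 K) ∅ κ ε' 0 (by norm_num) al3 gd3
    hκ0 hκs hκs1 hε'0 hε'1 le_rfl
  obtain ⟨A, hA⟩ : ∃ A : ℝ, A = lossK K := ⟨_, rfl⟩
  rw [← hA] at hl
  have ev := ((small (2 * A)).eventually_le_const (show (0 : ℝ) < ε / 4 by positivity)).and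
    (Real.tendsto_log_atTop.eventually_ge_atTop 1)
  obtain ⟨X₂, hX₂⟩ := eventually_atTop.1 ev
  refine ⟨max (max (X₀ + A) X₂) (max (A + 3) (4 * s * A / ε)),
    lt_max_of_lt_right (lt_max_of_lt_left (by linarith)), fun X hX => ?_⟩
  have hXa : X₀ + A ≤ X := (le_max_left _ _).trans ((le_max_left _ _).trans hX)
  have hXb : X₂ ≤ X := (le_max_right _ _).trans ((le_max_left _ _).trans hX)
  have hXc : A + 3 ≤ X := (le_max_left _ _).trans ((le_max_right _ _).trans hX)
  have hXd : 4 * s * A / ε ≤ X := (le_max_right _ _).trans ((le_max_right _ _).trans hX)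
  obtain ⟨hsm, hlX⟩ := hX₂ X hXb
  have hX0 : 0 < X := by linarith
  obtain ⟨F, hF1, hF2⟩ := hlo (X - A) (by linarith)
  rw [sum_sqrt κ hκ0, ← hs] at hF2
  -- the shift
  have hlog : 0 < Real.log X := by linarith
  have hlog' : 0 < Real.log (X - A) := Real.log_pos (by linarith)
  have hlle : Real.log (X - A) ≤ Real.log X := Real.log_le_log (by linarith) (by linarith)
  have hV0 : 0 < √(X / Real.log X) := Real.sqrt_pos.2 (div_pos hX0 hlog)
  have hAX : A / X ≤ 1 := by rw [div_le_one hX0]; linarith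
  have hsh : (1 - A / X) * √(X / Real.log X) ≤ √((X - A) / Real.log (X - A)) := by
    have h1 : (1 - A / X) * √(X / Real.log X) ≤ √((1 - A / X) * (X / Real.log X)) := by
      rw [Real.sqrt_mul (by linarith)]
      apply mul_le_mul_of_nonneg_right _ hV0.le
      apply Real.le_sqrt_of_sq_le
      have : 0 ≤ A / X := div_nonneg hl hX0.le
      nlinarith
    refine h1.trans (Real.sqrt_le_sqrt ?_)
    have e : (1 - A / X) * (X / Real.log X) = (X - A) / Real.log X := by
      field_simp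
    rw [e]
    exact div_le_div_of_nonneg_left (by linarith) hlog' hlle
  rw [div_le_iff₀ hV0] at hsm
  obtain ⟨V, hV⟩ : ∃ V : ℝ, V = √(X / Real.log X) := ⟨_, rfl⟩
  obtain ⟨V', hV'⟩ : ∃ V' : ℝ, V' = √((X - A) / Real.log (X - A)) := ⟨_, rfl⟩
  rw [← hV] at hsm hsh hV0 ⊢
  rw [← hV'] at hsh hF2
  have hsA : s * (A / X) ≤ ε / 4 := by
    rw [← mul_div_assoc, div_le_iff₀ hX0]
    rw [div_le_iff₀ hε] at hXd
    linarith
  have hmain : (2 - ∑ l, κ l) * X + √8 * (∑ l, √(κ l)) * V - ε * V ≤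
      (2 - ∑ l, κ l) * (X - A) + (1 - ε') * (s * V') := by
    rw [← hs]
    have h1 : (1 - ε') * (s * ((1 - A / X) * V)) ≤ (1 - ε') * (s * V') := by
      apply mul_le_mul_of_nonneg_left _ (by linarith)
      exact mul_le_mul_of_nonneg_left hsh hs0.le
    have h2 : (1 - ε') * (s * ((1 - A / X) * V)) =
        s * V - ε' * s * V - (1 - ε') * (s * (A / X)) * V := by ring
    have h3 : ε' * s * V ≤ ε / 4 * V := mul_le_mul_of_nonneg_right hε'2 hV0.le
    have h4 : (1 - ε') * (s * (A / X)) * V ≤ ε / 4 * V := by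
      apply mul_le_mul_of_nonneg_right _ hV0.le
      have h5 : 0 ≤ s * (A / X) := mul_nonneg hs0.le (div_nonneg hl hX0.le)
      have h6 := mul_nonneg hε'0.le h5
      linarith
    have h5 : (2 - ∑ l, κ l) * A ≤ 2 * A := mul_le_mul_of_nonneg_right (by linarith) hl
    have h6 : 0 ≤ ε / 4 * V := by positivity
    linarith [show (2 - ∑ l, κ l) * (X - A) = (2 - ∑ l, κ l) * X - (2 - ∑ l, κ l) * A by ring]
  refine (Real.exp_le_exp.2 hmain).trans (hF2.trans ?_)
  -- the points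
  have hfinS := as_finite (g := gQ W) (fin33 W) {x | ∀ l, κ l ≤ x l} X
  have hsub : (F : Set K) ⊆ (fun p : Q3 W => p.1) '' (AS (H33 W) (gQ W) {x | ∀ l, κ l ≤ x l} X) := by
    intro x hx
    obtain ⟨m1, m2, m3, P, m4, m5⟩ := hF1 x hx
    have hp := pt3 m1
    have hPf := isp3_eq hp m4
    refine ⟨⟨x, hp, hW x m3⟩, ⟨?_, fun l => ?_⟩, rfl⟩
    · have hb := H33_b (⟨x, hp, hW x m3⟩ : Q3 W)
      have h1 : ht x ≤ X - A := m2
      rw [← hA] at hb
      exact hb.2.trans (by show ht x + A ≤ X; linarith)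
    · have hb := H33_b (⟨x, hp, hW x m3⟩ : Q3 W)
      show κ l ≤ max 0 (min 1 (1 - cd3 l (rp x) / H33 W ⟨x, hp, hW x m3⟩))
      refine le_max_of_le_right (le_min (hκ1 l) ?_)
      have h0' : 0 ≤ H33 W ⟨x, hp, hW x m3⟩ := (ht_nonneg x).trans hb.1
      rcases h0'.eq_or_lt with h0 | h0
      · rw [← h0, div_zero, sub_zero]
        exact hκ1 l
      · have e1 : cd3 l (rp x) = rl (Pf x l) := cd_eq (⟨x, hp, hW x m3⟩ : Q3 W) l
        have h5 := m5 l
        rw [hPf, add_zero] at h5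
        have h6 : (1 - κ l) * ht x ≤ (1 - κ l) * H33 W ⟨x, hp, hW x m3⟩ :=
          mul_le_mul_of_nonneg_left hb.1 (by linarith [hκ1 l])
        have h7 : cd3 l (rp x) / H33 W ⟨x, hp, hW x m3⟩ ≤ 1 - κ l := by
          rw [div_le_iff₀ h0, e1]
          exact h5.trans h6
        linarith
  have hc := Set.ncard_le_ncard hsub (hfinS.image _)
  have hi := Set.ncard_image_of_injective (AS (H33 W) (gQ W) {x | ∀ l, κ l ≤ x l} X)
    (f := fun p : Q3 W => p.1) Subtype.val_injective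
  rw [hi, Set.ncard_coe_finset] at hc
  exact_mod_cast hc

end Pool.Agent.Run7.h585.NF
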