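import Pool.Agent.Run7.h585.NF.Share

/-!
# The shares in terms of coordinates (helper585)
-/

set_option autoImplicit false
set_option linter.unusedSectionVars false

namespace Pool.Agent.Run7.h585.NF

open NumberField IsDedekindDomain Finset Filter Topology Pool.Agent.H691R3 Pool.Agent.W223.AK
open Pool.Agent.N906.RS
open Pool.Agent.N776.RS (shr shr_apply)

variable {K : Type} [Field K] [NumberField K]

open Classical in
/-- the excess of the `l`-th coordinate at the primes of norm at most `z` -/
noncomputable def exz3 (z : ℝ) (l : Fin 3) (x : Fin 3 → K) : ℝ :=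
  ∑ᶠ v : HeightOneSpectrum (𝓞 K), (if (Ideal.absNorm v.asIdeal : ℝ) ≤ z then
    max 0 (Real.log (top v x / FinitePlace.mk v (x l)) - Real.log (Ideal.absNorm v.asIdeal : ℝ))
      else 0)

open Classical in
theorem Lin.lenT_eq {x : Fin 3 → K} (h : Lin x) (l : Fin 3) (z : ℝ) :
    lenT l z (Ef (x 0 / x 1)) = exz3 z l x := by
  unfold exz3
  have h1 : ∀ v : HeightOneSpectrum (𝓞 K), (if (Ideal.absNorm v.asIdeal : ℝ) ≤ z then
      max 0 (Real.log (top v x / FinitePlace.mk v (x l)) - Real.log (Ideal.absNorm v.asIdeal : ℝ))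
        else 0) = if Nv v ≤ z then (Ef (x 0 / x 1) l v : ℝ) * Real.log (Nv v) else 0 := by
    intro v
    have e1 : Real.log (top v x / FinitePlace.mk v (x l)) =
        (Pf (x 0 / x 1) l v : ℝ) * Real.log (Nv v) := by
      have h1 := h.top_pos v
      have h2 := zp_pos v (-(Pf (x 0 / x 1) l v : ℤ))
      rw [h.val l v, div_mul_eq_div_div, div_self h1.ne', one_div, Real.log_inv, Real.log_zpow]
      push_cast
      ring
    have e2 : Ef (x 0 / x 1) l v = Pf (x 0 / x 1) l v - 1 := shr_apply _ _
    have e3 : max 0 (Real.log (top v x / FinitePlace.mk v (x l)) -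
        Real.log (Ideal.absNorm v.asIdeal : ℝ)) = (Ef (x 0 / x 1) l v : ℝ) * Real.log (Nv v) := by
      have hl := logNv v
      rw [e1, e2]
      show max 0 ((Pf (x 0 / x 1) l v : ℝ) * Real.log (Nv v) - Real.log (Nv v)) = _
      rcases Nat.eq_zero_or_pos (Pf (x 0 / x 1) l v) with h0 | h0
      · rw [h0]
        simp
        exact hl.le
      · rw [Nat.cast_sub h0, Nat.cast_one]
        have : (1 : ℝ) ≤ (Pf (x 0 / x 1) l v : ℝ) := by exact_mod_cast h0
        rw [max_eq_right]
        · ring
        · nlinarith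
    rw [e3]
    rfl
  rw [finsum_congr h1, finsum_eq_sum_of_support_subset (s := (Ef (x 0 / x 1) l).support)]
  · unfold lenT
    rw [Finset.sum_filter]
  · intro v hv
    rw [Function.mem_support] at hv
    rw [Finset.mem_coe, Finsupp.mem_support_iff]
    intro h0
    apply hv
    rw [h0]
    simp

end Pool.Agent.Run7.h585.NF
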