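import Pool.Agent.Run7.h585.NF.RatB
import Pool.Agent.Run7.h585.NF.ShareC

/-!
# The anatomy for triples of natural numbers (helper585)
-/

set_option autoImplicit false
set_option linter.unusedSectionVars false

namespace Pool.Agent.Run7.h585.NF.RatB

open NumberField IsDedekindDomain Finset Filter Topology Pool.Agent.H691R3 Pool.Agent.W223.AK
open Pool.Agent.N906.RS
open Pool.Agent.Run7.h585.NF
open Pool.Agent.TH402.AK (Tri pt)
open Pool.Agent.N776.RS (shr shr_apply)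

theorem Pf_nat {a b : ℕ} (ha : 0 < a) (hb : 0 < b) (hab : Nat.Coprime a b) (l : Fin 3) (v : Pr ℚ) :
    Pf (pt ((a : ℕ) : 𝓞 ℚ) ((b : ℕ) : 𝓞 ℚ)) l v = (m3 a b l).factorization (pp v) := by
  have hT := tri_nat ha hb hab
  have hL := lin_x3 hT
  have hm := m3_ne ha hb l
  have h1 := hL.val l v
  rw [x3_div, top_x3 hT, one_mul, fv_x3, n3_nat, fv_nat v hm] at h1
  have h2 := Nv_zpow_inj v h1
  omega

theorem Ef_nat {a b : ℕ} (ha : 0 < a) (hb : 0 < b) (hab : Nat.Coprime a b) (l : Fin 3) (v : Pr ℚ) :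
    Ef (pt ((a : ℕ) : 𝓞 ℚ) ((b : ℕ) : 𝓞 ℚ)) l v = (m3 a b l).factorization (pp v) - 1 := by
  rw [← Pf_nat ha hb hab l v]
  exact shr_apply _ _

theorem Pf_supp {a b : ℕ} (ha : 0 < a) (hb : 0 < b) (hab : Nat.Coprime a b) (l : Fin 3) :
    (Pf (pt ((a : ℕ) : 𝓞 ℚ) ((b : ℕ) : 𝓞 ℚ)) l).support.image pp = (m3 a b l).primeFactors := by
  classical
  have hm := m3_ne ha hb l
  ext p
  rw [Finset.mem_image]
  constructor
  · rintro ⟨v, hv, rfl⟩
    rw [Finsupp.mem_support_iff, Pf_nat ha hb hab] at hv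
    rw [← Nat.support_factorization, Finsupp.mem_support_iff]
    exact hv
  · intro hp
    obtain ⟨v, rfl⟩ := pp_surj (Nat.prime_of_mem_primeFactors hp)
    refine ⟨v, ?_, rfl⟩
    rw [Finsupp.mem_support_iff, Pf_nat ha hb hab]
    rw [← Nat.support_factorization, Finsupp.mem_support_iff] at hp
    exact hp

theorem Ef_supp {a b : ℕ} (ha : 0 < a) (hb : 0 < b) (hab : Nat.Coprime a b) (l : Fin 3) :
    (Ef (pt ((a : ℕ) : 𝓞 ℚ) ((b : ℕ) : 𝓞 ℚ)) l).support.image pp =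
      (m3 a b l).primeFactors.filter (fun p => p ^ 2 ∣ m3 a b l) := by
  classical
  have hm := m3_ne ha hb l
  ext p
  rw [Finset.mem_image, Finset.mem_filter]
  constructor
  · rintro ⟨v, hv, rfl⟩
    rw [Finsupp.mem_support_iff, Ef_nat ha hb hab] at hv
    refine ⟨?_, ((pp_spec v).1.pow_dvd_iff_le_factorization hm).2 (by omega)⟩
    rw [← Nat.support_factorization, Finsupp.mem_support_iff]
    omega
  · rintro ⟨hp, h2⟩
    obtain ⟨v, rfl⟩ := pp_surj (Nat.prime_of_mem_primeFactors hp)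
    refine ⟨v, ?_, rfl⟩
    rw [Finsupp.mem_support_iff, Ef_nat ha hb hab]
    have := ((pp_spec v).1.pow_dvd_iff_le_factorization hm).1 h2
    omega

/-- the product of the primes whose square divides `n` -/
def sqr (n : ℕ) : ℕ := ∏ p ∈ n.primeFactors.filter (fun p => p ^ 2 ∣ n), p

/-- the excess at the primes up to `z` -/
noncomputable def exl (z : ℝ) (n : ℕ) : ℝ :=
  ∑ p ∈ n.primeFactors.filter (fun p : ℕ => (p : ℝ) ≤ z), ((n.factorization p : ℝ) - 1) * Real.log p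

theorem rl_nat {a b : ℕ} (ha : 0 < a) (hb : 0 < b) (hab : Nat.Coprime a b) (l : Fin 3) :
    rl (Pf (pt ((a : ℕ) : 𝓞 ℚ) ((b : ℕ) : 𝓞 ℚ)) l) = Real.log (rad (m3 a b l)) := by
  classical
  unfold rl rad
  rw [← Pf_supp ha hb hab l, Finset.prod_image fun v _ w _ h => pp_inj h, Nat.cast_prod,
    Real.log_prod fun v _ => by exact_mod_cast (pp_spec v).1.ne_zero]
  rfl

theorem rlE_nat {a b : ℕ} (ha : 0 < a) (hb : 0 < b) (hab : Nat.Coprime a b) (l : Fin 3) :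
    rl (Ef (pt ((a : ℕ) : 𝓞 ℚ) ((b : ℕ) : 𝓞 ℚ)) l) = Real.log (sqr (m3 a b l)) := by
  classical
  unfold rl sqr
  rw [← Ef_supp ha hb hab l, Finset.prod_image fun v _ w _ h => pp_inj h, Nat.cast_prod,
    Real.log_prod fun v _ => by exact_mod_cast (pp_spec v).1.ne_zero]
  rfl

theorem lenT_nat {a b : ℕ} (ha : 0 < a) (hb : 0 < b) (hab : Nat.Coprime a b) (l : Fin 3) (z : ℝ) :
    lenT l z (Ef (pt ((a : ℕ) : 𝓞 ℚ) ((b : ℕ) : 𝓞 ℚ))) = exl z (m3 a b l) := by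
  classical
  have h1 : lenT l z (Ef (pt ((a : ℕ) : 𝓞 ℚ) ((b : ℕ) : 𝓞 ℚ))) =
      ∑ v ∈ (Pf (pt ((a : ℕ) : 𝓞 ℚ) ((b : ℕ) : 𝓞 ℚ)) l).support.filter (fun v => Nv v ≤ z),
        (Ef (pt ((a : ℕ) : 𝓞 ℚ) ((b : ℕ) : 𝓞 ℚ)) l v : ℝ) * Real.log (Nv v) := by
    unfold lenT
    refine Finset.sum_subset ?_ ?_
    · intro v hv
      rw [Finset.mem_filter, Finsupp.mem_support_iff] at hv ⊢
      refine ⟨?_, hv.2⟩
      rw [Ef_nat ha hb hab] at hv
      rw [Pf_nat ha hb hab]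
      omega
    · intro v hv hv'
      rw [Finset.mem_filter] at hv hv'
      have : Ef (pt ((a : ℕ) : 𝓞 ℚ) ((b : ℕ) : 𝓞 ℚ)) l v = 0 := by
        by_contra h
        exact hv' ⟨Finsupp.mem_support_iff.2 h, hv.2⟩
      rw [this]
      simp
  have h2 : ((Pf (pt ((a : ℕ) : 𝓞 ℚ) ((b : ℕ) : 𝓞 ℚ)) l).support.filter
      (fun v => Nv v ≤ z)).image pp = (m3 a b l).primeFactors.filter (fun p : ℕ => (p : ℝ) ≤ z) := by
    rw [← Pf_supp ha hb hab l, Finset.filter_image]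
    rfl
  rw [h1]
  unfold exl
  rw [← h2, Finset.sum_image fun v _ w _ h => pp_inj h]
  refine Finset.sum_congr rfl fun v hv => ?_
  rw [Finset.mem_filter, Finsupp.mem_support_iff, Pf_nat ha hb hab] at hv
  rw [Ef_nat ha hb hab, Nat.cast_sub (by omega), Nat.cast_one]
  rfl

/-- the anatomy of a triple of natural numbers -/
structure AnatN (κ ε X : ℝ) (a b : ℕ) : Prop where
  height : (1 - ε) * X ≤ Real.log ((a + b : ℕ) : ℝ)
  sizes : ∀ l, Real.log ((a + b : ℕ) : ℝ) ≤ Real.log 2 + ε * X + Real.log (m3 a b l)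
  radical : ∀ l, |Real.log (rad (m3 a b l)) - (1 - κ / 3) * X| ≤ ε * X
  multiple : ∀ l, Real.log (sqr (m3 a b l)) ≤ ε * X
  share : ∀ l, ∀ z : ℝ, 2 ≤ z → |exl z (m3 a b l) - pr X z * (κ / 3 * X)| ≤ ε * X
  law : LawN κ ε X a b

theorem anatN_of {κ ε X : ℝ} {a b : ℕ} (ha : 0 < a) (hb : 0 < b) (hab : Nat.Coprime a b)
    (h : Anat κ ε X (pt ((a : ℕ) : 𝓞 ℚ) ((b : ℕ) : 𝓞 ℚ))) : AnatN κ ε X a b := by
  obtain ⟨⟨h1, h2, h3, -, h5, -⟩, hlaw, hsh⟩ := h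
  have hT := tri_nat ha hb hab
  have hH := tri_H hT
  rw [hI_nat ha hb] at hH
  refine ⟨h1.trans hH.1, fun l => ?_, fun l => ?_, fun l => ?_, fun l z hz => ?_,
    fun l z τ hz hτ => ?_⟩
  · have h7 := (lin_x3 hT).inf h2 (default : InfinitePlace ℚ) 2 l
    rw [w_x3, w_x3, n3_nat, n3_nat] at h7
    have e : ∀ n : ℕ, (default : InfinitePlace ℚ) (((n : ℕ) : 𝓞 ℚ) : ℚ) = n := by
      intro n
      have : (((n : ℕ) : 𝓞 ℚ) : ℚ) = ((n : ℕ) : ℚ) := map_natCast (algebraMap (𝓞 ℚ) ℚ) n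
      rw [this, InfinitePlace.map_natCast]
    rw [e, e] at h7
    have h8 : (0 : ℝ) < (m3 a b 2 : ℕ) := by exact_mod_cast Nat.pos_of_ne_zero (m3_ne ha hb 2)
    have h9 : (0 : ℝ) < (m3 a b l : ℕ) := by exact_mod_cast Nat.pos_of_ne_zero (m3_ne ha hb l)
    have h10 := Real.log_le_log h8 h7
    rw [Real.log_mul (by positivity) h9.ne', Real.log_mul (by norm_num) (Real.exp_pos _).ne',
      Real.log_exp] at h10
    exact h10
  · rw [← rl_nat ha hb hab]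
    exact h5 l
  · rw [← rlE_nat ha hb hab]
    refine le_trans ?_ h3
    unfold Pool.Agent.N906.RS.tr
    exact Finset.single_le_sum
      (f := fun l => rl (Ef (pt ((a : ℕ) : 𝓞 ℚ) ((b : ℕ) : 𝓞 ℚ)) l)) (fun l _ => rl_nonneg _)
      (Finset.mem_univ l)
  · rw [← lenT_nat ha hb hab]
    exact hsh l z hz
  · have h7 := hlaw l z τ hz hτ
    rw [cntE_nat ha hb hab l z hτ] at h7
    exact h7

/-- **The proportion of the triples with a rare property.** -/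
theorem prop_natR (κ C₀ : ℝ) (hκ : 0 < κ) (hκ1 : κ < 1) (hC₀ : 0 ≤ C₀) (P : ℝ → ℚ → Prop)
    (hP : Rare κ (fun X (x : ℚ) => Cand κ (C₀ + 3 * lossK ℚ) X x ∧ P X x)) :
    ∃ δ X₀ : ℝ, 0 < δ ∧ 3 ≤ X₀ ∧ ∀ X : ℝ, X₀ ≤ X → ∀ S : Set (ℕ × ℕ),
      (∀ a b : ℕ, 0 < a → 0 < b → Nat.Coprime a b → Real.log ((a + b : ℕ) : ℝ) ≤ X →
        Real.log (rad (a * b * (a + b))) ≤ (3 - κ) * Real.log ((a + b : ℕ) : ℝ) → (a, b) ∈ S) →
      (∀ p ∈ S, 0 < p.1 ∧ 0 < p.2 ∧ Nat.Coprime p.1 p.2 ∧ Real.log ((p.1 + p.2 : ℕ) : ℝ) ≤ X ∧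
        Real.log (rad (p.1 * p.2 * (p.1 + p.2))) ≤
          (3 - κ) * Real.log ((p.1 + p.2 : ℕ) : ℝ) + C₀) →
      S.Finite ∧ ∀ B : Set (ℕ × ℕ), B ⊆ S →
        (∀ p ∈ B, P X (pt ((p.1 : ℕ) : 𝓞 ℚ) ((p.2 : ℕ) : 𝓞 ℚ))) →
        (B.ncard : ℝ) ≤ Real.exp (-(δ * s1 κ X)) * S.ncard := by
  have hloss : 0 ≤ lossK ℚ := by
    have hb := (Lin.w3 (K := ℚ) (t := 1) ⟨one_ne_zero, by norm_num⟩).H3
    linarith [hb.1, hb.2]
  obtain ⟨δ, X₁, hδ, hX₁, h⟩ := prop_rare ℚ κ (C₀ + 3 * lossK ℚ) (lossK ℚ) hκ hκ1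
    (by positivity) hloss P hP
  obtain ⟨X₂, hX₂⟩ := eventually_atTop.1 (s1_large κ (2 * Real.log 3 / δ) hκ)
  refine ⟨δ / 2, max X₁ X₂, by positivity, hX₁.trans (le_max_left _ _),
    fun X hX S hS1 hS2 => ?_⟩
  obtain ⟨g, hg⟩ : ∃ g : Fin 3 → ℕ × ℕ → ℚ,
    g = fun i p => u3 p.1 p.2 i 0 / u3 p.1 p.2 i 1 := ⟨_, rfl⟩
  have hg' : ∀ i p, g i p = u3 p.1 p.2 i 0 / u3 p.1 p.2 i 1 := fun i p => by rw [hg]
  obtain ⟨hfin, hB⟩ := h X ((le_max_left _ _).trans hX) (⋃ i, g i '' S) (by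
    intro x hx h1 h2
    obtain ⟨a, b, ha, hb, hab, i, hi⟩ := pt_exists hx
    obtain ⟨-, e1, e2, e3⟩ := pt_spec ha hb hab i
    rw [hi] at e1 e2 e3
    rw [Set.mem_iUnion]
    refine ⟨i, (a, b), hS1 a b ha hb hab (by linarith) ?_, ?_⟩
    · rw [← e3]
      refine h2.trans ?_
      apply mul_le_mul_of_nonneg_left e1
      linarith
    · rw [hg']
      exact hi) (by
    intro x hx
    rw [Set.mem_iUnion] at hx
    obtain ⟨i, p, hp, rfl⟩ := hx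
    obtain ⟨g1, g2, g3, g4, g5⟩ := hS2 p hp
    obtain ⟨e0, e1, e2, e3⟩ := pt_spec g1 g2 g3 i
    rw [hg']
    refine ⟨e0, e1.trans g4, ?_⟩
    rw [e3]
    refine g5.trans ?_
    have h5 := mul_le_mul_of_nonneg_left e2 (by linarith : (0 : ℝ) ≤ 3 - κ)
    have h6 := mul_nonneg hκ.le hloss
    linarith [show (3 - κ) * (W223.AK.ht (u3 p.1 p.2 i 0 / u3 p.1 p.2 i 1) + lossK ℚ) =
      (3 - κ) * W223.AK.ht (u3 p.1 p.2 i 0 / u3 p.1 p.2 i 1) + 3 * lossK ℚ - κ * lossK ℚ by ring])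
  have hinj : Set.InjOn (g 0) S := by
    intro p hp q hq h
    obtain ⟨g1, g2, g3, -, -⟩ := hS2 p hp
    obtain ⟨k1, k2, k3, -, -⟩ := hS2 q hq
    rw [hg', hg'] at h
    have h1 : (p.1 : ℚ) / p.2 = q.1 / q.2 := h
    have hp2 : (p.2 : ℚ) ≠ 0 := by exact_mod_cast g2.ne'
    have hq2 : (q.2 : ℚ) ≠ 0 := by exact_mod_cast k2.ne'
    rw [div_eq_div_iff hp2 hq2] at h1
    have h2 : p.1 * q.2 = q.1 * p.2 := by exact_mod_cast h1
    have h3 : p.2 ∣ q.2 := by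
      have : p.2 ∣ p.1 * q.2 := by rw [h2]; exact Dvd.intro_left _ rfl
      exact g3.symm.dvd_of_dvd_mul_left this
    have h4 : q.2 ∣ p.2 := by
      have : q.2 ∣ q.1 * p.2 := by rw [← h2]; exact Dvd.intro_left _ rfl
      exact k3.symm.dvd_of_dvd_mul_left this
    have h5 : p.2 = q.2 := Nat.dvd_antisymm h3 h4
    rw [h5] at h2
    have h6 : p.1 = q.1 := Nat.eq_of_mul_eq_mul_right k2 h2
    exact Prod.ext h6 h5
  have hSfin : S.Finite := (hfin.subset (Set.subset_iUnion (fun i => g i '' S) 0)).of_finite_image hinj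
  refine ⟨hSfin, fun B hBS hBP => ?_⟩
  have h1 := hB (g 0 '' B) (by
    rintro _ ⟨p, hp, rfl⟩
    rw [Set.mem_iUnion]
    exact ⟨0, p, hBS hp, rfl⟩) (by
    rintro _ ⟨p, hp, rfl⟩
    rw [hg', u3_pt]
    exact hBP p hp)
  rw [Set.InjOn.ncard_image (hinj.mono hBS)] at h1
  have h2 : ((⋃ i, g i '' S : Set ℚ).ncard : ℝ) ≤ 3 * S.ncard := by
    have e : (⋃ i, g i '' S) = g 0 '' S ∪ (g 1 '' S ∪ g 2 '' S) := by
      ext x
      simp only [Set.mem_iUnion, Set.mem_union]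
      constructor
      · rintro ⟨i, hi⟩
        have h3 : ∀ l : Fin 3, l = 0 ∨ l = 1 ∨ l = 2 := by decide
        rcases h3 i with rfl | rfl | rfl
        · exact Or.inl hi
        · exact Or.inr (Or.inl hi)
        · exact Or.inr (Or.inr hi)
      · rintro (hi | hi | hi)
        · exact ⟨0, hi⟩
        · exact ⟨1, hi⟩
        · exact ⟨2, hi⟩
    rw [e]
    have k1 := Set.ncard_union_le (g 0 '' S) (g 1 '' S ∪ g 2 '' S)
    have k2 := Set.ncard_union_le (g 1 '' S) (g 2 '' S)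
    have k3 := fun i => Set.ncard_image_le (f := g i) hSfin
    have k4 : (g 0 '' S ∪ (g 1 '' S ∪ g 2 '' S)).ncard ≤ 3 * S.ncard := by
      have := k3 0
      have := k3 1
      have := k3 2
      omega
    exact_mod_cast k4
  have h8 := hX₂ X ((le_max_right _ _).trans hX)
  rw [div_le_iff₀ hδ] at h8
  calc (B.ncard : ℝ) ≤ Real.exp (-(δ * s1 κ X)) * (⋃ i, g i '' S : Set ℚ).ncard := h1
    _ ≤ Real.exp (-(δ * s1 κ X)) * (3 * S.ncard) :=
        mul_le_mul_of_nonneg_left h2 (Real.exp_pos _).le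
    _ = Real.exp (Real.log 3 - δ * s1 κ X) * S.ncard := by
        rw [sub_eq_add_neg, Real.exp_add, Real.exp_log (by norm_num : (0 : ℝ) < 3)]
        ring
    _ ≤ _ := by
        apply mul_le_mul_of_nonneg_right _ (Nat.cast_nonneg _)
        apply Real.exp_le_exp.2
        linarith

end Pool.Agent.Run7.h585.NF.RatB
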