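import Pool.Agent.Run7.h585.NF.Int
import Pool.Agent.TH402.AK.Count
import Pool.Agent.R365.AK.Frac

/-!
# Triples of Gaussian integers (helper585)
-/

set_option autoImplicit false
set_option linter.unusedSectionVars false

namespace Pool.Agent.Run7.h585.NF.Gau

open NumberField IsDedekindDomain Finset Filter Topology Pool.Agent.H691R3 Pool.Agent.W223.AK
open Pool.Agent.TH402.AK (K4 e gn gn_inj gn_norm gn_prime gn_quad gn_span GTri phi fibre
  card_le_four place_e finrank4 sum_mult quadrant_uniq Tri pt coe_ne)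

theorem mem_pow_iff (v : Pr K4) (n : GaussianInt) (k : ℕ) : e n ∈ v.asIdeal ^ k ↔ gn v ^ k ∣ n := by
  rw [gn_span v, Ideal.span_singleton_pow, Ideal.mem_span_singleton, ← map_pow]
  exact map_dvd_iff e

theorem quad_pow (n : GaussianInt) (k : ℕ) :
    {Q : GaussianInt | Prime Q ∧ Q ^ k ∣ n ∧ (0 < Q.re ∧ 0 ≤ Q.im)} =
      gn '' {v : Pr K4 | e n ∈ v.asIdeal ^ k} := by
  ext Q
  constructor
  · rintro ⟨h1, h2, h3⟩
    have h4 : Prime (e Q) := (MulEquiv.prime_iff e).2 h1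
    have h5 : (Ideal.span {e Q} : Ideal (𝓞 K4)).IsPrime :=
      (Ideal.span_singleton_prime h4.ne_zero).2 h4
    have h6 : (Ideal.span {e Q} : Ideal (𝓞 K4)) ≠ ⊥ := by
      rw [Ne, Ideal.span_singleton_eq_bot]
      exact h4.ne_zero
    have h7 := gn_span ⟨Ideal.span {e Q}, h5, h6⟩
    have h8 : Associated (e Q) (e (gn ⟨Ideal.span {e Q}, h5, h6⟩)) := by
      rw [← Ideal.span_singleton_eq_span_singleton]
      exact h7
    have h9 : Associated Q (gn ⟨Ideal.span {e Q}, h5, h6⟩) := by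
      have := h8.map e.symm
      simpa using this
    have h10 : gn ⟨Ideal.span {e Q}, h5, h6⟩ = Q := (quadrant_uniq h3 (gn_quad _) h9).symm
    refine ⟨⟨Ideal.span {e Q}, h5, h6⟩, ?_, h10⟩
    show e n ∈ (⟨Ideal.span {e Q}, h5, h6⟩ : Pr K4).asIdeal ^ k
    rw [mem_pow_iff, h10]
    exact h2
  · rintro ⟨v, hv, rfl⟩
    refine ⟨gn_prime v, ?_, gn_quad v⟩
    exact (mem_pow_iff v n k).1 hv

theorem fin_v {n : GaussianInt} (hn : n ≠ 0) : {v : Pr K4 | e n ∈ v.asIdeal}.Finite := by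
  have h0 : ((e n : 𝓞 K4) : K4) ≠ 0 := coe_ne ((map_ne_zero_iff e e.injective).2 hn)
  have h1 := fv_support_finite h0
  refine h1.subset ?_
  intro v hv
  show fv v (e n : K4) ≠ 1
  exact ((Pool.Agent.H691R3.fv_lt_one_iff v).2 hv).ne

theorem log_prod {S : Set (Pr K4)} (hS : S.Finite) :
    2 * Real.log (∏ᶠ Q ∈ gn '' S, ‖GaussianInt.toComplex Q‖) =
      ∑ᶠ v ∈ S, Real.log (Ideal.absNorm v.asIdeal : ℝ) := by
  have hp : ∀ v : Pr K4, ‖GaussianInt.toComplex (gn v)‖ ≠ 0 := by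
    intro v h
    have h1 := gn_norm v
    rw [h] at h1
    have h2 := Nv1 v
    norm_num at h1
    linarith
  rw [finprod_mem_image gn_inj.injOn, finprod_mem_eq_finite_toFinset_prod _ hS,
    finsum_mem_eq_finite_toFinset_sum _ hS, Real.log_prod (fun v _ => hp v), Finset.mul_sum]
  refine Finset.sum_congr rfl fun v _ => ?_
  have h1 := gn_norm v
  have e1 : (Ideal.absNorm v.asIdeal : ℝ) = Nv v := rfl
  rw [e1, ← h1, Real.log_pow]
  norm_num

theorem log_rad {n : GaussianInt} (hn : n ≠ 0) :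
    2 * Real.log (∏ᶠ Q ∈ {Q : GaussianInt | Prime Q ∧ Q ∣ n ∧ (0 < Q.re ∧ 0 ≤ Q.im)},
      ‖GaussianInt.toComplex Q‖) = radI (e n) := by
  have h1 := quad_pow n 1
  simp only [pow_one] at h1
  rw [h1, log_prod (fin_v hn)]
  rfl

theorem log_sq {n : GaussianInt} (hn : n ≠ 0) :
    2 * Real.log (∏ᶠ Q ∈ {Q : GaussianInt | Prime Q ∧ Q ^ 2 ∣ n ∧ (0 < Q.re ∧ 0 ≤ Q.im)},
      ‖GaussianInt.toComplex Q‖) = sqI (e n) := by
  rw [quad_pow n 2, log_prod ((fin_v hn).subset ?_)]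
  · rfl
  · intro v hv
    exact Ideal.pow_le_self two_ne_zero hv

theorem cnt_sq (z : ℝ) (n : GaussianInt) :
    {Q : GaussianInt | (Prime Q ∧ Q ^ 2 ∣ n ∧ (0 < Q.re ∧ 0 ≤ Q.im)) ∧
      ‖GaussianInt.toComplex Q‖ ^ 2 ≤ z}.ncard = cntI z (e n) := by
  have h1 : {Q : GaussianInt | (Prime Q ∧ Q ^ 2 ∣ n ∧ (0 < Q.re ∧ 0 ≤ Q.im)) ∧
      ‖GaussianInt.toComplex Q‖ ^ 2 ≤ z} =
      gn '' {v : Pr K4 | (Ideal.absNorm v.asIdeal : ℝ) ≤ z ∧ e n ∈ v.asIdeal ^ 2} := by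
    ext Q
    constructor
    · rintro ⟨g1, g2⟩
      have g3 : Q ∈ {Q : GaussianInt | Prime Q ∧ Q ^ 2 ∣ n ∧ (0 < Q.re ∧ 0 ≤ Q.im)} := g1
      rw [quad_pow n 2] at g3
      obtain ⟨v, hv, rfl⟩ := g3
      refine ⟨v, ⟨?_, hv⟩, rfl⟩
      have := gn_norm v
      rw [this] at g2
      exact g2
    · rintro ⟨v, ⟨hv1, hv2⟩, rfl⟩
      have g3 : gn v ∈ gn '' {v : Pr K4 | e n ∈ v.asIdeal ^ 2} := ⟨v, hv2, rfl⟩
      rw [← quad_pow n 2] at g3
      refine ⟨g3, ?_⟩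
      rw [gn_norm v]
      exact hv1
  rw [h1, Set.ncard_image_of_injective _ gn_inj]
  rfl

theorem pid4 : IsPrincipalIdealRing (NumberField.RingOfIntegers K4) :=
  IsPrincipalIdealRing.of_surjective e.toRingHom e.surjective

theorem exists_gauss {x : K4} (hx : Pt x) : ∃ p : GaussianInt × GaussianInt, GTri p ∧
    phi p = x := by
  obtain ⟨a, b, hab, h⟩ := Pool.Agent.R365.AK.exists_tri pid4 hx
  refine ⟨(e.symm a, e.symm b), ⟨?_, ?_, ?_, ?_⟩, ?_⟩
  · exact (map_ne_zero_iff e.symm e.symm.injective).2 hab.a0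
  · exact (map_ne_zero_iff e.symm e.symm.injective).2 hab.b0
  · show e.symm a + e.symm b ≠ 0
    rw [← map_add]
    exact (map_ne_zero_iff e.symm e.symm.injective).2 hab.c0
  · exact hab.cop.map e.symm.toRingHom
  · show pt (e (e.symm a)) (e (e.symm b)) = x
    rw [RingEquiv.apply_symm_apply, RingEquiv.apply_symm_apply]
    exact h

/-- the height -/
theorem hI_gauss (p : GaussianInt × GaussianInt) :
    hI (e p.1) (e p.2) = 2 * Real.log (max ‖GaussianInt.toComplex p.1‖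
      (max ‖GaussianInt.toComplex p.2‖ ‖GaussianInt.toComplex (p.1 + p.2)‖)) := by
  unfold hI
  have h1 : ∀ w : InfinitePlace K4, (w.mult : ℝ) * Real.log (max (w ((e p.1 : 𝓞 K4) : K4))
      (max (w ((e p.2 : 𝓞 K4) : K4)) (w ((e p.1 + e p.2 : 𝓞 K4) : K4)))) =
      (w.mult : ℝ) * Real.log (max ‖GaussianInt.toComplex p.1‖
      (max ‖GaussianInt.toComplex p.2‖ ‖GaussianInt.toComplex (p.1 + p.2)‖)) := by
    intro w
    rw [← map_add e, place_e, place_e, place_e]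
  rw [Finset.sum_congr rfl fun w _ => h1 w, ← Finset.sum_mul, ← Nat.cast_sum, sum_mult]
  norm_num

end Pool.Agent.Run7.h585.NF.Gau
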