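import Pool.Agent.Run7.h585.NF.LdA
import Pool.Agent.Run7.h585.NF.Int

/-!
# Large deviations of the radicals: coprime integers (helper585)
-/

set_option autoImplicit false

namespace Pool.Agent.Run7.h585.NF

open NumberField IsDedekindDomain Finset Filter Topology Module Pool.Agent.H691R3 Pool.Agent.W223.AK
open Pool.Agent.N906.RS
open Pool.Agent.TH402.AK (Tri pt coe_ne not_both)
open _root_.Run7.h585.LD _root_.Run7.h585.LD.Abs

variable {K : Type} [Field K] [NumberField K]

theorem H3_smul_int {a b : 𝓞 K} (h : Tri a b) {c : K} (hc : c ≠ 0) :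
    H3 (c • x3 a b) = H3 (x3 a b) := by
  have hp := log_product_formula (K := K) hc
  have hx0 : x3 a b 0 ≠ 0 := (lin_x3 h).x0
  have e1 : ∀ v : HeightOneSpectrum (𝓞 K), Real.log (max (FinitePlace.mk v ((c • x3 a b) 0))
      (max (FinitePlace.mk v ((c • x3 a b) 1)) (FinitePlace.mk v ((c • x3 a b) 2)))) =
      Real.log (fv v c) := by
    intro v
    have h1 := top_x3 h v
    unfold top at h1
    have e : ∀ i, FinitePlace.mk v ((c • x3 a b) i) = fv v c * FinitePlace.mk v (x3 a b i) :=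
      fun i => map_mul _ _ _
    have hv : 0 ≤ fv v c := apply_nonneg _ _
    rw [e, e, e, ← mul_max_of_nonneg _ _ hv, ← mul_max_of_nonneg _ _ hv, h1, mul_one]
  have e2 : ∀ v : HeightOneSpectrum (𝓞 K), Real.log (max (FinitePlace.mk v (x3 a b 0))
      (max (FinitePlace.mk v (x3 a b 1)) (FinitePlace.mk v (x3 a b 2)))) = 0 := by
    intro v
    have := top_x3 h v
    unfold top at this
    rw [this, Real.log_one]
  have e3 : ∀ w : InfinitePlace K, Real.log (max (w ((c • x3 a b) 0))
      (max (w ((c • x3 a b) 1)) (w ((c • x3 a b) 2)))) =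
      Real.log (w c) + Real.log (max (w (x3 a b 0)) (max (w (x3 a b 1)) (w (x3 a b 2)))) := by
    intro w
    have e : ∀ i, w ((c • x3 a b) i) = w c * w (x3 a b i) := fun i => map_mul _ _ _
    have hw : 0 < w c := InfinitePlace.pos_iff.2 hc
    have hm : 0 < max (w (x3 a b 0)) (max (w (x3 a b 1)) (w (x3 a b 2))) :=
      lt_of_lt_of_le (InfinitePlace.pos_iff.2 hx0) (le_max_left _ _)
    rw [e, e, e, ← mul_max_of_nonneg _ _ hw.le, ← mul_max_of_nonneg _ _ hw.le,
      Real.log_mul hw.ne' hm.ne']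
  unfold H3
  rw [finsum_congr e1, finsum_congr e2, finsum_zero, add_zero,
    Finset.sum_congr rfl fun w _ => by rw [e3 w, mul_add], Finset.sum_add_distrib]
  linarith

theorem rp_int {a b : 𝓞 K} (h : Tri a b) : ∃ c : K, c ≠ 0 ∧ rp (pt a b) = c • x3 a b := by
  have hl := lin_x3 h
  have hx : x3 a b ≠ 0 := fun h0 => hl.x0 (congrFun h0 0)
  have h1 := mk_w3 hl hx
  have h2 : rp (pt a b) = (Projectivization.mk K (x3 a b) hx).rep :=
    congrArg Projectivization.rep h1
  obtain ⟨c, hc⟩ := Projectivization.exists_smul_eq_mk_rep K (x3 a b) hx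
  exact ⟨c, c.ne_zero, by rw [h2, ← hc]; rfl⟩

theorem H3_rp {a b : 𝓞 K} (h : Tri a b) : H3 (rp (pt a b)) = hI a b := by
  obtain ⟨c, hc, e⟩ := rp_int h
  rw [e, H3_smul_int h hc, hI_eq h]

theorem cd3_rp {a b : 𝓞 K} (h : Tri a b) (l : Fin 3) :
    cd3 l (rp (pt a b)) = radI (n3 a b l) := by
  obtain ⟨h1, h2⟩ := rp_lin (lin_x3 h).pt
  have h3 := h1.rl_eq l
  rw [h2] at h3
  have h4 := radI_eq h l
  rw [x3_div] at h3
  exact h3.symm.trans h4

/-- from points to a set of objects with at most `m` objects for each point -/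
theorem four_lim {V A : ℝ → ℝ} {m e c : ℝ} (hm : 1 ≤ m)
    (h1 : ∀ T, A T ≤ V T) (h2 : ∀ T, V T ≤ m * A T) (hpos : ∀ᶠ T : ℝ in atTop, 0 < A T)
    (h : Tendsto (fun T : ℝ => (Real.log (A T) - e * T) / √(T / Real.log T)) atTop (𝓝 c)) :
    Tendsto (fun T : ℝ => (Real.log (V T) - e * T) / √(T / Real.log T)) atTop (𝓝 c) := by
  have hd : Tendsto (fun T : ℝ => √(T / Real.log T)) atTop atTop := by
    have h3 : Tendsto (fun T : ℝ => T / Real.log T) atTop atTop := by
      have h4 := (Real.isLittleO_log_id_atTop).tendsto_div_nhds_zero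
      have h5 : Tendsto (fun T : ℝ => Real.log T / T) atTop (𝓝[>] 0) := by
        rw [tendsto_nhdsWithin_iff]
        refine ⟨h4, ?_⟩
        filter_upwards [eventually_gt_atTop (1 : ℝ)] with T hT
        exact div_pos (Real.log_pos hT) (by linarith)
      refine (tendsto_inv_nhdsGT_zero.comp h5).congr fun T => ?_
      simp [inv_div]
    exact Real.tendsto_sqrt_atTop.comp h3
  have h3 : Tendsto (fun T : ℝ => (Real.log (A T) - e * T) / √(T / Real.log T) +
      Real.log m / √(T / Real.log T)) atTop (𝓝 (c + 0)) :=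
    h.add (hd.const_div_atTop _)
  rw [add_zero] at h3
  refine tendsto_of_tendsto_of_tendsto_of_le_of_le' h h3 ?_ ?_
  · filter_upwards [hpos] with T hT
    exact div_le_div_of_nonneg_right (by linarith [Real.log_le_log hT (h1 T)]) (Real.sqrt_nonneg _)
  · filter_upwards [hpos] with T hT
    rw [← add_div]
    refine div_le_div_of_nonneg_right ?_ (Real.sqrt_nonneg _)
    have h4 : 0 < V T := lt_of_lt_of_le hT (h1 T)
    have h5 := Real.log_le_log h4 (h2 T)
    rw [Real.log_mul (by linarith) hT.ne'] at h5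
    linarith

theorem four_exp {V V' A A' : ℝ → ℝ} {m δ L₀ : ℝ} (hm : 1 ≤ m) (hδ : 0 < δ)
    (h1 : ∀ T, A T ≤ V T) (h2 : ∀ T, V' T ≤ m * A' T) (hA : ∀ T, 0 ≤ A T)
    (h : ∀ T, L₀ ≤ T → A' T ≤ Real.exp (-(δ * √(T / Real.log T))) * A T) :
    ∀ᶠ T : ℝ in atTop, V' T ≤ Real.exp (-(δ / 2 * √(T / Real.log T))) * V T := by
  have hd : Tendsto (fun T : ℝ => √(T / Real.log T)) atTop atTop := by
    have h3 : Tendsto (fun T : ℝ => T / Real.log T) atTop atTop := by
      have h4 := (Real.isLittleO_log_id_atTop).tendsto_div_nhds_zero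
      have h5 : Tendsto (fun T : ℝ => Real.log T / T) atTop (𝓝[>] 0) := by
        rw [tendsto_nhdsWithin_iff]
        refine ⟨h4, ?_⟩
        filter_upwards [eventually_gt_atTop (1 : ℝ)] with T hT
        exact div_pos (Real.log_pos hT) (by linarith)
      refine (tendsto_inv_nhdsGT_zero.comp h5).congr fun T => ?_
      simp [inv_div]
    exact Real.tendsto_sqrt_atTop.comp h3
  filter_upwards [eventually_ge_atTop L₀, hd.eventually_ge_atTop (2 * Real.log m / δ)] with T hT hT2
  have h3 : m ≤ Real.exp (δ / 2 * √(T / Real.log T)) := by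
    rw [← Real.log_le_iff_le_exp (by linarith)]
    rw [div_le_iff₀ hδ] at hT2
    linarith
  calc V' T ≤ m * A' T := h2 T
    _ ≤ m * (Real.exp (-(δ * √(T / Real.log T))) * A T) :=
        mul_le_mul_of_nonneg_left (h T hT) (by linarith)
    _ ≤ Real.exp (δ / 2 * √(T / Real.log T)) * (Real.exp (-(δ * √(T / Real.log T))) * A T) :=
        mul_le_mul_of_nonneg_right h3 (mul_nonneg (Real.exp_pos _).le (hA T))
    _ = Real.exp (-(δ / 2 * √(T / Real.log T))) * A T := by
        rw [← mul_assoc, ← Real.exp_add]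
        congr 2
        ring
    _ ≤ _ := mul_le_mul_of_nonneg_left (h1 T) (Real.exp_pos _).le

end Pool.Agent.Run7.h585.NF
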