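import Pool.Agent.Run7.h585.NF.PowL
import Pool.Agent.Run7.h585.NF.Proj

/-!
# The law of the prime powers in terms of coordinates (helper585)
-/

set_option autoImplicit false
set_option linter.unusedSectionVars false

namespace Pool.Agent.Run7.h585.NF

open NumberField IsDedekindDomain Finset Filter Topology Pool.Agent.H691R3 Pool.Agent.W223.AK
open Pool.Agent.N906.RS
open Pool.Agent.N776.RS (shr shr_apply)

variable {K : Type} [Field K] [NumberField K]

theorem lam_eq {κ X : ℝ} (hκ : 0 < κ) (hX : 3 ≤ X) : lam κ X = √(κ * X * Real.log X / 6) := by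
  have hX0 : 0 < X := by linarith
  have hl : 0 < Real.log X := Real.log_pos (by linarith)
  have hs := s1_pos hκ hX
  have h1 := lam_pos hκ hX
  have hs2 : s1 κ X ^ 2 = 2 * κ * X / (3 * Real.log X) := Real.sq_sqrt (by positivity)
  rw [← Real.sqrt_sq h1.le]
  congr 1
  unfold lam
  rw [div_pow, mul_pow 3, hs2]
  field_simp
  ring

theorem logNv (v : Pr K) : 0 < Real.log (Nv v) := Real.log_pos (Nv1 v)

/-- the condition on a prime in terms of its exponent -/
theorem exc_iff {v : Pr K} {e : ℕ} {τ : ℝ} (hτ : 0 < τ) :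
    τ ≤ (e : ℝ) * Real.log (Nv v) - Real.log (Nv v) ↔
      (e - 1 : ℕ) ≠ 0 ∧ τ ≤ ((e - 1 : ℕ) : ℝ) * Real.log (Nv v) := by
  have hl := logNv v
  rcases Nat.lt_or_ge e 2 with h | h
  · constructor
    · intro h1
      have h2 : (e : ℝ) ≤ 1 := by
        have : e ≤ 1 := by omega
        exact_mod_cast this
      nlinarith
    · rintro ⟨h1, -⟩
      omega
  · have h1 : ((e - 1 : ℕ) : ℝ) = (e : ℝ) - 1 := by
      rw [Nat.cast_sub (by omega)]
      norm_num
    rw [h1]
    constructor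
    · intro h2
      exact ⟨by omega, by linarith⟩
    · rintro ⟨-, h2⟩
      linarith

/-- the number of the primes of norm at most `z` with a power of size at least `τ` in a coordinate -/
noncomputable def pwn3 (z τ : ℝ) (l : Fin 3) (x : Fin 3 → K) : ℕ :=
  {v : HeightOneSpectrum (𝓞 K) | (Ideal.absNorm v.asIdeal : ℝ) ≤ z ∧
    τ ≤ Real.log (top v x / FinitePlace.mk v (x l)) - Real.log (Ideal.absNorm v.asIdeal : ℝ)}.ncard

theorem Lin.cntE_eq {x : Fin 3 → K} (h : Lin x) (l : Fin 3) (z : ℝ) {τ : ℝ} (hτ : 0 < τ) :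
    cntE l z τ (Ef (x 0 / x 1)) = pwn3 z τ l x := by
  classical
  unfold cntE pwn3
  rw [← Set.ncard_coe_finset]
  congr 1
  ext v
  rw [Finset.mem_coe, Finset.mem_filter, Finsupp.mem_support_iff]
  have e1 : Real.log (top v x / FinitePlace.mk v (x l)) =
      (Pf (x 0 / x 1) l v : ℝ) * Real.log (Nv v) := by
    have h1 := h.top_pos v
    have h2 := zp_pos v (-(Pf (x 0 / x 1) l v : ℤ))
    rw [h.val l v, div_mul_eq_div_div, div_self h1.ne', one_div, Real.log_inv, Real.log_zpow]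
    push_cast
    ring
  have e2 : Ef (x 0 / x 1) l v = Pf (x 0 / x 1) l v - 1 := shr_apply _ _
  rw [e2]
  constructor
  · rintro ⟨g1, g2, g3⟩
    refine ⟨g2, ?_⟩
    rw [e1]
    exact (exc_iff hτ).2 ⟨g1, g3⟩
  · rintro ⟨g1, g2⟩
    rw [e1] at g2
    have g3 := (exc_iff (v := v) (e := Pf (x 0 / x 1) l v) hτ).1 g2
    exact ⟨g3.1, g1, g3.2⟩

/-- the number of the primes of norm at most `z` at which `a` has a zero with a power of size at least `τ` -/
noncomputable def pwn (z τ : ℝ) (a : K) : ℕ :=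
  {v : HeightOneSpectrum (𝓞 K) | (Ideal.absNorm v.asIdeal : ℝ) ≤ z ∧
    τ ≤ -Real.log (FinitePlace.mk v a) - Real.log (Ideal.absNorm v.asIdeal : ℝ)}.ncard

theorem pwn_neg (z τ : ℝ) (a : K) : pwn z τ (-a) = pwn z τ a := by
  unfold pwn
  congr 1
  ext v
  have : FinitePlace.mk v (-a) = FinitePlace.mk v a := (fv v).map_neg a
  show (_ ∧ _) ↔ (_ ∧ _)
  rw [this]

theorem cntE_yy {x : K} (hx : Pt x) (l : Fin 3) (z : ℝ) {τ : ℝ} (hτ : 0 < τ) :
    cntE l z τ (Ef x) = pwn z τ (yy l x) := by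
  classical
  unfold cntE pwn
  rw [← Set.ncard_coe_finset]
  congr 1
  ext v
  rw [Finset.mem_coe, Finset.mem_filter, Finsupp.mem_support_iff]
  have e2 : Ef x l v = Pf x l v - 1 := shr_apply _ _
  rw [e2]
  have hv := fv_yy hx l v
  have hl := logNv v
  by_cases h0 : Pf x l v = 0
  · have h1 : 0 ≤ Real.log (FinitePlace.mk v (yy l x)) := Real.log_nonneg (hv.2 h0)
    constructor
    · rintro ⟨g1, -⟩
      rw [h0] at g1
      exact absurd rfl g1
    · rintro ⟨-, g2⟩
      have : (Real.log (Ideal.absNorm v.asIdeal : ℝ)) = Real.log (Nv v) := rfl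
      rw [this] at g2
      linarith
  · have e1 : -Real.log (FinitePlace.mk v (yy l x)) = (Pf x l v : ℝ) * Real.log (Nv v) := by
      have h1 : FinitePlace.mk v (yy l x) = (Nv v) ^ (-(Pf x l v : ℤ)) := hv.1 h0
      rw [h1, Real.log_zpow]
      push_cast
      ring
    constructor
    · rintro ⟨g1, g2, g3⟩
      refine ⟨g2, ?_⟩
      rw [e1]
      exact (exc_iff hτ).2 ⟨g1, g3⟩
    · rintro ⟨g1, g2⟩
      rw [e1] at g2
      have g3 := (exc_iff (v := v) (e := Pf x l v) hτ).1 g2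
      exact ⟨g3.1, g1, g3.2⟩

end Pool.Agent.Run7.h585.NF
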