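import Pool.Agent.Run7.h585.NF.Int
import Pool.Agent.TH402.AK.Trip

/-!
# Triples of coprime integers, multiplicatively (helper585)
-/

set_option autoImplicit false
set_option linter.unusedSectionVars false

namespace Pool.Agent.Run7.h585.NF.Tri

open NumberField IsDedekindDomain Finset Filter Topology Pool.Agent.H691R3 Pool.Agent.W223.AK
open Pool.Agent.TH402.AK (Tri pt coe_ne)
open Pool.Agent.TH402.AK.Trip (Triple)

variable {K : Type} [Field K] [NumberField K]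

theorem fin_v {n : 𝓞 K} (hn : n ≠ 0) : {v : Pr K | n ∈ v.asIdeal}.Finite := by
  have h1 := fv_support_finite (coe_ne hn)
  refine h1.subset ?_
  intro v hv
  show fv v (n : K) ≠ 1
  exact ((Pool.Agent.H691R3.fv_lt_one_iff v).2 hv).ne

/-- the product of the norms of the primes `P` with `P ^ k ∣ n` -/
noncomputable def rd (k : ℕ) (n : 𝓞 K) : ℝ :=
  ∏ᶠ (P : HeightOneSpectrum (𝓞 K)) (_ : n ∈ P.asIdeal ^ k), (Ideal.absNorm P.asIdeal : ℝ)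

theorem fin_k {n : 𝓞 K} (hn : n ≠ 0) {k : ℕ} (hk : k ≠ 0) : {v : Pr K | n ∈ v.asIdeal ^ k}.Finite :=
  (fin_v hn).subset fun _ hv => Ideal.pow_le_self hk hv

theorem rd_one (k : ℕ) (n : 𝓞 K) : 1 ≤ rd k n := by
  have hm : ∀ x y : ℝ, 1 ≤ x → 1 ≤ y → 1 ≤ x * y := fun x y hx hy => by nlinarith
  refine finprod_induction (fun x : ℝ => 1 ≤ x) le_rfl hm fun v => ?_
  refine finprod_induction (fun x : ℝ => 1 ≤ x) le_rfl hm fun hQ => ?_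
  exact (Nv1 v).le

theorem log_rd {n : 𝓞 K} (hn : n ≠ 0) {k : ℕ} (hk : k ≠ 0) : Real.log (rd k n) =
    ∑ᶠ (P : HeightOneSpectrum (𝓞 K)) (_ : n ∈ P.asIdeal ^ k), Real.log (Ideal.absNorm P.asIdeal : ℝ) := by
  have hS := fin_k hn hk
  have e1 : rd k n = ∏ᶠ P ∈ {v : Pr K | n ∈ v.asIdeal ^ k}, (Ideal.absNorm P.asIdeal : ℝ) := rfl
  have e2 : (∑ᶠ (P : HeightOneSpectrum (𝓞 K)) (_ : n ∈ P.asIdeal ^ k),
      Real.log (Ideal.absNorm P.asIdeal : ℝ)) =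
      ∑ᶠ P ∈ {v : Pr K | n ∈ v.asIdeal ^ k}, Real.log (Ideal.absNorm P.asIdeal : ℝ) := rfl
  rw [e1, e2, finprod_mem_eq_finite_toFinset_prod _ hS, finsum_mem_eq_finite_toFinset_sum _ hS,
    Real.log_prod]
  intro v _
  have := Nv1 v
  have e3 : (Ideal.absNorm v.asIdeal : ℝ) = Nv v := rfl
  rw [e3]
  linarith

theorem log_rd1 {n : 𝓞 K} (hn : n ≠ 0) : Real.log (rd 1 n) = radI n := by
  rw [log_rd hn one_ne_zero]
  unfold radI
  simp only [pow_one]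

theorem log_rd2 {n : 𝓞 K} (hn : n ≠ 0) : Real.log (rd 2 n) = sqI n := log_rd hn two_ne_zero

theorem radI_neg (n : 𝓞 K) : radI (-n) = radI n := by
  unfold radI
  simp only [neg_mem_iff]

theorem sqI_neg (n : 𝓞 K) : sqI (-n) = sqI n := by
  unfold sqI
  simp only [neg_mem_iff]

theorem cntI_neg (z : ℝ) (n : 𝓞 K) : cntI z (-n) = cntI z n := by
  unfold cntI
  simp only [neg_mem_iff]

/-- the members of a triple -/
theorem mem_n3 {t : 𝓞 K × 𝓞 K × 𝓞 K} (h : Triple t) {n : 𝓞 K}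
    (hn : n ∈ ({t.1, t.2.1, t.2.2} : Set (𝓞 K))) :
    n ≠ 0 ∧ ∃ l : Fin 3, n = n3 t.1 t.2.1 l ∨ n = -(n3 t.1 t.2.1 l) := by
  have h1 := h.tri
  rcases hn with rfl | rfl | rfl
  · exact ⟨h1.a0, 0, Or.inl rfl⟩
  · exact ⟨h1.b0, 1, Or.inl rfl⟩
  · refine ⟨?_, 2, Or.inr h.c_eq⟩
    rw [h.c_eq]
    exact neg_ne_zero.2 h1.c0

theorem radI_mem {t : 𝓞 K × 𝓞 K × 𝓞 K} (h : Triple t) {n : 𝓞 K}
    (hn : n ∈ ({t.1, t.2.1, t.2.2} : Set (𝓞 K))) : n ≠ 0 ∧ ∃ l : Fin 3,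
    radI n = radI (n3 t.1 t.2.1 l) ∧ sqI n = sqI (n3 t.1 t.2.1 l) ∧
    (∀ z, cntI z n = cntI z (n3 t.1 t.2.1 l)) ∧
    ∀ w : InfinitePlace K, w (n : K) = w (n3 t.1 t.2.1 l : K) := by
  obtain ⟨h0, l, hl | hl⟩ := mem_n3 h hn
  · exact ⟨h0, l, by rw [hl], by rw [hl], fun z => by rw [hl], fun w => by rw [hl]⟩
  · refine ⟨h0, l, ?_, ?_, fun z => ?_, fun w => ?_⟩
    · rw [hl, radI_neg]
    · rw [hl, sqI_neg]
    · rw [hl, cntI_neg]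
    · rw [hl]
      have e : ((-(n3 t.1 t.2.1 l) : 𝓞 K) : K) = -((n3 t.1 t.2.1 l : 𝓞 K) : K) := by push_cast; rfl
      rw [e]
      exact w.1.map_neg _

theorem log_height {t : 𝓞 K × 𝓞 K × 𝓞 K} (h : Triple t) :
    Real.log (∏ φ : K →+* ℂ, max ‖φ t.1‖ (max ‖φ t.2.1‖ ‖φ t.2.2‖)) = hI t.1 t.2.1 :=
  (Pool.Agent.TH402.AK.Trip.hgt_eq h).trans h.tri.hgt

theorem radI_triple {t : 𝓞 K × 𝓞 K × 𝓞 K} (h : Triple t) :
    Pool.Agent.N906.RS.tr (Pf (pt t.1 t.2.1)) = radI (t.1 * t.2.1 * t.2.2) := by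
  rw [radI_prod h.tri, h.c_eq, mul_neg, radI_neg]

end Pool.Agent.Run7.h585.NF.Tri
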