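import Pool.Agent.N49.RS_GUP
import Pool.Agent.N163.RS_EUP
import Pool.Agent.Run7.h585.AN.Euc

/-!
# Generating functions of triples of ideals with weights (helper585)

Adapted from `Pool/Agent/N49/RS_GUP.lean`: the local weights may depend on the slot, the prime and the exponent.
-/

set_option autoImplicit false

namespace Pool.Agent.Run7.h585.NF

open NumberField IsDedekindDomain Finset Filter Topology Pool.Agent.H691R3 Pool.Agent.W223.AK
open Pool.Agent.N906.RS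
open Pool.Agent.N49.RS (code code_some code_none code_inj)
open Pool.Agent.N163.RS (G G_nonneg)

section Gen

open scoped Classical

variable {V : Type} (ω : Fin 3 → V → ℕ → ℝ)

/-- the local weights of the codes -/
noncomputable def WW (v : V) : Option (Fin 3 × ℕ) → ℝ
  | none => 1
  | some x => ω x.1 v (x.2 + 1)

theorem local_eq {E : Fin 3 → V →₀ ℕ} (hE : ∀ l l', l ≠ l' → ∀ v, E l v = 0 ∨ E l' v = 0) (v : V) :
    ∏ l : Fin 3, (if E l v ≠ 0 then ω l v (E l v) else 1) = WW ω v (code E v) := by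
  by_cases h : ∃ l, E l v ≠ 0
  · obtain ⟨l, hl⟩ := h
    rw [code_some hE hl, Fintype.prod_eq_single l, if_pos hl]
    · change _ = ω l v (E l v - 1 + 1)
      rw [Nat.sub_add_cancel (Nat.one_le_iff_ne_zero.2 hl)]
    · intro l' hl'
      rw [if_neg]
      rw [not_not]
      rcases hE l' l hl' v with h3 | h3
      · exact h3
      · exact absurd h3 hl
  · push Not at h
    rw [code_none h]
    change _ = (1 : ℝ)
    refine Finset.prod_eq_one fun l _ => ?_
    rw [if_neg (not_not.2 (h l))]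

/-- the weight of a triple is the product of the local weights -/
theorem weight_eq {E : Fin 3 → V →₀ ℕ} {s : Finset V} (hs : ∀ l, (E l).support ⊆ s) :
    ∏ l : Fin 3, ∏ v ∈ (E l).support, ω l v (E l v) =
      ∏ v ∈ s, ∏ l : Fin 3, (if E l v ≠ 0 then ω l v (E l v) else 1) := by
  rw [Finset.prod_comm]
  refine Finset.prod_congr rfl fun l _ => ?_
  rw [← Finset.prod_filter]
  refine Finset.prod_congr ?_ fun _ _ => rfl
  ext v
  rw [Finset.mem_filter, Finsupp.mem_support_iff]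
  exact ⟨fun h => ⟨hs l (Finsupp.mem_support_iff.2 h), h⟩, fun h => h.2⟩

theorem sum_le (hω : ∀ l v e, 0 ≤ ω l v e) {s : Finset V} {J : ℕ} (F : Finset (Fin 3 → V →₀ ℕ))
    (hF : ∀ E ∈ F, ∀ l l', l ≠ l' → ∀ v, E l v = 0 ∨ E l' v = 0)
    (hs : ∀ E ∈ F, ∀ l, (E l).support ⊆ s) (hJ : ∀ E ∈ F, ∀ l v, E l v ≤ J) :
    ∑ E ∈ F, ∏ v ∈ s, WW ω v (code E v) ≤
      ∏ v ∈ s, ∑ δ ∈ Finset.insertNone ((Finset.univ : Finset (Fin 3)) ×ˢ Finset.range J),
        WW ω v δ := by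
  have hW : ∀ v δ, 0 ≤ WW ω v δ := by
    intro v δ
    rcases δ with _ | δ
    · exact zero_le_one
    · exact hω _ _ _
  rw [Finset.prod_sum]
  let Φ : (Fin 3 → V →₀ ℕ) → ∀ a ∈ s, Option (Fin 3 × ℕ) := fun E a _ => code E a
  have hinj : Set.InjOn Φ (F : Set (Fin 3 → V →₀ ℕ)) := by
    intro E hE E' hE' h
    funext l
    refine Finsupp.ext fun v => ?_
    by_cases hv : v ∈ s
    · exact code_inj (hF E hE) (hF E' hE') (congrFun (congrFun h v) hv) l
    · have h1 : v ∉ (E l).support := fun h => hv (hs E hE l h)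
      have h2 : v ∉ (E' l).support := fun h => hv (hs E' hE' l h)
      rw [Finsupp.notMem_support_iff.1 h1, Finsupp.notMem_support_iff.1 h2]
  have h1 : ∑ E ∈ F, ∏ v ∈ s, WW ω v (code E v) =
      ∑ p ∈ F.image Φ, ∏ x ∈ s.attach, WW ω x.1 (p x.1 x.2) := by
    rw [Finset.sum_image hinj]
    refine Finset.sum_congr rfl fun E _ => ?_
    exact (Finset.prod_attach s fun v => WW ω v (code E v)).symm
  rw [h1]
  refine Finset.sum_le_sum_of_subset_of_nonneg ?_ fun p _ _ =>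
    Finset.prod_nonneg fun x _ => hW _ _
  intro p hp
  obtain ⟨E, hE, rfl⟩ := Finset.mem_image.1 hp
  rw [Finset.mem_pi]
  intro v hv
  change code E v ∈ _
  by_cases h : ∃ l, E l v ≠ 0
  · obtain ⟨l, hl⟩ := h
    rw [code_some (hF E hE) hl, Finset.some_mem_insertNone, Finset.mem_product]
    refine ⟨Finset.mem_univ _, Finset.mem_range.2 ?_⟩
    have := hJ E hE l v
    change E l v - 1 < J
    omega
  · push Not at h
    rw [code_none h]
    exact Finset.none_mem_insertNone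

/-- the Euler product -/
theorem gen (hω : ∀ l v e, 0 ≤ ω l v e) (B : V → ℝ)
    (hB : ∀ v J, ∑ l : Fin 3, ∑ e ∈ Finset.range J, ω l v (e + 1) ≤ B v)
    (F : Finset (Fin 3 → V →₀ ℕ))
    (hF : ∀ E ∈ F, ∀ l l', l ≠ l' → ∀ v, E l v = 0 ∨ E l' v = 0) :
    ∃ s : Finset V, ∑ E ∈ F, ∏ l : Fin 3, ∏ v ∈ (E l).support, ω l v (E l v) ≤
      ∏ v ∈ s, (1 + B v) := by
  let s : Finset V := F.biUnion fun E => Finset.univ.biUnion fun l => (E l).support
  let J : ℕ := ∑ E ∈ F, ∑ l, ∑ v ∈ s, E l v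
  have hs : ∀ E ∈ F, ∀ l, (E l).support ⊆ s := by
    intro E hE l v hv
    exact Finset.mem_biUnion.2 ⟨E, hE, Finset.mem_biUnion.2 ⟨l, Finset.mem_univ l, hv⟩⟩
  have hJ : ∀ E ∈ F, ∀ l v, E l v ≤ J := by
    intro E hE l v
    by_cases hv : v ∈ s
    · have h1 : E l v ≤ ∑ v ∈ s, E l v :=
        Finset.single_le_sum (f := fun v => E l v) (fun _ _ => Nat.zero_le _) hv
      have h2 : ∑ v ∈ s, E l v ≤ ∑ l, ∑ v ∈ s, E l v :=
        Finset.single_le_sum (f := fun l => ∑ v ∈ s, E l v) (fun _ _ => Nat.zero_le _)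
          (Finset.mem_univ l)
      have h3 : ∑ l, ∑ v ∈ s, E l v ≤ J :=
        Finset.single_le_sum (f := fun E : Fin 3 → V →₀ ℕ => ∑ l, ∑ v ∈ s, E l v)
          (fun _ _ => Nat.zero_le _) hE
      exact h1.trans (h2.trans h3)
    · have h1 : v ∉ (E l).support := fun h => hv (hs E hE l h)
      rw [Finsupp.notMem_support_iff.1 h1]
      exact Nat.zero_le _
  refine ⟨s, ?_⟩
  have h1 : ∑ E ∈ F, ∏ l : Fin 3, ∏ v ∈ (E l).support, ω l v (E l v) =
      ∑ E ∈ F, ∏ v ∈ s, WW ω v (code E v) := by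
    refine Finset.sum_congr rfl fun E hE => ?_
    rw [← Finset.prod_congr rfl fun v _ => local_eq ω (hF E hE) v, ← weight_eq ω (hs E hE)]
  rw [h1]
  refine (sum_le ω hω F hF hs hJ).trans ?_
  refine Finset.prod_le_prod (fun v _ => Finset.sum_nonneg fun δ _ => ?_) fun v _ => ?_
  · rcases δ with _ | δ
    · exact zero_le_one
    · exact hω _ _ _
  · rw [Finset.sum_insertNone]
    change (1 : ℝ) + _ ≤ _
    have h2 := hB v J
    rw [← Finset.sum_product' (s := (Finset.univ : Finset (Fin 3))) (t := Finset.range J)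
      (f := fun l e => ω l v (e + 1))] at h2
    have h3 : ∑ x ∈ (Finset.univ : Finset (Fin 3)) ×ˢ Finset.range J, WW ω v (some x) =
        ∑ x ∈ (Finset.univ : Finset (Fin 3)) ×ˢ Finset.range J, ω x.1 v (x.2 + 1) := rfl
    rw [h3]
    linarith

end Gen

/-- the geometric series -/
theorem geo {N u : ℝ} (hN : 1 < N) (hu : 0 < u) (J : ℕ) :
    ∑ e ∈ Finset.range J, Real.exp (-(u * (((e + 1 : ℕ) : ℝ) * Real.log N)) - Real.log N) ≤
      N⁻¹ / (N ^ u - 1) := by
  have hN0 : 0 < N := by linarith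
  have hl : 0 < Real.log N := Real.log_pos hN
  have hR : 1 < N ^ u := Real.one_lt_rpow hN hu
  obtain ⟨R, hRd⟩ : ∃ R : ℝ, R = N ^ u := ⟨_, rfl⟩
  rw [← hRd] at hR ⊢
  have hR0 : 0 < R := by linarith
  have hRi : R⁻¹ < 1 := inv_lt_one_of_one_lt₀ hR
  have h1 : ∀ e : ℕ, Real.exp (-(u * (((e + 1 : ℕ) : ℝ) * Real.log N)) - Real.log N) =
      N⁻¹ * (R⁻¹) ^ (e + 1) := by
    intro e
    have h2 : R⁻¹ = Real.exp (-(u * Real.log N)) := by
      rw [hRd, Real.rpow_def_of_pos hN0, ← Real.exp_neg]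
      congr 1; ring
    have h3 : N⁻¹ = Real.exp (-Real.log N) := by rw [Real.exp_neg, Real.exp_log hN0]
    rw [h2, ← Real.exp_nat_mul, h3, ← Real.exp_add]
    congr 1
    ring
  rw [Finset.sum_congr rfl fun e _ => h1 e, ← Finset.mul_sum]
  have h3 : ∑ j ∈ Finset.range J, (R⁻¹) ^ (j + 1) = R⁻¹ * ∑ j ∈ Finset.range J, (R⁻¹) ^ j := by
    rw [Finset.mul_sum]
    exact Finset.sum_congr rfl fun j _ => pow_succ' _ _
  have h4 : ∑ j ∈ Finset.range J, (R⁻¹) ^ j ≤ (1 - R⁻¹)⁻¹ := by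
    have h5 := (hasSum_geometric_of_lt_one (inv_nonneg.2 hR0.le) hRi)
    rw [← h5.tsum_eq]
    exact h5.summable.sum_le_tsum _ fun j _ => by positivity
  rw [h3]
  calc N⁻¹ * (R⁻¹ * ∑ j ∈ Finset.range J, (R⁻¹) ^ j) ≤ N⁻¹ * (R⁻¹ * (1 - R⁻¹)⁻¹) := by
        apply mul_le_mul_of_nonneg_left _ (by positivity)
        exact mul_le_mul_of_nonneg_left h4 (by positivity)
    _ = N⁻¹ / (R - 1) := by
        have h6 : R - 1 ≠ 0 := by
          have : 0 < R - 1 := by linarith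
          exact this.ne'
        rw [div_eq_mul_inv]
        congr 1
        rw [← mul_inv]
        congr 1
        field_simp

theorem G_zero {u x : ℝ} (hx : 0 < x) : G 0 u x = x⁻¹ / (x ^ u - 1) := by
  unfold G
  rw [zero_mul, zero_sub, Real.rpow_neg_one]

variable {K : Type} [Field K] [NumberField K]

theorem Nv1 (v : Pr K) : 1 < Nv v := by linarith [two_le_Nv v]

/-- the product of the weights of the primes of the three ideals -/
noncomputable def Th (w : Fin 3 → Pr K → ℝ) (E : Fin 3 → Idl K) : ℝ :=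
  ∏ l, ∏ v ∈ (E l).support, w l v

/-- weights with a cut-off -/
noncomputable def wtc (z : ℝ) (h g : Fin 3 → ℝ) (l : Fin 3) (v : Pr K) : ℝ :=
  if Nv v ≤ z then h l else g l

theorem Th_nonneg {w : Fin 3 → Pr K → ℝ} (hw : ∀ l v, 0 ≤ w l v) (E : Fin 3 → Idl K) :
    0 ≤ Th w E := Finset.prod_nonneg fun l _ => Finset.prod_nonneg fun v _ => hw l v

/-- the exponential weights as products -/
theorem exp_prod (y : Fin 3 → ℝ) (E : Fin 3 → Idl K) :
    Real.exp (-(∑ l, y l * len (E l)) - tr E) =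
      ∏ l, ∏ v ∈ (E l).support,
        Real.exp (-(y l * ((E l v : ℝ) * Real.log (Nv v))) - Real.log (Nv v)) := by
  simp only [← Real.exp_sum]
  congr 1
  unfold tr len rl
  simp only [Finset.sum_sub_distrib, Finset.sum_neg_distrib, Finset.mul_sum]

theorem exp_prod' (u : ℝ) (E : Fin 3 → Idl K) :
    Real.exp (-(u * tl E) - tr E) =
      ∏ l, ∏ v ∈ (E l).support,
        Real.exp (-(u * ((E l v : ℝ) * Real.log (Nv v))) - Real.log (Nv v)) := by
  rw [← exp_prod (fun _ => u) E]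
  congr 2
  unfold tl
  rw [Finset.mul_sum]

/-- local weights with a cut-off -/
noncomputable def om1 (u t : ℝ) (h g : Fin 3 → ℝ) (l : Fin 3) (v : Pr K) (e : ℕ) : ℝ :=
  wtc (u ^ (-t)) h g l v * Real.exp (-(u * ((e : ℝ) * Real.log (Nv v))) - Real.log (Nv v))

/-- local weights with exponents depending on the slot -/
noncomputable def om2 (y : Fin 3 → ℝ) (l : Fin 3) (v : Pr K) (e : ℕ) : ℝ :=
  Real.exp (-(y l * ((e : ℝ) * Real.log (Nv v))) - Real.log (Nv v))

/-- the generating function with a cut-off -/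
theorem gen_cut (hpit : S_PIT K) (hcnt : S_CNT K) (h g : Fin 3 → ℝ) (hh : ∀ l, 0 ≤ h l)
    (hg : ∀ l, 0 ≤ g l) (t ε : ℝ) (ht : 1 ≤ t) (hε : 0 < ε) :
    ∃ u₀ : ℝ, 0 < u₀ ∧ u₀ < 1 / 2 ∧ ∀ u : ℝ, 0 < u → u < u₀ → ∀ F : Finset (Fin 3 → Idl K),
      (∀ E ∈ F, PC E) →
      ∑ E ∈ F, Th (wtc (u ^ (-t)) h g) E * Real.exp (-(u * tl E) - tr E) ≤
        Real.exp (((∑ l, h l) * (1 - 1 / t) + (∑ l, g l) / t + ε) /
          (u * Real.log (1 / u))) := by
  obtain ⟨C, hC, hc1, -⟩ := hcnt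
  have h2 : ∀ v : Pr K, 2 ≤ Nv v := fun v => two_le_Nv v
  have hnat : ∀ v : Pr K, ∃ n : ℕ, Nv v = n := fun v => ⟨Ideal.absNorm v.asIdeal, rfl⟩
  obtain ⟨u₀, hu₀, hu₀', H⟩ := Pool.Agent.Run7.h585.AN.eup_cut (fun v : Pr K => Nv v) h2 hnat
    hpit C hC hc1 (∑ l, h l) (∑ l, g l) t ε (Finset.sum_nonneg fun l _ => hh l)
    (Finset.sum_nonneg fun l _ => hg l) ht hε
  refine ⟨u₀, hu₀, hu₀', fun u hu huu F hF => ?_⟩
  obtain ⟨ω, hω⟩ : ∃ ω : Fin 3 → Pr K → ℕ → ℝ, ω = om1 u t h g := ⟨_, rfl⟩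
  have hw0 : ∀ (l : Fin 3) (v : Pr K), 0 ≤ wtc (u ^ (-t)) h g l v := by
    intro l v
    unfold wtc
    split_ifs
    · exact hh l
    · exact hg l
  have hω0 : ∀ l v e, 0 ≤ ω l v e := by
    intro l v e
    rw [hω]
    unfold om1
    exact mul_nonneg (hw0 l v) (Real.exp_pos _).le
  have hBB : ∀ v (J : ℕ), ∑ l : Fin 3, ∑ e ∈ Finset.range J, ω l v (e + 1) ≤
      (if Nv v ≤ u ^ (-t) then (∑ l, h l) else (∑ l, g l)) * G 0 u (Nv v) := by
    intro v J
    have e1 : (if Nv v ≤ u ^ (-t) then (∑ l, h l) else (∑ l, g l)) =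
        ∑ l : Fin 3, wtc (u ^ (-t)) h g l v := by
      unfold wtc
      split_ifs <;> rfl
    rw [e1, Finset.sum_mul, G_zero (by linarith [h2 v])]
    refine Finset.sum_le_sum fun l _ => ?_
    rw [hω]
    unfold om1
    rw [← Finset.mul_sum]
    exact mul_le_mul_of_nonneg_left (geo (Nv1 v) hu J) (hw0 l v)
  obtain ⟨s, hs⟩ := gen ω hω0 _ hBB F (fun E hE l l' hl v => hF E hE l l' hl v)
  have hpos : ∀ v : Pr K, 0 < 1 + (if Nv v ≤ u ^ (-t) then (∑ l, h l) else (∑ l, g l)) *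
      G 0 u (Nv v) := by
    intro v
    have h3 : 0 ≤ (if Nv v ≤ u ^ (-t) then (∑ l, h l) else (∑ l, g l)) := by
      split_ifs
      · exact Finset.sum_nonneg fun l _ => hh l
      · exact Finset.sum_nonneg fun l _ => hg l
    have := mul_nonneg h3 (G_nonneg (θ := 0) hu (Nv1 v))
    linarith
  calc ∑ E ∈ F, Th (wtc (u ^ (-t)) h g) E * Real.exp (-(u * tl E) - tr E)
      = ∑ E ∈ F, ∏ l : Fin 3, ∏ v ∈ (E l).support, ω l v (E l v) := by
        refine Finset.sum_congr rfl fun E _ => ?_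
        rw [exp_prod', Th, ← Finset.prod_mul_distrib]
        refine Finset.prod_congr rfl fun l _ => ?_
        rw [← Finset.prod_mul_distrib, hω]
        rfl
    _ ≤ _ := hs
    _ = Real.exp (∑ v ∈ s, Real.log (1 + (if Nv v ≤ u ^ (-t) then (∑ l, h l) else (∑ l, g l)) *
        G 0 u (Nv v))) := by
        rw [Real.exp_sum]
        exact Finset.prod_congr rfl fun v _ => (Real.exp_log (hpos v)).symm
    _ ≤ _ := Real.exp_le_exp.2 (H u hu huu s)

/-- `1 / (e^((1-η) y) - 1) ≤ (1 - η)⁻¹ e^(η y) / (e^y - 1)` -/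
theorem G_gain {η u x : ℝ} (hη : 0 ≤ η) (hη1 : η < 1) (hu : 0 < u) (hx : 1 < x) :
    x⁻¹ / (x ^ ((1 - η) * u) - 1) ≤ (1 / (1 - η)) * G η u x := by
  have hx0 : 0 < x := by linarith
  have h1 : 1 < x ^ ((1 - η) * u) := Real.one_lt_rpow hx (mul_pos (by linarith) hu)
  have h2 : 1 < x ^ u := Real.one_lt_rpow hx hu
  have e2 : x ^ ((1 - η) * u) = x ^ u / x ^ (η * u) := by
    rw [← Real.rpow_sub hx0]
    congr 1; ring
  obtain ⟨a, ha⟩ : ∃ a : ℝ, a = x ^ (η * u) := ⟨_, rfl⟩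
  obtain ⟨b, hb⟩ : ∃ b : ℝ, b = x ^ u := ⟨_, rfl⟩
  have ha0 : 0 < a := by rw [ha]; positivity
  -- Bernoulli: a = b ^ η ≤ 1 + η (b - 1)
  have hab : a ≤ 1 + η * (b - 1) := by
    have h3 : a = b ^ η := by
      rw [ha, hb, ← Real.rpow_mul hx0.le]
      congr 1; ring
    rw [h3]
    have h4 := rpow_one_add_le_one_add_mul_self (s := b - 1) (by linarith) hη hη1.le
    have h5 : 1 + (b - 1) = b := by ring
    rw [h5] at h4
    exact h4
  rw [e2, ← ha, ← hb] at h1
  rw [← hb] at h2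
  have h3 : a < b := by
    rw [lt_div_iff₀ ha0] at h1
    linarith
  have e3 : x⁻¹ / (x ^ ((1 - η) * u) - 1) = x⁻¹ * (a / (b - a)) := by
    rw [e2, ← ha, ← hb]
    have h4 : b / a - 1 = (b - a) / a := by field_simp
    rw [h4, div_div_eq_mul_div, mul_div_assoc]
  have e4 : (1 / (1 - η)) * G η u x = x⁻¹ * ((1 / (1 - η)) * (a / (b - 1))) := by
    unfold G
    rw [← hb, Real.rpow_sub hx0, Real.rpow_one, ← ha]
    ring
  rw [e3, e4]
  apply mul_le_mul_of_nonneg_left _ (by positivity)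
  rw [one_div_mul_eq_div, div_div]
  apply div_le_div_of_nonneg_left ha0.le
  · exact mul_pos (by linarith) (by linarith)
  · nlinarith

/-- the generating function for the gain of one slot -/
theorem gen_gain (hpit : S_PIT K) (hcnt : S_CNT K) (l₀ : Fin 3) (η ε : ℝ) (hη : 0 ≤ η)
    (hη1 : η ≤ 1 / 2) (hε : 0 < ε) :
    ∃ u₀ : ℝ, 0 < u₀ ∧ u₀ < 1 / 2 ∧ ∀ u : ℝ, 0 < u → u < u₀ → ∀ F : Finset (Fin 3 → Idl K),
      (∀ E ∈ F, PC E) →
      ∑ E ∈ F, Real.exp (η * u * len (E l₀)) * Real.exp (-(u * tl E) - tr E) ≤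
        Real.exp ((2 + 1 / (1 - η) + ε) / (u * Real.log (1 / u))) := by
  obtain ⟨M, hM⟩ : ∃ M : ℝ, M = 2 + 1 / (1 - η) := ⟨_, rfl⟩
  have hη' : 0 < 1 - η := by linarith
  have hM0 : 0 < M := by rw [hM]; positivity
  obtain ⟨u₀, hu₀, hu₀', H⟩ := Pool.Agent.N163.RS.eup K hpit hcnt (M / 3) η (ε / M)
    (by positivity) hη hη1 (by positivity)
  refine ⟨u₀, hu₀, hu₀', fun u hu huu F hF => ?_⟩
  rw [← hM]
  obtain ⟨y, hy⟩ : ∃ y : Fin 3 → ℝ, y = fun l => if l = l₀ then (1 - η) * u else u := ⟨_, rfl⟩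
  have hy0 : ∀ l, 0 < y l := by
    intro l
    rw [hy]
    simp only
    split_ifs
    · exact mul_pos hη' hu
    · exact hu
  obtain ⟨ω, hω⟩ : ∃ ω : Fin 3 → Pr K → ℕ → ℝ, ω = om2 y := ⟨_, rfl⟩
  have hω0 : ∀ l v e, 0 ≤ ω l v e := by
    intro l v e
    rw [hω]
    unfold om2
    exact (Real.exp_pos _).le
  have hex : ∀ l : Fin 3, ∃ a b : Fin 3, a ≠ l ∧ b ≠ l ∧ a ≠ b ∧
      (∀ c : Fin 3, c = l ∨ c = a ∨ c = b) := by decide
  have hBB : ∀ v (J : ℕ), ∑ l : Fin 3, ∑ e ∈ Finset.range J, ω l v (e + 1) ≤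
      3 * (M / 3) * (Nv v) ^ (η * u - 1) / ((Nv v) ^ u - 1) := by
    intro v J
    have hG0 : ∀ θ : ℝ, 0 ≤ G θ u (Nv v) := fun θ => G_nonneg hu (Nv1 v)
    have h1 : ∀ l, ∑ e ∈ Finset.range J, ω l v (e + 1) ≤
        (if l = l₀ then 1 / (1 - η) else 1) * G η u (Nv v) := by
      intro l
      rw [hω]
      unfold om2
      refine (geo (Nv1 v) (hy0 l) J).trans ?_
      rw [hy]
      simp only
      split_ifs
      · exact G_gain hη (by linarith) hu (Nv1 v)
      · rw [one_mul, ← G_zero (by linarith [Nv1 v])]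
        unfold G
        have h3 := Pool.Agent.N163.RS.pow_sub_pos hu (Nv1 v)
        apply div_le_div_of_nonneg_right _ h3.le
        apply Real.rpow_le_rpow_of_exponent_le (Nv1 v).le
        have : 0 ≤ η * u := by positivity
        linarith
    refine (Finset.sum_le_sum fun l _ => h1 l).trans ?_
    rw [← Finset.sum_mul]
    have h2 : ∑ l : Fin 3, (if l = l₀ then 1 / (1 - η) else (1 : ℝ)) = M := by
      rw [Fin.sum_univ_three]
      have h3 : ∀ l : Fin 3, l = 0 ∨ l = 1 ∨ l = 2 := by decide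
      rcases h3 l₀ with rfl | rfl | rfl
      · rw [if_pos rfl, if_neg (by decide), if_neg (by decide), hM]; ring
      · rw [if_neg (by decide), if_pos rfl, if_neg (by decide), hM]; ring
      · rw [if_neg (by decide), if_neg (by decide), if_pos rfl, hM]; ring
    rw [h2]
    unfold G
    apply le_of_eq
    ring
  obtain ⟨s, hs⟩ := gen ω hω0 _ hBB F (fun E hE l l' hl v => hF E hE l l' hl v)
  have hpos : ∀ v : Pr K, 0 < 1 + 3 * (M / 3) * (Nv v) ^ (η * u - 1) / ((Nv v) ^ u - 1) := by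
    intro v
    have h3 := Pool.Agent.N163.RS.pow_sub_pos hu (Nv1 v)
    have h4 : 0 < Nv v := by linarith [Nv1 v]
    positivity
  have hl : 0 < Real.log (1 / u) := Real.log_pos (by rw [one_lt_div hu]; linarith)
  calc ∑ E ∈ F, Real.exp (η * u * len (E l₀)) * Real.exp (-(u * tl E) - tr E)
      = ∑ E ∈ F, ∏ l : Fin 3, ∏ v ∈ (E l).support, ω l v (E l v) := by
        refine Finset.sum_congr rfl fun E _ => ?_
        rw [hω]
        unfold om2
        rw [← exp_prod y E, ← Real.exp_add]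
        congr 1
        have h5 : ∑ l, y l * len (E l) = u * tl E - η * u * len (E l₀) := by
          unfold tl
          rw [Finset.mul_sum]
          have h6 : η * u * len (E l₀) = ∑ l : Fin 3, (if l = l₀ then η * u * len (E l) else 0) := by
            rw [Finset.sum_ite_eq' univ l₀, if_pos (mem_univ _)]
          rw [h6, ← Finset.sum_sub_distrib]
          refine Finset.sum_congr rfl fun l _ => ?_
          rw [hy]
          simp only
          split_ifs <;> ring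
        rw [h5]
        ring
    _ ≤ _ := hs
    _ = Real.exp (∑ v ∈ s, Real.log (1 + 3 * (M / 3) * (Nv v) ^ (η * u - 1) /
          ((Nv v) ^ u - 1))) := by
        rw [Real.exp_sum]
        exact Finset.prod_congr rfl fun v _ => (Real.exp_log (hpos v)).symm
    _ ≤ _ := by
        apply Real.exp_le_exp.2
        refine (H u hu huu s).trans (le_of_eq ?_)
        field_simp

/-- the generating function for the radical -/
theorem gen_rad (hgup : S_GUP K) (ε : ℝ) (hε : 0 < ε) :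
    ∃ u₀ : ℝ, 0 < u₀ ∧ u₀ < 1 / 2 ∧ ∀ u : ℝ, 0 < u → u < u₀ → ∀ F : Finset (Fin 3 → Idl K),
      (∀ E ∈ F, PC E) →
      ∑ E ∈ F, Real.exp (u / 2 * tr E) * Real.exp (-(u * tl E) - tr E) ≤
        Real.exp ((3 + ε) / (u * Real.log (1 / u))) := by
  obtain ⟨u₀, hu₀, hu₀', H⟩ := hgup 1 (1 / 2) (ε / 3) one_pos (by norm_num) le_rfl (by positivity)
  refine ⟨u₀, hu₀, hu₀', fun u hu huu F hF => ?_⟩
  have h := H u hu huu F hF
  have e1 : ∑ E ∈ F, Real.exp (u / 2 * tr E) * Real.exp (-(u * tl E) - tr E) =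
      ∑ E ∈ F, (1 : ℝ) ^ om E * Real.exp (-(u * tl E) - (1 - 1 / 2 * u) * tr E) := by
    refine Finset.sum_congr rfl fun E _ => ?_
    rw [one_pow, one_mul, ← Real.exp_add]
    congr 1; ring
  rw [e1]
  refine h.trans (le_of_eq ?_)
  congr 1
  ring

end Pool.Agent.Run7.h585.NF
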