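import Pool.Agent.N776.RS_UP
import Pool.Agent.Run7.h585.NF.Gen

/-!
# The weighted count of the points with small radical (helper585)

Adapted from `Pool/Agent/N776/RS_UP.lean` (`cellm`, `up`): every point is counted with a weight which depends on the
squareful parts of its three ideals and on its distances to `0, -1, ∞` at the infinite places.
-/

set_option autoImplicit false
set_option linter.unusedSectionVars false

namespace Pool.Agent.Run7.h585.NF

open NumberField IsDedekindDomain Finset Filter Topology Pool.Agent.H691R3 Pool.Agent.W223.AK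
open Pool.Agent.N906.RS
open Pool.Agent.N776.RS (CellB tl_bounds shr upp up_shr_le cop_shr tl_shr tl_up tr_le_tl tl_nonneg tr_nonneg)

variable {K : Type} [Field K] [NumberField K]

open Classical in
/-- the ideals of a point -/
noncomputable def Pf (x : K) : Fin 3 → Idl K :=
  if h : Pt x then (exists_isP (∅ : Finset (Pr K)) h).choose else 0

theorem Pf_spec {x : K} (h : Pt x) : IsP ∅ x (Pf x) := by
  unfold Pf
  rw [dif_pos h]
  exact (exists_isP (∅ : Finset (Pr K)) h).choose_spec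

theorem isP_unique {x : K} {P Q : Fin 3 → Idl K} (hP : IsP ∅ x P) (hQ : IsP ∅ x Q) : P = Q := by
  funext l
  refine Finsupp.ext fun v => ?_
  have h1 := hP.val l v (by simp)
  have h2 := hQ.val l v (by simp)
  have hm : 0 < max (fv v x) 1 := lt_max_of_lt_right one_pos
  rw [h1] at h2
  have h3 := mul_left_cancel₀ hm.ne' h2
  have h4 : (1 : ℝ) < Nv v := Nv1 v
  have h5 := zpow_right_injective₀ (by linarith) h4.ne' h3
  simp only [neg_inj, Nat.cast_inj] at h5
  exact h5

/-- the squareful parts -/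
noncomputable def Ef (x : K) : Fin 3 → Idl K := fun l => shr (Pf x l)

/-- the gain of the infinite places -/
noncomputable def ar (x : K) : ℝ := ∑ w : InfinitePlace K,
  max (lm (Sum.inl w : Pl K) 0 x) (max (lm (Sum.inl w : Pl K) 1 x) (lm (Sum.inl w : Pl K) 2 x))

theorem ar_eq {x : K} {τ : InfinitePlace K → Fin 3}
    (hτ : ∀ w l, lm (Sum.inl w : Pl K) l x ≤ lm (Sum.inl w) (τ w) x) :
    ar x = ∑ w : InfinitePlace K, lm (Sum.inl w : Pl K) (τ w) x := by
  unfold ar
  refine Finset.sum_congr rfl fun w _ => ?_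
  apply le_antisymm
  · exact max_le (hτ w 0) (max_le (hτ w 1) (hτ w 2))
  · have h3 : ∀ l : Fin 3, l = 0 ∨ l = 1 ∨ l = 2 := by decide
    rcases h3 (τ w) with h | h | h
    · rw [h]; exact le_max_left _ _
    · rw [h]; exact (le_max_left _ _).trans (le_max_right _ _)
    · rw [h]; exact (le_max_right _ _).trans (le_max_right _ _)

theorem ar_nonneg (x : K) : 0 ≤ ar x := by
  unfold ar
  refine Finset.sum_nonneg fun w _ => ?_
  refine le_trans ?_ ((le_max_left _ _).trans (le_max_right _ _))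
  unfold lm
  rw [L_one, map_one, div_one]
  exact mul_nonneg (mt_pos _).le (Real.log_nonneg (le_max_right _ _))

theorem cellw {C : ℝ} (hC : 0 < C) (hcell : CellB K C)
    {κ δ C₀ u G : ℝ} (hκ : 0 < κ) (hκ1 : κ ≤ 1) (hδ : κ + δ ≤ 1) (hC₀ : 0 ≤ C₀)
    (hu : 0 < u) (hu1 : u ≤ 1) (Θ : (Fin 3 → Idl K) → ℝ) (hΘ : ∀ E, 0 ≤ Θ E)
    (hG : ∀ F : Finset (Fin 3 → Idl K), (∀ E ∈ F, PC E) →
      ∑ E ∈ F, Θ E * Real.exp (-(u * tl E) - tr E) ≤ G)
    {r : ℕ} (hr : r = Fintype.card (InfinitePlace K)) (m : ℕ) (F : Finset K)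
    (hF : ∀ x ∈ F, Pt x ∧ (m : ℝ) - 1 ≤ ht x ∧ ht x ≤ m ∧
      tr (Pf x) ≤ (3 - κ) * ht x + C₀ ∧ (3 - κ - δ) * ht x ≤ tr (Pf x)) :
    ∑ x ∈ F, Θ (Ef x) * Real.exp (u * ar x) ≤ ((3 : ℝ) ^ r * ((m : ℝ) + 6 * r + 1) ^ r) *
      (C * (1 + Real.exp (12 * r)) * Real.exp (1 + C₀ + 7 * r) * Real.exp r *
        Real.exp ((2 - κ) * m + u * κ * m) * G) := by
  classical
  have hG0 : 0 ≤ G := by simpa using hG ∅ (by simp)
  -- choices
  obtain ⟨P, hPd⟩ : ∃ P : K → Fin 3 → Idl K, P = Pf := ⟨_, rfl⟩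
  have hP : ∀ x ∈ F, IsP ∅ x (P x) ∧ tr (P x) ≤ (3 - κ) * ht x + C₀ ∧
      (3 - κ - δ) * ht x ≤ tr (P x) := by
    intro x hx
    rw [hPd]
    exact ⟨Pf_spec (hF x hx).1, (hF x hx).2.2.2.1, (hF x hx).2.2.2.2⟩
  have hτ' : ∀ (x : K) (w : InfinitePlace K), ∃ t : Fin 3, ∀ l,
      lm (Sum.inl w : Pl K) l x ≤ lm (Sum.inl w) t x := by
    intro x w
    obtain ⟨t, -, ht⟩ := Finset.exists_max_image (univ : Finset (Fin 3))
      (fun l => lm (Sum.inl w : Pl K) l x) ⟨0, mem_univ _⟩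
    exact ⟨t, fun l => ht l (mem_univ l)⟩
  choose τ hτ using hτ'
  obtain ⟨k, hk⟩ : ∃ k : K → InfinitePlace K → ℕ,
      k = fun x w => ⌊lm (Sum.inl w : Pl K) (τ x w) x⌋₊ := ⟨_, rfl⟩
  have hEf : Ef = fun (x : K) l => shr (P x l) := by rw [hPd]; rfl
  have hlm0 : ∀ x ∈ F, ∀ w, 0 ≤ lm (Sum.inl w : Pl K) (τ x w) x := by
    intro x _ w
    refine le_trans ?_ (hτ x w 1)
    unfold lm
    rw [L_one, map_one, div_one]
    exact mul_nonneg (mt_pos _).le (Real.log_nonneg (le_max_right _ _))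
  have hkl : ∀ x ∈ F, ∀ w, (k x w : ℝ) ≤ lm (Sum.inl w : Pl K) (τ x w) x := by
    intro x hx w
    rw [hk]
    exact Nat.floor_le (hlm0 x hx w)
  have hku : ∀ x w, lm (Sum.inl w : Pl K) (τ x w) x ≤ (k x w : ℝ) + 1 := by
    intro x w
    rw [hk]
    exact (Nat.lt_floor_add_one _).le
  have hr0 : (0 : ℝ) ≤ r := Nat.cast_nonneg _
  have hrc : ((Fintype.card (InfinitePlace K) : ℕ) : ℝ) = r := by rw [hr]
  have hs2 : ∀ x, ar x ≤ ∑ w, (k x w : ℝ) + r := by
    intro x
    rw [ar_eq (hτ x)]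
    have : ∑ w : InfinitePlace K, lm (Sum.inl w : Pl K) (τ x w) x ≤
        ∑ w : InfinitePlace K, ((k x w : ℝ) + 1) := Finset.sum_le_sum fun w _ => hku x w
    rw [Finset.sum_add_distrib] at this
    have e2 : ∑ _w : InfinitePlace K, (1 : ℝ) = r := by
      rw [Finset.sum_const, nsmul_eq_mul, mul_one, Finset.card_univ, hrc]
    rwa [e2] at this
  -- the main inequalities
  have hmain : ∀ x ∈ F, κ * m - (1 + C₀ + 7 * r) ≤ tl (Ef x) + ∑ w, (k x w : ℝ) ∧
      tl (Ef x) + ∑ w, (k x w : ℝ) ≤ m + 6 * r := by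
    intro x hx
    obtain ⟨hpt, hm1, hm2, -⟩ := hF x hx
    obtain ⟨hI, hR1, hR2⟩ := hP x hx
    obtain ⟨b1, b2⟩ := tl_bounds hpt hI (hτ x)
    rw [hrc] at b1 b2
    have e1 : tl (P x) = tl (Ef x) + tr (P x) := by rw [hEf]; exact tl_shr (P x)
    have s1 : ∑ w, (k x w : ℝ) ≤ ∑ w : InfinitePlace K, lm (Sum.inl w : Pl K) (τ x w) x :=
      Finset.sum_le_sum fun w _ => hkl x hx w
    have s2 : ∑ w : InfinitePlace K, lm (Sum.inl w : Pl K) (τ x w) x ≤
        ∑ w, (k x w : ℝ) + r := by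
      have := hs2 x
      rwa [ar_eq (hτ x)] at this
    have hh := ht_nonneg x
    constructor
    · have hκ2 : κ * (m - 1) ≤ κ * ht x := mul_le_mul_of_nonneg_left hm1 hκ.le
      nlinarith
    · have : (κ + δ) * ht x ≤ 1 * ht x := mul_le_mul_of_nonneg_right hδ hh
      nlinarith
  -- the codes
  set T : Finset ((InfinitePlace K → Fin 3) × (InfinitePlace K → ℕ)) :=
    (univ : Finset (InfinitePlace K → Fin 3)) ×ˢ
      Fintype.piFinset (fun _ : InfinitePlace K => range (m + 6 * r + 1)) with hT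
  have hTcard : (T.card : ℝ) = (3 : ℝ) ^ r * ((m : ℝ) + 6 * r + 1) ^ r := by
    rw [hT, card_product, card_univ, Fintype.card_piFinset, Fintype.card_fun, Fintype.card_fin,
      Finset.prod_const, card_univ, card_range, ← hr]
    push_cast
    ring
  have hmaps : ∀ x ∈ F, (τ x, k x) ∈ T := by
    intro x hx
    rw [hT, mem_product]
    refine ⟨mem_univ _, ?_⟩
    rw [Fintype.mem_piFinset]
    intro w
    rw [mem_range]
    have h1 := (hmain x hx).2
    have h2 := tl_nonneg (Ef x)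
    have h3 : (k x w : ℝ) ≤ ∑ w, (k x w : ℝ) :=
      Finset.single_le_sum (f := fun w => (k x w : ℝ)) (fun w _ => Nat.cast_nonneg _) (mem_univ w)
    have h4 : (k x w : ℝ) ≤ ((m + 6 * r : ℕ) : ℝ) := by push_cast; linarith
    have h5 : k x w ≤ m + 6 * r := by exact_mod_cast h4
    simp only
    omega
  obtain ⟨B, hB⟩ : ∃ B : ℝ, B = C * (1 + Real.exp (12 * r)) * Real.exp (1 + C₀ + 7 * r) *
        Real.exp r * Real.exp ((2 - κ) * m + u * κ * m) * G := ⟨_, rfl⟩
  rw [← hB]
  have hfib : ∀ b ∈ T, ∑ x ∈ F with (τ x, k x) = b, Θ (Ef x) * Real.exp (u * ar x) ≤ B := by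
    rintro ⟨t, j⟩ -
    set F' : Finset K := {x ∈ F | (τ x, k x) = (t, j)} with hF'
    have hmem : ∀ x ∈ F', x ∈ F ∧ τ x = t ∧ k x = j := by
      intro x hx
      rw [hF', mem_filter, Prod.mk.injEq] at hx
      exact ⟨hx.1, hx.2.1, hx.2.2⟩
    obtain ⟨σ, hσ⟩ : ∃ σ : ℝ, σ = ∑ w, (j w : ℝ) := ⟨_, rfl⟩
    have hσ0 : 0 ≤ σ := by rw [hσ]; exact Finset.sum_nonneg fun w _ => Nat.cast_nonneg _
    have hPC : ∀ E ∈ F'.image Ef, PC E := by
      intro E hE
      obtain ⟨x, hx, rfl⟩ := mem_image.1 hE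
      obtain ⟨hxF, -, -⟩ := hmem x hx
      intro l l' hl
      rw [hEf]
      exact cop_shr ((hP x hxF).1.cop hl)
    have hterm : ∀ E ∈ F'.image Ef, ∑ x ∈ F' with Ef x = E, Θ (Ef x) * Real.exp (u * ar x) ≤
        C * (1 + Real.exp (12 * r)) * Real.exp (1 + C₀ + 7 * r) * Real.exp r *
        Real.exp ((2 - κ) * m + u * κ * m) * (Θ E * Real.exp (-(u * tl E) - tr E)) := by
      intro E hE
      obtain ⟨x₀, hx₀, hE₀⟩ := mem_image.1 hE
      obtain ⟨hx₀F, hx₀t, hx₀j⟩ := hmem x₀ hx₀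
      obtain ⟨g1, g2⟩ := hmain x₀ hx₀F
      rw [hE₀, hx₀j] at g1 g2
      have hc := hcell m (fun l => upp (E l)) t (fun w => (j w : ℝ)) {x ∈ F' | Ef x = E}
        (Nat.cast_nonneg _) (fun w => Nat.cast_nonneg _) (by
          intro x hx
          rw [mem_filter] at hx
          obtain ⟨hxF, hxt, hxj⟩ := hmem x hx.1
          refine ⟨(hF x hxF).1, (hF x hxF).2.2.1, fun w => ?_, P x, (hP x hxF).1, fun l => ?_⟩
          · rw [← hxt, ← hxj]
            exact hkl x hxF w
          · rw [← hx.2, hEf]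
            exact up_shr_le _)
      have hup : tl (fun l => upp (E l)) = tl E + tr E := tl_up E
      rw [hup] at hc
      have ht1 := tr_le_tl E
      have ht2 := tl_nonneg E
      have ht3 := tr_nonneg E
      rw [← hσ] at g1 g2 hc
      have q1 : (1 : ℝ) ≤ Real.exp (12 * r) * Real.exp (2 * m - (tl E + tr E) - σ) := by
        rw [← Real.exp_add]
        apply Real.one_le_exp
        linarith
      have q2 : Real.exp (2 * m - (tl E + tr E) - σ) ≤
          Real.exp (1 + C₀ + 7 * r) * Real.exp ((2 - κ) * m + u * κ * m) *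
            Real.exp (-(u * tl E) - tr E) * Real.exp (-(u * σ)) := by
        rw [← Real.exp_add, ← Real.exp_add, ← Real.exp_add]
        apply Real.exp_le_exp.2
        have q3 : (1 - u) * (κ * m - (1 + C₀ + 7 * r)) ≤ (1 - u) * (tl E + σ) :=
          mul_le_mul_of_nonneg_left g1 (by linarith)
        have q4 : 0 ≤ u * (1 + C₀ + 7 * r) := by positivity
        nlinarith
      have hcard : ((#{x ∈ F' | Ef x = E} : ℕ) : ℝ) ≤
          C * ((1 + Real.exp (12 * r)) * (Real.exp (1 + C₀ + 7 * r) *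
              Real.exp ((2 - κ) * m + u * κ * m) * Real.exp (-(u * tl E) - tr E) *
                Real.exp (-(u * σ)))) := by
        refine hc.trans ?_
        apply mul_le_mul_of_nonneg_left _ hC.le
        calc Real.exp (2 * m - (tl E + tr E) - σ) + 1
            ≤ (1 + Real.exp (12 * r)) * Real.exp (2 * m - (tl E + tr E) - σ) := by linarith
          _ ≤ _ := mul_le_mul_of_nonneg_left q2 (by positivity)
      have hw : ∑ x ∈ F' with Ef x = E, Θ (Ef x) * Real.exp (u * ar x) ≤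
          ((#{x ∈ F' | Ef x = E} : ℕ) : ℝ) * (Θ E * (Real.exp r * Real.exp (u * σ))) := by
        rw [← nsmul_eq_mul]
        refine Finset.sum_le_card_nsmul _ _ _ fun x hx => ?_
        rw [mem_filter] at hx
        obtain ⟨hxF, hxt, hxj⟩ := hmem x hx.1
        rw [hx.2]
        apply mul_le_mul_of_nonneg_left _ (hΘ E)
        rw [← Real.exp_add]
        apply Real.exp_le_exp.2
        have h1 := hs2 x
        rw [hxj, ← hσ] at h1
        have h2 : u * ar x ≤ u * (σ + r) := mul_le_mul_of_nonneg_left h1 hu.le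
        have h3 : u * r ≤ 1 * r := mul_le_mul_of_nonneg_right hu1 hr0
        linarith
      refine hw.trans ((mul_le_mul_of_nonneg_right hcard
        (mul_nonneg (hΘ E) (by positivity))).trans (le_of_eq ?_))
      have e5 : Real.exp (-(u * σ)) * Real.exp (u * σ) = 1 := by
        rw [← Real.exp_add, neg_add_cancel, Real.exp_zero]
      calc _ = C * (1 + Real.exp (12 * r)) * Real.exp (1 + C₀ + 7 * r) * Real.exp r *
            Real.exp ((2 - κ) * m + u * κ * m) * (Θ E * Real.exp (-(u * tl E) - tr E)) *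
              (Real.exp (-(u * σ)) * Real.exp (u * σ)) := by ring
        _ = _ := by rw [e5, mul_one]
    rw [← Finset.sum_fiberwise_of_maps_to (g := Ef) (t := F'.image Ef)
      (fun x hx => mem_image_of_mem Ef hx)]
    refine (Finset.sum_le_sum hterm).trans ?_
    rw [← Finset.mul_sum, hB]
    exact mul_le_mul_of_nonneg_left (hG _ hPC) (by positivity)
  rw [← Finset.sum_fiberwise_of_maps_to (g := fun x => (τ x, k x)) (t := T) hmaps]
  refine (Finset.sum_le_sum hfib).trans ?_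
  rw [Finset.sum_const, nsmul_eq_mul, hTcard]

end Pool.Agent.Run7.h585.NF
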