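import Pool.Agent.Run7.h585.NF.Typ

/-!
# The proportion of the atypical points (helper585)
-/

set_option autoImplicit false
set_option linter.unusedSectionVars false

namespace Pool.Agent.Run7.h585.NF

open NumberField IsDedekindDomain Finset Filter Topology Pool.Agent.H691R3 Pool.Agent.W223.AK
open Pool.Agent.N906.RS

variable (K : Type) [Field K] [NumberField K]

theorem fin_of_bound {α : Type} (P : Set α) (B : ℝ)
    (h : ∀ G : Finset α, (G : Set α) ⊆ P → (G.card : ℝ) ≤ B) : P.Finite ∧ (P.ncard : ℝ) ≤ B := by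
  have hfin : P.Finite := by
    by_contra hinf
    obtain ⟨G, hGV, hGc⟩ := Set.Infinite.exists_subset_card_eq hinf (⌊B⌋₊ + 1)
    have h1 := h G hGV
    have h2 := Nat.lt_floor_add_one B
    rw [hGc] at h1
    push_cast at h1
    linarith
  refine ⟨hfin, ?_⟩
  rw [Set.ncard_eq_toFinset_card _ hfin]
  exact h hfin.toFinset (by rw [Set.Finite.coe_toFinset])

/-- the scale at `X - C` -/
theorem s1_shift {κ X C : ℝ} (hκ : 0 ≤ κ) (hC : 0 ≤ C) (hX : C + 3 ≤ X) :
    (1 - C / X) * s1 κ X ≤ s1 κ (X - C) := by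
  have hX0 : 0 < X := by linarith
  have hl1 : 0 < Real.log (X - C) := Real.log_pos (by linarith)
  have hl2 : Real.log (X - C) ≤ Real.log X := Real.log_le_log (by linarith) (by linarith)
  have hl3 : 0 < Real.log X := by linarith
  obtain ⟨q, hq⟩ : ∃ q : ℝ, q = 1 - C / X := ⟨_, rfl⟩
  have hq1 : q ≤ 1 := by rw [hq]; have : 0 ≤ C / X := by positivity
                         linarith
  have hq0 : 0 ≤ q := by
    rw [hq, sub_nonneg, div_le_one hX0]
    linarith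
  rw [← hq]
  have e : q * s1 κ X = √(q ^ 2 * (2 * κ * X / (3 * Real.log X))) := by
    rw [Real.sqrt_mul (by positivity), Real.sqrt_sq hq0]
    rfl
  rw [e]
  unfold s1
  apply Real.sqrt_le_sqrt
  have hqX : q * X = X - C := by rw [hq]; field_simp
  calc q ^ 2 * (2 * κ * X / (3 * Real.log X)) ≤ q * (2 * κ * X / (3 * Real.log X)) := by
        apply mul_le_mul_of_nonneg_right _ (by positivity)
        nlinarith
    _ = 2 * κ * (X - C) / (3 * Real.log X) := by rw [← hqX]; ring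
    _ ≤ 2 * κ * (X - C) / (3 * Real.log (X - C)) := by
        apply div_le_div_of_nonneg_left
        · have : 0 ≤ X - C := by linarith
          positivity
        · positivity
        · linarith

/-- **The proportion of the atypical points.** -/
theorem prop_typ (κ C₀ C₁ ε : ℝ) (hκ : 0 < κ) (hκ1 : κ < 1) (hC₀ : 0 ≤ C₀) (hC₁ : 0 ≤ C₁)
    (hε : 0 < ε) : ∃ δ X₀ : ℝ, 0 < δ ∧ 3 ≤ X₀ ∧ ∀ X : ℝ, X₀ ≤ X → ∀ A : Set K,
      (∀ x, Pt x → ht x ≤ X - C₁ → tr (Pf x) ≤ (3 - κ) * ht x → x ∈ A) →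
      (∀ x ∈ A, Cand κ C₀ X x) → A.Finite ∧ ∀ B : Set K, B ⊆ A → (∀ x ∈ B, ¬ Typ κ ε X x) →
        (B.ncard : ℝ) ≤ Real.exp (-(δ * s1 κ X)) * A.ncard := by
  obtain ⟨δ, X₁, hδ, hX₁, hrare⟩ := rare_typ (K := K) κ C₀ ε hκ hκ1 hC₀ hε
  obtain ⟨X₂, hX₂, hup⟩ := up_all K κ 1 C₀ hκ hκ1 one_pos hC₀
  obtain ⟨ε', hε'⟩ : ∃ ε' : ℝ, ε' = min (δ / 48) (1 / 2) := ⟨_, rfl⟩
  have hε'0 : 0 < ε' := by rw [hε']; exact lt_min (by positivity) (by norm_num)
  have hε'1 : ε' < 1 := by rw [hε']; exact (min_le_right _ _).trans_lt (by norm_num)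
  have hε'2 : ε' ≤ δ / 48 := by rw [hε']; exact min_le_left _ _
  obtain ⟨X₃, hX₃, hlo⟩ := lo_all K κ ε' hκ hκ1 hε'0 hε'1
  obtain ⟨X₄, hX₄⟩ := eventually_atTop.1 (s1_large κ (8 * (2 * C₁) / δ) hκ)
  refine ⟨δ / 2, max (max (max X₁ X₂) (max (X₃ + C₁) X₄)) (max (C₁ + 3) (C₁ / ε')), by positivity,
    (hX₁.trans (le_max_left _ _)).trans ((le_max_left _ _).trans (le_max_left _ _)),
    fun X hX A hA1 hA2 => ?_⟩
  have hXa : X₁ ≤ X := ((le_max_left _ _).trans ((le_max_left _ _).trans (le_max_left _ _))).trans hX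
  have hXb : X₂ ≤ X := ((le_max_right _ _).trans ((le_max_left _ _).trans (le_max_left _ _))).trans hX
  have hXc : X₃ + C₁ ≤ X :=
    ((le_max_left _ _).trans ((le_max_right _ _).trans (le_max_left _ _))).trans hX
  have hXd : X₄ ≤ X :=
    ((le_max_right _ _).trans ((le_max_right _ _).trans (le_max_left _ _))).trans hX
  have hXe : C₁ + 3 ≤ X := ((le_max_left _ _).trans (le_max_right _ _)).trans hX
  have hXf : C₁ / ε' ≤ X := ((le_max_right _ _).trans (le_max_right _ _)).trans hX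
  have hX0 : 0 < X := by linarith
  have hfin : A.Finite := (fin_of_bound A _ (fun G hG => hup X G hXb (fun x hx => by
    obtain ⟨g1, g2, g3⟩ := hA2 x (hG hx)
    exact ⟨g1, g2, Pf x, Pf_spec g1, g3⟩))).1
  refine ⟨hfin, fun B hBA hB => ?_⟩
  have hs := s1_nonneg κ X
  have hb : (B.ncard : ℝ) ≤ Real.exp ((2 - κ) * X + (6 - δ) * s1 κ X) :=
    (fin_of_bound B _ (fun G hG => hrare X G hXa (fun x hx =>
      ⟨hA2 x (hBA (hG hx)), hB x (hG hx)⟩))).2
  obtain ⟨F, hF1, hF2⟩ := hlo (X - C₁) (by linarith)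
  have ha : (F.card : ℝ) ≤ (A.ncard : ℝ) := by
    rw [← Set.ncard_coe_finset F]
    have : (F : Set K) ⊆ A := by
      intro x hx
      obtain ⟨g1, g2, P, g3, g4⟩ := hF1 x hx
      refine hA1 x g1 g2 ?_
      rw [← isP_unique g3 (Pf_spec g1)]
      exact g4
    exact_mod_cast Set.ncard_le_ncard this hfin
  have hA : Real.exp ((2 - κ) * X + (6 - δ / 2) * s1 κ X) ≤ (A.ncard : ℝ) := by
    refine le_trans ?_ (hF2.trans ha)
    apply Real.exp_le_exp.2
    rw [s1_six]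
    have h1 := s1_shift (κ := κ) (X := X) (C := C₁) hκ.le hC₁ hXe
    have h2 : C₁ / X ≤ ε' := by
      rw [div_le_iff₀ hX0]
      rw [div_le_iff₀ hε'0] at hXf
      linarith
    have h3 : (1 - ε') * s1 κ X ≤ s1 κ (X - C₁) := by
      refine le_trans ?_ h1
      exact mul_le_mul_of_nonneg_right (by linarith) hs
    have h4 := hX₄ X hXd
    rw [div_le_iff₀ hδ] at h4
    have h5 : (1 - ε') * (6 * ((1 - ε') * s1 κ X)) ≤ (1 - ε') * (6 * s1 κ (X - C₁)) := by
      apply mul_le_mul_of_nonneg_left _ (by linarith)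
      linarith
    have h6 : (6 - δ / 4) * s1 κ X ≤ (1 - ε') * (6 * ((1 - ε') * s1 κ X)) := by
      have e : (1 - ε') * (6 * ((1 - ε') * s1 κ X)) = (6 - 12 * ε' + 6 * ε' ^ 2) * s1 κ X := by ring
      rw [e]
      apply mul_le_mul_of_nonneg_right _ hs
      nlinarith [sq_nonneg ε']
    have h7 : (2 - κ) * C₁ ≤ 2 * C₁ := mul_le_mul_of_nonneg_right (by linarith) hC₁
    linarith [show (2 - κ) * (X - C₁) = (2 - κ) * X - (2 - κ) * C₁ by ring,
      show (6 - δ / 4) * s1 κ X = 6 * s1 κ X - δ / 4 * s1 κ X by ring,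
      show (6 - δ / 2) * s1 κ X = 6 * s1 κ X - δ / 2 * s1 κ X by ring]
  calc (B.ncard : ℝ) ≤ Real.exp ((2 - κ) * X + (6 - δ) * s1 κ X) := hb
    _ = Real.exp (-(δ / 2 * s1 κ X)) * Real.exp ((2 - κ) * X + (6 - δ / 2) * s1 κ X) := by
        rw [← Real.exp_add]
        congr 1; ring
    _ ≤ _ := mul_le_mul_of_nonneg_left hA (Real.exp_pos _).le

end Pool.Agent.Run7.h585.NF
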