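import Pool.Agent.N776.RS_UP

/-!
# Asymptotics (helper585)
-/

set_option autoImplicit false

namespace Pool.Agent.Run7.h585.NF

open Finset Filter Topology

/-- `u = √(2μ / (κ x log x))` -/
noncomputable def uu (μ κ x : ℝ) : ℝ := √(2 * μ / (κ * x * Real.log x))

/-- the choice of `u` -/
theorem numx {κ ε u₀ μ : ℝ} (hκ : 0 < κ) (hε : 0 < ε) (hu₀ : 0 < u₀) (hμ : 0 < μ) :
    ∀ᶠ x : ℝ in atTop, 0 < uu μ κ x ∧ uu μ κ x < u₀ ∧
      Real.log x / 2 ≤ Real.log (1 / uu μ κ x) ∧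
      Real.log (1 / uu μ κ x) ≤ (1 / 2 + ε) * Real.log x ∧
      uu μ κ x * κ * x + (1 + ε) * μ / (uu μ κ x * Real.log (1 / uu μ κ x)) ≤
        (1 + ε / 2) * √(8 * μ * κ * x / Real.log x) := by
  have hlog2 : ∀ᶠ x : ℝ in atTop, κ / (2 * μ) * Real.log x ≤ x ^ (2 * ε) :=
    ((isLittleO_log_rpow_atTop (show 0 < 2 * ε by positivity)).bound
      (show (0 : ℝ) < 1 / (κ / (2 * μ) + 1) by positivity)).mp (by
      filter_upwards [eventually_ge_atTop (1 : ℝ)] with x hx h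
      have hl : 0 ≤ Real.log x := Real.log_nonneg hx
      rw [Real.norm_of_nonneg hl, Real.norm_of_nonneg (by positivity)] at h
      have h1 : κ / (2 * μ) * Real.log x ≤ (κ / (2 * μ) + 1) * Real.log x := by nlinarith
      refine h1.trans ?_
      have h2 := mul_le_mul_of_nonneg_left h (show 0 ≤ κ / (2 * μ) + 1 by positivity)
      refine h2.trans (le_of_eq ?_)
      field_simp)
  filter_upwards [Real.tendsto_log_atTop.eventually_ge_atTop (2 * μ / κ), hlog2,
    eventually_gt_atTop (2 * μ / (κ * u₀ ^ 2)), Real.tendsto_log_atTop.eventually_ge_atTop 1,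
    eventually_ge_atTop (1 : ℝ)] with x h1 hlg h2 h3 h4
  have hx0 : 0 < x := by linarith
  obtain ⟨l, hl⟩ : ∃ l : ℝ, l = Real.log x := ⟨_, rfl⟩
  obtain ⟨u, hu⟩ : ∃ u : ℝ, u = uu μ κ x := ⟨_, rfl⟩
  have hu' : u = √(2 * μ / (κ * x * l)) := by rw [hu, hl]; rfl
  rw [← hu]
  rw [← hl] at h1 h3 hlg ⊢
  have hl0 : 0 < l := by linarith
  have hκl : 2 * μ ≤ κ * l := by
    rw [div_le_iff₀ hκ] at h1; linarith
  have hD : 0 < κ * x * l := by positivity
  have hu0 : 0 < u := by rw [hu']; exact Real.sqrt_pos.2 (by positivity)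
  have hu2 : u ^ 2 = 2 * μ / (κ * x * l) := by rw [hu']; exact Real.sq_sqrt (by positivity)
  have hlog : l / 2 ≤ Real.log (1 / u) := by
    have h6 : x ≤ (1 / u) ^ 2 := by
      rw [div_pow, one_pow, le_div_iff₀ (by positivity), hu2, mul_div_assoc', div_le_one hD]
      nlinarith
    have h7 := Real.log_le_log hx0 h6
    rw [Real.log_pow, ← hl] at h7
    push_cast at h7
    linarith
  refine ⟨hu0, ?_, hlog, ?_, ?_⟩
  · rw [hu', Real.sqrt_lt' hu₀, div_lt_iff₀ hD]
    rw [div_lt_iff₀ (by positivity)] at h2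
    have h5 : x * (κ * u₀ ^ 2) * 1 ≤ x * (κ * u₀ ^ 2) * l :=
      mul_le_mul_of_nonneg_left h3 (by positivity)
    nlinarith
  · have h6 : (1 / u) ^ 2 ≤ x ^ (1 + 2 * ε) := by
      rw [div_pow, one_pow, hu2, one_div_div, Real.rpow_add hx0, Real.rpow_one]
      calc κ * x * l / (2 * μ) = x * (κ / (2 * μ) * l) := by ring
        _ ≤ x * x ^ (2 * ε) := mul_le_mul_of_nonneg_left hlg hx0.le
    have h7 := Real.log_le_log (by positivity) h6
    rw [Real.log_pow, Real.log_rpow hx0, ← hl] at h7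
    push_cast at h7
    linarith
  · obtain ⟨a, ha⟩ : ∃ a : ℝ, a = u * κ * x := ⟨_, rfl⟩
    have ha0 : 0 < a := by rw [ha]; positivity
    have hS : √(8 * μ * κ * x / l) = 2 * a := by
      rw [show 8 * μ * κ * x / l = (2 * a) ^ 2 by
        rw [ha, mul_pow, mul_pow, mul_pow, hu2]; field_simp; ring]
      exact Real.sqrt_sq (by positivity)
    have hu2' : u ^ 2 * (κ * x * l) = 2 * μ := by rw [hu2]; field_simp
    have h8 : μ / (u * Real.log (1 / u)) ≤ a := by
      have h9 : 0 < Real.log (1 / u) := by linarith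
      rw [div_le_iff₀ (by positivity)]
      calc μ = a * (u * (l / 2)) := by rw [ha]; linarith [show u * κ * x * (u * (l / 2)) =
              u ^ 2 * (κ * x * l) / 2 by ring]
        _ ≤ a * (u * Real.log (1 / u)) := by
            apply mul_le_mul_of_nonneg_left _ ha0.le
            exact mul_le_mul_of_nonneg_left hlog hu0.le
    rw [hS, ← ha, mul_div_assoc]
    nlinarith

/-- linear functions dominate `√(x / log x)` -/
theorem lin_dom (a b : ℝ) (hb : 0 < b) : ∀ᶠ x : ℝ in atTop, a * √(x / Real.log x) ≤ b * x := by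
  filter_upwards [eventually_ge_atTop (max 3 ((|a| / b) ^ 2))] with x hx
  have hx3 : 3 ≤ x := (le_max_left _ _).trans hx
  have hxa : (|a| / b) ^ 2 ≤ x := (le_max_right _ _).trans hx
  have hx0 : 0 < x := by linarith
  have hl1 : 1 ≤ Real.log x := by
    rw [Real.le_log_iff_exp_le hx0]
    have := Real.exp_one_lt_d9
    linarith
  have h1 : √(x / Real.log x) ≤ √x := Real.sqrt_le_sqrt (div_le_self hx0.le hl1)
  have h2 : |a| / b ≤ √x := Real.le_sqrt_of_sq_le hxa
  rw [div_le_iff₀ hb] at h2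
  have h3 : √x * √x = x := Real.mul_self_sqrt hx0.le
  have h4 : 0 ≤ √x := Real.sqrt_nonneg _
  calc a * √(x / Real.log x) ≤ |a| * √x := by
        apply mul_le_mul (le_abs_self a) h1 (Real.sqrt_nonneg _) (abs_nonneg a)
    _ ≤ (√x * b) * √x := mul_le_mul_of_nonneg_right h2 h4
    _ = b * (√x * √x) := by ring
    _ = b * x := by rw [h3]

/-- the scale -/
noncomputable def s1 (κ X : ℝ) : ℝ := √(2 * κ * X / (3 * Real.log X))

theorem s1_nonneg (κ X : ℝ) : 0 ≤ s1 κ X := Real.sqrt_nonneg _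

theorem s1_eq (κ X : ℝ) (hκ : 0 ≤ κ) : s1 κ X = √(2 * κ / 3) * √(X / Real.log X) := by
  rw [s1, ← Real.sqrt_mul (by positivity)]
  congr 1
  rw [div_mul_div_comm]

/-- `√(8 μ κ X / log X) = √(12 μ) s` -/
theorem s1_mu {μ κ X : ℝ} (hμ : 0 ≤ μ) : √(8 * μ * κ * X / Real.log X) = √(12 * μ) * s1 κ X := by
  rw [s1, ← Real.sqrt_mul (by positivity)]
  congr 1
  rw [mul_div_assoc', mul_comm (3 : ℝ), ← div_div]
  ring

theorem s1_six {κ X : ℝ} : √(24 * κ * X / Real.log X) = 6 * s1 κ X := by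
  have h := s1_mu (μ := 3) (κ := κ) (X := X) (by norm_num)
  rw [show (8 * 3 : ℝ) = 24 by norm_num, show (12 * 3 : ℝ) = 6 ^ 2 by norm_num,
    Real.sqrt_sq (by norm_num)] at h
  exact h

/-- `s` tends to infinity -/
theorem s1_large (κ c : ℝ) (hκ : 0 < κ) : ∀ᶠ X : ℝ in atTop, c ≤ s1 κ X := by
  have h := Pool.Agent.N776.RS.poly (κ := κ) (η := 1) (A := 1) hκ one_pos one_pos 1
  have h2 : ∀ᶠ X : ℝ in atTop, 6 * c ≤ Real.log X :=
    Real.tendsto_log_atTop.eventually_ge_atTop _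
  filter_upwards [h, h2, eventually_ge_atTop (3 : ℝ)] with X h1 h2 h3
  rw [one_mul, pow_one, one_mul, s1_six] at h1
  have h4 : X ≤ Real.exp (6 * s1 κ X) := by linarith
  have h5 := Real.log_le_log (by linarith) h4
  rw [Real.log_exp] at h5
  linarith

/-- the scale in terms of `T` -/
theorem s1_ge {κ d T : ℝ} (hκ : 0 ≤ κ) (hd : 1 ≤ d) (hT : 3 ≤ T) (hdT : d ≤ T) :
    √(κ * d / 3) * √(T / Real.log T) ≤ s1 κ (d * T) := by
  have hT0 : 0 < T := by linarith
  have hl : 0 < Real.log T := Real.log_pos (by linarith)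
  have h1 : Real.log (d * T) ≤ 2 * Real.log T := by
    rw [Real.log_mul (by positivity) hT0.ne']
    have := Real.log_le_log (by linarith) hdT
    linarith
  have h2 : 0 < Real.log (d * T) := Real.log_pos (by nlinarith)
  rw [← Real.sqrt_mul (by positivity)]
  unfold s1
  apply Real.sqrt_le_sqrt
  rw [div_mul_div_comm, div_le_div_iff₀ (by positivity) (by positivity)]
  have h3 : 0 ≤ κ * d * T := by positivity
  have h4 := mul_le_mul_of_nonneg_left h1 h3
  nlinarith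

/-- polynomials are dominated by `exp (ε s)` -/
theorem poly_s {κ ε A : ℝ} (hκ : 0 < κ) (hε : 0 < ε) (hA : 0 < A) (n : ℕ) :
    ∀ᶠ X : ℝ in atTop, A * (X + A) ^ n ≤ Real.exp (ε * s1 κ X) := by
  have h := Pool.Agent.N776.RS.poly (κ := κ) (η := ε / 6) (A := A) hκ (by positivity) hA n
  filter_upwards [h] with X h1
  rw [s1_six] at h1
  refine h1.trans (le_of_eq ?_)
  congr 1; ring

/-- `√(12 (3 + y)) ≤ 6 + y` -/
theorem sqrt_tan {y : ℝ} (hy : -3 ≤ y) : √(12 * (3 + y)) ≤ 6 + y := by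
  rw [Real.sqrt_le_left (by linarith)]
  nlinarith [sq_nonneg y]

/-- `e^ν - 1 ≤ ν + ν²` -/
theorem exp_le_quad {ν : ℝ} (h0 : 0 ≤ ν) (h1 : ν ≤ 1) : Real.exp ν ≤ 1 + ν + ν ^ 2 := by
  have := Real.abs_exp_sub_one_sub_id_le (x := ν) (by rw [abs_of_nonneg h0]; exact h1)
  rw [abs_le] at this
  linarith [this.2]

theorem exp_neg_le_quad {ν : ℝ} (h0 : 0 ≤ ν) (h1 : ν ≤ 1) :
    Real.exp (-ν) ≤ 1 - ν + ν ^ 2 := by
  have := Real.abs_exp_sub_one_sub_id_le (x := -ν) (by rw [abs_neg, abs_of_nonneg h0]; exact h1)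
  rw [abs_le] at this
  have h2 := this.2
  have h3 : (-ν) ^ 2 = ν ^ 2 := by ring
  rw [h3] at h2
  linarith

end Pool.Agent.Run7.h585.NF
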