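import Pool.Agent.N906.RS.All
import Pool.Agent.Run7.h585.NF.Cell
import Pool.Agent.Run7.h585.NF.Num

/-!
# The weighted count of the points with small radical: all heights (helper585)
-/

set_option autoImplicit false
set_option linter.unusedSectionVars false

namespace Pool.Agent.Run7.h585.NF

open NumberField IsDedekindDomain Finset Filter Topology Pool.Agent.H691R3 Pool.Agent.W223.AK
open Pool.Agent.N906.RS
open Pool.Agent.N776.RS (CellB tl_bounds shr upp up_shr_le cop_shr tl_shr tl_up tr_le_tl tl_nonneg tr_nonneg)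

variable {K : Type} [Field K] [NumberField K]

/-- the candidates -/
def Cand (κ C₀ X : ℝ) (x : K) : Prop :=
  Pt x ∧ ht x ≤ X ∧ tr (Pf x) ≤ (3 - κ) * ht x + C₀

/-- the good candidates -/
def Good (κ C₀ X : ℝ) (x : K) : Prop :=
  Pt x ∧ ht x ≤ X ∧ tr (Pf x) ≤ (3 - κ) * ht x + C₀ ∧ (3 - κ - (1 - κ) / 2) * ht x ≤ tr (Pf x)

theorem Good.cand {κ C₀ X : ℝ} {x : K} (h : Good κ C₀ X x) : Cand κ C₀ X x :=
  ⟨h.1, h.2.1, h.2.2.1⟩

/-- the weighted count -/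
theorem main (Θ : ℝ → (Fin 3 → Idl K) → ℝ) (hΘ : ∀ u E, 0 ≤ Θ u E) (μ : ℝ) (hμ : 0 < μ)
    (hgen : ∀ ε : ℝ, 0 < ε → ∃ u₀ : ℝ, 0 < u₀ ∧ u₀ < 1 / 2 ∧ ∀ u : ℝ, 0 < u → u < u₀ →
      ∀ F : Finset (Fin 3 → Idl K), (∀ E ∈ F, PC E) →
      ∑ E ∈ F, Θ u E * Real.exp (-(u * tl E) - tr E) ≤
        Real.exp ((μ + ε) / (u * Real.log (1 / u))))
    (κ C₀ ε : ℝ) (hκ : 0 < κ) (hκ1 : κ < 1) (hC₀ : 0 ≤ C₀) (hε : 0 < ε) :
    ∃ X₀ : ℝ, 3 ≤ X₀ ∧ ∀ (X : ℝ) (F : Finset K), X₀ ≤ X → (∀ x ∈ F, Good κ C₀ X x) →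
      ∑ x ∈ F, Θ (uu μ κ X) (Ef x) * Real.exp (uu μ κ X * ar x) ≤
        Real.exp ((2 - κ) * X + (1 + ε) * √(8 * μ * κ * X / Real.log X)) := by
  classical
  obtain ⟨r, hr⟩ : ∃ r : ℕ, r = Fintype.card (InfinitePlace K) := ⟨_, rfl⟩
  obtain ⟨C, hC, hcell⟩ := cell_all K
  obtain ⟨u₀, hu₀, hu₀1, hgup⟩ := hgen (ε * μ) (by positivity)
  have hnum := numx hκ hε hu₀ hμ
  obtain ⟨A0, hA0⟩ : ∃ A0 : ℝ, A0 = C * (1 + Real.exp (12 * r)) * Real.exp (1 + C₀ + 7 * r) *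
    Real.exp r := ⟨_, rfl⟩
  have hA00 : 0 < A0 := by rw [hA0]; positivity
  obtain ⟨A, hA⟩ : ∃ A : ℝ, A = 3 ^ r * A0 * Real.exp 2 + (6 * r + 3) := ⟨_, rfl⟩
  have hr0 : (0 : ℝ) ≤ r := Nat.cast_nonneg _
  have hQ2 : 0 < 3 ^ r * A0 * Real.exp 2 := by positivity
  have hA3 : 6 * (r : ℝ) + 3 ≤ A := by rw [hA]; linarith
  have hApos : 0 < A := by linarith
  have hpoly := poly_s (κ := κ) (ε := ε / 2 * √(12 * μ)) (A := A) hκ (by positivity) hApos (r + 1)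
  obtain ⟨X₀, hX₀⟩ := eventually_atTop.1 (hpoly.and hnum)
  refine ⟨max X₀ 3, le_max_right _ _, fun X F hX hF => ?_⟩
  obtain ⟨hp, hu0, huu, -, -, hsum⟩ := hX₀ X ((le_max_left _ _).trans hX)
  have hX3 : 3 ≤ X := (le_max_right _ _).trans hX
  have hX0 : 0 < X := by linarith
  obtain ⟨u, hu⟩ : ∃ u : ℝ, u = uu μ κ X := ⟨_, rfl⟩
  rw [← hu] at hu0 huu hsum ⊢
  have hu1 : u ≤ 1 := by linarith
  obtain ⟨G, hG⟩ : ∃ G : ℝ, G = Real.exp ((μ + ε * μ) / (u * Real.log (1 / u))) := ⟨_, rfl⟩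
  have hG0 : 0 < G := by rw [hG]; exact Real.exp_pos _
  have hgup' := hgup u hu0 huu
  rw [← hG] at hgup'
  obtain ⟨M, hM⟩ : ∃ M : ℝ, M = 3 ^ r * (X + A) ^ r * (A0 * (Real.exp 2 *
    (Real.exp ((2 - κ) * X + u * κ * X) * G))) := ⟨_, rfl⟩
  have hM0 : 0 ≤ M := by rw [hM]; positivity
  -- the classes
  have hfib : ∀ m ∈ range (⌈X⌉₊ + 1),
      ∑ x ∈ F with ⌈ht x⌉₊ = m, Θ u (Ef x) * Real.exp (u * ar x) ≤ M := by
    intro m hm
    rw [mem_range, Nat.lt_succ_iff] at hm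
    have hmX : (m : ℝ) ≤ X + 1 := by
      have h1 : (m : ℝ) ≤ (⌈X⌉₊ : ℝ) := by exact_mod_cast hm
      have h2 := (Nat.ceil_lt_add_one hX0.le).le
      linarith
    have h1 := cellw hC hcell (κ := κ) (δ := (1 - κ) / 2) (C₀ := C₀) (u := u) (G := G) hκ hκ1.le
      (by linarith) hC₀ hu0 hu1 (Θ u) (hΘ u) hgup' hr m {x ∈ F | ⌈ht x⌉₊ = m} (by
        intro x hx
        rw [mem_filter] at hx
        obtain ⟨g1, g2, g3, g4⟩ := hF x hx.1
        have h0 := ht_nonneg x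
        have h2 := (Nat.ceil_lt_add_one h0).le
        have h3 := Nat.le_ceil (ht x)
        rw [hx.2] at h2 h3
        exact ⟨g1, by linarith, h3, g3, g4⟩)
    refine h1.trans ?_
    rw [← hA0, hM]
    have hm0 : (0 : ℝ) ≤ m := Nat.cast_nonneg m
    have k1 : ((m : ℝ) + 6 * r + 1) ^ r ≤ (X + A) ^ r :=
      pow_le_pow_left₀ (by positivity) (by linarith) r
    have k2 : Real.exp ((2 - κ) * m + u * κ * m) ≤
        Real.exp 2 * Real.exp ((2 - κ) * X + u * κ * X) := by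
      rw [← Real.exp_add]
      apply Real.exp_le_exp.2
      have h2 : (2 - κ + u * κ) * m ≤ (2 - κ + u * κ) * (X + 1) :=
        mul_le_mul_of_nonneg_left hmX (by nlinarith)
      nlinarith
    calc (3 : ℝ) ^ r * ((m : ℝ) + 6 * r + 1) ^ r * (A0 *
          Real.exp ((2 - κ) * m + u * κ * m) * G)
        ≤ (3 : ℝ) ^ r * (X + A) ^ r * (A0 *
          (Real.exp 2 * Real.exp ((2 - κ) * X + u * κ * X)) * G) := by
          apply mul_le_mul
          · exact mul_le_mul_of_nonneg_left k1 (by positivity)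
          · apply mul_le_mul_of_nonneg_right _ hG0.le
            exact mul_le_mul_of_nonneg_left k2 hA00.le
          · positivity
          · positivity
      _ = _ := by ring
  have hmaps : ∀ x ∈ F, ⌈ht x⌉₊ ∈ range (⌈X⌉₊ + 1) := by
    intro x hx
    rw [mem_range, Nat.lt_succ_iff]
    exact Nat.ceil_le_ceil (hF x hx).2.1
  rw [← Finset.sum_fiberwise_of_maps_to hmaps]
  refine (Finset.sum_le_sum hfib).trans ?_
  rw [Finset.sum_const, nsmul_eq_mul, card_range]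
  have h6 : (((⌈X⌉₊ + 1 : ℕ) : ℝ)) ≤ X + A := by
    have := (Nat.ceil_lt_add_one hX0.le).le
    push_cast
    linarith
  have h7 : (3 : ℝ) ^ r * A0 * Real.exp 2 ≤ A := by rw [hA]; linarith
  calc (((⌈X⌉₊ + 1 : ℕ) : ℝ)) * M ≤ (X + A) * M := mul_le_mul_of_nonneg_right h6 hM0
    _ = ((3 : ℝ) ^ r * A0 * Real.exp 2) * (X + A) ^ (r + 1) *
        (Real.exp ((2 - κ) * X + u * κ * X) * G) := by rw [hM]; ring
    _ ≤ A * (X + A) ^ (r + 1) * (Real.exp ((2 - κ) * X + u * κ * X) * G) := by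
        apply mul_le_mul_of_nonneg_right _ (by positivity)
        exact mul_le_mul_of_nonneg_right h7 (by positivity)
    _ ≤ Real.exp (ε / 2 * √(12 * μ) * s1 κ X) *
        (Real.exp ((2 - κ) * X + u * κ * X) * G) :=
        mul_le_mul_of_nonneg_right hp (by positivity)
    _ ≤ _ := by
        rw [hG, ← Real.exp_add, ← Real.exp_add]
        apply Real.exp_le_exp.2
        have e1 : (μ + ε * μ) / (u * Real.log (1 / u)) = (1 + ε) * μ / (u * Real.log (1 / u)) := by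
          ring
        rw [e1]
        rw [s1_mu hμ.le] at hsum ⊢
        linarith [show (1 + ε) * (√(12 * μ) * s1 κ X) = (1 + ε / 2) * (√(12 * μ) * s1 κ X) +
          ε / 2 * √(12 * μ) * s1 κ X by ring]

/-- a rare property -/
def Rare (κ : ℝ) (P : ℝ → K → Prop) : Prop :=
  ∃ δ X₀ : ℝ, 0 < δ ∧ 3 ≤ X₀ ∧ ∀ (X : ℝ) (F : Finset K), X₀ ≤ X → (∀ x ∈ F, P X x) →
    (F.card : ℝ) ≤ Real.exp ((2 - κ) * X + (6 - δ) * s1 κ X)

theorem Rare.mono {κ : ℝ} {P Q : ℝ → K → Prop} (h : Rare κ P)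
    (hPQ : ∀ᶠ X : ℝ in atTop, ∀ x, Q X x → P X x) : Rare κ Q := by
  obtain ⟨δ, X₀, h1, h2, h3⟩ := h
  obtain ⟨X₁, hX₁⟩ := eventually_atTop.1 hPQ
  refine ⟨δ, max X₀ X₁, h1, h2.trans (le_max_left _ _), fun X F hX hF => ?_⟩
  exact h3 X F ((le_max_left _ _).trans hX)
    (fun x hx => hX₁ X ((le_max_right _ _).trans hX) x (hF x hx))

theorem Rare.or {κ : ℝ} (hκ : 0 < κ) {P Q : ℝ → K → Prop} (hP : Rare κ P)
    (hQ : Rare κ Q) : Rare κ (fun X x => P X x ∨ Q X x) := by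
  classical
  obtain ⟨δ₁, X₁, h1, h2, h3⟩ := hP
  obtain ⟨δ₂, X₂, g1, g2, g3⟩ := hQ
  obtain ⟨δ, hδ⟩ : ∃ δ : ℝ, δ = min δ₁ δ₂ := ⟨_, rfl⟩
  have hδ0 : 0 < δ := by rw [hδ]; exact lt_min h1 g1
  have hδ1 : δ ≤ δ₁ := by rw [hδ]; exact min_le_left _ _
  have hδ2 : δ ≤ δ₂ := by rw [hδ]; exact min_le_right _ _
  obtain ⟨X₃, hX₃⟩ := eventually_atTop.1 (s1_large κ (2 / δ) hκ)
  refine ⟨δ / 2, max (max X₁ X₂) X₃, by positivity, (h2.trans (le_max_left _ _)).trans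
    (le_max_left _ _), fun X F hX hF => ?_⟩
  have hXa : X₁ ≤ X := ((le_max_left _ _).trans (le_max_left _ _)).trans hX
  have hXb : X₂ ≤ X := ((le_max_right _ _).trans (le_max_left _ _)).trans hX
  have hs := hX₃ X ((le_max_right _ _).trans hX)
  have k1 := h3 X (F.filter (fun x => P X x)) hXa (fun x hx => (mem_filter.1 hx).2)
  have k2 := g3 X (F.filter (fun x => ¬ P X x)) hXb (fun x hx => by
    rw [mem_filter] at hx
    exact (hF x hx.1).resolve_left hx.2)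
  have h0 := s1_nonneg κ X
  have k3 : (F.card : ℝ) = (F.filter (fun x => P X x)).card +
      (F.filter (fun x => ¬ P X x)).card := by
    exact_mod_cast (Finset.card_filter_add_card_filter_not (s := F) (fun x => P X x)).symm
  have k4 : ∀ δ' : ℝ, δ ≤ δ' → Real.exp ((2 - κ) * X + (6 - δ') * s1 κ X) ≤
      Real.exp ((2 - κ) * X + (6 - δ) * s1 κ X) := by
    intro δ' hδ'
    apply Real.exp_le_exp.2
    have := mul_le_mul_of_nonneg_right hδ' h0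
    linarith [show (6 - δ') * s1 κ X = 6 * s1 κ X - δ' * s1 κ X by ring,
      show (6 - δ) * s1 κ X = 6 * s1 κ X - δ * s1 κ X by ring]
  have k5 : (2 : ℝ) ≤ Real.exp (δ / 2 * s1 κ X) := by
    have h5 := Real.add_one_le_exp (δ / 2 * s1 κ X)
    rw [div_le_iff₀ hδ0] at hs
    linarith
  calc (F.card : ℝ) ≤ 2 * Real.exp ((2 - κ) * X + (6 - δ) * s1 κ X) := by
        have := k4 δ₁ hδ1
        have := k4 δ₂ hδ2
        linarith
    _ ≤ Real.exp (δ / 2 * s1 κ X) *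
        Real.exp ((2 - κ) * X + (6 - δ) * s1 κ X) :=
        mul_le_mul_of_nonneg_right k5 (Real.exp_pos _).le
    _ = _ := by
        rw [← Real.exp_add]
        congr 1; ring

theorem Rare.none (κ : ℝ) : Rare κ (fun (_ : ℝ) (_ : K) => False) := by
  refine ⟨1, 3, one_pos, le_rfl, fun X F _ hF => ?_⟩
  have : F = ∅ := by
    rw [Finset.eq_empty_iff_forall_notMem]
    intro x hx
    exact hF x hx
  rw [this, Finset.card_empty, Nat.cast_zero]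
  exact (Real.exp_pos _).le

theorem Rare.fin {κ : ℝ} (hκ : 0 < κ) (m : ℕ) {P : ℕ → ℝ → K → Prop}
    (h : ∀ k < m, Rare κ (P k)) : Rare κ (fun X x => ∃ k < m, P k X x) := by
  induction m with
  | zero =>
    refine (Rare.none κ).mono (Eventually.of_forall fun X x => ?_)
    rintro ⟨k, hk, -⟩
    omega
  | succ m ih =>
    have h1 := ih (fun k hk => h k (by omega))
    have h2 := h m (by omega)
    refine (h1.or hκ h2).mono (Eventually.of_forall fun X x => ?_)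
    rintro ⟨k, hk, hP⟩
    rcases Nat.lt_succ_iff_lt_or_eq.1 hk with h3 | h3
    · exact Or.inl ⟨k, h3, hP⟩
    · right
      rw [← h3]
      exact hP

/-- the general Chernoff bound -/
theorem cher (Θ : ℝ → (Fin 3 → Idl K) → ℝ) (hΘ : ∀ u E, 0 ≤ Θ u E) (μ : ℝ) (hμ : 0 < μ)
    (hgen : ∀ ε : ℝ, 0 < ε → ∃ u₀ : ℝ, 0 < u₀ ∧ u₀ < 1 / 2 ∧ ∀ u : ℝ, 0 < u → u < u₀ →
      ∀ F : Finset (Fin 3 → Idl K), (∀ E ∈ F, PC E) →
      ∑ E ∈ F, Θ u E * Real.exp (-(u * tl E) - tr E) ≤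
        Real.exp ((μ + ε) / (u * Real.log (1 / u))))
    (κ C₀ c : ℝ) (hκ : 0 < κ) (hκ1 : κ < 1) (hC₀ : 0 ≤ C₀) (hc : √(12 * μ) - c < 6) :
    Rare κ (fun X (x : K) => Good κ C₀ X x ∧
      Real.exp (c * s1 κ X) ≤ Θ (uu μ κ X) (Ef x) * Real.exp (uu μ κ X * ar x)) := by
  obtain ⟨ρ, hρ⟩ : ∃ ρ : ℝ, ρ = √(12 * μ) := ⟨_, rfl⟩
  have hρ0 : 0 ≤ ρ := by rw [hρ]; exact Real.sqrt_nonneg _
  rw [← hρ] at hc
  obtain ⟨ε, hε⟩ : ∃ ε : ℝ, ε = (6 - ρ + c) / (2 * (ρ + 1)) := ⟨_, rfl⟩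
  have hε0 : 0 < ε := by rw [hε]; apply div_pos <;> linarith
  have hερ : ε * ρ ≤ (6 - ρ + c) / 2 := by
    rw [hε, div_mul_eq_mul_div, div_le_div_iff₀ (by positivity) (by norm_num)]
    nlinarith
  obtain ⟨X₀, hX₀, hm⟩ := main Θ hΘ μ hμ hgen κ C₀ ε hκ hκ1 hC₀ hε0
  refine ⟨(6 - ρ + c) / 2, X₀, by linarith, hX₀, fun X F hX hF => ?_⟩
  have h1 := hm X F hX (fun x hx => (hF x hx).1)
  have h2 : (F.card : ℝ) * Real.exp (c * s1 κ X) ≤
      ∑ x ∈ F, Θ (uu μ κ X) (Ef x) * Real.exp (uu μ κ X * ar x) := by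
    rw [← nsmul_eq_mul]
    exact Finset.card_nsmul_le_sum _ _ _ (fun x hx => (hF x hx).2)
  rw [s1_mu hμ.le, ← hρ] at h1
  have h4 := h2.trans h1
  have h5 : (F.card : ℝ) ≤ Real.exp ((2 - κ) * X + (1 + ε) * (ρ * s1 κ X)) *
      Real.exp (-(c * s1 κ X)) := by
    have h6 : (F.card : ℝ) = (F.card : ℝ) * Real.exp (c * s1 κ X) *
        Real.exp (-(c * s1 κ X)) := by
      rw [mul_assoc, ← Real.exp_add, add_neg_cancel, Real.exp_zero, mul_one]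
    rw [h6]
    exact mul_le_mul_of_nonneg_right h4 (Real.exp_pos _).le
  refine h5.trans ?_
  rw [← Real.exp_add]
  apply Real.exp_le_exp.2
  have h7 := s1_nonneg κ X
  have h8 : ε * ρ * s1 κ X ≤ (6 - ρ + c) / 2 * s1 κ X := mul_le_mul_of_nonneg_right hερ h7
  linarith [show (1 + ε) * (ρ * s1 κ X) = ρ * s1 κ X + ε * ρ * s1 κ X by ring,
    show (6 - (6 - ρ + c) / 2) * s1 κ X = ρ * s1 κ X - c * s1 κ X +
      (6 - ρ + c) / 2 * s1 κ X by ring]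

end Pool.Agent.Run7.h585.NF
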