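import Pool.Agent.Run7.h585.NF.Fin

/-!
# The sizes of the prime powers: generating functions (helper585)
-/

set_option autoImplicit false
set_option linter.unusedSectionVars false

namespace Pool.Agent.Run7.h585.NF

open NumberField IsDedekindDomain Finset Filter Topology Pool.Agent.H691R3 Pool.Agent.W223.AK
open Pool.Agent.N906.RS
open Pool.Agent.N163.RS (G G_nonneg)

section Local

/-- weighted geometric sums, weights `≤ 1` -/
theorem geo_lo {q β c : ℝ} (hq0 : 0 < q) (hq1 : q < 1) (hβ1 : β ≤ 1) (hc0 : 0 ≤ c)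
    (hc1 : c ≤ 1) (J : ℕ) :
    ∑ e ∈ Finset.range J, (if q ^ (e + 1) ≤ β then c else 1) * q ^ (e + 1) ≤
      (q * (1 - (1 - c) * β)) / (1 - q) := by
  have h1q : 0 < 1 - q := by linarith
  have key : ∀ J : ℕ, ∑ e ∈ Finset.range J, (if q ^ (e + 1) ≤ β then c else 1) * q ^ (e + 1) ≤
      (q * (1 - (1 - c) * max β (q ^ J)) - c * q ^ (J + 1)) / (1 - q) := by
    intro J
    induction J with
    | zero =>
      rw [Finset.sum_range_zero, pow_zero, max_eq_right hβ1]
      apply le_of_eq
      ring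
    | succ J ih =>
      rw [Finset.sum_range_succ]
      have hqJ : 0 < q ^ J := pow_pos hq0 J
      have hs : q ^ (J + 1) = q * q ^ J := pow_succ' q J
      have hs2 : q ^ (J + 1 + 1) = q * (q * q ^ J) := by rw [pow_succ', hs]
      have hlt : q ^ (J + 1) ≤ q ^ J := by rw [hs]; nlinarith
      by_cases h : q ^ (J + 1) ≤ β
      · rw [if_pos h, max_eq_left h]
        have h2 : β ≤ max β (q ^ J) := le_max_left _ _
        rw [hs2]
        rw [hs] at ih ⊢
        rw [le_div_iff₀ h1q] at ih ⊢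
        have h3 : q * ((1 - c) * β) ≤ q * ((1 - c) * max β (q ^ J)) :=
          mul_le_mul_of_nonneg_left (mul_le_mul_of_nonneg_left h2 (by linarith)) hq0.le
        nlinarith
      · rw [if_neg h]
        rw [not_le] at h
        have h2 : β < q ^ J := h.trans_le hlt
        rw [max_eq_right h.le, hs2]
        rw [max_eq_right h2.le] at ih
        rw [hs] at ih ⊢
        rw [le_div_iff₀ h1q] at ih ⊢
        nlinarith
  refine (key J).trans ?_
  apply div_le_div_of_nonneg_right _ h1q.le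
  have h2 : β ≤ max β (q ^ J) := le_max_left _ _
  have h3 : q * ((1 - c) * β) ≤ q * ((1 - c) * max β (q ^ J)) :=
    mul_le_mul_of_nonneg_left (mul_le_mul_of_nonneg_left h2 (by linarith)) hq0.le
  have h4 : 0 ≤ c * q ^ (J + 1) := by positivity
  linarith

/-- weighted geometric sums, weights `≥ 1` -/
theorem geo_up {q β c : ℝ} (hq0 : 0 < q) (hq1 : q < 1) (hβ0 : 0 ≤ β) (hc1 : 1 ≤ c) (J : ℕ) :
    ∑ e ∈ Finset.range J, (if q ^ (e + 1) ≤ β then c else 1) * q ^ (e + 1) ≤
      (q + (c - 1) * β) / (1 - q) := by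
  have h1q : 0 < 1 - q := by linarith
  have key1 : ∀ J : ℕ, ∑ e ∈ Finset.range J, q ^ (e + 1) ≤ (q - q ^ (J + 1)) / (1 - q) := by
    intro J
    induction J with
    | zero => simp
    | succ J ih =>
      rw [Finset.sum_range_succ]
      have hs2 : q ^ (J + 1 + 1) = q * q ^ (J + 1) := pow_succ' q (J + 1)
      rw [hs2]
      rw [le_div_iff₀ h1q] at ih ⊢
      nlinarith
  have key2 : ∀ J : ℕ, ∑ e ∈ Finset.range J, (if q ^ (e + 1) ≤ β then q ^ (e + 1) else 0) ≤
      max 0 ((β - q ^ (J + 1)) / (1 - q)) := by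
    intro J
    induction J with
    | zero => simp
    | succ J ih =>
      rw [Finset.sum_range_succ]
      have hs2 : q ^ (J + 1 + 1) = q * q ^ (J + 1) := pow_succ' q (J + 1)
      have hp : 0 < q ^ (J + 1) := pow_pos hq0 _
      by_cases h : q ^ (J + 1) ≤ β
      · rw [if_pos h]
        refine le_trans ?_ (le_max_right _ _)
        have h2 : 0 ≤ (β - q ^ (J + 1)) / (1 - q) := div_nonneg (by linarith) h1q.le
        rw [max_eq_right h2, le_div_iff₀ h1q] at ih
        rw [hs2, le_div_iff₀ h1q]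
        nlinarith
      · rw [if_neg h, add_zero]
        rw [not_le] at h
        have h2 : (β - q ^ (J + 1)) / (1 - q) ≤ 0 :=
          div_nonpos_of_nonpos_of_nonneg (by linarith) h1q.le
        rw [max_eq_left h2] at ih
        exact ih.trans (le_max_left _ _)
  have e1 : ∑ e ∈ Finset.range J, (if q ^ (e + 1) ≤ β then c else 1) * q ^ (e + 1) =
      ∑ e ∈ Finset.range J, q ^ (e + 1) +
        (c - 1) * ∑ e ∈ Finset.range J, (if q ^ (e + 1) ≤ β then q ^ (e + 1) else 0) := by
    rw [Finset.mul_sum, ← Finset.sum_add_distrib]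
    refine Finset.sum_congr rfl fun e _ => ?_
    split_ifs <;> ring
  rw [e1, add_div, mul_div_assoc]
  have h5 : 0 < q ^ (J + 1) := pow_pos hq0 _
  apply add_le_add
  · refine (key1 J).trans ?_
    exact div_le_div_of_nonneg_right (by linarith) h1q.le
  · apply mul_le_mul_of_nonneg_left _ (by linarith)
    refine (key2 J).trans (max_le (by positivity) ?_)
    exact div_le_div_of_nonneg_right (by linarith) h1q.le

/-- the local sum -/
theorem loc_sum {N u b c : ℝ} (hN : 1 < N) (hu : 0 < u) (hb : 0 ≤ b) (hc : 0 ≤ c) (J : ℕ) :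
    ∑ e ∈ Finset.range J, (if b / u ≤ ((e + 1 : ℕ) : ℝ) * Real.log N then c else 1) *
      Real.exp (-(u * (((e + 1 : ℕ) : ℝ) * Real.log N)) - Real.log N) ≤
      (1 + (c - 1) * Real.exp (-b) * (if c ≤ 1 then 1 else N ^ u)) * (N⁻¹ / (N ^ u - 1)) := by
  have hN0 : 0 < N := by linarith
  have hl : 0 < Real.log N := Real.log_pos hN
  obtain ⟨q, hq⟩ : ∃ q : ℝ, q = Real.exp (-(u * Real.log N)) := ⟨_, rfl⟩
  have hq0 : 0 < q := by rw [hq]; exact Real.exp_pos _
  have hq1 : q < 1 := by
    rw [hq, Real.exp_lt_one_iff]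
    have := mul_pos hu hl
    linarith
  have hqi : N ^ u = q⁻¹ := by
    rw [hq, ← Real.exp_neg, neg_neg, Real.rpow_def_of_pos hN0]
    congr 1
    ring
  have hβ0 : 0 < Real.exp (-b) := Real.exp_pos _
  have hβ1 : Real.exp (-b) ≤ 1 := by
    rw [Real.exp_le_one_iff]
    linarith
  have hpow : ∀ e : ℕ, q ^ (e + 1) = Real.exp (-(u * (((e + 1 : ℕ) : ℝ) * Real.log N))) := by
    intro e
    rw [hq, ← Real.exp_nat_mul]
    congr 1
    ring
  have hterm : ∀ e : ℕ, (if b / u ≤ ((e + 1 : ℕ) : ℝ) * Real.log N then c else 1) *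
      Real.exp (-(u * (((e + 1 : ℕ) : ℝ) * Real.log N)) - Real.log N) =
      N⁻¹ * ((if q ^ (e + 1) ≤ Real.exp (-b) then c else 1) * q ^ (e + 1)) := by
    intro e
    have h1 : (b / u ≤ ((e + 1 : ℕ) : ℝ) * Real.log N) ↔ (q ^ (e + 1) ≤ Real.exp (-b)) := by
      rw [hpow, Real.exp_le_exp, div_le_iff₀ hu]
      constructor
      · intro h; linarith
      · intro h; linarith
    have h2 : N⁻¹ = Real.exp (-Real.log N) := by rw [Real.exp_neg, Real.exp_log hN0]
    rw [if_congr h1 rfl rfl, h2, hpow, sub_eq_add_neg, Real.exp_add]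
    ring
  rw [Finset.sum_congr rfl fun e _ => hterm e, ← Finset.mul_sum]
  have h1q : 0 < 1 - q := by linarith
  have hG : N⁻¹ / (N ^ u - 1) = N⁻¹ * (q / (1 - q)) := by
    rw [hqi, div_eq_mul_inv]
    congr 1
    field_simp
  rw [hG]
  have hN1 : 0 < N⁻¹ := inv_pos.2 hN0
  rw [show (1 + (c - 1) * Real.exp (-b) * (if c ≤ 1 then 1 else N ^ u)) * (N⁻¹ * (q / (1 - q))) =
    N⁻¹ * ((1 + (c - 1) * Real.exp (-b) * (if c ≤ 1 then 1 else N ^ u)) * (q / (1 - q))) by ring]
  apply mul_le_mul_of_nonneg_left _ hN1.le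
  by_cases hc1 : c ≤ 1
  · rw [if_pos hc1]
    refine (geo_lo hq0 hq1 hβ1 hc hc1 J).trans (le_of_eq ?_)
    ring
  · rw [if_neg hc1, hqi]
    rw [not_le] at hc1
    refine (geo_up hq0 hq1 hβ0.le hc1.le J).trans (le_of_eq ?_)
    field_simp

end Local

variable {K : Type} [Field K] [NumberField K]

open Classical in
/-- the number of the primes `≤ y` with a power of size at least `τ` -/
noncomputable def cntE (i : Fin 3) (y τ : ℝ) (E : Fin 3 → Idl K) : ℕ :=
  #((E i).support.filter (fun v => Nv v ≤ y ∧ τ ≤ (E i v : ℝ) * Real.log (Nv v)))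

open Classical in
/-- the local weights -/
noncomputable def om3 (i : Fin 3) (u t b c : ℝ) (l : Fin 3) (v : Pr K) (e : ℕ) : ℝ :=
  (if l = i ∧ Nv v ≤ u ^ (-t) ∧ b / u ≤ (e : ℝ) * Real.log (Nv v) then c else 1) *
    Real.exp (-(u * ((e : ℝ) * Real.log (Nv v))) - Real.log (Nv v))

theorem cntE_prod (i : Fin 3) (u t b c : ℝ) (E : Fin 3 → Idl K) :
    c ^ cntE i (u ^ (-t)) (b / u) E * Real.exp (-(u * tl E) - tr E) =
      ∏ l : Fin 3, ∏ v ∈ (E l).support, om3 i u t b c l v (E l v) := by
  classical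
  unfold om3
  rw [exp_prod']
  simp only [Finset.prod_mul_distrib]
  congr 1
  rw [Fintype.prod_eq_single i]
  · have e : ∀ v ∈ (E i).support, (if i = i ∧ Nv v ≤ u ^ (-t) ∧
        b / u ≤ (E i v : ℝ) * Real.log (Nv v) then c else 1) =
        if (Nv v ≤ u ^ (-t) ∧ b / u ≤ (E i v : ℝ) * Real.log (Nv v)) then c else 1 := by
      intro v _
      simp only [true_and]
    rw [Finset.prod_congr rfl e, Finset.prod_ite, Finset.prod_const, Finset.prod_const_one,
      mul_one]
    unfold cntE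
    congr!
  · intro l hl
    refine Finset.prod_eq_one fun v _ => ?_
    rw [if_neg]
    rintro ⟨h, -⟩
    exact hl h

/-- the generating function -/
theorem gen_pow (i : Fin 3) (t b c ε : ℝ) (ht : 1 ≤ t) (hb : 0 ≤ b) (hc : 0 ≤ c) (hε : 0 < ε) :
    ∃ u₀ : ℝ, 0 < u₀ ∧ u₀ < 1 / 2 ∧ ∀ u : ℝ, 0 < u → u < u₀ → ∀ F : Finset (Fin 3 → Idl K),
      (∀ E ∈ F, PC E) →
      ∑ E ∈ F, c ^ cntE i (u ^ (-t)) (b / u) E * Real.exp (-(u * tl E) - tr E) ≤
        Real.exp ((3 + (c - 1) * Real.exp (-b) * (1 - 1 / t) + ε) /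
          (u * Real.log (1 / u))) := by
  classical
  have ht0 : 0 < t := by linarith
  have hβ0 : 0 < Real.exp (-b) := Real.exp_pos _
  have hβ1 : Real.exp (-b) ≤ 1 := by
    rw [Real.exp_le_one_iff]
    linarith
  obtain ⟨ε', hε'⟩ : ∃ ε' : ℝ, ε' = ε / (2 * (c + 1)) := ⟨_, rfl⟩
  have hε'0 : 0 < ε' := by rw [hε']; positivity
  obtain ⟨r, hr⟩ : ∃ r : ℝ, r = 1 + (c - 1) * Real.exp (-b) * (if c ≤ 1 then 1 else 1 + ε') :=
    ⟨_, rfl⟩
  have hr0 : 0 ≤ r := by
    rw [hr]
    split_ifs with h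
    · nlinarith
    · rw [not_le] at h
      have : 0 ≤ (c - 1) * Real.exp (-b) * (1 + ε') :=
        mul_nonneg (mul_nonneg (by linarith) hβ0.le) (by linarith)
      linarith
  obtain ⟨C, hC, hc1, -⟩ := cnt_all K
  have h2 : ∀ v : Pr K, 2 ≤ Nv v := fun v => two_le_Nv v
  have hnat : ∀ v : Pr K, ∃ n : ℕ, Nv v = n := fun v => ⟨Ideal.absNorm v.asIdeal, rfl⟩
  obtain ⟨u₀, hu₀, hu₀', H⟩ := Pool.Agent.Run7.h585.AN.eup_cut (fun v : Pr K => Nv v) h2 hnat
    (pit_all K) C hC hc1 (2 + r) 3 t (ε / 2) (by linarith) (by norm_num) ht (by positivity)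
  -- `u ^ (- t u) → 1`
  have hlim : ∀ᶠ u : ℝ in 𝓝[>] 0, t * (u * Real.log (1 / u)) ≤ Real.log (1 + ε') := by
    have h1 : Tendsto (fun u : ℝ => t * (u * Real.log (1 / u))) (𝓝[>] 0) (𝓝 0) := by
      have h3 := tendsto_log_mul_rpow_nhdsGT_zero (r := 1) one_pos
      have h4 : Tendsto (fun u : ℝ => -t * (Real.log u * u ^ (1 : ℝ))) (𝓝[>] 0) (𝓝 (-t * 0)) :=
        h3.const_mul _
      rw [mul_zero] at h4
      refine h4.congr fun u => ?_
      rw [Real.rpow_one, one_div, Real.log_inv]
      ring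
    have h5 : 0 < Real.log (1 + ε') := Real.log_pos (by linarith)
    exact (h1.eventually (gt_mem_nhds h5)).mono fun u hu => hu.le
  obtain ⟨u₁, hu₁, hsub⟩ := mem_nhdsGT_iff_exists_Ioo_subset.1 hlim
  have hu₁0 : (0 : ℝ) < u₁ := hu₁
  refine ⟨min u₀ u₁, lt_min hu₀ hu₁0, (min_le_left _ _).trans_lt hu₀', fun u hu huu F hF => ?_⟩
  have hua : u < u₀ := huu.trans_le (min_le_left _ _)
  have hub : u < u₁ := huu.trans_le (min_le_right _ _)
  have hlu := hsub ⟨hu, hub⟩
  have hNu : ∀ v : Pr K, Nv v ≤ u ^ (-t) → Nv v ^ u ≤ 1 + ε' := by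
    intro v hv
    have hv1 := Nv1 v
    have h1 : Nv v ^ u ≤ (u ^ (-t)) ^ u := Real.rpow_le_rpow (by linarith) hv hu.le
    refine h1.trans ?_
    rw [← Real.rpow_mul hu.le, Real.rpow_def_of_pos hu, ← Real.le_log_iff_exp_le (by linarith)]
    refine le_trans (le_of_eq ?_) hlu
    rw [one_div, Real.log_inv]
    ring
  have hω0 : ∀ (l : Fin 3) (v : Pr K) (e : ℕ), 0 ≤ om3 i u t b c l v e := by
    intro l v e
    unfold om3
    refine mul_nonneg ?_ (Real.exp_pos _).le
    split_ifs
    · exact hc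
    · exact zero_le_one
  have hBB : ∀ (v : Pr K) (J : ℕ), ∑ l : Fin 3, ∑ e ∈ Finset.range J, om3 i u t b c l v (e + 1) ≤
      (if Nv v ≤ u ^ (-t) then (2 + r) else 3) * G 0 u (Nv v) := by
    intro v J
    have hv1 := Nv1 v
    have hG0 : 0 ≤ G 0 u (Nv v) := G_nonneg hu hv1
    have hone : ∀ l : Fin 3, (∀ e : ℕ, om3 i u t b c l v e =
        Real.exp (-(u * ((e : ℝ) * Real.log (Nv v))) - Real.log (Nv v))) →
        ∑ e ∈ Finset.range J, om3 i u t b c l v (e + 1) ≤ G 0 u (Nv v) := by
      intro l hl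
      rw [G_zero (by linarith)]
      refine le_trans (le_of_eq ?_) (geo hv1 hu J)
      exact Finset.sum_congr rfl fun e _ => hl (e + 1)
    by_cases hv : Nv v ≤ u ^ (-t)
    · rw [if_pos hv]
      have hl : ∀ l, ∑ e ∈ Finset.range J, om3 i u t b c l v (e + 1) ≤
          wi i r l * G 0 u (Nv v) := by
        intro l
        unfold wi
        by_cases hli : l = i
        · rw [if_pos hli]
          have e1 : ∀ e : ℕ, om3 i u t b c l v (e + 1) =
              (if b / u ≤ ((e + 1 : ℕ) : ℝ) * Real.log (Nv v) then c else 1) *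
              Real.exp (-(u * (((e + 1 : ℕ) : ℝ) * Real.log (Nv v))) - Real.log (Nv v)) := by
            intro e
            unfold om3
            congr 1
            simp only [hli, hv, true_and]
          rw [Finset.sum_congr rfl fun e _ => e1 e]
          refine (loc_sum hv1 hu hb hc J).trans ?_
          rw [G_zero (by linarith)]
          rw [G_zero (by linarith)] at hG0
          apply mul_le_mul_of_nonneg_right _ hG0
          rw [hr]
          split_ifs with h
          · exact le_rfl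
          · rw [not_le] at h
            have h3 : (c - 1) * Real.exp (-b) * Nv v ^ u ≤ (c - 1) * Real.exp (-b) * (1 + ε') :=
              mul_le_mul_of_nonneg_left (hNu v hv) (mul_nonneg (by linarith) hβ0.le)
            linarith
        · rw [if_neg hli, one_mul]
          refine hone l fun e => ?_
          unfold om3
          rw [if_neg (fun h => hli h.1), one_mul]
      refine (Finset.sum_le_sum fun l _ => hl l).trans (le_of_eq ?_)
      rw [← Finset.sum_mul, wi_sum]
    · rw [if_neg hv]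
      have hl : ∀ l ∈ (Finset.univ : Finset (Fin 3)),
          ∑ e ∈ Finset.range J, om3 i u t b c l v (e + 1) ≤ G 0 u (Nv v) := by
        intro l _
        refine hone l fun e => ?_
        unfold om3
        rw [if_neg (fun h => hv h.2.1), one_mul]
      refine (Finset.sum_le_sum hl).trans (le_of_eq ?_)
      rw [Finset.sum_const, nsmul_eq_mul]
      norm_num
  obtain ⟨s, hs⟩ := gen (om3 i u t b c) hω0 _ hBB F (fun E hE l l' hl v => hF E hE l l' hl v)
  have hpos : ∀ v : Pr K, 0 < 1 + (if Nv v ≤ u ^ (-t) then (2 + r) else 3) * G 0 u (Nv v) := by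
    intro v
    have h3 : 0 ≤ (if Nv v ≤ u ^ (-t) then (2 + r) else 3) := by
      split_ifs
      · linarith
      · norm_num
    have := mul_nonneg h3 (G_nonneg (θ := 0) hu (Nv1 v))
    linarith
  have hlog : 0 < Real.log (1 / u) := Real.log_pos (by rw [one_lt_div hu]; linarith)
  calc ∑ E ∈ F, c ^ cntE i (u ^ (-t)) (b / u) E * Real.exp (-(u * tl E) - tr E)
      = ∑ E ∈ F, ∏ l : Fin 3, ∏ v ∈ (E l).support, om3 i u t b c l v (E l v) :=
        Finset.sum_congr rfl fun E _ => cntE_prod i u t b c E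
    _ ≤ _ := hs
    _ = Real.exp (∑ v ∈ s, Real.log (1 + (if Nv v ≤ u ^ (-t) then (2 + r) else 3) *
        G 0 u (Nv v))) := by
        rw [Real.exp_sum]
        exact Finset.prod_congr rfl fun v _ => (Real.exp_log (hpos v)).symm
    _ ≤ Real.exp (((2 + r) * (1 - 1 / t) + 3 / t + ε / 2) / (u * Real.log (1 / u))) :=
        Real.exp_le_exp.2 (H u hu hua s)
    _ ≤ _ := by
        apply Real.exp_le_exp.2
        apply div_le_div_of_nonneg_right _ (by positivity)
        have ht1 : 0 ≤ 1 - 1 / t := by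
          have : 1 / t ≤ 1 := by rw [div_le_one ht0]; exact ht
          linarith
        have ht2 : 1 - 1 / t ≤ 1 := by
          have : 0 < 1 / t := by positivity
          linarith
        have e1 : (2 + r) * (1 - 1 / t) + 3 / t + ε / 2 = 3 + (r - 1) * (1 - 1 / t) + ε / 2 := by
          ring
        rw [e1]
        have h3 : (r - 1) * (1 - 1 / t) ≤ (c - 1) * Real.exp (-b) * (1 - 1 / t) + ε / 2 := by
          rw [hr]
          split_ifs with h
          · have : (1 + (c - 1) * Real.exp (-b) * 1 - 1) * (1 - 1 / t) =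
                (c - 1) * Real.exp (-b) * (1 - 1 / t) := by ring
            rw [this]
            linarith
          · rw [not_le] at h
            have h4 : (1 + (c - 1) * Real.exp (-b) * (1 + ε') - 1) * (1 - 1 / t) =
                (c - 1) * Real.exp (-b) * (1 - 1 / t) +
                (c - 1) * ε' * (Real.exp (-b) * (1 - 1 / t)) := by ring
            rw [h4]
            have h5 : Real.exp (-b) * (1 - 1 / t) ≤ 1 := by
              calc Real.exp (-b) * (1 - 1 / t) ≤ 1 * 1 :=
                    mul_le_mul hβ1 ht2 ht1 zero_le_one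
                _ = 1 := one_mul 1
            have h6 : (c - 1) * ε' ≤ ε / 2 := by
              rw [hε']
              rw [mul_div_assoc', div_le_div_iff₀ (by positivity) (by norm_num)]
              nlinarith
            have h7 : 0 ≤ (c - 1) * ε' := mul_nonneg (by linarith) hε'0.le
            nlinarith
        linarith

end Pool.Agent.Run7.h585.NF
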