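import Pool.Agent.Run7.h585.NF.PowR

/-!
# The law of the prime powers (helper585)
-/

set_option autoImplicit false
set_option linter.unusedSectionVars false

namespace Pool.Agent.Run7.h585.NF

open NumberField IsDedekindDomain Finset Filter Topology Pool.Agent.H691R3 Pool.Agent.W223.AK
open Pool.Agent.N906.RS

variable {K : Type} [Field K] [NumberField K]

/-- the grid -/
noncomputable def Tg (m k : ℕ) : ℝ := (m : ℝ) / ((m : ℝ) - (k : ℝ))

theorem Tg_spec {m k : ℕ} (hk : k < m) : 1 - 1 / Tg m k = (k : ℝ) / m ∧ 1 ≤ Tg m k := by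
  have hk' : (k : ℝ) < m := by exact_mod_cast hk
  have hk0 : (0 : ℝ) ≤ k := Nat.cast_nonneg k
  have hm0 : (0 : ℝ) < m := by linarith
  unfold Tg
  constructor
  · rw [one_div_div]
    field_simp
    ring
  · rw [one_le_div (by linarith)]
    linarith

theorem Tg_lt {m k : ℕ} (hk : k < m) (hk1 : 0 < k) : 1 < Tg m k := by
  have hk' : (k : ℝ) < m := by exact_mod_cast hk
  have hk0 : (0 : ℝ) < k := by exact_mod_cast hk1
  unfold Tg
  rw [one_lt_div (by linarith)]
  linarith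

theorem grid_lo {m k : ℕ} (hk : k < m) (hk0 : 0 < k) {X y : ℝ} (hX3 : 3 ≤ X) (hy2 : 2 ≤ y)
    (h : (k : ℝ) / m ≤ pr X y) : X ^ (Tg m k / 2) ≤ y := by
  have hk' : (k : ℝ) < m := by exact_mod_cast hk
  have hkp : (0 : ℝ) < k := by exact_mod_cast hk0
  have hm0 : (0 : ℝ) < m := by linarith
  have hX0 : 0 < X := by linarith
  have hly : 0 < Real.log y := Real.log_pos (by linarith)
  have hkpos : (0 : ℝ) < (k : ℝ) / m := by positivity
  have h2 : (k : ℝ) / m ≤ 1 - Real.log X / (2 * Real.log y) := by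
    unfold pr at h
    rcases le_max_iff.1 h with h3 | h3
    · linarith
    · exact h3
  rw [Real.rpow_def_of_pos hX0, ← Real.le_log_iff_exp_le (by linarith)]
  have h4 : Real.log X / (2 * Real.log y) ≤ ((m : ℝ) - k) / m := by
    have : ((m : ℝ) - k) / m = 1 - k / m := by field_simp
    rw [this]; linarith
  rw [div_le_div_iff₀ (by positivity) hm0] at h4
  unfold Tg
  have h5 : 0 < (m : ℝ) - k := by linarith
  rw [div_div, mul_div_assoc', div_le_iff₀ (by positivity)]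
  linarith

theorem grid_up {m k : ℕ} (hk1m : k + 1 < m) {X y : ℝ} (hX3 : 3 ≤ X) (hy2 : 2 ≤ y)
    (h : pr X y < (k : ℝ) / m + 1 / m) : y ≤ X ^ (Tg m (k + 1) / 2) := by
  have hkm' : ((k + 1 : ℕ) : ℝ) < m := by exact_mod_cast hk1m
  have hk0 : (0 : ℝ) ≤ k := Nat.cast_nonneg k
  push_cast at hkm'
  have hm0 : (0 : ℝ) < m := by linarith
  have hX0 : 0 < X := by linarith
  have hly : 0 < Real.log y := Real.log_pos (by linarith)
  have h2 : 1 - Real.log X / (2 * Real.log y) < (k : ℝ) / m + 1 / m := by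
    refine lt_of_le_of_lt ?_ h
    unfold pr
    exact le_max_right _ _
  rw [Real.rpow_def_of_pos hX0, ← Real.log_le_iff_le_exp (by linarith)]
  have h4 : ((m : ℝ) - (k + 1)) / m < Real.log X / (2 * Real.log y) := by
    have : ((m : ℝ) - (k + 1)) / m = 1 - (k / m + 1 / m) := by field_simp
    rw [this]; linarith
  rw [div_lt_div_iff₀ hm0 (by positivity)] at h4
  unfold Tg
  push_cast
  have h5 : 0 < (m : ℝ) - (k + 1) := by linarith
  rw [div_div, mul_div_assoc', le_div_iff₀ (by positivity)]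
  linarith

/-- the grid for the sizes -/
noncomputable def bg (m j : ℕ) : ℝ := Real.log (Tg m j)

theorem bg_nonneg {m j : ℕ} (hj : j < m) : 0 ≤ bg m j := Real.log_nonneg (Tg_spec hj).2

theorem bg_exp {m j : ℕ} (hj : j < m) : Real.exp (-bg m j) = ((m : ℝ) - j) / m := by
  have h1 := (Tg_spec hj).2
  have hj' : (j : ℝ) < m := by exact_mod_cast hj
  have hj0 : (0 : ℝ) ≤ j := Nat.cast_nonneg j
  unfold bg
  rw [Real.exp_neg, Real.exp_log (by linarith)]
  unfold Tg
  rw [inv_div]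

/-- the law of the prime powers -/
theorem rare_pow (i : Fin 3) (κ C₀ ε : ℝ) (hκ : 0 < κ) (hκ1 : κ < 1)
    (hC₀ : 0 ≤ C₀) (hε : 0 < ε) (hε1 : ε ≤ 1) :
    Rare κ (fun X (x : K) => Good κ C₀ X x ∧
      ∃ y τ : ℝ, 2 ≤ y ∧ 0 ≤ τ ∧ ε * s1 κ X <
        |(cntE i y τ (Ef x) : ℝ) - pr X y * Real.exp (-(τ / lam κ X)) * s1 κ X|) := by
  obtain ⟨m, hm⟩ := exists_nat_gt (16 / ε)
  have hm0 : (0 : ℝ) < m := lt_trans (by positivity) hm
  have hm1 : 0 < m := by exact_mod_cast hm0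
  have hmε : 1 / (m : ℝ) ≤ ε / 16 := by
    rw [div_lt_iff₀ hε] at hm
    rw [div_le_iff₀ hm0]
    linarith
  obtain ⟨ω, hω⟩ : ∃ ω : ℝ, ω = 1 / (m : ℝ) := ⟨_, rfl⟩
  have hω0 : 0 < ω := by rw [hω]; positivity
  rw [← hω] at hmε
  obtain ⟨ε₂, hε₂⟩ : ∃ ε₂ : ℝ, ε₂ = ε / 8 := ⟨_, rfl⟩
  have hε₂0 : 0 < ε₂ := by rw [hε₂]; positivity
  have hU : Rare κ (fun X (x : K) => ∃ k < m, ∃ j < m, (Good κ C₀ X x ∧
      ((1 - 1 / Tg m k) * Real.exp (-bg m j) + ε₂) * s1 κ X ≤
        cntE i (X ^ (Tg m k / 2)) (bg m j * lam κ X) (Ef x))) :=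
    Rare.fin hκ m (fun k hk => Rare.fin hκ m (fun j hj =>
      cherE_up i (Tg m k) (bg m j) κ C₀ ε₂ (Tg_spec hk).2 (bg_nonneg hj) hκ hκ1 hC₀ hε₂0
        (by linarith)))
  have hLo : Rare κ (fun X (x : K) => ∃ k < m, (0 < k ∧ ∃ j < m, (Good κ C₀ X x ∧
      (cntE i (X ^ (Tg m k / 2)) (bg m j * lam κ X) (Ef x) : ℝ) ≤
        ((1 - 1 / Tg m k) * Real.exp (-bg m j) - ε₂) * s1 κ X))) := by
    refine Rare.fin hκ m (fun k hk => ?_)
    by_cases hk0 : 0 < k
    · refine Rare.mono (P := fun X (x : K) => ∃ j < m, (Good κ C₀ X x ∧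
        (cntE i (X ^ (Tg m k / 2)) (bg m j * lam κ X) (Ef x) : ℝ) ≤
        ((1 - 1 / Tg m k) * Real.exp (-bg m j) - ε₂) * s1 κ X)) ?_ ?_
      · exact Rare.fin hκ m (fun j hj =>
          cherE_lo i (Tg m k) (bg m j) κ C₀ ε₂ (Tg_lt hk hk0) (bg_nonneg hj) hκ hκ1 hC₀ hε₂0
            (by linarith))
      · exact Eventually.of_forall fun X x h => h.2
    · exact (Rare.none κ).mono (Eventually.of_forall fun X x h => hk0 h.1)
  have hAll : Rare κ (fun X (x : K) => Good κ C₀ X x ∧ (1 + ε₂) * s1 κ X ≤ cntA i (Ef x)) :=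
    cher_all i κ C₀ ε₂ hκ hκ1 hC₀ hε₂0 (by linarith)
  refine (((hU.or hκ hLo).or hκ hAll)).mono ?_
  filter_upwards [eventually_ge_atTop (3 : ℝ)] with X hX3 x
  rintro ⟨hg, y, τ, hy2, hτ0, hy⟩
  by_contra hcon
  rw [not_or, not_or] at hcon
  obtain ⟨⟨c1, c2⟩, c3⟩ := hcon
  push Not at c1 c2 c3
  have hs : 0 < s1 κ X := s1_pos hκ hX3
  have hlam := lam_pos hκ hX3
  have hX0 : 0 < X := by linarith
  have hly : 0 < Real.log y := Real.log_pos (by linarith)
  have hlX : 0 < Real.log X := Real.log_pos (by linarith)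
  obtain ⟨a, ha⟩ : ∃ a : ℝ, a = pr X y := ⟨_, rfl⟩
  have ha0 : 0 ≤ a := by rw [ha]; exact le_max_left _ _
  have ha1 : a < 1 := by
    rw [ha]
    unfold pr
    refine max_lt one_pos ?_
    have : 0 < Real.log X / (2 * Real.log y) := by positivity
    linarith
  obtain ⟨k, hk⟩ : ∃ k : ℕ, k = ⌊(m : ℝ) * a⌋₊ := ⟨_, rfl⟩
  have hk1 : (k : ℝ) ≤ m * a := by rw [hk]; exact Nat.floor_le (by positivity)
  have hk2 : (m : ℝ) * a < k + 1 := by rw [hk]; exact Nat.lt_floor_add_one _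
  have hkm : k < m := by
    have : (k : ℝ) < m := by nlinarith
    exact_mod_cast this
  have hak : (k : ℝ) / m ≤ a := by rw [div_le_iff₀ hm0]; linarith
  have hak2 : a < (k : ℝ) / m + 1 / m := by
    rw [← add_div, lt_div_iff₀ hm0]
    linarith
  obtain ⟨β, hβ⟩ : ∃ β : ℝ, β = Real.exp (-(τ / lam κ X)) := ⟨_, rfl⟩
  have hβ0 : 0 < β := by rw [hβ]; exact Real.exp_pos _
  have hβ1 : β ≤ 1 := by
    rw [hβ, Real.exp_le_one_iff]
    have : 0 ≤ τ / lam κ X := div_nonneg hτ0 hlam.le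
    linarith
  obtain ⟨j, hj⟩ : ∃ j : ℕ, j = ⌊(m : ℝ) * (1 - β)⌋₊ := ⟨_, rfl⟩
  have hj1 : (j : ℝ) ≤ m * (1 - β) := by
    rw [hj]
    exact Nat.floor_le (mul_nonneg hm0.le (by linarith))
  have hj2 : (m : ℝ) * (1 - β) < j + 1 := by rw [hj]; exact Nat.lt_floor_add_one _
  have hjm : j < m := by
    have : (j : ℝ) < m := by nlinarith
    exact_mod_cast this
  -- the values of the grid
  obtain ⟨p, hp⟩ : ∃ p : ℝ, p = (k : ℝ) / m := ⟨_, rfl⟩
  obtain ⟨q, hq⟩ : ∃ q : ℝ, q = ((m : ℝ) - j) / m := ⟨_, rfl⟩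
  rw [← hp] at hak hak2
  rw [← hω] at hak2
  have hp0 : 0 ≤ p := by rw [hp]; positivity
  have hβq : β ≤ q := by
    rw [hq, le_div_iff₀ hm0]
    linarith
  have hqβ : q ≤ β + ω := by
    rw [hq, hω, div_le_iff₀ hm0]
    have : (β + 1 / (m : ℝ)) * m = β * m + 1 := by field_simp
    rw [this]
    linarith
  have hq1 : q ≤ 1 := by
    rw [hq, div_le_one hm0]
    have : (0 : ℝ) ≤ j := Nat.cast_nonneg j
    linarith
  have hbj : bg m j * lam κ X ≤ τ := by
    rw [← le_div_iff₀ hlam]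
    have h1 : Real.exp (-(τ / lam κ X)) ≤ Real.exp (-bg m j) := by
      rw [bg_exp hjm, ← hq, ← hβ]
      exact hβq
    rw [Real.exp_le_exp] at h1
    linarith
  -- lower bound
  have hlow : (a * β - 2 * ω - ε₂) * s1 κ X ≤ cntE i y τ (Ef x) := by
    have h0 : (0 : ℝ) ≤ cntE i y τ (Ef x) := Nat.cast_nonneg _
    by_cases hk0 : 0 < k
    · by_cases hj1m : j + 1 < m
      · have h1 := c2 k hkm hk0 (j + 1) hj1m hg
        rw [(Tg_spec hkm).1, bg_exp hj1m, ← hp] at h1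
        have e : ((m : ℝ) - ((j + 1 : ℕ) : ℝ)) / m = q - ω := by
          rw [hq, hω]
          push_cast
          ring
        rw [e] at h1
        have hqω : 0 ≤ q - ω := by
          rw [← e]
          have : ((j + 1 : ℕ) : ℝ) < m := by exact_mod_cast hj1m
          exact div_nonneg (by linarith) hm0.le
        have hz : X ^ (Tg m k / 2) ≤ y := grid_lo hkm hk0 hX3 hy2 (by rw [← hp, ← ha]; exact hak)
        have hτ' : τ ≤ bg m (j + 1) * lam κ X := by
          rw [← div_le_iff₀ hlam]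
          have h2 : Real.exp (-bg m (j + 1)) ≤ Real.exp (-(τ / lam κ X)) := by
            rw [bg_exp hj1m, e, ← hβ]
            linarith
          rw [Real.exp_le_exp] at h2
          linarith
        have h3 : (cntE i (X ^ (Tg m k / 2)) (bg m (j + 1) * lam κ X) (Ef x) : ℝ) ≤
            cntE i y τ (Ef x) := by exact_mod_cast cntE_mono i hz hτ' (Ef x)
        refine le_trans ?_ (h1.le.trans h3)
        apply mul_le_mul_of_nonneg_right _ hs.le
        have h4 : a * β ≤ a * q := mul_le_mul_of_nonneg_left hβq ha0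
        have h5 : a * (q - ω) ≤ (p + ω) * (q - ω) := mul_le_mul_of_nonneg_right (by linarith) hqω
        have h6 : ω * (q - ω) ≤ ω * 1 := mul_le_mul_of_nonneg_left (by linarith) hω0.le
        have h7 : a * ω ≤ 1 * ω := mul_le_mul_of_nonneg_right ha1.le hω0.le
        linarith [show (p + ω) * (q - ω) = p * (q - ω) + ω * (q - ω) by ring,
          show a * (q - ω) = a * q - a * ω by ring]
      · have hβs : β ≤ ω := by
          have h1 : ((j + 1 : ℕ) : ℝ) = m := by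
            have : j + 1 = m := by omega
            exact_mod_cast this
          push_cast at h1
          have h2 : q = ω := by
            rw [hq, hω]
            congr 1
            linarith
          linarith
        have h1 : a * β ≤ 1 * ω := mul_le_mul ha1.le hβs hβ0.le zero_le_one
        have h2 : (a * β - 2 * ω - ε₂) * s1 κ X ≤ 0 :=
          mul_nonpos_of_nonpos_of_nonneg (by linarith) hs.le
        linarith
    · have hk00 : k = 0 := by omega
      have hp00 : p = 0 := by rw [hp, hk00]; simp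
      have h1 : a * β ≤ ω * 1 := mul_le_mul (by linarith) hβ1 hβ0.le hω0.le
      have h2 : (a * β - 2 * ω - ε₂) * s1 κ X ≤ 0 :=
        mul_nonpos_of_nonpos_of_nonneg (by linarith) hs.le
      linarith
  -- upper bound
  have hup : (cntE i y τ (Ef x) : ℝ) ≤ (a * β + 3 * ω + 3 * ε₂) * s1 κ X := by
    have hprod : (p + ω) * q ≤ a * β + 3 * ω := by
      have h1 : (p + ω) * q ≤ (a + ω) * q := mul_le_mul_of_nonneg_right (by linarith) (by linarith)
      have h2 : a * q ≤ a * (β + ω) := mul_le_mul_of_nonneg_left hqβ ha0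
      have h3 : a * ω ≤ 1 * ω := mul_le_mul_of_nonneg_right ha1.le hω0.le
      have h4 : ω * q ≤ ω * 1 := mul_le_mul_of_nonneg_left hq1 hω0.le
      linarith [show (a + ω) * q = a * q + ω * q by ring,
        show a * (β + ω) = a * β + a * ω by ring]
    by_cases hk1m : k + 1 < m
    · have h1 := c1 (k + 1) hk1m j hjm hg
      rw [(Tg_spec hk1m).1, bg_exp hjm, ← hq] at h1
      have e : ((k + 1 : ℕ) : ℝ) / m = p + ω := by
        rw [hp, hω]
        push_cast
        ring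
      rw [e] at h1
      have hz : y ≤ X ^ (Tg m (k + 1) / 2) :=
        grid_up hk1m hX3 hy2 (by rw [← hp, ← ha, ← hω]; exact hak2)
      have h3 : (cntE i y τ (Ef x) : ℝ) ≤
          cntE i (X ^ (Tg m (k + 1) / 2)) (bg m j * lam κ X) (Ef x) := by
        exact_mod_cast cntE_mono i hz hbj (Ef x)
      refine h3.trans (h1.le.trans ?_)
      apply mul_le_mul_of_nonneg_right _ hs.le
      linarith
    · have hkm2 : ((k + 1 : ℕ) : ℝ) = m := by
        have : k + 1 = m := by omega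
        exact_mod_cast this
      push_cast at hkm2
      have hp1 : p + ω = 1 := by
        rw [hp, hω, ← add_div, hkm2, div_self hm0.ne']
      have h1 := c1 k hkm j hjm hg
      rw [(Tg_spec hkm).1, bg_exp hjm, ← hq, ← hp] at h1
      have h2 : (cntE i y (bg m j * lam κ X) (Ef x) : ℝ) ≤
          cntE i (X ^ (Tg m k / 2)) (bg m j * lam κ X) (Ef x) +
            (cntA i (Ef x) - cntT i (X ^ (Tg m k / 2)) (Ef x)) := cntE_split i _ _ _ _
      have h3 : (cntE i y τ (Ef x) : ℝ) ≤ cntE i y (bg m j * lam κ X) (Ef x) := by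
        exact_mod_cast cntE_mono i le_rfl hbj (Ef x)
      have h4 := c3 hg
      -- the primes up to the last point of the grid
      have h5 : (p - ε₂) * s1 κ X ≤ cntT i (X ^ (Tg m k / 2)) (Ef x) := by
        by_cases hk0 : 0 < k
        · have h6 := c2 k hkm hk0 0 hm1 hg
          rw [(Tg_spec hkm).1, bg_exp hm1, ← hp] at h6
          have e : ((m : ℝ) - ((0 : ℕ) : ℝ)) / m = 1 := by
            push_cast
            rw [sub_zero, div_self hm0.ne']
          rw [e, mul_one] at h6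
          have e2 : bg m 0 * lam κ X ≤ 0 := by
            have : bg m 0 = 0 := by
              unfold bg Tg
              push_cast
              rw [sub_zero, div_self hm0.ne', Real.log_one]
            rw [this, zero_mul]
          rw [cntE_zero i _ e2] at h6
          exact h6.le
        · have hk00 : k = 0 := by omega
          have hp00 : p = 0 := by rw [hp, hk00]; simp
          have h6 : (0 : ℝ) ≤ cntT i (X ^ (Tg m k / 2)) (Ef x) := Nat.cast_nonneg _
          have h7 : (p - ε₂) * s1 κ X ≤ 0 :=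
            mul_nonpos_of_nonpos_of_nonneg (by linarith) hs.le
          linarith
      have h6 : p * q ≤ a * β + ω := by
        have g1 : p * q ≤ a * q := mul_le_mul_of_nonneg_right hak (by linarith)
        have g2 : a * q ≤ a * (β + ω) := mul_le_mul_of_nonneg_left hqβ ha0
        have g3 : a * ω ≤ 1 * ω := mul_le_mul_of_nonneg_right ha1.le hω0.le
        linarith [show a * (β + ω) = a * β + a * ω by ring]
      have h7 : (cntE i y τ (Ef x) : ℝ) ≤
          (p * q + ε₂) * s1 κ X + ((1 + ε₂) * s1 κ X - (p - ε₂) * s1 κ X) := by linarith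
      refine h7.trans ?_
      have h8 : (p * q + ε₂) * s1 κ X + ((1 + ε₂) * s1 κ X - (p - ε₂) * s1 κ X) =
          (p * q + 1 - p + 3 * ε₂) * s1 κ X := by ring
      rw [h8]
      apply mul_le_mul_of_nonneg_right _ hs.le
      linarith
  rw [← ha, ← hβ] at hy
  have hfin : |(cntE i y τ (Ef x) : ℝ) - a * β * s1 κ X| ≤ ε * s1 κ X := by
    rw [abs_le]
    constructor
    · have h1 : (a * β - ε) * s1 κ X ≤ (a * β - 2 * ω - ε₂) * s1 κ X :=
        mul_le_mul_of_nonneg_right (by linarith) hs.le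
      linarith [show (a * β - ε) * s1 κ X = a * β * s1 κ X - ε * s1 κ X by ring]
    · have h1 : (a * β + 3 * ω + 3 * ε₂) * s1 κ X ≤ (a * β + ε) * s1 κ X :=
        mul_le_mul_of_nonneg_right (by linarith) hs.le
      linarith [show (a * β + ε) * s1 κ X = a * β * s1 κ X + ε * s1 κ X by ring]
  linarith

/-- the law of the prime powers -/
def Law (κ ε X : ℝ) (x : K) : Prop :=
  ∀ l, ∀ y τ : ℝ, 2 ≤ y → 0 ≤ τ →
    |(cntE l y τ (Ef x) : ℝ) - pr X y * Real.exp (-(τ / lam κ X)) * s1 κ X| ≤ ε * s1 κ X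

theorem rare_law (κ C₀ ε : ℝ) (hκ : 0 < κ) (hκ1 : κ < 1) (hC₀ : 0 ≤ C₀) (hε : 0 < ε) :
    Rare κ (fun X (x : K) => Cand κ C₀ X x ∧ ¬ Law κ ε X x) := by
  obtain ⟨ε', hε'⟩ : ∃ ε' : ℝ, ε' = min ε 1 := ⟨_, rfl⟩
  have hε'0 : 0 < ε' := by rw [hε']; exact lt_min hε one_pos
  have hε'1 : ε' ≤ ε := by rw [hε']; exact min_le_left _ _
  have hε'2 : ε' ≤ 1 := by rw [hε']; exact min_le_right _ _
  have h1 := rare_bad (K := K) κ C₀ hκ hκ1
  have h2 := Rare.fin hκ 3 (P := fun k X (x : K) => ∃ l : Fin 3, l.val = k ∧ (Good κ C₀ X x ∧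
    ∃ y τ : ℝ, 2 ≤ y ∧ 0 ≤ τ ∧ ε' * s1 κ X <
        |(cntE l y τ (Ef x) : ℝ) - pr X y * Real.exp (-(τ / lam κ X)) * s1 κ X|)) (fun k hk => by
      refine (rare_pow (K := K) ⟨k, hk⟩ κ C₀ ε' hκ hκ1 hC₀ hε'0 hε'2).mono
        (Eventually.of_forall fun X x => ?_)
      rintro ⟨l, rfl, h⟩
      exact h)
  refine (h1.or hκ h2).mono (Eventually.of_forall fun X x => ?_)
  rintro ⟨hc, hl⟩
  by_cases hg : Good κ C₀ X x
  · right
    unfold Law at hl
    push Not at hl
    obtain ⟨l, y, τ, h3, h4, h5⟩ := hl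
    refine ⟨l.val, l.isLt, l, rfl, hg, y, τ, h3, h4, lt_of_le_of_lt ?_ h5⟩
    exact mul_le_mul_of_nonneg_right hε'1 (s1_nonneg _ _)
  · exact Or.inl ⟨hc, hg⟩

/-- **The proportion of the points with a rare property.** -/
theorem prop_rare (K : Type) [Field K] [NumberField K] (κ C₀ C₁ : ℝ) (hκ : 0 < κ) (hκ1 : κ < 1)
    (hC₀ : 0 ≤ C₀) (hC₁ : 0 ≤ C₁) (P : ℝ → K → Prop)
    (hP : Rare κ (fun X (x : K) => Cand κ C₀ X x ∧ P X x)) :
    ∃ δ X₀ : ℝ, 0 < δ ∧ 3 ≤ X₀ ∧ ∀ X : ℝ, X₀ ≤ X → ∀ A : Set K,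
      (∀ x, Pt x → ht x ≤ X - C₁ → tr (Pf x) ≤ (3 - κ) * ht x → x ∈ A) →
      (∀ x ∈ A, Cand κ C₀ X x) → A.Finite ∧ ∀ B : Set K, B ⊆ A → (∀ x ∈ B, P X x) →
        (B.ncard : ℝ) ≤ Real.exp (-(δ * s1 κ X)) * A.ncard := by
  obtain ⟨δ, X₁, hδ, hX₁, hrare⟩ := hP
  obtain ⟨X₂, hX₂, hup⟩ := up_all K κ 1 C₀ hκ hκ1 one_pos hC₀
  obtain ⟨ε', hε'⟩ : ∃ ε' : ℝ, ε' = min (δ / 48) (1 / 2) := ⟨_, rfl⟩
  have hε'0 : 0 < ε' := by rw [hε']; exact lt_min (by positivity) (by norm_num)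
  have hε'1 : ε' < 1 := by rw [hε']; exact (min_le_right _ _).trans_lt (by norm_num)
  have hε'2 : ε' ≤ δ / 48 := by rw [hε']; exact min_le_left _ _
  obtain ⟨X₃, hX₃, hlo⟩ := lo_all K κ ε' hκ hκ1 hε'0 hε'1
  obtain ⟨X₄, hX₄⟩ := eventually_atTop.1 (s1_large κ (8 * (2 * C₁) / δ) hκ)
  refine ⟨δ / 2, max (max (max X₁ X₂) (max (X₃ + C₁) X₄)) (max (C₁ + 3) (C₁ / ε')), by positivity,
    (hX₁.trans (le_max_left _ _)).trans ((le_max_left _ _).trans (le_max_left _ _)),
    fun X hX A hA1 hA2 => ?_⟩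
  have hXa : X₁ ≤ X := ((le_max_left _ _).trans ((le_max_left _ _).trans (le_max_left _ _))).trans hX
  have hXb : X₂ ≤ X := ((le_max_right _ _).trans ((le_max_left _ _).trans (le_max_left _ _))).trans hX
  have hXc : X₃ + C₁ ≤ X :=
    ((le_max_left _ _).trans ((le_max_right _ _).trans (le_max_left _ _))).trans hX
  have hXd : X₄ ≤ X :=
    ((le_max_right _ _).trans ((le_max_right _ _).trans (le_max_left _ _))).trans hX
  have hXe : C₁ + 3 ≤ X := ((le_max_left _ _).trans (le_max_right _ _)).trans hX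
  have hXf : C₁ / ε' ≤ X := ((le_max_right _ _).trans (le_max_right _ _)).trans hX
  have hX0 : 0 < X := by linarith
  have hfin : A.Finite := (fin_of_bound A _ (fun G hG => hup X G hXb (fun x hx => by
    obtain ⟨g1, g2, g3⟩ := hA2 x (hG hx)
    exact ⟨g1, g2, Pf x, Pf_spec g1, g3⟩))).1
  refine ⟨hfin, fun B hBA hB => ?_⟩
  have hs := s1_nonneg κ X
  have hb : (B.ncard : ℝ) ≤ Real.exp ((2 - κ) * X + (6 - δ) * s1 κ X) :=
    (fin_of_bound B _ (fun G hG => hrare X G hXa (fun x hx =>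
      ⟨hA2 x (hBA (hG hx)), hB x (hG hx)⟩))).2
  obtain ⟨F, hF1, hF2⟩ := hlo (X - C₁) (by linarith)
  have ha : (F.card : ℝ) ≤ (A.ncard : ℝ) := by
    rw [← Set.ncard_coe_finset F]
    have : (F : Set K) ⊆ A := by
      intro x hx
      obtain ⟨g1, g2, P, g3, g4⟩ := hF1 x hx
      refine hA1 x g1 g2 ?_
      rw [← isP_unique g3 (Pf_spec g1)]
      exact g4
    exact_mod_cast Set.ncard_le_ncard this hfin
  have hA : Real.exp ((2 - κ) * X + (6 - δ / 2) * s1 κ X) ≤ (A.ncard : ℝ) := by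
    refine le_trans ?_ (hF2.trans ha)
    apply Real.exp_le_exp.2
    rw [s1_six]
    have h1 := s1_shift (κ := κ) (X := X) (C := C₁) hκ.le hC₁ hXe
    have h2 : C₁ / X ≤ ε' := by
      rw [div_le_iff₀ hX0]
      rw [div_le_iff₀ hε'0] at hXf
      linarith
    have h3 : (1 - ε') * s1 κ X ≤ s1 κ (X - C₁) := by
      refine le_trans ?_ h1
      exact mul_le_mul_of_nonneg_right (by linarith) hs
    have h4 := hX₄ X hXd
    rw [div_le_iff₀ hδ] at h4
    have h5 : (1 - ε') * (6 * ((1 - ε') * s1 κ X)) ≤ (1 - ε') * (6 * s1 κ (X - C₁)) := by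
      apply mul_le_mul_of_nonneg_left _ (by linarith)
      linarith
    have h6 : (6 - δ / 4) * s1 κ X ≤ (1 - ε') * (6 * ((1 - ε') * s1 κ X)) := by
      have e : (1 - ε') * (6 * ((1 - ε') * s1 κ X)) = (6 - 12 * ε' + 6 * ε' ^ 2) * s1 κ X := by ring
      rw [e]
      apply mul_le_mul_of_nonneg_right _ hs
      nlinarith [sq_nonneg ε']
    have h7 : (2 - κ) * C₁ ≤ 2 * C₁ := mul_le_mul_of_nonneg_right (by linarith) hC₁
    linarith [show (2 - κ) * (X - C₁) = (2 - κ) * X - (2 - κ) * C₁ by ring,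
      show (6 - δ / 4) * s1 κ X = 6 * s1 κ X - δ / 4 * s1 κ X by ring,
      show (6 - δ / 2) * s1 κ X = 6 * s1 κ X - δ / 2 * s1 κ X by ring]
  calc (B.ncard : ℝ) ≤ Real.exp ((2 - κ) * X + (6 - δ) * s1 κ X) := hb
    _ = Real.exp (-(δ / 2 * s1 κ X)) * Real.exp ((2 - κ) * X + (6 - δ / 2) * s1 κ X) := by
        rw [← Real.exp_add]
        congr 1; ring
    _ ≤ _ := mul_le_mul_of_nonneg_left hA (Real.exp_pos _).le

end Pool.Agent.Run7.h585.NF
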