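import Pool.Agent.Run7.h585.NF.Pow

/-!
# The sizes of the prime powers: large deviations (helper585)
-/

set_option autoImplicit false
set_option linter.unusedSectionVars false

namespace Pool.Agent.Run7.h585.NF

open NumberField IsDedekindDomain Finset Filter Topology Pool.Agent.H691R3 Pool.Agent.W223.AK
open Pool.Agent.N906.RS

variable {K : Type} [Field K] [NumberField K]

theorem cntE_mono (i : Fin 3) {y z τ τ' : ℝ} (h : y ≤ z) (h' : τ' ≤ τ) (E : Fin 3 → Idl K) :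
    cntE i y τ E ≤ cntE i z τ' E := by
  classical
  unfold cntE
  refine Finset.card_le_card fun v hv => ?_
  rw [Finset.mem_filter] at hv ⊢
  exact ⟨hv.1, hv.2.1.trans h, h'.trans hv.2.2⟩

theorem cntE_zero (i : Fin 3) (y : ℝ) {τ : ℝ} (hτ : τ ≤ 0) (E : Fin 3 → Idl K) :
    cntE i y τ E = cntT i y E := by
  classical
  unfold cntE cntT
  congr 1
  ext v
  simp only [Finset.mem_filter]
  constructor
  · rintro ⟨h1, h2, -⟩
    exact ⟨h1, h2⟩
  · rintro ⟨h1, h2⟩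
    exact ⟨h1, h2, hτ.trans (mul_nonneg (Nat.cast_nonneg _) (Real.log_nonneg (Nv1 v).le))⟩

/-- the primes `> z` contribute at most the difference of the counts -/
theorem cntE_split (i : Fin 3) (y z τ : ℝ) (E : Fin 3 → Idl K) :
    (cntE i y τ E : ℝ) ≤ cntE i z τ E + (cntA i E - cntT i z E) := by
  classical
  have h1 : cntE i y τ E + cntT i z E ≤ cntE i z τ E + cntA i E := by
    unfold cntE cntT cntA
    have h2 : (E i).support.filter (fun v => Nv v ≤ y ∧ τ ≤ (E i v : ℝ) * Real.log (Nv v)) ⊆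
        (E i).support.filter (fun v => Nv v ≤ z ∧ τ ≤ (E i v : ℝ) * Real.log (Nv v)) ∪
        (E i).support.filter (fun v => ¬ Nv v ≤ z) := by
      intro v hv
      rw [Finset.mem_filter] at hv
      rw [Finset.mem_union, Finset.mem_filter, Finset.mem_filter]
      by_cases h : Nv v ≤ z
      · exact Or.inl ⟨hv.1, h, hv.2.2⟩
      · exact Or.inr ⟨hv.1, h⟩
    have h3 := (Finset.card_le_card h2).trans (Finset.card_union_le _ _)
    have h4 := Finset.card_filter_add_card_filter_not (s := (E i).support) (fun v => Nv v ≤ z)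
    omega
  have h2 : (cntE i y τ E : ℝ) + cntT i z E ≤ cntE i z τ E + cntA i E := by exact_mod_cast h1
  linarith

/-- the unit of the sizes of the prime powers -/
noncomputable def lam (κ X : ℝ) : ℝ := κ * X / (3 * s1 κ X)

theorem s1_pos {κ X : ℝ} (hκ : 0 < κ) (hX : 3 ≤ X) : 0 < s1 κ X := by
  unfold s1
  apply Real.sqrt_pos.2
  have : 0 < Real.log X := Real.log_pos (by linarith)
  have : 0 < X := by linarith
  positivity

theorem lam_pos {κ X : ℝ} (hκ : 0 < κ) (hX : 3 ≤ X) : 0 < lam κ X := by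
  have h1 := s1_pos hκ hX
  have h2 : 0 < X := by linarith
  unfold lam
  positivity

theorem uu_inv {μ κ X : ℝ} (hμ : 0 < μ) (hκ : 0 < κ) (hX : 3 ≤ X) :
    0 < uu μ κ X ∧ 1 / uu μ κ X = κ * X / (√(3 * μ) * s1 κ X) := by
  have h1 := uX (μ := μ) (κ := κ) (X := X) hμ.le hκ (by linarith)
  have h2 := s1_pos hκ hX
  have hX0 : 0 < X := by linarith
  have h3 : 0 < √(3 * μ) := Real.sqrt_pos.2 (by positivity)
  have h4 : 0 < uu μ κ X * X := by rw [h1]; positivity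
  have h5 : 0 < uu μ κ X := by
    by_contra hc
    rw [not_lt] at hc
    nlinarith
  refine ⟨h5, ?_⟩
  rw [div_eq_div_iff h5.ne' (by positivity)]
  have h6 : √(3 * μ) * s1 κ X = κ * (uu μ κ X * X) := by
    rw [h1]
    field_simp
  rw [h6]
  ring

theorem uu_lam_le {μ κ X b : ℝ} (hμ : 3 ≤ μ) (hκ : 0 < κ) (hX : 3 ≤ X) (hb : 0 ≤ b) :
    b / uu μ κ X ≤ b * lam κ X := by
  obtain ⟨h1, h2⟩ := uu_inv (μ := μ) (κ := κ) (X := X) (by linarith) hκ hX
  have h3 := s1_pos hκ hX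
  have hX0 : 0 < X := by linarith
  rw [div_eq_mul_one_div, h2]
  apply mul_le_mul_of_nonneg_left _ hb
  unfold lam
  apply div_le_div_of_nonneg_left (by positivity) (by positivity)
  apply mul_le_mul_of_nonneg_right _ h3.le
  apply Real.le_sqrt_of_sq_le
  linarith

theorem uu_lam_ge {μ κ X b : ℝ} (hμ0 : 0 < μ) (hμ : μ ≤ 3) (hκ : 0 < κ) (hX : 3 ≤ X) (hb : 0 ≤ b) :
    b * lam κ X ≤ b / uu μ κ X := by
  obtain ⟨h1, h2⟩ := uu_inv (μ := μ) (κ := κ) (X := X) hμ0 hκ hX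
  have h3 := s1_pos hκ hX
  have hX0 : 0 < X := by linarith
  rw [div_eq_mul_one_div, h2]
  apply mul_le_mul_of_nonneg_left _ hb
  unfold lam
  have h4 : 0 < √(3 * μ) := Real.sqrt_pos.2 (by positivity)
  apply div_le_div_of_nonneg_left (by positivity) (by positivity)
  apply mul_le_mul_of_nonneg_right _ h3.le
  rw [Real.sqrt_le_left (by norm_num)]
  linarith

/-- upper tail -/
theorem cherE_up (i : Fin 3) (t b κ C₀ ε : ℝ) (ht : 1 ≤ t) (hb : 0 ≤ b) (hκ : 0 < κ) (hκ1 : κ < 1)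
    (hC₀ : 0 ≤ C₀) (hε : 0 < ε) (hε1 : ε ≤ 1) :
    Rare κ (fun X (x : K) => Good κ C₀ X x ∧
      ((1 - 1 / t) * Real.exp (-b) + ε) * s1 κ X ≤ cntE i (X ^ (t / 2)) (b * lam κ X) (Ef x)) := by
  obtain ⟨ν, hν⟩ : ∃ ν : ℝ, ν = ε / 2 := ⟨_, rfl⟩
  have hν0 : 0 < ν := by rw [hν]; positivity
  have hν1 : ν ≤ 1 := by rw [hν]; linarith
  have ht0 : 0 < t := by linarith
  have hβ0 : 0 < Real.exp (-b) := Real.exp_pos _
  have hβ1 : Real.exp (-b) ≤ 1 := by
    rw [Real.exp_le_one_iff]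
    linarith
  have hq1 : 1 - 1 / t ≤ 1 := by
    have : 0 < 1 / t := by positivity
    linarith
  have hq0 : 0 ≤ 1 - 1 / t := by
    have : 1 / t ≤ 1 := by rw [div_le_one ht0]; exact ht
    linarith
  obtain ⟨θ, hθ⟩ : ∃ θ : ℝ, θ = (1 - 1 / t) * Real.exp (-b) := ⟨_, rfl⟩
  have hθ0 : 0 ≤ θ := by rw [hθ]; positivity
  have hθ1 : θ ≤ 1 := by
    rw [hθ]
    calc (1 - 1 / t) * Real.exp (-b) ≤ 1 * 1 := mul_le_mul hq1 hβ1 hβ0.le zero_le_one
      _ = 1 := one_mul 1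
  have he := exp_le_quad hν0.le hν1
  have he1 : 1 ≤ Real.exp ν := Real.one_le_exp hν0.le
  obtain ⟨y, hy⟩ : ∃ y : ℝ, y = (Real.exp ν - 1) * θ := ⟨_, rfl⟩
  have hy0 : 0 ≤ y := by rw [hy]; exact mul_nonneg (by linarith) hθ0
  have hyu : y ≤ ν * θ + ν ^ 2 := by
    rw [hy]
    have h1 : (Real.exp ν - 1) * θ ≤ (ν + ν ^ 2) * θ := mul_le_mul_of_nonneg_right (by linarith) hθ0
    have h2 : ν ^ 2 * θ ≤ ν ^ 2 * 1 := mul_le_mul_of_nonneg_left hθ1 (by positivity)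
    linarith
  have hcc : √(12 * (3 + y)) - ν * (θ + ε) < 6 := by
    have h1 := sqrt_tan (y := y) (by linarith)
    have h2 : ν ^ 2 < ν * ε := by
      rw [hν]
      nlinarith
    linarith [show ν * (θ + ε) = ν * θ + ν * ε by ring]
  refine (cher (K := K) (fun u E => Real.exp ν ^ cntE i (u ^ (-t)) (b / u) E)
    (fun u E => by positivity) (3 + y) (by linarith) (fun δ hδ => ?_) κ C₀ (ν * (θ + ε)) hκ hκ1
    hC₀ hcc).mono ?_
  · obtain ⟨u₀, h1, h2, h3⟩ := gen_pow (K := K) i t b (Real.exp ν) δ ht hb (Real.exp_pos _).le hδ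
    refine ⟨u₀, h1, h2, fun u hu huu F hF => ?_⟩
    have h4 := h3 u hu huu F hF
    refine h4.trans (le_of_eq ?_)
    rw [hy, hθ]
    congr 2
    ring
  filter_upwards [numx (κ := κ) (ε := 1) (u₀ := 1) (μ := 3 + y) hκ one_pos one_pos
      (by linarith), eventually_ge_atTop (3 : ℝ)] with X hX hX3 x
  rintro ⟨hg, hcnt⟩
  obtain ⟨hu0, hu1, hlu, -, -⟩ := hX
  have hX0 : 0 < X := by linarith
  refine ⟨hg, ?_⟩
  have hz : X ^ (t / 2) ≤ uu (3 + y) κ X ^ (-t) := by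
    rw [Real.rpow_def_of_pos hX0, Real.rpow_def_of_pos hu0]
    apply Real.exp_le_exp.2
    rw [one_div, Real.log_inv] at hlu
    nlinarith
  have hτ := uu_lam_le (μ := 3 + y) (κ := κ) (X := X) (b := b) (by linarith) hκ hX3 hb
  have h1 : (cntE i (X ^ (t / 2)) (b * lam κ X) (Ef x) : ℝ) ≤
      cntE i (uu (3 + y) κ X ^ (-t)) (b / uu (3 + y) κ X) (Ef x) := by
    exact_mod_cast cntE_mono i hz hτ (Ef x)
  rw [← hθ] at hcnt
  rw [← Real.exp_nat_mul, ← Real.exp_add]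
  apply Real.exp_le_exp.2
  have h2 : 0 ≤ uu (3 + y) κ X * ar x := mul_nonneg hu0.le (ar_nonneg x)
  have h3 : ν * ((θ + ε) * s1 κ X) ≤
      ν * cntE i (uu (3 + y) κ X ^ (-t)) (b / uu (3 + y) κ X) (Ef x) :=
    mul_le_mul_of_nonneg_left (hcnt.trans h1) hν0.le
  linarith

/-- lower tail -/
theorem cherE_lo (i : Fin 3) (t b κ C₀ ε : ℝ) (ht : 1 < t) (hb : 0 ≤ b) (hκ : 0 < κ) (hκ1 : κ < 1)
    (hC₀ : 0 ≤ C₀) (hε : 0 < ε) (hε1 : ε ≤ 1) :
    Rare κ (fun X (x : K) => Good κ C₀ X x ∧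
      (cntE i (X ^ (t / 2)) (b * lam κ X) (Ef x) : ℝ) ≤
        ((1 - 1 / t) * Real.exp (-b) - ε) * s1 κ X) := by
  obtain ⟨ν, hν⟩ : ∃ ν : ℝ, ν = ε / 4 := ⟨_, rfl⟩
  have hν0 : 0 < ν := by rw [hν]; positivity
  have hν1 : ν ≤ 1 := by rw [hν]; linarith
  have ht0 : 0 < t := by linarith
  have hβ0 : 0 < Real.exp (-b) := Real.exp_pos _
  have hβ1 : Real.exp (-b) ≤ 1 := by
    rw [Real.exp_le_one_iff]
    linarith
  -- the smaller `t'`
  obtain ⟨t', ht'⟩ : ∃ t' : ℝ, t' = max 1 (t / (1 + ε / 2)) := ⟨_, rfl⟩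
  have ht'1 : 1 ≤ t' := by rw [ht']; exact le_max_left _ _
  have ht'0 : 0 < t' := by linarith
  have ht't : t' < t := by
    rw [ht']
    refine max_lt ht ?_
    rw [div_lt_iff₀ (by positivity)]
    nlinarith
  have hinv : 1 / t' ≤ 1 / t + ε / 2 := by
    have h1 : t / (1 + ε / 2) ≤ t' := by rw [ht']; exact le_max_right _ _
    have h2 : 1 / t' ≤ 1 / (t / (1 + ε / 2)) := one_div_le_one_div_of_le (by positivity) h1
    refine h2.trans ?_
    rw [one_div_div]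
    have h3 : (1 + ε / 2) / t = 1 / t + ε / 2 / t := by ring
    have h4 : ε / 2 / t ≤ ε / 2 := div_le_self (by positivity) ht.le
    linarith
  have hq1 : 1 - 1 / t' ≤ 1 := by
    have : 0 < 1 / t' := by positivity
    linarith
  have hq0 : 0 ≤ 1 - 1 / t' := by
    have : 1 / t' ≤ 1 := by rw [div_le_one ht'0]; exact ht'1
    linarith
  obtain ⟨θ, hθ⟩ : ∃ θ : ℝ, θ = (1 - 1 / t') * Real.exp (-b) := ⟨_, rfl⟩
  have hθ0 : 0 ≤ θ := by rw [hθ]; positivity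
  have hθ1 : θ ≤ 1 := by
    rw [hθ]
    calc (1 - 1 / t') * Real.exp (-b) ≤ 1 * 1 := mul_le_mul hq1 hβ1 hβ0.le zero_le_one
      _ = 1 := one_mul 1
  have he := exp_neg_le_quad hν0.le hν1
  have he0 : 0 < Real.exp (-ν) := Real.exp_pos _
  have he1 : Real.exp (-ν) ≤ 1 := by
    rw [Real.exp_le_one_iff]
    linarith
  obtain ⟨y, hy⟩ : ∃ y : ℝ, y = (Real.exp (-ν) - 1) * θ := ⟨_, rfl⟩
  have hy1 : -1 ≤ y := by
    rw [hy]
    nlinarith
  have hy2 : y ≤ 0 := by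
    rw [hy]
    nlinarith
  have hyu : y ≤ -(ν * θ) + ν ^ 2 := by
    rw [hy]
    have h1 : (Real.exp (-ν) - 1) * θ ≤ (-ν + ν ^ 2) * θ :=
      mul_le_mul_of_nonneg_right (by linarith) hθ0
    have h2 : ν ^ 2 * θ ≤ ν ^ 2 * 1 := mul_le_mul_of_nonneg_left hθ1 (by positivity)
    linarith
  obtain ⟨θt, hθt⟩ : ∃ θt : ℝ, θt = (1 - 1 / t) * Real.exp (-b) := ⟨_, rfl⟩
  have hθtt : θt ≤ θ + ε / 2 := by
    rw [hθt, hθ]
    have h3 : (1 - 1 / t) * Real.exp (-b) ≤ (1 - 1 / t' + ε / 2) * Real.exp (-b) :=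
      mul_le_mul_of_nonneg_right (by linarith) hβ0.le
    nlinarith
  have hcc : √(12 * (3 + y)) - (-(ν * (θt - ε))) < 6 := by
    have h1 := sqrt_tan (y := y) (by linarith)
    have h2 : ν ^ 2 < ν * (ε / 2) := by
      rw [hν]
      nlinarith
    have h3 : ν * θt ≤ ν * (θ + ε / 2) := mul_le_mul_of_nonneg_left hθtt hν0.le
    linarith [show ν * (θt - ε) = ν * θt - ν * ε by ring,
      show ν * (θ + ε / 2) = ν * θ + ν * (ε / 2) by ring,
      show ν * ε = ν * (ε / 2) + ν * (ε / 2) by ring]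
  obtain ⟨η, hη⟩ : ∃ η : ℝ, η = (t / t' - 1) / 2 := ⟨_, rfl⟩
  have hη0 : 0 < η := by
    rw [hη]
    have : 1 < t / t' := by rw [one_lt_div ht'0]; exact ht't
    linarith
  have hηt : t' * (1 / 2 + η) = t / 2 := by
    rw [hη]
    field_simp
    ring
  rw [← hθt]
  refine (cher (K := K) (fun u E => Real.exp (-ν) ^ cntE i (u ^ (-t')) (b / u) E)
    (fun u E => by positivity) (3 + y) (by linarith) (fun δ hδ => ?_) κ C₀ (-(ν * (θt - ε))) hκ
    hκ1 hC₀ hcc).mono ?_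
  · obtain ⟨u₀, h1, h2, h3⟩ := gen_pow (K := K) i t' b (Real.exp (-ν)) δ ht'1 hb he0.le hδ
    refine ⟨u₀, h1, h2, fun u hu huu F hF => ?_⟩
    have h4 := h3 u hu huu F hF
    refine h4.trans (le_of_eq ?_)
    rw [hy, hθ]
    congr 2
    ring
  filter_upwards [numx (κ := κ) (ε := η) (u₀ := 1) (μ := 3 + y) hκ hη0 one_pos
      (by linarith), eventually_ge_atTop (3 : ℝ)] with X hX hX3 x
  rintro ⟨hg, hcnt⟩
  obtain ⟨hu0, hu1, -, hlu, -⟩ := hX
  have hX0 : 0 < X := by linarith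
  refine ⟨hg, ?_⟩
  have hz : uu (3 + y) κ X ^ (-t') ≤ X ^ (t / 2) := by
    rw [Real.rpow_def_of_pos hX0, Real.rpow_def_of_pos hu0]
    apply Real.exp_le_exp.2
    rw [one_div, Real.log_inv] at hlu
    have h1 := mul_le_mul_of_nonneg_left hlu ht'0.le
    calc Real.log (uu (3 + y) κ X) * -t' =
        t' * -Real.log (uu (3 + y) κ X) := by ring
      _ ≤ t' * ((1 / 2 + η) * Real.log X) := h1
      _ = Real.log X * (t' * (1 / 2 + η)) := by ring
      _ = _ := by rw [hηt]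
  have hτ := uu_lam_ge (μ := 3 + y) (κ := κ) (X := X) (b := b) (by linarith) (by linarith) hκ hX3 hb
  have h1 : (cntE i (uu (3 + y) κ X ^ (-t')) (b / uu (3 + y) κ X) (Ef x) : ℝ) ≤
      cntE i (X ^ (t / 2)) (b * lam κ X) (Ef x) := by
    exact_mod_cast cntE_mono i hz hτ (Ef x)
  rw [← Real.exp_nat_mul, ← Real.exp_add]
  apply Real.exp_le_exp.2
  have h2 : 0 ≤ uu (3 + y) κ X * ar x := mul_nonneg hu0.le (ar_nonneg x)
  have h3 := mul_le_mul_of_nonneg_left (h1.trans hcnt) hν0.le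
  linarith [show ν * ((θt - ε) * s1 κ X) = ν * (θt - ε) * s1 κ X by ring]

end Pool.Agent.Run7.h585.NF
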