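import Pool.Agent.Run7.h585.NF.Main

/-!
# Rare properties of the points with small radical (helper585)
-/

set_option autoImplicit false
set_option linter.unusedSectionVars false

namespace Pool.Agent.Run7.h585.NF

open NumberField IsDedekindDomain Finset Filter Topology Pool.Agent.H691R3 Pool.Agent.W223.AK
open Pool.Agent.N906.RS
open Pool.Agent.N776.RS (CellB tl_bounds shr upp up_shr_le cop_shr tl_shr tl_up tr_le_tl tl_nonneg tr_nonneg)

variable {K : Type} [Field K] [NumberField K]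

/-- the weight `r` in the slot `i` -/
noncomputable def wi (i : Fin 3) (r : ℝ) (l : Fin 3) : ℝ := if l = i then r else 1

theorem wi_nonneg (i : Fin 3) {r : ℝ} (hr : 0 ≤ r) (l : Fin 3) : 0 ≤ wi i r l := by
  unfold wi
  split_ifs
  · exact hr
  · exact zero_le_one

theorem wi_sum (i : Fin 3) (r : ℝ) : ∑ l, wi i r l = 2 + r := by
  rw [Fin.sum_univ_three]
  unfold wi
  have h3 : ∀ l : Fin 3, l = 0 ∨ l = 1 ∨ l = 2 := by decide
  rcases h3 i with rfl | rfl | rfl
  · rw [if_pos rfl, if_neg (by decide), if_neg (by decide)]; ring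
  · rw [if_neg (by decide), if_pos rfl, if_neg (by decide)]; ring
  · rw [if_neg (by decide), if_neg (by decide), if_pos rfl]; ring

open Classical in
/-- the number of the primes of norm at most `y` of the `i`-th squareful part -/
noncomputable def cntT (i : Fin 3) (y : ℝ) (E : Fin 3 → Idl K) : ℕ :=
  #((E i).support.filter (fun v => Nv v ≤ y))

/-- the number of all primes -/
noncomputable def cntA (i : Fin 3) (E : Fin 3 → Idl K) : ℕ := #(E i).support

theorem cntT_le (i : Fin 3) (y : ℝ) (E : Fin 3 → Idl K) : cntT i y E ≤ cntA i E :=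
  Finset.card_le_card (Finset.filter_subset _ _)

theorem cntT_mono (i : Fin 3) {y z : ℝ} (h : y ≤ z) (E : Fin 3 → Idl K) :
    cntT i y E ≤ cntT i z E := by
  classical
  unfold cntT
  refine Finset.card_le_card fun v hv => ?_
  rw [Finset.mem_filter] at hv ⊢
  exact ⟨hv.1, hv.2.trans h⟩

theorem Th_cut (i : Fin 3) (z r : ℝ) (E : Fin 3 → Idl K) :
    Th (wtc z (wi i r) (fun _ => 1)) E = r ^ cntT i z E := by
  classical
  unfold Th
  rw [Fintype.prod_eq_single i]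
  · have e : ∀ v ∈ (E i).support, wtc z (wi i r) (fun _ => 1) i v =
        if Nv v ≤ z then r else 1 := by
      intro v _
      unfold wtc wi
      rw [if_pos rfl]
    rw [Finset.prod_congr rfl e, Finset.prod_ite, Finset.prod_const, Finset.prod_const_one,
      mul_one]
    unfold cntT
    congr!
  · intro l hl
    refine Finset.prod_eq_one fun v _ => ?_
    unfold wtc wi
    rw [if_neg hl]
    split_ifs <;> rfl

theorem Th_all (i : Fin 3) (z r : ℝ) (E : Fin 3 → Idl K) :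
    Th (wtc z (wi i r) (wi i r)) E = r ^ cntA i E := by
  classical
  unfold Th
  rw [Fintype.prod_eq_single i]
  · have e : ∀ v ∈ (E i).support, wtc z (wi i r) (wi i r) i v = r := by
      intro v _
      unfold wtc wi
      rw [if_pos rfl]
      split_ifs <;> rfl
    rw [Finset.prod_congr rfl e, Finset.prod_const]
    rfl
  · intro l hl
    refine Finset.prod_eq_one fun v _ => ?_
    unfold wtc wi
    rw [if_neg hl]
    split_ifs <;> rfl

theorem wtc_nonneg {h g : Fin 3 → ℝ} (hh : ∀ l, 0 ≤ h l) (hg : ∀ l, 0 ≤ g l) (z : ℝ) (l : Fin 3)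
    (v : Pr K) : 0 ≤ wtc z h g l v := by
  unfold wtc
  split_ifs
  · exact hh l
  · exact hg l

/-- the Chernoff bound for the weights with a cut-off -/
theorem cherw (h g : Fin 3 → ℝ) (hh : ∀ l, 0 ≤ h l) (hg : ∀ l, 0 ≤ g l) (t μ κ C₀ c : ℝ)
    (ht : 1 ≤ t) (hμ : 0 < μ) (hμ2 : (∑ l, h l) * (1 - 1 / t) + (∑ l, g l) / t = μ)
    (hκ : 0 < κ) (hκ1 : κ < 1) (hC₀ : 0 ≤ C₀) (hc : √(12 * μ) - c < 6) :
    Rare κ (fun X (x : K) => Good κ C₀ X x ∧
      Real.exp (c * s1 κ X) ≤ Th (wtc (uu μ κ X ^ (-t)) h g) (Ef x)) := by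
  refine (cher (K := K) (fun u E => Th (wtc (u ^ (-t)) h g) E)
    (fun u E => Th_nonneg (wtc_nonneg hh hg _) E) μ hμ (fun ε hε => ?_) κ C₀ c hκ hκ1 hC₀
      hc).mono ?_
  · obtain ⟨u₀, h1, h2, h3⟩ := gen_cut (K := K) (pit_all K) (cnt_all K) h g hh hg t ε ht hε
    refine ⟨u₀, h1, h2, fun u hu huu F hF => ?_⟩
    have := h3 u hu huu F hF
    rw [hμ2] at this
    exact this
  · refine Eventually.of_forall fun X x => ?_
    rintro ⟨h1, h2⟩
    refine ⟨h1, h2.trans ?_⟩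
    have h3 : 0 ≤ Th (wtc (uu μ κ X ^ (-t)) h g) (Ef x) := Th_nonneg (wtc_nonneg hh hg _) _
    refine le_mul_of_one_le_right h3 (Real.one_le_exp ?_)
    exact mul_nonneg (Real.sqrt_nonneg _) (ar_nonneg x)

/-- upper tail -/
theorem cher_up (i : Fin 3) (t κ C₀ ε : ℝ) (ht : 1 ≤ t) (hκ : 0 < κ) (hκ1 : κ < 1)
    (hC₀ : 0 ≤ C₀) (hε : 0 < ε) (hε1 : ε ≤ 1) :
    Rare κ (fun X (x : K) => Good κ C₀ X x ∧
      (1 - 1 / t + ε) * s1 κ X ≤ cntT i (X ^ (t / 2)) (Ef x)) := by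
  obtain ⟨ν, hν⟩ : ∃ ν : ℝ, ν = ε / 2 := ⟨_, rfl⟩
  have hν0 : 0 < ν := by rw [hν]; positivity
  have hν1 : ν ≤ 1 := by rw [hν]; linarith
  have ht0 : 0 < t := by linarith
  obtain ⟨θ, hθ⟩ : ∃ θ : ℝ, θ = 1 - 1 / t := ⟨_, rfl⟩
  have hθ1 : θ ≤ 1 := by
    rw [hθ]
    have : 0 < 1 / t := by positivity
    linarith
  have hθ0 : 0 ≤ θ := by
    rw [hθ]
    have : 1 / t ≤ 1 := by rw [div_le_one ht0]; exact ht
    linarith
  have he := exp_le_quad hν0.le hν1
  have he1 : 1 ≤ Real.exp ν := Real.one_le_exp hν0.le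
  obtain ⟨y, hy⟩ : ∃ y : ℝ, y = (Real.exp ν - 1) * θ := ⟨_, rfl⟩
  have hy0 : 0 ≤ y := by rw [hy]; exact mul_nonneg (by linarith) hθ0
  have hyu : y ≤ ν * θ + ν ^ 2 := by
    rw [hy]
    have h1 : (Real.exp ν - 1) * θ ≤ (ν + ν ^ 2) * θ := mul_le_mul_of_nonneg_right (by linarith) hθ0
    have h2 : ν ^ 2 * θ ≤ ν ^ 2 * 1 := mul_le_mul_of_nonneg_left hθ1 (by positivity)
    linarith
  have hμ : (∑ l, wi i (Real.exp ν) l) * (1 - 1 / t) + (∑ _l : Fin 3, (1 : ℝ)) / t = 3 + y := by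
    rw [wi_sum, hy]
    have e1 : 1 / t = 1 - θ := by rw [hθ]; ring
    have e2 : (∑ _l : Fin 3, (1 : ℝ)) / t = 3 * (1 - θ) := by
      rw [← e1]
      simp
      ring
    rw [e2, ← hθ]
    ring
  have hcc : √(12 * (3 + y)) - ν * (θ + ε) < 6 := by
    have h1 := sqrt_tan (y := y) (by linarith)
    have h2 : ν ^ 2 < ν * ε := by
      rw [hν]
      nlinarith
    linarith [show ν * (θ + ε) = ν * θ + ν * ε by ring]
  refine (cherw (K := K) (wi i (Real.exp ν)) (fun _ => 1) (wi_nonneg i (Real.exp_pos _).le)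
    (fun _ => zero_le_one) t (3 + y) κ C₀ (ν * (θ + ε)) ht (by linarith) hμ hκ hκ1 hC₀ hcc).mono ?_
  filter_upwards [numx (κ := κ) (ε := 1) (u₀ := 1) (μ := 3 + y) hκ one_pos one_pos
      (by linarith), eventually_ge_atTop (3 : ℝ)] with X hX hX3 x
  rintro ⟨hg, hcnt⟩
  obtain ⟨hu0, hu1, hlu, -, -⟩ := hX
  have hX0 : 0 < X := by linarith
  refine ⟨hg, ?_⟩
  rw [Th_cut, ← Real.exp_nat_mul]
  apply Real.exp_le_exp.2
  have hz : X ^ (t / 2) ≤ uu (3 + y) κ X ^ (-t) := by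
    rw [Real.rpow_def_of_pos hX0, Real.rpow_def_of_pos hu0]
    apply Real.exp_le_exp.2
    rw [one_div, Real.log_inv] at hlu
    nlinarith
  have h1 : (cntT i (X ^ (t / 2)) (Ef x) : ℝ) ≤
      cntT i (uu (3 + y) κ X ^ (-t)) (Ef x) := by
    exact_mod_cast cntT_mono i hz (Ef x)
  rw [← hθ] at hcnt
  calc ν * (θ + ε) * s1 κ X = ν * ((θ + ε) * s1 κ X) := by ring
    _ ≤ ν * cntT i (uu (3 + y) κ X ^ (-t)) (Ef x) :=
        mul_le_mul_of_nonneg_left (hcnt.trans h1) hν0.le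
    _ = _ := by ring

/-- upper tail for all primes -/
theorem cher_all (i : Fin 3) (κ C₀ ε : ℝ) (hκ : 0 < κ) (hκ1 : κ < 1)
    (hC₀ : 0 ≤ C₀) (hε : 0 < ε) (hε1 : ε ≤ 1) :
    Rare κ (fun X (x : K) => Good κ C₀ X x ∧ (1 + ε) * s1 κ X ≤ cntA i (Ef x)) := by
  obtain ⟨ν, hν⟩ : ∃ ν : ℝ, ν = ε / 2 := ⟨_, rfl⟩
  have hν0 : 0 < ν := by rw [hν]; positivity
  have hν1 : ν ≤ 1 := by rw [hν]; linarith
  have he := exp_le_quad hν0.le hν1
  have he1 : 1 ≤ Real.exp ν := Real.one_le_exp hν0.le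
  obtain ⟨y, hy⟩ : ∃ y : ℝ, y = Real.exp ν - 1 := ⟨_, rfl⟩
  have hμ : (∑ l, wi i (Real.exp ν) l) * (1 - 1 / 1) + (∑ l, wi i (Real.exp ν) l) / 1 =
      3 + y := by
    rw [wi_sum, hy]
    ring
  have hcc : √(12 * (3 + y)) - ν * (1 + ε) < 6 := by
    have h1 := sqrt_tan (y := y) (by linarith)
    have h2 : ν ^ 2 < ν * ε := by
      rw [hν]
      nlinarith
    linarith [show ν * (1 + ε) = ν + ν * ε by ring]
  refine (cherw (K := K) (wi i (Real.exp ν)) (wi i (Real.exp ν)) (wi_nonneg i (Real.exp_pos _).le)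
    (wi_nonneg i (Real.exp_pos _).le) 1 (3 + y) κ C₀ (ν * (1 + ε)) le_rfl (by linarith) hμ hκ hκ1
    hC₀ hcc).mono ?_
  refine Eventually.of_forall fun X x => ?_
  rintro ⟨hg, hcnt⟩
  refine ⟨hg, ?_⟩
  rw [Th_all, ← Real.exp_nat_mul]
  apply Real.exp_le_exp.2
  calc ν * (1 + ε) * s1 κ X = ν * ((1 + ε) * s1 κ X) := by ring
    _ ≤ ν * cntA i (Ef x) := mul_le_mul_of_nonneg_left hcnt hν0.le
    _ = _ := by ring

/-- lower tail -/
theorem cher_lo (i : Fin 3) (t κ C₀ ε : ℝ) (ht : 1 < t) (hκ : 0 < κ) (hκ1 : κ < 1)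
    (hC₀ : 0 ≤ C₀) (hε : 0 < ε) (hε1 : ε ≤ 1) :
    Rare κ (fun X (x : K) => Good κ C₀ X x ∧
      (cntT i (X ^ (t / 2)) (Ef x) : ℝ) ≤ (1 - 1 / t - ε) * s1 κ X) := by
  obtain ⟨ν, hν⟩ : ∃ ν : ℝ, ν = ε / 4 := ⟨_, rfl⟩
  have hν0 : 0 < ν := by rw [hν]; positivity
  have hν1 : ν ≤ 1 := by rw [hν]; linarith
  have ht0 : 0 < t := by linarith
  -- the smaller `t'`
  obtain ⟨t', ht'⟩ : ∃ t' : ℝ, t' = max 1 (t / (1 + ε / 2)) := ⟨_, rfl⟩
  have ht'1 : 1 ≤ t' := by rw [ht']; exact le_max_left _ _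
  have ht'0 : 0 < t' := by linarith
  have ht't : t' < t := by
    rw [ht']
    refine max_lt ht ?_
    rw [div_lt_iff₀ (by positivity)]
    nlinarith
  have hinv : 1 / t' ≤ 1 / t + ε / 2 := by
    have h1 : t / (1 + ε / 2) ≤ t' := by rw [ht']; exact le_max_right _ _
    have h2 : 1 / t' ≤ 1 / (t / (1 + ε / 2)) := one_div_le_one_div_of_le (by positivity) h1
    refine h2.trans ?_
    rw [one_div_div]
    have h3 : (1 + ε / 2) / t = 1 / t + ε / 2 / t := by ring
    have h4 : ε / 2 / t ≤ ε / 2 := div_le_self (by positivity) ht.le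
    linarith
  obtain ⟨θ, hθ⟩ : ∃ θ : ℝ, θ = 1 - 1 / t' := ⟨_, rfl⟩
  have hθ1 : θ ≤ 1 := by
    rw [hθ]
    have : 0 < 1 / t' := by positivity
    linarith
  have hθ0 : 0 ≤ θ := by
    rw [hθ]
    have : 1 / t' ≤ 1 := by rw [div_le_one ht'0]; exact ht'1
    linarith
  have he := exp_neg_le_quad hν0.le hν1
  have he0 : 0 < Real.exp (-ν) := Real.exp_pos _
  obtain ⟨y, hy⟩ : ∃ y : ℝ, y = (Real.exp (-ν) - 1) * θ := ⟨_, rfl⟩
  have hy1 : -1 ≤ y := by
    rw [hy]
    nlinarith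
  have hyu : y ≤ -(ν * θ) + ν ^ 2 := by
    rw [hy]
    have h1 : (Real.exp (-ν) - 1) * θ ≤ (-ν + ν ^ 2) * θ :=
      mul_le_mul_of_nonneg_right (by linarith) hθ0
    have h2 : ν ^ 2 * θ ≤ ν ^ 2 * 1 := mul_le_mul_of_nonneg_left hθ1 (by positivity)
    linarith
  have hμ : (∑ l, wi i (Real.exp (-ν)) l) * (1 - 1 / t') + (∑ _l : Fin 3, (1 : ℝ)) / t' =
      3 + y := by
    rw [wi_sum, hy]
    have e1 : 1 / t' = 1 - θ := by rw [hθ]; ring
    have e2 : (∑ _l : Fin 3, (1 : ℝ)) / t' = 3 * (1 - θ) := by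
      rw [← e1]
      simp
      ring
    rw [e2, ← hθ]
    ring
  have hcc : √(12 * (3 + y)) - (-(ν * (1 - 1 / t - ε))) < 6 := by
    have h1 := sqrt_tan (y := y) (by linarith)
    have h2 : ν ^ 2 < ν * (ε / 2) := by
      rw [hν]
      nlinarith
    have h3 : ν * (1 - 1 / t) ≤ ν * (θ + ε / 2) := by
      apply mul_le_mul_of_nonneg_left _ hν0.le
      rw [hθ]
      linarith
    linarith [show ν * (1 - 1 / t - ε) = ν * (1 - 1 / t) - ν * ε by ring,
      show ν * (θ + ε / 2) = ν * θ + ν * (ε / 2) by ring,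
      show ν * ε = ν * (ε / 2) + ν * (ε / 2) by ring]
  obtain ⟨η, hη⟩ : ∃ η : ℝ, η = (t / t' - 1) / 2 := ⟨_, rfl⟩
  have hη0 : 0 < η := by
    rw [hη]
    have : 1 < t / t' := by rw [one_lt_div ht'0]; exact ht't
    linarith
  have hηt : t' * (1 / 2 + η) = t / 2 := by
    rw [hη]
    field_simp
    ring
  refine (cherw (K := K) (wi i (Real.exp (-ν))) (fun _ => 1) (wi_nonneg i (Real.exp_pos _).le)
    (fun _ => zero_le_one) t' (3 + y) κ C₀ (-(ν * (1 - 1 / t - ε))) ht'1 (by linarith) hμ hκ hκ1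
    hC₀ hcc).mono ?_
  filter_upwards [numx (κ := κ) (ε := η) (u₀ := 1) (μ := 3 + y) hκ hη0 one_pos
      (by linarith), eventually_ge_atTop (3 : ℝ)] with X hX hX3 x
  rintro ⟨hg, hcnt⟩
  obtain ⟨hu0, hu1, -, hlu, -⟩ := hX
  have hX0 : 0 < X := by linarith
  refine ⟨hg, ?_⟩
  rw [Th_cut, ← Real.exp_nat_mul]
  apply Real.exp_le_exp.2
  have hz : uu (3 + y) κ X ^ (-t') ≤ X ^ (t / 2) := by
    rw [Real.rpow_def_of_pos hX0, Real.rpow_def_of_pos hu0]
    apply Real.exp_le_exp.2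
    rw [one_div, Real.log_inv] at hlu
    have h1 := mul_le_mul_of_nonneg_left hlu ht'0.le
    calc Real.log (uu (3 + y) κ X) * -t' =
        t' * -Real.log (uu (3 + y) κ X) := by ring
      _ ≤ t' * ((1 / 2 + η) * Real.log X) := h1
      _ = Real.log X * (t' * (1 / 2 + η)) := by ring
      _ = _ := by rw [hηt]
  have h1 : (cntT i (uu (3 + y) κ X ^ (-t')) (Ef x) : ℝ) ≤
      cntT i (X ^ (t / 2)) (Ef x) := by
    exact_mod_cast cntT_mono i hz (Ef x)
  have h2 := mul_le_mul_of_nonneg_left (h1.trans hcnt) hν0.le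
  linarith [show (cntT i (uu (3 + y) κ X ^ (-t')) (Ef x) : ℝ) * -ν =
    -(ν * cntT i (uu (3 + y) κ X ^ (-t')) (Ef x)) by ring,
    show ν * ((1 - 1 / t - ε) * s1 κ X) = ν * (1 - 1 / t - ε) * s1 κ X by ring]

/-- the expected proportion of the primes `≤ y` -/
noncomputable def pr (X y : ℝ) : ℝ := max 0 (1 - Real.log X / (2 * Real.log y))

/-- the numbers of the primes -/
theorem rare_cnt (i : Fin 3) (κ C₀ ε : ℝ) (hκ : 0 < κ) (hκ1 : κ < 1)
    (hC₀ : 0 ≤ C₀) (hε : 0 < ε) (hε1 : ε ≤ 1) :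
    Rare κ (fun X (x : K) => Good κ C₀ X x ∧
      ∃ y : ℝ, 2 ≤ y ∧ ε * s1 κ X < |(cntT i y (Ef x) : ℝ) - pr X y * s1 κ X|) := by
  obtain ⟨m, hm⟩ := exists_nat_gt (4 / ε)
  have hm0 : (0 : ℝ) < m := lt_trans (by positivity) hm
  have hm1 : 0 < m := by exact_mod_cast hm0
  have hmε : 1 / (m : ℝ) ≤ ε / 4 := by
    rw [div_lt_iff₀ hε] at hm
    rw [div_le_iff₀ hm0]
    linarith
  -- the grid `t_k = m / (m - k)`
  obtain ⟨T, hT⟩ : ∃ T : ℕ → ℝ, T = fun k : ℕ => (m : ℝ) / ((m : ℝ) - (k : ℝ)) := ⟨_, rfl⟩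
  have hTk : ∀ k < m, 1 - 1 / T k = k / m ∧ 1 ≤ T k := by
    intro k hk
    have hk' : (k : ℝ) < m := by exact_mod_cast hk
    have hk0 : (0 : ℝ) ≤ k := Nat.cast_nonneg k
    rw [hT]
    simp only
    constructor
    · rw [one_div_div]
      field_simp
      ring
    · rw [one_le_div (by linarith)]
      linarith
  have hTk1 : ∀ k < m, 0 < k → 1 < T k := by
    intro k hk hk1
    have hk' : (k : ℝ) < m := by exact_mod_cast hk
    have hk0 : (0 : ℝ) < k := by exact_mod_cast hk1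
    rw [hT]
    simp only
    rw [one_lt_div (by linarith)]
    linarith
  have hU : Rare κ (fun X (x : K) => ∃ k < m, (Good κ C₀ X x ∧
      (1 - 1 / T k + ε / 2) * s1 κ X ≤ cntT i (X ^ (T k / 2)) (Ef x))) :=
    Rare.fin hκ m (fun k hk => cher_up i (T k) κ C₀ (ε / 2) (hTk k hk).2 hκ hκ1 hC₀
      (by positivity) (by linarith))
  have hLo : Rare κ (fun X (x : K) => ∃ k < m, (0 < k ∧ Good κ C₀ X x ∧
      (cntT i (X ^ (T k / 2)) (Ef x) : ℝ) ≤ (1 - 1 / T k - ε / 2) * s1 κ X)) := by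
    refine Rare.fin hκ m (fun k hk => ?_)
    by_cases hk0 : 0 < k
    · refine Rare.mono (P := fun X (x : K) => Good κ C₀ X x ∧
        (cntT i (X ^ (T k / 2)) (Ef x) : ℝ) ≤ (1 - 1 / T k - ε / 2) * s1 κ X) ?_ ?_
      · exact cher_lo i (T k) κ C₀ (ε / 2) (hTk1 k hk hk0) hκ hκ1 hC₀ (by positivity)
          (by linarith)
      · exact Eventually.of_forall fun X x h => h.2
    · exact (Rare.none κ).mono (Eventually.of_forall fun X x h => hk0 h.1)
  have hAll : Rare κ (fun X (x : K) => Good κ C₀ X x ∧ (1 + ε / 2) * s1 κ X ≤ cntA i (Ef x)) :=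
    cher_all i κ C₀ (ε / 2) hκ hκ1 hC₀ (by positivity) (by linarith)
  refine (((hU.or hκ hLo).or hκ hAll)).mono ?_
  filter_upwards [eventually_ge_atTop (3 : ℝ)] with X hX3 x
  have hX0 : 0 < X := by linarith
  rintro ⟨hg, y, hy2, hy⟩
  by_contra hcon
  rw [not_or, not_or] at hcon
  obtain ⟨⟨c1, c2⟩, c3⟩ := hcon
  push Not at c1 c2 c3
  have hs := s1_nonneg κ X
  have hly : 0 < Real.log y := Real.log_pos (by linarith)
  obtain ⟨ll, hll⟩ : ∃ ll : ℝ, ll = Real.log X := ⟨_, rfl⟩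
  have hllX : 0 < ll := by rw [hll]; exact Real.log_pos (by linarith)
  obtain ⟨a, ha⟩ : ∃ a : ℝ, a = pr X y := ⟨_, rfl⟩
  have ha0 : 0 ≤ a := by rw [ha]; exact le_max_left _ _
  have ha1 : a < 1 := by
    rw [ha]
    unfold pr
    rw [← hll]
    refine max_lt one_pos ?_
    have : 0 < ll / (2 * Real.log y) := by positivity
    linarith
  obtain ⟨k, hk⟩ : ∃ k : ℕ, k = ⌊(m : ℝ) * a⌋₊ := ⟨_, rfl⟩
  have hk1 : (k : ℝ) ≤ m * a := by rw [hk]; exact Nat.floor_le (by positivity)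
  have hk2 : (m : ℝ) * a < k + 1 := by rw [hk]; exact Nat.lt_floor_add_one _
  have hkm : k < m := by
    have : (k : ℝ) < m := by nlinarith
    exact_mod_cast this
  have hak : (k : ℝ) / m ≤ a := by rw [div_le_iff₀ hm0]; linarith
  have hak2 : a < (k : ℝ) / m + 1 / m := by
    rw [← add_div, lt_div_iff₀ hm0]
    linarith
  -- lower bound
  have hlow : ((k : ℝ) / m - ε / 2) * s1 κ X ≤ cntT i y (Ef x) := by
    by_cases hk0 : 0 < k
    · have h1 := c2 k hkm hk0 hg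
      rw [(hTk k hkm).1] at h1
      refine h1.le.trans ?_
      have hz : X ^ (T k / 2) ≤ y := by
        have hkpos : (0 : ℝ) < (k : ℝ) / m := by
          have : (0 : ℝ) < k := by exact_mod_cast hk0
          positivity
        have hkm' : (k : ℝ) < m := by exact_mod_cast hkm
        have h2 : (k : ℝ) / m ≤ 1 - ll / (2 * Real.log y) := by
          rw [ha] at hak
          unfold pr at hak
          rw [← hll] at hak
          rcases le_max_iff.1 hak with h3 | h3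
          · linarith
          · exact h3
        rw [Real.rpow_def_of_pos hX0, ← hll]
        rw [← Real.le_log_iff_exp_le (by linarith)]
        have h4 : ll / (2 * Real.log y) ≤ ((m : ℝ) - k) / m := by
          have : ((m : ℝ) - k) / m = 1 - k / m := by field_simp
          rw [this]; linarith
        rw [div_le_div_iff₀ (by positivity) hm0] at h4
        rw [hT]
        simp only
        have h5 : 0 < (m : ℝ) - k := by linarith
        rw [div_div, mul_div_assoc', div_le_iff₀ (by positivity)]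
        linarith
      exact_mod_cast cntT_mono i hz (Ef x)
    · have hk00 : k = 0 := by omega
      rw [hk00]
      push_cast
      have h1 : (0 : ℝ) ≤ cntT i y (Ef x) := Nat.cast_nonneg _
      have h2 : (0 / (m : ℝ) - ε / 2) * s1 κ X ≤ 0 := by
        rw [zero_div]
        nlinarith
      linarith
  -- upper bound
  have hup : (cntT i y (Ef x) : ℝ) ≤ ((k : ℝ) / m + 1 / m + ε / 2) * s1 κ X := by
    by_cases hk1m : k + 1 < m
    · have h1 := c1 (k + 1) hk1m hg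
      rw [(hTk (k + 1) hk1m).1] at h1
      have e : ((k + 1 : ℕ) : ℝ) / m = (k : ℝ) / m + 1 / m := by push_cast; ring
      rw [e] at h1
      refine le_trans ?_ h1.le
      have hz : y ≤ X ^ (T (k + 1) / 2) := by
        have hkm' : ((k + 1 : ℕ) : ℝ) < m := by exact_mod_cast hk1m
        push_cast at hkm'
        have h2 : 1 - ll / (2 * Real.log y) < (k : ℝ) / m + 1 / m := by
          refine lt_of_le_of_lt ?_ hak2
          rw [ha]
          unfold pr
          rw [← hll]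
          exact le_max_right _ _
        rw [Real.rpow_def_of_pos hX0, ← hll]
        rw [← Real.log_le_iff_le_exp (by linarith)]
        have h4 : ((m : ℝ) - (k + 1)) / m < ll / (2 * Real.log y) := by
          have : ((m : ℝ) - (k + 1)) / m = 1 - (k / m + 1 / m) := by field_simp
          rw [this]; linarith
        rw [div_lt_div_iff₀ hm0 (by positivity)] at h4
        rw [hT]
        simp only
        push_cast
        have h5 : 0 < (m : ℝ) - (k + 1) := by linarith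
        rw [div_div, mul_div_assoc', le_div_iff₀ (by positivity)]
        linarith
      exact_mod_cast cntT_mono i hz (Ef x)
    · have hkm2 : k + 1 = m := by omega
      have h1 := c3 hg
      have h2 : (k : ℝ) / m + 1 / m = 1 := by
        rw [← add_div]
        have : (k : ℝ) + 1 = m := by exact_mod_cast hkm2
        rw [this, div_self hm0.ne']
      rw [h2]
      refine le_trans ?_ h1.le
      exact_mod_cast cntT_le i y (Ef x)
  rw [← ha] at hy
  have hfin : |(cntT i y (Ef x) : ℝ) - a * s1 κ X| ≤ ε * s1 κ X := by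
    rw [abs_le]
    constructor
    · have h1 : (a - ε) * s1 κ X ≤ ((k : ℝ) / m - ε / 2) * s1 κ X :=
        mul_le_mul_of_nonneg_right (by linarith) hs
      linarith [show (a - ε) * s1 κ X = a * s1 κ X - ε * s1 κ X by ring]
    · have h1 : ((k : ℝ) / m + 1 / m + ε / 2) * s1 κ X ≤ (a + ε) * s1 κ X :=
        mul_le_mul_of_nonneg_right (by linarith) hs
      linarith [show (a + ε) * s1 κ X = a * s1 κ X + ε * s1 κ X by ring]
  linarith

end Pool.Agent.Run7.h585.NF
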