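import Pool.Agent.Run7.h585.NF.PowC

/-!
# The shares of the defect by the size of the primes (helper585)
-/

set_option autoImplicit false
set_option linter.unusedSectionVars false

namespace Pool.Agent.Run7.h585.NF

open NumberField IsDedekindDomain Finset Filter Topology Pool.Agent.H691R3 Pool.Agent.W223.AK
open Pool.Agent.N906.RS
open Pool.Agent.N776.RS (shr shr_apply len_shr)

variable {K : Type} [Field K] [NumberField K]

/-- a layer cake inequality -/
theorem layer {ι : Type*} (T : Finset ι) (s : ι → ℝ) (hs : ∀ v ∈ T, 0 ≤ s v) {h : ℝ} (hh : 0 < h)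
    (J : ℕ) : h * ∑ j ∈ Finset.range J, (#(T.filter (fun v => ((j : ℝ) + 1) * h ≤ s v)) : ℝ) ≤
      ∑ v ∈ T, s v := by
  classical
  have h1 : ∀ j ∈ Finset.range J, (#(T.filter (fun v => ((j : ℝ) + 1) * h ≤ s v)) : ℝ) =
      ∑ v ∈ T, if ((j : ℝ) + 1) * h ≤ s v then (1 : ℝ) else 0 := by
    intro j _
    rw [Finset.card_filter]
    push_cast
    rfl
  rw [Finset.sum_congr rfl h1, Finset.sum_comm, Finset.mul_sum]
  refine Finset.sum_le_sum fun v hv => ?_
  have h0 := hs v hv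
  rw [← Finset.sum_filter, Finset.sum_const, nsmul_eq_mul, mul_one]
  have h2 : (Finset.range J).filter (fun j : ℕ => ((j : ℝ) + 1) * h ≤ s v) ⊆
      Finset.range ⌊s v / h⌋₊ := by
    intro j hj
    rw [Finset.mem_filter] at hj
    rw [Finset.mem_range]
    have h3 : ((j + 1 : ℕ) : ℝ) ≤ s v / h := by
      rw [le_div_iff₀ hh]
      push_cast
      exact hj.2
    exact Nat.lt_of_succ_le (Nat.le_floor h3)
  have h3 := Finset.card_le_card h2
  rw [Finset.card_range] at h3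
  have h4 : (#((Finset.range J).filter (fun j : ℕ => ((j : ℝ) + 1) * h ≤ s v)) : ℝ) ≤ s v / h :=
    (by exact_mod_cast h3 : _ ≤ ((⌊s v / h⌋₊ : ℕ) : ℝ)).trans (Nat.floor_le (by positivity))
  rw [le_div_iff₀ hh] at h4
  linarith

/-- the size of the part with the primes of norm at most `z` -/
noncomputable def lenT (i : Fin 3) (z : ℝ) (E : Fin 3 → Idl K) : ℝ :=
  ∑ v ∈ (E i).support.filter (fun v => Nv v ≤ z), (E i v : ℝ) * Real.log (Nv v)

theorem term_nonneg (i : Fin 3) (E : Fin 3 → Idl K) (v : Pr K) :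
    0 ≤ (E i v : ℝ) * Real.log (Nv v) :=
  mul_nonneg (Nat.cast_nonneg _) (logNv v).le

theorem lenT_le (i : Fin 3) (z : ℝ) (E : Fin 3 → Idl K) : lenT i z E ≤ len (E i) := by
  unfold lenT len
  exact Finset.sum_le_sum_of_subset_of_nonneg (Finset.filter_subset _ _)
    fun v _ _ => term_nonneg i E v

theorem layer_z (i : Fin 3) (z : ℝ) {h : ℝ} (hh : 0 < h) (J : ℕ) (E : Fin 3 → Idl K) :
    h * ∑ j ∈ Finset.range J, (cntE i z (((j : ℝ) + 1) * h) E : ℝ) ≤ lenT i z E := by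
  classical
  have h1 := layer ((E i).support.filter (fun v => Nv v ≤ z))
    (fun v => (E i v : ℝ) * Real.log (Nv v)) (fun v _ => term_nonneg i E v) hh J
  refine le_trans (le_of_eq ?_) h1
  congr 1
  refine Finset.sum_congr rfl fun j _ => ?_
  unfold cntE
  rw [Finset.filter_filter]

theorem layer_zY (i : Fin 3) {z Y : ℝ} (hzY : z ≤ Y) {h : ℝ} (hh : 0 < h) (J : ℕ)
    (E : Fin 3 → Idl K) :
    h * ∑ j ∈ Finset.range J, ((cntE i Y (((j : ℝ) + 1) * h) E : ℝ) -
      cntE i z (((j : ℝ) + 1) * h) E) ≤ lenT i Y E - lenT i z E := by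
  classical
  have h1 := layer ((E i).support.filter (fun v => Nv v ≤ Y ∧ ¬ Nv v ≤ z))
    (fun v => (E i v : ℝ) * Real.log (Nv v)) (fun v _ => term_nonneg i E v) hh J
  have h2 : lenT i Y E = lenT i z E + ∑ v ∈ (E i).support.filter (fun v => Nv v ≤ Y ∧ ¬ Nv v ≤ z),
      (E i v : ℝ) * Real.log (Nv v) := by
    unfold lenT
    rw [← Finset.sum_filter_add_sum_filter_not ((E i).support.filter (fun v => Nv v ≤ Y))
      (fun v => Nv v ≤ z), Finset.filter_filter, Finset.filter_filter]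
    congr 1
    refine Finset.sum_congr ?_ fun _ _ => rfl
    ext v
    simp only [Finset.mem_filter]
    constructor
    · rintro ⟨a, b, c⟩; exact ⟨a, c⟩
    · rintro ⟨a, c⟩; exact ⟨a, c.trans hzY, c⟩
  rw [h2, add_sub_cancel_left]
  refine le_trans (le_of_eq ?_) h1
  congr 1
  refine Finset.sum_congr rfl fun j _ => ?_
  have h3 : cntE i Y (((j : ℝ) + 1) * h) E = cntE i z (((j : ℝ) + 1) * h) E +
      #(((E i).support.filter (fun v => Nv v ≤ Y ∧ ¬ Nv v ≤ z)).filter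
        (fun v => ((j : ℝ) + 1) * h ≤ (E i v : ℝ) * Real.log (Nv v))) := by
    unfold cntE
    rw [← Finset.card_filter_add_card_filter_not (s := (E i).support.filter
      (fun v => Nv v ≤ Y ∧ ((j : ℝ) + 1) * h ≤ (E i v : ℝ) * Real.log (Nv v)))
      (fun v => Nv v ≤ z), Finset.filter_filter, Finset.filter_filter, Finset.filter_filter]
    congr 2
    · ext v
      simp only [Finset.mem_filter]
      constructor
      · rintro ⟨a, ⟨b, c⟩, d⟩; exact ⟨a, d, c⟩
      · rintro ⟨a, d, c⟩; exact ⟨a, ⟨d.trans hzY, c⟩, d⟩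
    · ext v
      simp only [Finset.mem_filter]
      constructor
      · rintro ⟨a, ⟨b, c⟩, d⟩; exact ⟨a, ⟨b, d⟩, c⟩
      · rintro ⟨a, ⟨b, d⟩, c⟩; exact ⟨a, ⟨b, c⟩, d⟩
  rw [h3]
  push_cast
  ring

/-- the geometric sum -/
theorem geoG {m : ℕ} (hm : 1 ≤ m) :
    1 - 2 / (m : ℝ) ≤ (1 / (m : ℝ)) *
      ∑ j ∈ Finset.range (m ^ 2), Real.exp (-(((j : ℝ) + 1) * (1 / m))) := by
  have hm0 : (0 : ℝ) < m := by exact_mod_cast hm
  have hm1 : (1 : ℝ) ≤ m := by exact_mod_cast hm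
  obtain ⟨η, hη⟩ : ∃ η : ℝ, η = 1 / (m : ℝ) := ⟨_, rfl⟩
  have hη0 : 0 < η := by rw [hη]; positivity
  have hη1 : η ≤ 1 := by rw [hη, div_le_one hm0]; exact hm1
  rw [← hη]
  obtain ⟨S, hS⟩ : ∃ S : ℝ, S = ∑ j ∈ Finset.range (m ^ 2), Real.exp (-(((j : ℝ) + 1) * η)) :=
    ⟨_, rfl⟩
  rw [← hS]
  have hS0 : 0 ≤ S := by
    rw [hS]
    exact Finset.sum_nonneg fun j _ => (Real.exp_pos _).le
  have h1 : (Real.exp η - 1) * S = 1 - Real.exp (-(m : ℝ)) := by
    have h2 : ∀ j ∈ Finset.range (m ^ 2), (Real.exp η - 1) * Real.exp (-(((j : ℝ) + 1) * η)) =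
        Real.exp (-((j : ℝ) * η)) - Real.exp (-(((j + 1 : ℕ) : ℝ) * η)) := by
      intro j _
      rw [sub_mul, ← Real.exp_add, one_mul]
      push_cast
      congr 2
      ring
    rw [hS, Finset.mul_sum, Finset.sum_congr rfl h2,
      Finset.sum_range_sub' (fun j : ℕ => Real.exp (-((j : ℝ) * η)))]
    have h3 : ((m ^ 2 : ℕ) : ℝ) * η = m := by
      rw [hη]
      push_cast
      field_simp
    rw [h3]
    simp
  have h2 : Real.exp η - 1 ≤ η * (1 + η) := by
    have := exp_le_quad hη0.le hη1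
    nlinarith
  have h3 : Real.exp (-(m : ℝ)) ≤ η := by
    have h4 := Real.add_one_le_exp (m : ℝ)
    rw [Real.exp_neg, hη, one_div]
    exact inv_anti₀ hm0 (by linarith)
  have h4 : 1 - η ≤ η * (1 + η) * S := by
    have := mul_le_mul_of_nonneg_right h2 hS0
    linarith
  have h5 : 2 / (m : ℝ) = 2 * η := by rw [hη]; ring
  rw [h5]
  have h6 : 0 ≤ η * S := mul_nonneg hη0.le hS0
  by_cases h7 : 1 - 2 * η ≤ η * S
  · exact h7
  · exfalso
    rw [not_le] at h7
    have h8 : η * (1 + η) * S < (1 - 2 * η) * (1 + η) := by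
      have : η * (1 + η) * S = η * S * (1 + η) := by ring
      rw [this]
      exact mul_lt_mul_of_pos_right h7 (by linarith)
    nlinarith

theorem pr_le_one {X z : ℝ} (hX : 1 ≤ X) (hz : 1 ≤ z) : pr X z ≤ 1 := by
  unfold pr
  have h1 : 0 ≤ Real.log X / (2 * Real.log z) :=
    div_nonneg (Real.log_nonneg hX) (mul_nonneg (by norm_num) (Real.log_nonneg hz))
  exact max_le zero_le_one (by linarith)

theorem pr_nonneg (X z : ℝ) : 0 ≤ pr X z := le_max_left _ _

theorem pr_mono {X z Y : ℝ} (hX : 1 ≤ X) (hz : 1 < z) (h : z ≤ Y) : pr X z ≤ pr X Y := by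
  unfold pr
  apply max_le_max le_rfl
  have h1 : 0 < Real.log z := Real.log_pos hz
  have h2 : Real.log z ≤ Real.log Y := Real.log_le_log (by linarith) h
  have h3 : Real.log X / (2 * Real.log Y) ≤ Real.log X / (2 * Real.log z) :=
    div_le_div_of_nonneg_left (Real.log_nonneg hX) (by positivity) (by linarith)
  linarith

/-- **The shares.** -/
theorem share {κ ε₁ ε₂ X : ℝ} {m : ℕ} (hm : 1 ≤ m) (hκ : 0 < κ) (hκ1 : κ ≤ 1) (hX : 3 ≤ X)
    (hε₁ : ε₁ ≤ 1 / (m : ℝ) ^ 2) (i : Fin 3) (E : Fin 3 → Idl K)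
    (hlaw : ∀ y τ : ℝ, 2 ≤ y → 0 ≤ τ →
      |(cntE i y τ E : ℝ) - pr X y * Real.exp (-(τ / lam κ X)) * s1 κ X| ≤ ε₁ * s1 κ X)
    (hlen : len (E i) ≤ (κ / 3 + 2 * ε₂) * X) {z : ℝ} (hz : 2 ≤ z) :
    pr X z * (κ / 3 * X) - 1 / m * X ≤ lenT i z E ∧
      lenT i z E ≤ pr X z * (κ / 3 * X) + (2 * ε₂ + 2 / m) * X := by
  have hm0 : (0 : ℝ) < m := by exact_mod_cast hm
  have hX0 : 0 < X := by linarith
  have hs := s1_pos hκ hX
  have hl := lam_pos hκ hX
  have hls : lam κ X * s1 κ X = κ / 3 * X := by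
    unfold lam
    field_simp
  obtain ⟨h, hh⟩ : ∃ h : ℝ, h = 1 / (m : ℝ) * lam κ X := ⟨_, rfl⟩
  have hh0 : 0 < h := by rw [hh]; positivity
  obtain ⟨S, hS⟩ : ∃ S : ℝ, S = ∑ j ∈ Finset.range (m ^ 2), Real.exp (-(((j : ℝ) + 1) * (1 / m))) :=
    ⟨_, rfl⟩
  have hG := geoG hm
  rw [← hS] at hG
  have hS0 : 0 ≤ S := by
    rw [hS]
    exact Finset.sum_nonneg fun j _ => (Real.exp_pos _).le
  have hexp : ∀ j : ℕ, Real.exp (-(((j : ℝ) + 1) * h / lam κ X)) =
      Real.exp (-(((j : ℝ) + 1) * (1 / m))) := by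
    intro j
    congr 2
    rw [hh]
    field_simp
  have hp0 := pr_nonneg X z
  have hp1 := pr_le_one (X := X) (z := z) (by linarith) (by linarith)
  have hq0 : 0 ≤ κ / 3 * X := by positivity
  have hq1 : κ / 3 * X ≤ X / 3 := by nlinarith
  have hmε : (m : ℝ) * ε₁ ≤ 1 / m := by
    have := mul_le_mul_of_nonneg_left hε₁ hm0.le
    refine this.trans (le_of_eq ?_)
    field_simp
  have hGz : pr X z * (1 / m * S) ≥ pr X z - 2 / m := by
    have h1 := mul_le_mul_of_nonneg_left hG hp0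
    have h2 : pr X z * (2 / m) ≤ 1 * (2 / m) := mul_le_mul_of_nonneg_right hp1 (by positivity)
    linarith
  constructor
  · have h1 := layer_z i z hh0 (m ^ 2) E
    refine le_trans ?_ h1
    have h2 : ∀ j ∈ Finset.range (m ^ 2),
        (pr X z * Real.exp (-(((j : ℝ) + 1) * (1 / m))) - ε₁) * s1 κ X ≤
        (cntE i z (((j : ℝ) + 1) * h) E : ℝ) := by
      intro j _
      have h3 := hlaw z (((j : ℝ) + 1) * h) hz (by positivity)
      rw [hexp j, abs_le] at h3
      linarith [h3.1]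
    have h3 := mul_le_mul_of_nonneg_left (Finset.sum_le_sum h2) hh0.le
    refine le_trans ?_ h3
    rw [← Finset.sum_mul, Finset.sum_sub_distrib, ← Finset.mul_sum, ← hS, Finset.sum_const,
      Finset.card_range, nsmul_eq_mul]
    have e : h * ((pr X z * S - ((m ^ 2 : ℕ) : ℝ) * ε₁) * s1 κ X) =
        (pr X z * (1 / m * S) - m * ε₁) * (κ / 3 * X) := by
      rw [← hls, hh]
      push_cast
      field_simp
    rw [e]
    have h4 : (pr X z - 2 / m - 1 / m) * (κ / 3 * X) ≤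
        (pr X z * (1 / m * S) - m * ε₁) * (κ / 3 * X) :=
      mul_le_mul_of_nonneg_right (by linarith) hq0
    refine le_trans ?_ h4
    have h5 : 1 / (m : ℝ) * (κ / 3 * X) ≤ 1 / m * (X / 3) :=
      mul_le_mul_of_nonneg_left hq1 (by positivity)
    linarith [show (pr X z - 2 / m - 1 / m) * (κ / 3 * X) =
      pr X z * (κ / 3 * X) - 3 * (1 / (m : ℝ) * (κ / 3 * X)) by ring,
      show 1 / (m : ℝ) * X = 3 * (1 / m * (X / 3)) by ring]
  · obtain ⟨Y, hY⟩ : ∃ Y : ℝ, Y = max z (X ^ m) := ⟨_, rfl⟩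
    have hzY : z ≤ Y := by rw [hY]; exact le_max_left _ _
    have hXY : X ^ m ≤ Y := by rw [hY]; exact le_max_right _ _
    have hY2 : 2 ≤ Y := hz.trans hzY
    have hpY : 1 - 1 / m ≤ pr X Y := by
      unfold pr
      refine le_trans ?_ (le_max_right _ _)
      have h1 : (m : ℝ) * Real.log X ≤ Real.log Y := by
        rw [← Real.log_pow]
        exact Real.log_le_log (by positivity) hXY
      have h2 : 0 < Real.log X := Real.log_pos (by linarith)
      have h3 : 0 < Real.log Y := Real.log_pos (by linarith)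
      have h4 : Real.log X / (2 * Real.log Y) ≤ 1 / m := by
        rw [div_le_div_iff₀ (by positivity) hm0]
        nlinarith
      linarith
    have hpz := pr_mono (X := X) (by linarith) (by linarith : (1 : ℝ) < z) hzY
    have h1 := layer_zY i hzY hh0 (m ^ 2) E
    have h2 : ∀ j ∈ Finset.range (m ^ 2),
        ((pr X Y - pr X z) * Real.exp (-(((j : ℝ) + 1) * (1 / m))) - 2 * ε₁) * s1 κ X ≤
        (cntE i Y (((j : ℝ) + 1) * h) E : ℝ) - cntE i z (((j : ℝ) + 1) * h) E := by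
      intro j _
      have h3 := hlaw z (((j : ℝ) + 1) * h) hz (by positivity)
      have h4 := hlaw Y (((j : ℝ) + 1) * h) hY2 (by positivity)
      rw [hexp j, abs_le] at h3 h4
      linarith [h3.2, h4.1]
    have h3 := (mul_le_mul_of_nonneg_left (Finset.sum_le_sum h2) hh0.le).trans h1
    rw [← Finset.sum_mul, Finset.sum_sub_distrib, ← Finset.mul_sum, ← hS, Finset.sum_const,
      Finset.card_range, nsmul_eq_mul] at h3
    have e : h * (((pr X Y - pr X z) * S - ((m ^ 2 : ℕ) : ℝ) * (2 * ε₁)) * s1 κ X) =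
        ((pr X Y - pr X z) * (1 / m * S) - 2 * (m * ε₁)) * (κ / 3 * X) := by
      rw [← hls, hh]
      push_cast
      field_simp
    rw [e] at h3
    have hpY1 := pr_le_one (X := X) (z := Y) (by linarith) (by linarith)
    have hGY : (pr X Y - pr X z) * (1 / m * S) ≥ pr X Y - pr X z - 2 / m := by
      have g1 := mul_le_mul_of_nonneg_left hG (by linarith : 0 ≤ pr X Y - pr X z)
      have g2 : (pr X Y - pr X z) * (2 / m) ≤ 1 * (2 / m) :=
        mul_le_mul_of_nonneg_right (by linarith) (by positivity)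
      linarith
    have h4 : (1 - pr X z - 5 * (1 / m)) * (κ / 3 * X) ≤
        ((pr X Y - pr X z) * (1 / m * S) - 2 * (m * ε₁)) * (κ / 3 * X) :=
      mul_le_mul_of_nonneg_right (by
        have : 2 / (m : ℝ) = 2 * (1 / m) := by ring
        linarith) hq0
    have h5 := lenT_le i Y E
    have h6 : 1 / (m : ℝ) * (κ / 3 * X) ≤ 1 / m * (X / 3) :=
      mul_le_mul_of_nonneg_left hq1 (by positivity)
    have h7 : 0 ≤ 1 / (m : ℝ) * X := by positivity
    linarith [show (1 - pr X z - 5 * (1 / (m : ℝ))) * (κ / 3 * X) =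
      κ / 3 * X - pr X z * (κ / 3 * X) - 5 * (1 / (m : ℝ) * (κ / 3 * X)) by ring,
      show (κ / 3 + 2 * ε₂) * X = κ / 3 * X + 2 * ε₂ * X by ring,
      show (2 * ε₂ + 2 / (m : ℝ)) * X = 2 * ε₂ * X + 2 * (1 / m * X) by ring,
      show 1 / (m : ℝ) * (X / 3) = (1 / 3) * (1 / m * X) by ring]

/-- the shares of a point -/
def Share (κ ε X : ℝ) (x : K) : Prop :=
  ∀ l, ∀ z : ℝ, 2 ≤ z → |lenT l z (Ef x) - pr X z * (κ / 3 * X)| ≤ ε * X

/-- the anatomy -/
structure Anat (κ ε X : ℝ) (x : K) : Prop where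
  typ : Typ κ ε X x
  law : Law κ ε X x
  share : Share κ ε X x

theorem Law.mono {κ ε ε' X : ℝ} (h : ε ≤ ε') {x : K} (hl : Law κ ε X x) : Law κ ε' X x := by
  intro l y τ hy hτ
  exact (hl l y τ hy hτ).trans (mul_le_mul_of_nonneg_right h (s1_nonneg _ _))

theorem Typ.mono {κ ε ε' X : ℝ} (hX : 0 ≤ X) (h : ε ≤ ε') {x : K} (ht : Typ κ ε X x) :
    Typ κ ε' X x := by
  obtain ⟨h1, h2, h3, h4, h5, h6⟩ := ht
  have hm : ε * X ≤ ε' * X := mul_le_mul_of_nonneg_right h hX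
  refine ⟨?_, h2.trans hm, h3.trans hm, fun l => (h4 l).trans hm, fun l => (h5 l).trans hm,
    fun l y hy => (h6 l y hy).trans (mul_le_mul_of_nonneg_right h (s1_nonneg _ _))⟩
  refine le_trans ?_ h1
  exact mul_le_mul_of_nonneg_right (by linarith) hX

theorem rare_anat (κ C₀ ε : ℝ) (hκ : 0 < κ) (hκ1 : κ < 1) (hC₀ : 0 ≤ C₀) (hε : 0 < ε) :
    Rare κ (fun X (x : K) => Cand κ C₀ X x ∧ ¬ Anat κ ε X x) := by
  obtain ⟨m, hm⟩ := exists_nat_gt (max 1 (4 / ε))
  have hm1' : (1 : ℝ) < m := (le_max_left _ _).trans_lt hm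
  have hm0 : (0 : ℝ) < m := by linarith
  have hm1 : 1 ≤ m := by exact_mod_cast hm1'.le
  have hmε : 1 / (m : ℝ) ≤ ε / 4 := by
    have h1 : 4 / ε < m := (le_max_right _ _).trans_lt hm
    rw [div_lt_iff₀ hε] at h1
    rw [div_le_iff₀ hm0]
    linarith
  obtain ⟨ε₁, hε₁⟩ : ∃ ε₁ : ℝ, ε₁ = min ε (1 / (m : ℝ) ^ 2) := ⟨_, rfl⟩
  have hε₁0 : 0 < ε₁ := by rw [hε₁]; exact lt_min hε (by positivity)
  have hε₁a : ε₁ ≤ ε := by rw [hε₁]; exact min_le_left _ _
  have hε₁b : ε₁ ≤ 1 / (m : ℝ) ^ 2 := by rw [hε₁]; exact min_le_right _ _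
  have h1 := rare_law (K := K) κ C₀ ε₁ hκ hκ1 hC₀ hε₁0
  have h2 := rare_typ (K := K) κ C₀ (ε / 4) hκ hκ1 hC₀ (by positivity)
  refine (h1.or hκ h2).mono ?_
  filter_upwards [eventually_ge_atTop (3 : ℝ)] with X hX3 x
  rintro ⟨hc, hn⟩
  by_contra hcon
  rw [not_or] at hcon
  obtain ⟨c1, c2⟩ := hcon
  have hX0 : 0 < X := by linarith
  have hlaw : Law κ ε₁ X x := by
    by_contra h
    exact c1 ⟨hc, h⟩
  have htyp : Typ κ (ε / 4) X x := by
    by_contra h
    exact c2 ⟨hc, h⟩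
  apply hn
  refine ⟨htyp.mono hX0.le (by linarith), hlaw.mono hε₁a, fun l z hz => ?_⟩
  obtain ⟨-, -, -, t4, t5, -⟩ := id htyp
  have hlen : len (Ef x l) ≤ (κ / 3 + 2 * (ε / 4)) * X := by
    have e := len_shr (Pf x l)
    have e' : len (Ef x l) = len (Pf x l) - rl (Pf x l) := by
      have : Ef x l = shr (Pf x l) := rfl
      rw [this]
      linarith
    rw [e']
    have g4 := abs_le.1 (t4 l)
    have g5 := abs_le.1 (t5 l)
    linarith [show (κ / 3 + 2 * (ε / 4)) * X = κ / 3 * X + 2 * (ε / 4 * X) by ring,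
      show (1 - κ / 3) * X = X - κ / 3 * X by ring]
  obtain ⟨s1, s2⟩ := share hm1 hκ hκ1.le hX3 hε₁b l (Ef x) (hlaw l) hlen hz
  rw [abs_le]
  have hmX : 1 / (m : ℝ) * X ≤ ε / 4 * X := mul_le_mul_of_nonneg_right hmε hX0.le
  have hεX : 0 < ε * X := by positivity
  constructor
  · linarith [show ε / 4 * X = ε * X / 4 by ring]
  · linarith [show (2 * (ε / 4) + 2 / (m : ℝ)) * X = ε * X / 2 + 2 * (1 / m * X) by ring,
      show ε / 4 * X = ε * X / 4 by ring]

end Pool.Agent.Run7.h585.NF
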