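import Pool.Agent.Run7.h585.NF.Rare

/-!
# The typical points with small radical (helper585)
-/

set_option autoImplicit false
set_option linter.unusedSectionVars false

namespace Pool.Agent.Run7.h585.NF

open NumberField IsDedekindDomain Finset Filter Topology Pool.Agent.H691R3 Pool.Agent.W223.AK
open Pool.Agent.N906.RS
open Pool.Agent.N776.RS (CellB tl_bounds shr upp up_shr_le cop_shr tl_shr tl_up tr_le_tl tl_nonneg tr_nonneg)

variable {K : Type} [Field K] [NumberField K]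

/-- `u X = √(3 μ) / κ s` -/
theorem uX {μ κ X : ℝ} (hμ : 0 ≤ μ) (hκ : 0 < κ) (hX : 1 < X) :
    uu μ κ X * X = √(3 * μ) / κ * s1 κ X := by
  have hX0 : 0 < X := by linarith
  have hl : 0 < Real.log X := Real.log_pos hX
  have e2 : 0 ≤ uu μ κ X * X := mul_nonneg (Real.sqrt_nonneg _) hX0.le
  have e3 : 0 ≤ √(3 * μ) / κ * s1 κ X := mul_nonneg (by positivity) (s1_nonneg _ _)
  rw [← sq_eq_sq₀ e2 e3, mul_pow, mul_pow, div_pow, uu, s1, Real.sq_sqrt (by positivity),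
    Real.sq_sqrt (by positivity), Real.sq_sqrt (by positivity)]
  field_simp

/-- the small points -/
theorem rare_ht (κ C₀ ε : ℝ) (hκ : 0 < κ) (hκ1 : κ < 1) (hC₀ : 0 ≤ C₀) (hε : 0 < ε) :
    Rare κ (fun X (x : K) => Cand κ C₀ X x ∧ ht x < (1 - ε) * X) := by
  obtain ⟨ε', hε'⟩ : ∃ ε' : ℝ, ε' = min ε (1 / 2) := ⟨_, rfl⟩
  have hε0 : 0 < ε' := by rw [hε']; exact lt_min hε (by norm_num)
  have hε1 : ε' ≤ 1 / 2 := by rw [hε']; exact min_le_right _ _
  have hε2 : ε' ≤ ε := by rw [hε']; exact min_le_left _ _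
  obtain ⟨X₁, hX₁, hup⟩ := up_all K κ 1 C₀ hκ hκ1 one_pos hC₀
  have hld := lin_dom (2 * √(24 * κ)) ((2 - κ) * ε') (mul_pos (by linarith) hε0)
  obtain ⟨X₂, hX₂⟩ := eventually_atTop.1 hld
  refine ⟨6, max (max (2 * X₁) (2 * X₂)) 3, by norm_num, le_max_right _ _, fun X F hX hF => ?_⟩
  have hXa : 2 * X₁ ≤ X := ((le_max_left _ _).trans (le_max_left _ _)).trans hX
  have hXb : 2 * X₂ ≤ X := ((le_max_right _ _).trans (le_max_left _ _)).trans hX
  have hX3 : 3 ≤ X := (le_max_right _ _).trans hX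
  obtain ⟨W, hW⟩ : ∃ W : ℝ, W = (1 - ε') * X := ⟨_, rfl⟩
  have hWX : X / 2 ≤ W := by rw [hW]; nlinarith
  have hWX2 : W ≤ X := by rw [hW]; nlinarith
  have h5 := hup W F (by linarith) (by
    intro x hx
    obtain ⟨⟨g1, g2, g3⟩, g4⟩ := hF x hx
    refine ⟨g1, ?_, Pf x, Pf_spec g1, g3⟩
    rw [hW]
    have : (1 - ε) * X ≤ (1 - ε') * X := mul_le_mul_of_nonneg_right (by linarith) (by linarith)
    linarith)
  refine h5.trans ?_
  apply Real.exp_le_exp.2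
  have h6 := hX₂ W (by linarith)
  have e1 : √(24 * κ * W / Real.log W) = √(24 * κ) * √(W / Real.log W) := by
    rw [← Real.sqrt_mul (by positivity)]
    congr 1
    ring
  rw [e1]
  have h9 : (6 - (6 : ℝ)) * s1 κ X = 0 := by ring
  rw [h9]
  have h7 : (2 - κ) * ε' * W ≤ (2 - κ) * ε' * X :=
    mul_le_mul_of_nonneg_left hWX2 (mul_pos (by linarith) hε0).le
  have h8 : (2 - κ) * W + (2 - κ) * ε' * X = (2 - κ) * X := by rw [hW]; ring
  linarith

/-- the bad points -/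
theorem rare_bad (κ C₀ : ℝ) (hκ : 0 < κ) (hκ1 : κ < 1) :
    Rare κ (fun X (x : K) => Cand κ C₀ X x ∧ ¬ Good κ C₀ X x) := by
  obtain ⟨lam, hlam⟩ : ∃ lam : ℝ, lam = 3 - κ - (1 - κ) / 2 := ⟨_, rfl⟩
  obtain ⟨D, hD, hbig⟩ := big K lam ((1 - κ) / 4) (by rw [hlam]; linarith) (by rw [hlam]; linarith)
    (by linarith)
  have hD2 : ∀ᶠ X : ℝ in atTop, 4 * Real.log D / (1 - κ) ≤ X := eventually_ge_atTop _
  obtain ⟨X₁, hX₁⟩ := eventually_atTop.1 hD2
  refine ⟨6, max X₁ 3, by norm_num, le_max_right _ _, fun X F hX hF => ?_⟩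
  have hXa := hX₁ X ((le_max_left _ _).trans hX)
  have hX3 : 3 ≤ X := (le_max_right _ _).trans hX
  have h5 := hbig X F (by linarith) (by
    intro x hx
    obtain ⟨⟨g1, g2, g3⟩, g4⟩ := hF x hx
    refine ⟨g1, g2, Pf x, Pf_spec g1, ?_⟩
    by_contra h
    rw [not_le] at h
    apply g4
    refine ⟨g1, g2, g3, ?_⟩
    rw [← hlam]
    exact h.le)
  refine h5.trans ?_
  have h1κ : 0 < 1 - κ := by linarith
  rw [div_le_iff₀ h1κ] at hXa
  calc D * Real.exp ((lam - 1 + (1 - κ) / 4) * X)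
      = Real.exp (Real.log D) * Real.exp ((lam - 1 + (1 - κ) / 4) * X) := by
        rw [Real.exp_log hD]
    _ = Real.exp (Real.log D + (lam - 1 + (1 - κ) / 4) * X) := (Real.exp_add _ _).symm
    _ ≤ _ := by
        apply Real.exp_le_exp.2
        rw [hlam]
        have h9 : (6 - (6 : ℝ)) * s1 κ X = 0 := by ring
        rw [h9]
        linarith [show (3 - κ - (1 - κ) / 2 - 1 + (1 - κ) / 4) * X =
          (2 - κ) * X - (1 - κ) / 4 * X by ring, show X * (1 - κ) = (1 - κ) * X by ring]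

theorem gen_one (ε : ℝ) (hε : 0 < ε) :
    ∃ u₀ : ℝ, 0 < u₀ ∧ u₀ < 1 / 2 ∧ ∀ u : ℝ, 0 < u → u < u₀ → ∀ F : Finset (Fin 3 → Idl K),
      (∀ E ∈ F, PC E) →
      ∑ E ∈ F, (1 : ℝ) * Real.exp (-(u * tl E) - tr E) ≤
        Real.exp ((3 + ε) / (u * Real.log (1 / u))) := by
  obtain ⟨u₀, hu₀, hu₀', H⟩ := gup_all K 1 0 (ε / 3) one_pos le_rfl (by norm_num) (by positivity)
  refine ⟨u₀, hu₀, hu₀', fun u hu huu F hF => ?_⟩
  have h := H u hu huu F hF
  have e1 : ∑ E ∈ F, (1 : ℝ) * Real.exp (-(u * tl E) - tr E) =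
      ∑ E ∈ F, (1 : ℝ) ^ om E * Real.exp (-(u * tl E) - (1 - 0 * u) * tr E) := by
    refine Finset.sum_congr rfl fun E _ => ?_
    rw [one_pow]
    congr 2
    ring
  rw [e1]
  refine h.trans (le_of_eq ?_)
  congr 1
  ring

theorem sqrt36 : √(12 * 3 : ℝ) = 6 := by
  rw [show (12 * 3 : ℝ) = 6 ^ 2 by norm_num]
  exact Real.sqrt_sq (by norm_num)

theorem sqrt9 : √(3 * 3 : ℝ) = 3 := by
  rw [show (3 * 3 : ℝ) = 3 ^ 2 by norm_num]
  exact Real.sqrt_sq (by norm_num)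

/-- the points which are close to `0`, `-1` or `∞` at an infinite place -/
theorem rare_ar (κ C₀ ε : ℝ) (hκ : 0 < κ) (hκ1 : κ < 1) (hC₀ : 0 ≤ C₀) (hε : 0 < ε) :
    Rare κ (fun X (x : K) => Good κ C₀ X x ∧ ε * X < ar x) := by
  have hcc : √(12 * 3) - ε * (3 / κ) < 6 := by
    rw [sqrt36]
    have : 0 < ε * (3 / κ) := by positivity
    linarith
  refine (cher (K := K) (fun _ _ => 1) (fun _ _ => zero_le_one) 3 (by norm_num)
    (fun ε hε => gen_one ε hε) κ C₀ (ε * (3 / κ)) hκ hκ1 hC₀ hcc).mono ?_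
  filter_upwards [eventually_ge_atTop (3 : ℝ)] with X hX3 x
  rintro ⟨h1, h2⟩
  refine ⟨h1, ?_⟩
  rw [one_mul]
  apply Real.exp_le_exp.2
  have h3 := uX (μ := 3) (κ := κ) (X := X) (by norm_num) hκ (by linarith)
  rw [sqrt9] at h3
  have hu : 0 ≤ uu 3 κ X := Real.sqrt_nonneg _
  calc ε * (3 / κ) * s1 κ X = ε * (uu 3 κ X * X) := by rw [h3]; ring
    _ = uu 3 κ X * (ε * X) := by ring
    _ ≤ _ := mul_le_mul_of_nonneg_left h2.le hu

/-- the points with a large radical of the squareful parts -/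
theorem rare_rad (κ C₀ ε : ℝ) (hκ : 0 < κ) (hκ1 : κ < 1) (hC₀ : 0 ≤ C₀) (hε : 0 < ε) :
    Rare κ (fun X (x : K) => Good κ C₀ X x ∧ ε * X < tr (Ef x)) := by
  have hcc : √(12 * 3) - ε / 2 * (3 / κ) < 6 := by
    rw [sqrt36]
    have : 0 < ε / 2 * (3 / κ) := by positivity
    linarith
  refine (cher (K := K) (fun u E => Real.exp (u / 2 * tr E)) (fun _ _ => (Real.exp_pos _).le) 3
    (by norm_num) (fun ε hε => gen_rad (gup_all K) ε hε) κ C₀ (ε / 2 * (3 / κ)) hκ hκ1 hC₀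
      hcc).mono ?_
  filter_upwards [eventually_ge_atTop (3 : ℝ)] with X hX3 x
  rintro ⟨h1, h2⟩
  refine ⟨h1, ?_⟩
  have hu : 0 ≤ uu 3 κ X := Real.sqrt_nonneg _
  rw [← Real.exp_add]
  apply Real.exp_le_exp.2
  have h3 := uX (μ := 3) (κ := κ) (X := X) (by norm_num) hκ (by linarith)
  rw [sqrt9] at h3
  have h4 : 0 ≤ uu 3 κ X * ar x := mul_nonneg hu (ar_nonneg x)
  calc ε / 2 * (3 / κ) * s1 κ X = ε / 2 * (uu 3 κ X * X) := by rw [h3]; ring
    _ = uu 3 κ X / 2 * (ε * X) := by ring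
    _ ≤ uu 3 κ X / 2 * tr (Ef x) := mul_le_mul_of_nonneg_left h2.le (by positivity)
    _ ≤ _ := by linarith

/-- the points for which one of the three ideals has a large squareful part -/
theorem rare_gain (l₀ : Fin 3) (κ C₀ ε : ℝ) (hκ : 0 < κ) (hκ1 : κ < 1) (hC₀ : 0 ≤ C₀)
    (hε : 0 < ε) :
    Rare κ (fun X (x : K) => Good κ C₀ X x ∧ (κ / 3 + ε) * X < len (Ef x l₀)) := by
  obtain ⟨η, hη⟩ : ∃ η : ℝ, η = min (1 / 2) ε := ⟨_, rfl⟩
  have hη0 : 0 < η := by rw [hη]; exact lt_min (by norm_num) hε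
  have hη1 : η ≤ 1 / 2 := by rw [hη]; exact min_le_left _ _
  have hη2 : η ≤ ε := by rw [hη]; exact min_le_right _ _
  have hη' : 0 < 1 - η := by linarith
  obtain ⟨μ, hμ⟩ : ∃ μ : ℝ, μ = 2 + 1 / (1 - η) := ⟨_, rfl⟩
  have hμ0 : 0 < μ := by rw [hμ]; positivity
  obtain ⟨ρ, hρ⟩ : ∃ ρ : ℝ, ρ = √(3 * μ) := ⟨_, rfl⟩
  have hμ3 : 3 * μ = 9 + 3 * (η / (1 - η)) := by
    rw [hμ]
    field_simp
    ring
  have hz : η / (1 - η) ≤ 2 * η := by
    rw [div_le_iff₀ hη']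
    nlinarith
  have hz0 : 0 ≤ η / (1 - η) := by positivity
  have hz2 : η / (1 - η) - η ≤ 2 * η ^ 2 := by
    have : η / (1 - η) - η = η * (η / (1 - η)) := by field_simp; ring
    rw [this]
    nlinarith
  have hρ3 : 3 ≤ ρ := by
    rw [hρ]
    apply Real.le_sqrt_of_sq_le
    rw [hμ3]
    linarith
  have hρu : ρ ≤ 3 + η / (1 - η) / 2 := by
    rw [hρ]
    rw [Real.sqrt_le_left (by positivity)]
    rw [hμ3]
    nlinarith [sq_nonneg (η / (1 - η))]
  have h12 : √(12 * μ) = 2 * ρ := by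
    rw [hρ, show (12 * μ : ℝ) = 2 ^ 2 * (3 * μ) by ring, Real.sqrt_mul (by norm_num),
      Real.sqrt_sq (by norm_num)]
  have hcc : √(12 * μ) - η * (κ / 3 + ε) * (ρ / κ) < 6 := by
    rw [h12]
    have e1 : η * (κ / 3 + ε) * (ρ / κ) = η * ρ / 3 + η * (ε / κ) * ρ := by
      field_simp
    rw [e1]
    have h1 : ε ≤ ε / κ := by
      rw [le_div_iff₀ hκ]
      nlinarith
    have h2 : η * ε * 3 ≤ η * (ε / κ) * ρ := by
      apply mul_le_mul _ hρ3 (by norm_num) (by positivity)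
      exact mul_le_mul_of_nonneg_left h1 hη0.le
    have h3 : η * 3 / 3 ≤ η * ρ / 3 := by
      have := mul_le_mul_of_nonneg_left hρ3 hη0.le
      linarith
    have h4 : η ^ 2 ≤ η * ε := by nlinarith
    have h5 : 0 < η * ε := by positivity
    nlinarith
  refine (cher (K := K) (fun u E => Real.exp (η * u * len (E l₀))) (fun _ _ => (Real.exp_pos _).le)
    μ hμ0 (fun ε hε => ?_) κ C₀ (η * (κ / 3 + ε) * (ρ / κ)) hκ hκ1 hC₀ hcc).mono ?_
  · rw [hμ]
    exact gen_gain (pit_all K) (cnt_all K) l₀ η ε hη0.le hη1 hε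
  filter_upwards [eventually_ge_atTop (3 : ℝ)] with X hX3 x
  rintro ⟨h1, h2⟩
  refine ⟨h1, ?_⟩
  have hu : 0 ≤ uu μ κ X := Real.sqrt_nonneg _
  rw [← Real.exp_add]
  apply Real.exp_le_exp.2
  have h3 := uX (μ := μ) (κ := κ) (X := X) hμ0.le hκ (by linarith)
  rw [← hρ] at h3
  have h4 : 0 ≤ uu μ κ X * ar x := mul_nonneg hu (ar_nonneg x)
  calc η * (κ / 3 + ε) * (ρ / κ) * s1 κ X = η * (κ / 3 + ε) * (uu μ κ X * X) := by rw [h3]; ring
    _ = η * uu μ κ X * ((κ / 3 + ε) * X) := by ring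
    _ ≤ η * uu μ κ X * len (Ef x l₀) := mul_le_mul_of_nonneg_left h2.le (by positivity)
    _ ≤ _ := by linarith

/-- the typical points -/
def Typ (κ ε X : ℝ) (x : K) : Prop :=
  (1 - ε) * X ≤ ht x ∧ ar x ≤ ε * X ∧ tr (Ef x) ≤ ε * X ∧
  (∀ l, |len (Pf x l) - X| ≤ ε * X) ∧
  (∀ l, |rl (Pf x l) - (1 - κ / 3) * X| ≤ ε * X) ∧
  (∀ l, ∀ y : ℝ, 2 ≤ y → |(cntT l y (Ef x) : ℝ) - pr X y * s1 κ X| ≤ ε * s1 κ X)

/-- **The atypical points are rare.** -/
theorem rare_typ (κ C₀ ε : ℝ) (hκ : 0 < κ) (hκ1 : κ < 1) (hC₀ : 0 ≤ C₀) (hε : 0 < ε) :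
    Rare κ (fun X (x : K) => Cand κ C₀ X x ∧ ¬ Typ κ ε X x) := by
  obtain ⟨ε', hε'⟩ : ∃ ε' : ℝ, ε' = min (ε / 20) (1 / 2) := ⟨_, rfl⟩
  have hε'0 : 0 < ε' := by rw [hε']; exact lt_min (by positivity) (by norm_num)
  have hε'1 : ε' ≤ ε / 20 := by rw [hε']; exact min_le_left _ _
  have hε'2 : ε' ≤ 1 / 2 := by rw [hε']; exact min_le_right _ _
  obtain ⟨r, hr⟩ : ∃ r : ℝ, r = (Fintype.card (InfinitePlace K) : ℝ) := ⟨_, rfl⟩
  have hr0 : 0 ≤ r := by rw [hr]; exact Nat.cast_nonneg _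
  have h1 := rare_ht (K := K) κ C₀ ε' hκ hκ1 hC₀ hε'0
  have h2 := rare_bad (K := K) κ C₀ hκ hκ1
  have h3 := rare_ar (K := K) κ C₀ ε' hκ hκ1 hC₀ hε'0
  have h4 := rare_rad (K := K) κ C₀ ε' hκ hκ1 hC₀ hε'0
  have h5 := Rare.fin hκ 3 (P := fun k X (x : K) => ∃ l : Fin 3, l.val = k ∧ (Good κ C₀ X x ∧
    (κ / 3 + ε') * X < len (Ef x l))) (fun k hk => by
      refine (rare_gain (K := K) ⟨k, hk⟩ κ C₀ ε' hκ hκ1 hC₀ hε'0).mono
        (Eventually.of_forall fun X x => ?_)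
      rintro ⟨l, rfl, h⟩
      exact h)
  have h6 := Rare.fin hκ 3 (P := fun k X (x : K) => ∃ l : Fin 3, l.val = k ∧ (Good κ C₀ X x ∧
    ∃ y : ℝ, 2 ≤ y ∧ ε' * s1 κ X < |(cntT l y (Ef x) : ℝ) - pr X y * s1 κ X|)) (fun k hk => by
      refine (rare_cnt (K := K) ⟨k, hk⟩ κ C₀ ε' hκ hκ1 hC₀ hε'0 (by linarith)).mono
        (Eventually.of_forall fun X x => ?_)
      rintro ⟨l, rfl, h⟩
      exact h)
  refine (((((h1.or hκ h2).or hκ h3).or hκ h4).or hκ h5).or hκ h6).mono ?_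
  filter_upwards [eventually_ge_atTop (3 : ℝ), eventually_ge_atTop ((6 * r + C₀ + 2 * r) / ε')]
    with X hX3 hXr x
  rintro ⟨hcand, htyp⟩
  by_contra hcon
  rw [not_or, not_or, not_or, not_or, not_or] at hcon
  obtain ⟨⟨⟨⟨⟨c1, c2⟩, c3⟩, c4⟩, c5⟩, c6⟩ := hcon
  have hX0 : 0 < X := by linarith
  have hgood : Good κ C₀ X x := by
    by_contra h
    exact c2 ⟨hcand, h⟩
  have hs := s1_nonneg κ X
  obtain ⟨g1, g2, g3, g4⟩ := id hgood
  have hP := Pf_spec g1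
  rw [div_le_iff₀ hε'0] at hXr
  have t1 : (1 - ε') * X ≤ ht x := by
    by_contra h
    exact c1 ⟨hcand, not_le.1 h⟩
  have t3 : ar x ≤ ε' * X := by
    by_contra h
    exact c3 ⟨hgood, not_le.1 h⟩
  have t4 : tr (Ef x) ≤ ε' * X := by
    by_contra h
    exact c4 ⟨hgood, not_le.1 h⟩
  have t5 : ∀ l, len (Ef x l) ≤ (κ / 3 + ε') * X := by
    intro l
    by_contra h
    exact c5 ⟨l.val, l.isLt, l, rfl, hgood, not_le.1 h⟩
  have t6 : ∀ l, ∀ y : ℝ, 2 ≤ y →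
      |(cntT l y (Ef x) : ℝ) - pr X y * s1 κ X| ≤ ε' * s1 κ X := by
    intro l y hy
    by_contra h
    exact c6 ⟨l.val, l.isLt, l, rfl, hgood, y, hy, not_le.1 h⟩
  -- the places
  have hτ' : ∀ (w : InfinitePlace K), ∃ t : Fin 3, ∀ l,
      lm (Sum.inl w : Pl K) l x ≤ lm (Sum.inl w) t x := by
    intro w
    obtain ⟨t, -, ht⟩ := Finset.exists_max_image (univ : Finset (Fin 3))
      (fun l => lm (Sum.inl w : Pl K) l x) ⟨0, mem_univ _⟩
    exact ⟨t, fun l => ht l (mem_univ l)⟩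
  choose τ hτ using hτ'
  have har := ar_eq hτ
  -- sizes of the ideals
  have hlen : ∀ l, len (Pf x l) = ht x - ∑ w : InfinitePlace K, lm (Sum.inl w : Pl K) l x := by
    intro l
    have h3 := sum_lm g1 hP l
    rw [sum_Spl, Finset.sum_empty, add_zero] at h3
    linarith
  have hlow : ∀ l, -(2 * r) ≤ ∑ w : InfinitePlace K, lm (Sum.inl w : Pl K) l x := by
    intro l
    have h3 : ∑ _w : InfinitePlace K, (-2 : ℝ) ≤ ∑ w : InfinitePlace K, lm (Sum.inl w : Pl K) l x := by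
      refine Finset.sum_le_sum fun w _ => ?_
      have h4 := lm_ge g1 (Sum.inl w : Pl K) l
      have h5 := mt_le_two (Sum.inl w : Pl K)
      have h6 := mt_pos (Sum.inl w : Pl K)
      have h7 := Real.log_two_lt_d9
      have h8 : 0 < Real.log 2 := Real.log_pos (by norm_num)
      nlinarith
    rw [Finset.sum_const, nsmul_eq_mul, Finset.card_univ, ← hr] at h3
    linarith
  have hupp : ∀ l, ∑ w : InfinitePlace K, lm (Sum.inl w : Pl K) l x ≤ ε' * X := by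
    intro l
    refine le_trans ?_ (har ▸ t3)
    exact Finset.sum_le_sum fun w _ => hτ w l
  have t7 : ∀ l, len (Pf x l) ≤ X + 2 * r ∧ (1 - 2 * ε') * X ≤ len (Pf x l) := by
    intro l
    rw [hlen l]
    constructor
    · linarith [hlow l]
    · linarith [hupp l]
  -- the gains
  have hgain : κ * ht x - ar x - 6 * r - C₀ ≤ tl (Ef x) := by
    obtain ⟨b1, b2⟩ := tl_bounds g1 hP hτ
    rw [← har, ← hr] at b1
    have e1 : tl (Pf x) = tl (Ef x) + tr (Pf x) := tl_shr (Pf x)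
    linarith
  have t8 : ∀ l, (κ / 3 - 5 * ε') * X ≤ len (Ef x l) := by
    intro l
    have e1 : tl (Ef x) = len (Ef x 0) + len (Ef x 1) + len (Ef x 2) := by
      unfold tl
      rw [Fin.sum_univ_three]
    have hκh : κ * ((1 - ε') * X) ≤ κ * ht x := mul_le_mul_of_nonneg_left t1 hκ.le
    have hκε : κ * ε' * X ≤ 1 * ε' * X := by
      apply mul_le_mul_of_nonneg_right _ hX0.le
      exact mul_le_mul_of_nonneg_right hκ1.le hε'0.le
    have q0 := t5 0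
    have q1 := t5 1
    have q2 := t5 2
    have h3 : ∀ l : Fin 3, l = 0 ∨ l = 1 ∨ l = 2 := by decide
    rcases h3 l with rfl | rfl | rfl <;> nlinarith
  have hrl : ∀ l, rl (Pf x l) = len (Pf x l) - len (Ef x l) := by
    intro l
    have := Pool.Agent.N776.RS.len_shr (Pf x l)
    have e : len (Ef x l) = len (shr (Pf x l)) := rfl
    linarith
  have hεX : ε' * X ≤ ε / 20 * X := mul_le_mul_of_nonneg_right hε'1 hX0.le
  have h2r : 2 * r ≤ ε' * X := by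
    have : X * ε' = ε' * X := mul_comm _ _
    linarith
  apply htyp
  refine ⟨?_, ?_, ?_, fun l => ?_, fun l => ?_, fun l y hy => ?_⟩
  · linarith [show (1 - ε') * X = X - ε' * X by ring, show (1 - ε) * X = X - ε * X by ring,
      show ε / 20 * X ≤ ε * X by nlinarith]
  · have : ε / 20 * X ≤ ε * X := by nlinarith
    linarith
  · have : ε / 20 * X ≤ ε * X := by nlinarith
    linarith
  · obtain ⟨k1, k2⟩ := t7 l
    rw [abs_le]
    constructor
    · nlinarith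
    · nlinarith
  · obtain ⟨k1, k2⟩ := t7 l
    have k3 := t5 l
    have k4 := t8 l
    rw [hrl l, abs_le]
    constructor
    · nlinarith
    · nlinarith
  · refine (t6 l y hy).trans ?_
    exact mul_le_mul_of_nonneg_right (by linarith) hs

end Pool.Agent.Run7.h585.NF
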